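import Pool.Agent.MP77a250.Defs

set_option autoImplicit false

open CategoryTheory Limits AlgebraicGeometry TopologicalSpace

namespace Pool.Agent.MP77a250

open Scheme.IdealSheafData

lemma comap_ideal_top {X Y : Scheme.{0}} [IsAffine X] [IsAffine Y] (I : Y.IdealSheafData)
    (f : X ⟶ Y) :
    (I.comap f).ideal ⟨⊤, isAffineOpen_top X⟩ =
      (I.ideal ⟨⊤, isAffineOpen_top Y⟩).map f.appTop.hom := by
  apply le_antisymm
  · have h := (le_map_iff_comap_le (f := f) (J := I)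
      (I := ofIdealTop ((I.ideal ⟨⊤, isAffineOpen_top Y⟩).map f.appTop.hom))).mp ?_
    · have := h ⟨⊤, isAffineOpen_top X⟩
      simpa using this
    · apply le_of_isAffine
      rw [ideal_map_of_isAffineHom, ← Ideal.map_le_iff_le_comap]
      have := equivOfIsAffine.right_inv ((I.ideal ⟨⊤, isAffineOpen_top Y⟩).map f.appTop.hom)
      exact this.symm.le
  · rw [Ideal.map_le_iff_le_comap]
    have h := (le_map_iff_comap_le (f := f) (J := I) (I := I.comap f)).mpr le_rfl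
    have := h ⟨⊤, isAffineOpen_top Y⟩
    rw [ideal_map_of_isAffineHom] at this
    exact this

lemma comap_openImmersion_ideal {X Y : Scheme.{0}} (I : Y.IdealSheafData) (f : X ⟶ Y)
    [IsOpenImmersion f] (U : Y.affineOpens) (V : X.affineOpens) (h : V.1 ≤ f ⁻¹ᵁ U.1) :
    (I.comap f).ideal V = (I.ideal U).map (pull f h) := by
  rw [ideal_comap_of_isOpenImmersion]
  have hle : f ''ᵁ V.1 ≤ U.1 := by
    rintro _ ⟨x, hx, rfl⟩
    exact h hx
  have h1 := map_ideal I (U := ⟨f ''ᵁ V.1, V.2.image_of_isOpenImmersion f⟩) (V := U) hle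
  rw [← h1]
  have h2 : ∀ J : Ideal Γ(Y, f ''ᵁ V.1), J.comap (f.appIso V.1).inv.hom =
      J.map (f.appIso V.1).hom.hom := by
    intro J
    exact Ideal.comap_symm (f.appIso V.1).commRingCatIsoToRingEquiv
  rw [h2, Ideal.map_map]
  congr 1
  rw [← CommRingCat.hom_comp, Scheme.Hom.appIso_hom', Scheme.Hom.map_appLE]
  rfl

lemma comap_ideal {X Y : Scheme.{0}} (I : Y.IdealSheafData) (f : X ⟶ Y) (U : Y.affineOpens)
    (V : X.affineOpens) (h : V.1 ≤ f ⁻¹ᵁ U.1) :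
    (I.comap f).ideal V = (I.ideal U).map (pull f h) := by
  have : IsAffine U.1.toScheme := U.2
  have : IsAffine V.1.toScheme := V.2
  -- the induced morphism of affine schemes
  let g : V.1.toScheme ⟶ U.1.toScheme := f.resLE U.1 V.1 h
  have hg : g ≫ U.1.ι = V.1.ι ≫ f := by simp [g]
  have h1 : (I.comap f).comap V.1.ι = (I.comap U.1.ι).comap g := by
    rw [← comap_comp, ← comap_comp, hg]
  have h2 := comap_ideal_top (I.comap U.1.ι) g
  have h3 := comap_openImmersion_ideal I U.1.ι U ⟨⊤, isAffineOpen_top _⟩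
    (show (⊤ : U.1.toScheme.Opens) ≤ U.1.ι ⁻¹ᵁ U.1 by simp)
  have h4 := comap_openImmersion_ideal (I.comap f) V.1.ι V ⟨⊤, isAffineOpen_top _⟩
    (show (⊤ : V.1.toScheme.Opens) ≤ V.1.ι ⁻¹ᵁ V.1 by simp)
  rw [h1, h2, h3] at h4
  have hbij : Function.Bijective (pull V.1.ι
      (show (⊤ : V.1.toScheme.Opens) ≤ V.1.ι ⁻¹ᵁ V.1 by simp)) := by
    have h5 : IsIso (V.1.ι.appLE V.1 ⊤ (show (⊤ : V.1.toScheme.Opens) ≤ V.1.ι ⁻¹ᵁ V.1 by simp)) := by
      rw [Scheme.Opens.ι_appLE]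
      have h9 : V.1.ι ''ᵁ (⊤ : V.1.toScheme.Opens) = V.1 := by simp
      have h10 : IsIso (homOfLE (show V.1.ι ''ᵁ (⊤ : V.1.toScheme.Opens) ≤ V.1 from h9.le)) :=
        ⟨homOfLE h9.ge, rfl, rfl⟩
      have h11 : IsIso (homOfLE (show V.1.ι ''ᵁ (⊤ : V.1.toScheme.Opens) ≤ V.1 from h9.le)).op :=
        inferInstance
      exact Functor.map_isIso _ _
    exact ConcreteCategory.bijective_of_isIso _
  have h6 : (g.appTop.hom).comp (pull U.1.ι
      (show (⊤ : U.1.toScheme.Opens) ≤ U.1.ι ⁻¹ᵁ U.1 by simp)) =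
      (pull V.1.ι (show (⊤ : V.1.toScheme.Opens) ≤ V.1.ι ⁻¹ᵁ V.1 by simp)).comp (pull f h) := by
    ext x
    simp only [RingHom.comp_apply]
    rw [pull_pull]
    have h7 : (g.appTop.hom) = pull g (show (⊤ : V.1.toScheme.Opens) ≤ g ⁻¹ᵁ ⊤ from le_rfl) := by
      exact congrArg _ (Scheme.Hom.appLE_eq_app g (U := ⊤)).symm
    rw [h7, pull_pull]
    simp only [hg]
  rw [Ideal.map_map, h6, ← Ideal.map_map] at h4
  have h8 := congrArg (Ideal.comap (pull V.1.ι
      (show (⊤ : V.1.toScheme.Opens) ≤ V.1.ι ⁻¹ᵁ V.1 by simp))) h4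
  rw [Ideal.comap_map_of_bijective _ hbij, Ideal.comap_map_of_bijective _ hbij] at h8
  exact h8.symm

end Pool.Agent.MP77a250
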