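import Mathlib

set_option autoImplicit false

namespace Pool.Agent.MP77a250

section

variable {K : Type} [Field K] [Algebra ℂ K]

lemma ai_swap {a b : K} (h : AlgebraicIndependent ℂ ![a, b]) : AlgebraicIndependent ℂ ![b, a] := by
  refine (algebraicIndependent_equiv' (Equiv.swap (0 : Fin 2) 1) ?_).mpr h
  ext i
  fin_cases i <;> simp

lemma ai_inv {a b : K} (h : AlgebraicIndependent ℂ ![a, b]) : AlgebraicIndependent ℂ ![a⁻¹, b] := by
  have key : ∀ c : K, AlgebraicIndependent ℂ ![c, b] ↔
      AlgebraicIndependent ℂ (fun o : Option (Fin 1) => o.elim c ![b]) := by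
    intro c
    symm
    refine algebraicIndependent_equiv' (finSuccEquiv 1).symm ?_
    ext o
    cases o with
    | none => rfl
    | some i => fin_cases i; rfl
  rw [key] at h ⊢
  rw [AlgebraicIndependent.option_iff] at h ⊢
  refine ⟨h.1, ?_⟩
  intro h2
  exact h.2 (IsAlgebraic.inv_iff.mp h2)

end

end Pool.Agent.MP77a250
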