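import Pool.Agent.MP77a250.Curve2

set_option autoImplicit false

open CategoryTheory Limits AlgebraicGeometry TopologicalSpace

namespace Pool.Agent.MP77a250

section

/-- A finite étale covering with nonempty source of a connected scheme is surjective. -/
lemma surjective_of_finiteEtale {X X' : Scheme.{0}} (p : X' ⟶ X) (hp : IsFiniteEtale p)
    [ConnectedSpace X] [Nonempty X'] : Function.Surjective p := by
  have := hp.finite
  have := hp.etale
  have h1 : IsClosed (Set.range p) := p.isClosedMap.isClosed_range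
  have h2 : IsOpen (Set.range p) := p.isOpenMap.isOpen_range
  have h3 : IsClopen (Set.range p) := ⟨h1, h2⟩
  rcases isClopen_iff.mp h3 with h | h
  · exact absurd h (Set.range_nonempty p).ne_empty
  · exact Set.range_eq_univ.mp h

theorem seshadriDiag_le_two {X : Scheme.{0}} {s : X ⟶ SC} [IsProper s] [ConnectedSpace X]
    {L : LineBundle X} (D : FixData s L)
    (hL : ∀ k, ∃ m : L.PowSection 1, m.nonvanishing = L.U k)
    (hR : {x | x ∉ D.w.nonvanishing}.Infinite) {X' : Scheme.{0}} (p : X' ⟶ X)
    (hp : IsFiniteEtale p) (hX' : ConnectedSpace X') : seshadriDiag s p L ≤ 2 := by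
  have := hp.finite
  have := hp.etale
  have hproper : IsProper (p ≫ s) := inferInstance
  have hLN : IsLocallyNoetherian X' := LocallyOfFiniteType.isLocallyNoetherian (p ≫ s)
  have hcomp : CompactSpace X' := (quasiCompact_iff_compactSpace (p ≫ s)).mp inferInstance
  have hN : IsNoetherian X' := {}
  have hsurj := surjective_of_finiteEtale p hp
  have hclosed : IsClosed {x' : X' | p x' ∉ D.w.nonvanishing} :=
    (p ⁻¹ᵁ D.w.nonvanishing).isOpen.isClosed_compl
  have hinf : {x' : X' | p x' ∉ D.w.nonvanishing}.Infinite := by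
    intro hfin
    apply hR
    refine (hfin.image p).subset ?_
    intro x hx
    obtain ⟨y, rfl⟩ := hsurj x
    exact ⟨y, hx, rfl⟩
  obtain ⟨C, c, hC, hcc, hdim, hcR⟩ := exists_curve hclosed hinf
  have hCp : IsProper (c ≫ p ≫ s) := inferInstance
  have hCLN : IsLocallyNoetherian C := LocallyOfFiniteType.isLocallyNoetherian (c ≫ p ≫ s)
  have hCcomp : CompactSpace C := (quasiCompact_iff_compactSpace (c ≫ p ≫ s)).mp inferInstance
  have hCN : IsNoetherian C := {}
  have hfix : c ≫ p ≫ D.σ = c ≫ p := by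
    have := comp_σ_eq D (c ≫ p) (fun x => hcR x)
    rwa [Category.assoc] at this
  obtain ⟨k, hk⟩ := L.covers ((c ≫ p) (genericPoint C))
  obtain ⟨m, hm⟩ := hL k
  have hm' : (c ≫ p) (genericPoint C) ∈ m.nonvanishing := by rw [hm]; exact hk
  have hCp' : IsProper ((c ≫ p) ≫ s) := by rw [Category.assoc]; exact hCp
  obtain ⟨x, hx⟩ := exists_zero (c ≫ p) s hdim m (by rw [hm]; exact D.affine k)
  have hpos := sum_delta_pos hdim m (c ≫ p) hm' hx
  rw [seshadriDiag, seshadri]
  apply sSup_le
  rintro _ ⟨t, rfl, ht⟩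
  have h1 := bound_of_curve D p c hfix hCp hdim m hm' hpos t ht
  have h2 : ((t : ℝ) : EReal) ≤ ((2 : ℝ) : EReal) := EReal.coe_le_coe_iff.mpr h1
  have h3 : ((2 : ℝ) : EReal) = 2 := by norm_cast
  rwa [h3] at h2

end

end Pool.Agent.MP77a250
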