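import Pool.Agent.MP77a250.Smoo

set_option autoImplicit false

open MvPolynomial

namespace Pool.Agent.MP77a250

section cert

variable {R : Type} [CommRing R] (s t : R)

/-- The branch polynomial. -/
def Fst : R := (s ^ 2 + 1) * (t ^ 2 + 1) + s * t

def cA : R := 105 + 79*t^2 + 40*t^4 + 144*t^6 + 92*s*t + 92*s*t^5 - 33*s^2 + 35*s^2*t^2 + 2*s^2*t^4 + 36*s^3*t - 35*s^3*t^3 + 36*s^3*t^5 + 44*s^4 - 30*s^4*t^2 + 14*s^4*t^4

def cB : R := - 18*t + 25*t^3 - 18*t^5 - 22*s + 15*s*t^2 - 7*s*t^4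

def cC : R := - 83*t - 72*t^3 - 28*s - 64*s*t^2 - 17*s^2*t - 11*s^3

def Fs : R := 2 * s * (t ^ 2 + 1) + t

def Ft : R := 2 * t * (s ^ 2 + 1) + s

lemma cert : cA s t * Fst s t + cB s t * ((s ^ 4 + 1) * Fs s t) + cC s t * ((t ^ 4 + 1) * Ft s t) =
    105 := by
  unfold cA cB cC Fst Fs Ft
  ring

end cert

/-- The polynomial ring in the variables `s, t, u, v, w`. -/
noncomputable abbrev P5 : Type := MvPolynomial (Fin 5) ℂ

/-- The defining equations of the chart of the surface. -/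
noncomputable def g5 : Fin 3 → P5 :=
  ![X 2 ^ 2 - X 0 ^ 4 - 1, X 3 ^ 2 - X 1 ^ 4 - 1, X 4 ^ 2 - Fst (X 0) (X 1)]

noncomputable def D5c : Derivation ℂ P5 P5 :=
  mkDerivation ℂ ![-(C (1/105) * cB (X 0) (X 1) * X 2 ^ 2), -(C (1/105) * cC (X 0) (X 1) * X 3 ^ 2),
    -(C (1/105) * 2 * cB (X 0) (X 1) * X 2 * X 0 ^ 3),
    -(C (1/105) * 2 * cC (X 0) (X 1) * X 3 * X 1 ^ 3),
    C (1/2) * C (1/105) * cA (X 0) (X 1) * X 4]

noncomputable def D5a : Derivation ℂ P5 P5 :=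
  mkDerivation ℂ ![C (1/4) * X 0, 0, C (1/2) * X 2, 0, 0]

noncomputable def D5b : Derivation ℂ P5 P5 :=
  mkDerivation ℂ ![0, C (1/4) * X 1, 0, C (1/2) * X 3, 0]

lemma der0 (D : Derivation ℂ P5 P5) :
    D (g5 0) = 2 * X 2 * D (X 2) - 4 * X 0 ^ 3 * D (X 0) := by
  simp only [g5, Matrix.cons_val_zero, map_sub, Derivation.leibniz_pow, smul_eq_mul, nsmul_eq_mul,
    Derivation.map_one_eq_zero]
  push_cast
  ring

lemma der1 (D : Derivation ℂ P5 P5) :
    D (g5 1) = 2 * X 3 * D (X 3) - 4 * X 1 ^ 3 * D (X 1) := by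
  simp only [g5, Matrix.cons_val_one, Matrix.cons_val_zero, map_sub, Derivation.leibniz_pow,
    smul_eq_mul, nsmul_eq_mul, Derivation.map_one_eq_zero]
  push_cast
  ring

lemma der2 (D : Derivation ℂ P5 P5) :
    D (g5 2) = 2 * X 4 * D (X 4) - Fs (X 0) (X 1) * D (X 0) - Ft (X 0) (X 1) * D (X 1) := by
  simp only [g5, Matrix.cons_val, Fst, Fs, Ft, map_sub, map_add, Derivation.leibniz,
    Derivation.leibniz_pow, smul_eq_mul, nsmul_eq_mul, Derivation.map_one_eq_zero]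
  push_cast
  ring

noncomputable def D5 : Fin 3 → Derivation ℂ P5 P5 :=
  ![D5a + (C (1/4) * X 0 * Fs (X 0) (X 1) : P5) • D5c,
    D5b + (C (1/4) * X 1 * Ft (X 0) (X 1) : P5) • D5c, D5c]

lemma C4 : (4 : P5) * C (1/4) = 1 := by
  rw [show (4 : P5) = C 4 from (map_ofNat C 4).symm, ← C_mul]
  norm_num

lemma C2 : (2 : P5) * C (1/2) = 1 := by
  rw [show (2 : P5) = C 2 from (map_ofNat C 2).symm, ← C_mul]
  norm_num

lemma C105 : (105 : P5) * C (1/105) = 1 := by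
  rw [show (105 : P5) = C 105 from (map_ofNat C 105).symm, ← C_mul]
  norm_num

lemma D5c_0 : D5c (g5 0) = 0 := by
  rw [der0, D5c, mkDerivation_X, mkDerivation_X]
  simp only [Matrix.cons_val]
  ring

lemma D5c_1 : D5c (g5 1) = 0 := by
  rw [der1, D5c, mkDerivation_X, mkDerivation_X]
  simp only [Matrix.cons_val]
  ring

lemma D5c_2 : D5c (g5 2) - 1 = C (1/105) * (cA (X 0) (X 1) * g5 2 +
    cB (X 0) (X 1) * Fs (X 0) (X 1) * g5 0 + cC (X 0) (X 1) * Ft (X 0) (X 1) * g5 1) := by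
  rw [der2, D5c, mkDerivation_X, mkDerivation_X, mkDerivation_X]
  simp only [g5, Matrix.cons_val]
  have h1 := cert (X 0 : P5) (X 1)
  have h2 := C105
  have h3 := C2
  linear_combination (C (1/105) : P5) * h1 + h2 + C (1/105) * cA (X 0) (X 1) * X 4 ^ 2 * h3

lemma D5a_0 : D5a (g5 0) - 1 = g5 0 := by
  rw [der0, D5a, mkDerivation_X, mkDerivation_X]
  simp only [g5, Matrix.cons_val]
  linear_combination (X 2 ^ 2 : P5) * C2 - (X 0 ^ 4 : P5) * C4

lemma D5a_1 : D5a (g5 1) = 0 := by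
  rw [der1, D5a, mkDerivation_X, mkDerivation_X]
  simp only [Matrix.cons_val]
  ring

lemma D5a_2 : D5a (g5 2) = - (C (1/4) * X 0 * Fs (X 0) (X 1)) := by
  rw [der2, D5a, mkDerivation_X, mkDerivation_X, mkDerivation_X]
  simp only [Matrix.cons_val]
  ring

lemma D5b_0 : D5b (g5 0) = 0 := by
  rw [der0, D5b, mkDerivation_X, mkDerivation_X]
  simp only [Matrix.cons_val]
  ring

lemma D5b_1 : D5b (g5 1) - 1 = g5 1 := by
  rw [der1, D5b, mkDerivation_X, mkDerivation_X]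
  simp only [g5, Matrix.cons_val]
  linear_combination (X 3 ^ 2 : P5) * C2 - (X 1 ^ 4 : P5) * C4

lemma D5b_2 : D5b (g5 2) = - (C (1/4) * X 1 * Ft (X 0) (X 1)) := by
  rw [der2, D5b, mkDerivation_X, mkDerivation_X, mkDerivation_X]
  simp only [Matrix.cons_val]
  ring

lemma g5_mem (i : Fin 3) : g5 i ∈ Ideal.span (Set.range g5) := Ideal.subset_span ⟨i, rfl⟩

lemma D5c_2_mem : D5c (g5 2) - 1 ∈ Ideal.span (Set.range g5) := by
  rw [D5c_2]
  exact Ideal.mul_mem_left _ _ (add_mem (add_mem (Ideal.mul_mem_left _ _ (g5_mem 2))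
    (Ideal.mul_mem_left _ _ (g5_mem 0))) (Ideal.mul_mem_left _ _ (g5_mem 1)))

lemma D5_mem (i j : Fin 3) : D5 i (g5 j) - (if i = j then 1 else 0) ∈
    Ideal.span (Set.range g5) := by
  fin_cases i <;> fin_cases j <;> simp only [D5, Fin.mk_zero, Fin.mk_one,
    Fin.reduceFinMk, Matrix.cons_val, Derivation.add_apply, Derivation.smul_apply, smul_eq_mul,
    if_true]
  · rw [D5c_0, mul_zero, add_zero, D5a_0]
    exact g5_mem 0
  · rw [if_neg (by decide), D5a_1, D5c_1]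
    simp
  · rw [if_neg (by decide), D5a_2]
    have : -(C (1 / 4) * X 0 * Fs (X 0) (X 1)) + C (1 / 4) * X 0 * Fs (X 0) (X 1) * D5c (g5 2) - 0 =
      C (1 / 4) * X 0 * Fs (X 0) (X 1) * (D5c (g5 2) - 1) := by ring
    rw [this]
    exact Ideal.mul_mem_left _ _ D5c_2_mem
  · rw [if_neg (by decide), D5b_0, D5c_0]
    simp
  · rw [D5c_1, mul_zero, add_zero, D5b_1]
    exact g5_mem 1
  · rw [if_neg (by decide), D5b_2]
    have : -(C (1 / 4) * X 1 * Ft (X 0) (X 1)) + C (1 / 4) * X 1 * Ft (X 0) (X 1) * D5c (g5 2) - 0 =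
      C (1 / 4) * X 1 * Ft (X 0) (X 1) * (D5c (g5 2) - 1) := by ring
    rw [this]
    exact Ideal.mul_mem_left _ _ D5c_2_mem
  · rw [if_neg (by decide), D5c_0]
    simp
  · rw [if_neg (by decide), D5c_1]
    simp
  · exact D5c_2_mem

/-- The chart ring of the surface, by generators and relations. -/
noncomputable abbrev S5 : Type := P5 ⧸ Ideal.span (Set.range g5)

instance : Algebra.FormallySmooth ℂ S5 := formallySmooth_of_derivations g5 D5 D5_mem

instance : Algebra.FinitePresentation ℂ S5 := by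
  refine Algebra.FinitePresentation.quotient ?_
  exact ⟨Finset.univ.image g5, by simp⟩

instance : Algebra.Smooth ℂ S5 where

end Pool.Agent.MP77a250
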