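import Pool.Agent.MP77a250.TestCurve

set_option autoImplicit false

open CategoryTheory Limits AlgebraicGeometry TopologicalSpace

namespace Pool.Agent.MP77a250

open Scheme.IdealSheafData

section

variable {X X' C : Scheme.{0}} {s : X ⟶ SC} {L : LineBundle X}

/-- A test curve mapping to the fixed divisor bounds the Seshadri number along the diagonal. -/
lemma bound_of_curve (D : FixData s L) (p : X' ⟶ X) [Etale p] [IsSeparated (p ≫ s)]
    [IsLocallyNoetherian X'] [IsIntegral C] [IsLocallyNoetherian C] (c : C ⟶ X')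
    (hc : c ≫ p ≫ D.σ = c ≫ p) (hproper : IsProper (c ≫ p ≫ s))
    (hdim : topologicalKrullDim C = 1) (m : L.PowSection 1)
    (hm : (c ≫ p) (genericPoint C) ∈ m.nonvanishing)
    (hpos : 0 < ∑ᶠ x, delta m (c ≫ p) hm x) (t : ℝ)
    (ht : IsSeshadriBound (pullback.fst (p ≫ s) (p ≫ s) ≫ p ≫ s) (Mp s p L)
      (pullback.diagonal (p ≫ s)).ker t) : t ≤ 2 := by
  obtain ⟨-, B, β, E, hβ, ⟨e, he⟩, hnef⟩ := ht
  -- the surface `T`
  let f : pullback (p ≫ D.σ) p ⟶ X' := pullback.fst (p ≫ D.σ) p
  let g : pullback (p ≫ D.σ) p ⟶ X' := pullback.snd (p ≫ D.σ) p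
  have hcond : f ≫ p ≫ D.σ = g ≫ p := pullback.condition
  have hfg : f ≫ p ≫ s = g ≫ p ≫ s := by
    rw [← Category.assoc g, ← hcond, Category.assoc, Category.assoc, D.hσ]
  have hNoeth : IsLocallyNoetherian (pullback (p ≫ D.σ) p : Scheme.{0}) := inferInstance
  have hflat : Flat (f ≫ p) := inferInstance
  obtain ⟨H, hH, -⟩ := hβ.universal _ (pullback.lift f g hfg)
    (twist_invertible D p f g hcond hfg)
  let τ : C ⟶ pullback (p ≫ D.σ) p := pullback.lift c c hc
  have hτf : τ ≫ f = c := pullback.lift_fst _ _ _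
  have hτg : τ ≫ g = c := pullback.lift_snd _ _ _
  have hτq : τ ≫ f ≫ p = c ≫ p := by rw [← Category.assoc, hτf]
  have hF : (τ ≫ H) ≫ β = c ≫ pullback.diagonal (p ≫ s) := by
    rw [Category.assoc, hH]
    apply pullback.hom_ext
    · rw [Category.assoc, pullback.lift_fst, hτf, Category.assoc, pullback.diagonal_fst,
        Category.comp_id]
    · rw [Category.assoc, pullback.lift_snd, hτg, Category.assoc, pullback.diagonal_snd,
        Category.comp_id]
  have hm' : (τ ≫ f ≫ p) (genericPoint C) ∈ m.nonvanishing := by rw [hτq]; exact hm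
  have hdelta : ∀ x, delta m (τ ≫ f ≫ p) hm' x = delta m (c ≫ p) hm x := by
    intro x
    congr 1
  -- degrees
  have d1 := degree_Mp (L := L) p β (τ ≫ H) c hF m hm
  have d2 := degree_E D E e (f ≫ p) H τ m hm' (by
    intro x i hi k hk
    refine good_exists D E e (f ≫ p) H ((pullback.diagonal (p ≫ s)).ker.comap β) he i hi k ?_
    rw [← comap_comp, hH]
    have hsupp : τ x ∈ ((pullback.diagonal (p ≫ s)).ker.comap (pullback.lift f g hfg)).support := by
      rw [support_comap]
      have h1 : (pullback.lift f g hfg) (τ x) ∈ closure (Set.range (pullback.diagonal (p ≫ s))) := by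
        apply subset_closure
        refine ⟨c x, ?_⟩
        have h2 := congrArg (fun φ => φ x) hF
        rw [Category.assoc, hH] at h2
        exact h2.symm
      rw [← Scheme.Hom.support_ker] at h1
      exact h1
    obtain ⟨W, hxW, hW, hI, -⟩ := twist_local D p f g hcond hfg hsupp k hk
    exact ⟨W, hxW, hW, hI⟩)
  have hnef' := hnef C (τ ≫ H) (by
    have : (τ ≫ H) ≫ β ≫ pullback.fst (p ≫ s) (p ≫ s) ≫ p ≫ s = c ≫ p ≫ s := by
      rw [← Category.assoc, hF, Category.assoc, ← Category.assoc (pullback.diagonal _),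
        pullback.diagonal_fst, Category.id_comp]
    rw [this]
    exact hproper) hdim _ _ d1 d2
  rw [finsum_congr hdelta] at hnef'
  have hfin : (Function.support fun x => delta m (c ≫ p) hm x).Finite := by
    by_contra h
    have := finsum_of_infinite_support h
    omega
  have h5 : ∑ᶠ x, 2 * delta m (c ≫ p) hm x = 2 * ∑ᶠ x, delta m (c ≫ p) hm x :=
    (mul_finsum _ 2).symm
  rw [h5] at hnef'
  have hpos' : (0 : ℝ) < ((∑ᶠ x, delta m (c ≫ p) hm x : ℤ) : ℝ) := by exact_mod_cast hpos
  push_cast at hnef'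
  nlinarith

end

end Pool.Agent.MP77a250
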