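import Pool.Agent.MP77a250.Zero

set_option autoImplicit false

open CategoryTheory Limits AlgebraicGeometry TopologicalSpace

namespace Pool.Agent.MP77a250

section

/-- In an infinite closed subset of a Noetherian space there is a minimal irreducible closed subset
with more than one point. -/
lemma exists_minimal_irred {X : Type} [TopologicalSpace X] [NoetherianSpace X] {R : Set X}
    (hR : IsClosed R) (hinf : R.Infinite) :
    ∃ Z ⊆ R, IsClosed Z ∧ IsIrreducible Z ∧ Z.Nontrivial ∧
      ∀ Z' ⊆ Z, IsClosed Z' → IsIrreducible Z' → Z' ≠ Z → Z'.Subsingleton := by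
  have hex : ∃ Z : Closeds X, (Z : Set X) ⊆ R ∧ IsIrreducible (Z : Set X) ∧
      (Z : Set X).Nontrivial := by
    obtain ⟨S, hSf, hSc, hSi, rfl⟩ :=
      NoetherianSpace.exists_finite_set_isClosed_irreducible hR
    by_contra hcon
    push Not at hcon
    apply hinf
    refine hSf.sUnion fun t ht => ?_
    have h1 := hcon ⟨t, hSc t ht⟩ (Set.subset_sUnion_of_mem ht) (hSi t ht)
    exact h1.finite
  obtain ⟨Z, hZ, hmin⟩ := WellFounded.has_min (wellFounded_lt (α := Closeds X))
    {Z : Closeds X | (Z : Set X) ⊆ R ∧ IsIrreducible (Z : Set X) ∧ (Z : Set X).Nontrivial} hex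
  refine ⟨Z, hZ.1, Z.isClosed, hZ.2.1, hZ.2.2, fun Z' h1 h2 h3 h4 => ?_⟩
  by_contra h5
  refine hmin ⟨Z', h2⟩ ⟨h1.trans hZ.1, h3, Set.not_subsingleton_iff.mp h5⟩ ?_
  refine lt_of_le_of_ne h1 fun h => h4 ?_
  exact congrArg (fun Z : Closeds X => (Z : Set X)) h

lemma dim_eq_one {T : Type} [TopologicalSpace T] [T0Space T] [CompactSpace T] [IrreducibleSpace T]
    [Nontrivial T]
    (h : ∀ Z : Set T, IsClosed Z → IsIrreducible Z → Z ≠ Set.univ → Z.Subsingleton) :
    topologicalKrullDim T = 1 := by
  rw [topologicalKrullDim]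
  apply le_antisymm
  · rw [Order.krullDim_le_one_iff]
    intro Z
    by_cases hZ : (Z : Set T) = Set.univ
    · right
      intro Y _ x _
      have : x ∈ (Z : Set T) := by rw [hZ]; trivial
      exact this
    · left
      intro Y hY x hx
      have h1 := h Z Z.isClosed Z.isIrreducible hZ
      obtain ⟨y, hy⟩ := Y.isIrreducible.nonempty
      have h2 : y ∈ (Z : Set T) := hY hy
      rw [h1 hx h2]
      exact hy
  · rw [Order.one_le_krullDim_iff]
    obtain ⟨x, hx⟩ := IsClosed.exists_closed_singleton (isClosed_univ (X := T)) Set.univ_nonempty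
    refine ⟨⟨{x}, isIrreducible_singleton, hx.2⟩, ⟨Set.univ, IrreducibleSpace.isIrreducible_univ T,
      isClosed_univ⟩, ?_⟩
    refine lt_of_le_of_ne (fun _ _ => trivial) ?_
    intro h1
    have h2 : ({x} : Set T) = Set.univ := congrArg (fun Z : IrreducibleCloseds T => (Z : Set T)) h1
    obtain ⟨y, hy⟩ := exists_ne x
    have h3 : y ∈ ({x} : Set T) := by rw [h2]; trivial
    exact hy h3

/-- The reduced closed subscheme on an irreducible closed subset is integral. -/
lemma isIntegral_vanishingIdeal {X : Scheme.{0}} (Z : Closeds X) (hZ : IsIrreducible (Z : Set X)) :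
    IsIntegral (Scheme.IdealSheafData.vanishingIdeal Z).subscheme := by
  set I := Scheme.IdealSheafData.vanishingIdeal Z with hI
  have h1 : IsReduced I.subscheme := by
    have (i : X.affineOpens) : IsReduced (I.subschemeCover.openCover.X i) := by
      have : _root_.IsReduced (Γ(X, i.1) ⧸ I.ideal i) := by
        rw [Ideal.isRadical_iff_quotient_reduced (I.ideal i) |>.symm]
        have : I.ideal i = PrimeSpectrum.vanishingIdeal (i.2.fromSpec ⁻¹' Z) := rfl
        rw [this]
        exact PrimeSpectrum.isRadical_vanishingIdeal _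
      exact inferInstanceAs (IsReduced (Spec (.of (Γ(X, i.1) ⧸ I.ideal i))))
    exact .of_openCover _ I.subschemeCover.openCover
  have h2 : IrreducibleSpace I.subscheme := by
    have hr : Set.range I.subschemeι = Z := by
      rw [Scheme.IdealSheafData.range_subschemeι, hI,
        Scheme.IdealSheafData.coe_support_vanishingIdeal]
    have he := I.subschemeι.isEmbedding
    rw [← hr] at hZ
    have : IrreducibleSpace (Set.range I.subschemeι) := isIrreducible_iff_irreducibleSpace.mp hZ
    exact he.toHomeomorph.irreducibleSpace_iff.mpr this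
  exact isIntegral_of_irreducibleSpace_of_isReduced _

end

end Pool.Agent.MP77a250
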