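import Pool.Agent.MP77a250.Curve

set_option autoImplicit false

open CategoryTheory Limits AlgebraicGeometry TopologicalSpace

namespace Pool.Agent.MP77a250

section

lemma isOpenCover_of_forall {X : Scheme.{0}} {ι : Type} (U : ι → X.Opens)
    (h : ∀ x, ∃ i, x ∈ U i) : IsOpenCover U := by
  rw [IsOpenCover, eq_top_iff]
  intro x _
  obtain ⟨i, hi⟩ := h x
  exact Opens.mem_iSup.mpr ⟨i, hi⟩

/-- Morphisms can be compared on an open cover mapping to affine opens. -/
lemma hom_eq_of_pull_eq {C X : Scheme.{0}} (f g : C ⟶ X) {ι : Type} (U : ι → X.Opens)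
    (hU : ∀ i, IsAffineOpen (U i)) (V : ι → C.Opens) (hV : ∀ x, ∃ i, x ∈ V i)
    (hf : ∀ i, V i ≤ f ⁻¹ᵁ U i) (hg : ∀ i, V i ≤ g ⁻¹ᵁ U i)
    (h : ∀ i (a : Γ(X, U i)), pull f (hf i) a = pull g (hg i) a) : f = g := by
  refine Scheme.Cover.hom_ext (C.openCoverOfIsOpenCover V (isOpenCover_of_forall V hV)) f g ?_
  intro i
  change (V i).ι ≫ f = (V i).ι ≫ g
  rw [← Scheme.Hom.resLE_comp_ι f (hf i), ← Scheme.Hom.resLE_comp_ι g (hg i)]
  congr 1
  have : IsAffine (U i).toScheme := hU i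
  apply ext_of_isAffine
  rw [Scheme.Hom.appTop, Scheme.Hom.appTop, Scheme.Hom.resLE_app_top, Scheme.Hom.resLE_app_top]
  congr 2
  ext a
  exact h i a

variable {X C : Scheme.{0}} {s : X ⟶ SC} {L : LineBundle X}

/-- A function whose nonvanishing locus misses the image of a reduced scheme pulls back to zero. -/
lemma pull_eq_zero [IsReduced C] (q : C ⟶ X) {U : X.Opens} {V : C.Opens} (h : V ≤ q ⁻¹ᵁ U)
    (a : Γ(X, U)) (ha : ∀ x ∈ V, q x ∉ X.basicOpen a) : pull q h a = 0 := by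
  rw [← basicOpen_eq_bot_iff, ← le_bot_iff]
  intro x hx
  have hxV : x ∈ V := C.basicOpen_le _ hx
  exfalso
  apply ha x hxV
  have h1 : pull q h a = res h (q.app U a) := by
    rw [res, pull]
    rfl
  rw [h1] at hx
  have h2 : C.basicOpen (res h (q.app U a)) ≤ C.basicOpen (q.app U a) := by
    have := Scheme.basicOpen_res C (q.app U a) (homOfLE h).op
    refine le_trans (le_of_eq this) inf_le_right
  have h3 := h2 hx
  rw [← Scheme.preimage_basicOpen] at h3
  exact h3

lemma comp_σ_eq (D : FixData s L) [IsReduced C] (q : C ⟶ X)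
    (h : ∀ x, q x ∉ D.w.nonvanishing) : q ≫ D.σ = q := by
  have hst : ∀ k, q ⁻¹ᵁ L.U k ≤ (q ≫ D.σ) ⁻¹ᵁ L.U k := fun k x hx => D.stable k hx
  refine hom_eq_of_pull_eq (q ≫ D.σ) q L.U D.affine (fun k => q ⁻¹ᵁ L.U k)
    (fun x => L.covers (q x)) hst (fun k => le_rfl) ?_
  intro k a
  have h1 : a - pull D.σ (D.stable k) a ∈ Ideal.span {D.w.s k} := by
    rw [← D.eqn k]
    exact Ideal.subset_span ⟨a, rfl⟩
  obtain ⟨b, hb⟩ := Ideal.mem_span_singleton'.mp h1
  have h2 : pull q (show q ⁻¹ᵁ L.U k ≤ q ⁻¹ᵁ L.U k from le_rfl) (D.w.s k) = 0 := by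
    apply pull_eq_zero
    intro x _ hx
    exact h x (Opens.mem_iSup.mpr ⟨k, hx⟩)
  have h3 := congrArg (pull q (show q ⁻¹ᵁ L.U k ≤ q ⁻¹ᵁ L.U k from le_rfl)) hb
  rw [map_mul, h2, mul_zero, map_sub, pull_pull] at h3
  exact (sub_eq_zero.mp h3.symm).symm

/-- Existence of a curve in an infinite closed subset. -/
lemma exists_curve {X' : Scheme.{0}} [IsNoetherian X'] {R : Set X'} (hR : IsClosed R)
    (hinf : R.Infinite) : ∃ (C : Scheme.{0}) (c : C ⟶ X'), IsIntegral C ∧ IsClosedImmersion c ∧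
      topologicalKrullDim C = 1 ∧ ∀ x, c x ∈ R := by
  obtain ⟨Z, hZR, hZc, hZi, hZn, hmin⟩ := exists_minimal_irred hR hinf
  let Z' : Closeds X' := ⟨Z, hZc⟩
  set I := Scheme.IdealSheafData.vanishingIdeal Z' with hI
  have hint : IsIntegral I.subscheme := isIntegral_vanishingIdeal Z' hZi
  have hr : Set.range I.subschemeι = Z := by
    rw [Scheme.IdealSheafData.range_subschemeι, hI,
      Scheme.IdealSheafData.coe_support_vanishingIdeal]
    rfl
  have he := I.subschemeι.isClosedEmbedding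
  refine ⟨I.subscheme, I.subschemeι, hint, inferInstance, ?_, fun x => hZR (hr ▸ ⟨x, rfl⟩)⟩
  have hcomp : CompactSpace I.subscheme := he.compactSpace
  have hnt : Nontrivial I.subscheme := by
    obtain ⟨x, hx, y, hy, hxy⟩ := hZn
    rw [← hr] at hx hy
    obtain ⟨x', rfl⟩ := hx
    obtain ⟨y', rfl⟩ := hy
    exact ⟨x', y', fun h => hxy (by rw [h])⟩
  apply dim_eq_one
  intro Y hYc hYi hY
  have h1 : (I.subschemeι '' Y).Subsingleton := by
    apply hmin
    · rw [← hr]; exact Set.image_subset_range _ _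
    · exact he.isClosedMap _ hYc
    · exact hYi.image _ he.continuous.continuousOn
    · intro h
      apply hY
      rw [← hr, ← Set.image_univ] at h
      exact he.injective.image_injective h
  exact Set.subsingleton_of_image he.injective Y h1

end

end Pool.Agent.MP77a250
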