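import Pool.Agent.MP77a250.Bound

set_option autoImplicit false

open CategoryTheory Limits AlgebraicGeometry TopologicalSpace

namespace Pool.Agent.MP77a250

section

lemma krullDim_eq {C : Scheme.{0}} (hdim : topologicalKrullDim C = 1) : Order.krullDim C = 1 := by
  rw [← hdim, topologicalKrullDim]
  exact (Order.krullDim_eq_of_orderIso (irreducibleSetEquivPoints (α := C))).symm

lemma le_iff_specializes {C : Scheme.{0}} {x y : C} : x ≤ y ↔ y ⤳ x := Iff.rfl

variable {C : Scheme.{0}} [IsIntegral C]

lemma lt_of_specializes {X : Scheme.{0}} {x y : X} (h : y ⤳ x) (hne : x ≠ y) : x < y := by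
  refine ⟨h, fun h' => hne ?_⟩
  have h1 : x ⤳ y := h'
  exact (h1.antisymm h).eq

lemma lt_genericPoint {x : C} (hx : x ≠ genericPoint C) : x < genericPoint C :=
  lt_of_specializes (genericPoint_specializes x) hx

lemma eq_of_specializes_of_dim_one (hdim : topologicalKrullDim C = 1) {x y : C}
    (hx : x ≠ genericPoint C) (h : x ⤳ y) : y = x := by
  by_contra hne
  have h1 : y < x := lt_of_specializes h hne
  have h2 : x < genericPoint C := lt_genericPoint hx
  let p : LTSeries C := ((RelSeries.singleton _ y).snoc x h1).snoc (genericPoint C)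
    (by simpa using h2)
  have h3 := Order.LTSeries.length_le_krullDim p
  rw [krullDim_eq hdim] at h3
  have h4 : p.length = 2 := rfl
  rw [h4] at h3
  exact absurd h3 (by decide)

lemma isClosed_singleton_of_dim_one (hdim : topologicalKrullDim C = 1) {x : C}
    (hx : x ≠ genericPoint C) : IsClosed ({x} : Set C) := by
  rw [← closure_eq_iff_isClosed]
  apply subset_antisymm _ subset_closure
  intro y hy
  exact eq_of_specializes_of_dim_one hdim hx (specializes_iff_mem_closure.mpr hy)

lemma coheight_eq_one (hdim : topologicalKrullDim C = 1) {x : C}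
    (hx : x ≠ genericPoint C) : Order.coheight x = 1 := by
  apply le_antisymm
  · have h := Order.coheight_le_krullDim x
    rw [krullDim_eq hdim] at h
    exact_mod_cast h
  · rw [Order.one_le_iff_pos, Order.coheight_pos]
    intro h
    have h1 := lt_genericPoint hx
    exact h1.not_ge (h h1.le)

lemma finite_of_isClosed_of_dim_one [NoetherianSpace C] (hdim : topologicalKrullDim C = 1)
    {Z : Set C} (hZ : IsClosed Z) (hη : genericPoint C ∉ Z) : Z.Finite := by
  obtain ⟨S, hSf, hSc, hSi, rfl⟩ :=
    NoetherianSpace.exists_finite_set_isClosed_irreducible hZ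
  refine hSf.sUnion fun t ht => ?_
  have h1 : (hSi t ht).genericPoint ∈ t := by
    have := (hSi t ht).isGenericPoint_genericPoint (hSc t ht)
    exact this.mem
  have h2 : (hSi t ht).genericPoint ≠ genericPoint C := by
    intro h
    exact hη ⟨t, ht, h ▸ h1⟩
  have h3 : t = {(hSi t ht).genericPoint} := by
    have h4 := (hSi t ht).isGenericPoint_genericPoint (hSc t ht)
    rw [isGenericPoint_def] at h4
    rw [← (isClosed_singleton_of_dim_one hdim h2).closure_eq]
    exact h4.symm
  rw [h3]
  exact Set.finite_singleton _

end

end Pool.Agent.MP77a250
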