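import Mathlib

/-!
# Definitions for MP_77a250_ag

Complex projective manifolds, line bundles given by cocycles, ampleness, degrees on curves, nefness,
blow-ups, Seshadri numbers along closed subschemes, large algebraic fundamental groups.
-/

set_option autoImplicit false

open CategoryTheory Limits AlgebraicGeometry TopologicalSpace

namespace Pool.Agent.MP77a250

/-- The base scheme: the spectrum of the field of complex numbers. -/
noncomputable abbrev SC : Scheme.{0} := Spec (CommRingCat.of ℂ)

/-- Restriction of sections of the structure sheaf from `U` to a smaller open set `V`. -/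
noncomputable def res {X : Scheme.{0}} {U V : X.Opens} (h : V ≤ U) : Γ(X, U) →+* Γ(X, V) :=
  (X.presheaf.map (homOfLE h).op).hom

/-- Pull-back of sections of the structure sheaf along a morphism `f`, from `U` to an open set `V`
contained in the preimage of `U`. -/
noncomputable def pull {X Y : Scheme.{0}} (f : X ⟶ Y) {U : Y.Opens} {V : X.Opens}
    (h : V ≤ f ⁻¹ᵁ U) : Γ(Y, U) →+* Γ(X, V) :=
  (f.appLE U V h).hom

lemma res_res {X : Scheme.{0}} {U V W : X.Opens} (h : V ≤ U) (h' : W ≤ V) (x : Γ(X, U)) :
    res h' (res h x) = res (h'.trans h) x := by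
  simp only [res, ← CommRingCat.comp_apply, ← Functor.map_comp]
  rfl

@[simp]
lemma res_self {X : Scheme.{0}} {U : X.Opens} (h : U ≤ U) (x : Γ(X, U)) :
    res h x = x := by
  have : (homOfLE h).op = 𝟙 _ := rfl
  simp only [res, this, CategoryTheory.Functor.map_id]
  rfl

lemma pull_res {X Y : Scheme.{0}} (f : X ⟶ Y) {U U' : Y.Opens} {V : X.Opens}
    (h : V ≤ f ⁻¹ᵁ U) (h' : U ≤ U') (x : Γ(Y, U')) :
    pull f h (res h' x) = pull f (h.trans (f.preimage_mono h')) x := by
  have := Scheme.Hom.map_appLE f h (homOfLE h').op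
  exact congrArg (fun g => g.hom x) this

lemma res_pull {X Y : Scheme.{0}} (f : X ⟶ Y) {U : Y.Opens} {V V' : X.Opens}
    (h : V ≤ f ⁻¹ᵁ U) (h' : V' ≤ V) (x : Γ(Y, U)) :
    res h' (pull f h x) = pull f (h'.trans h) x := by
  have := Scheme.Hom.appLE_map f h (homOfLE h').op
  exact congrArg (fun g => g.hom x) this

lemma pull_pull {X Y Z : Scheme.{0}} (f : X ⟶ Y) (g : Y ⟶ Z) {U : Z.Opens} {V : Y.Opens}
    {W : X.Opens} (h : V ≤ g ⁻¹ᵁ U) (h' : W ≤ f ⁻¹ᵁ V) (x : Γ(Z, U)) :
    pull f h' (pull g h x) = pull (f ≫ g) (h'.trans (f.preimage_mono h)) x := by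
  have := Scheme.Hom.appLE_comp_appLE f g U V W h h'
  exact congrArg (fun g => g.hom x) this

/-- A line bundle (invertible sheaf) on a scheme, given by a Čech cocycle `g i j` of units on an
open cover `U i`. With a frame `e i` over `U i` such that `e j = g i j • e i`, a section
`s = s i • e i` satisfies `s i = g i j * s j`. -/
structure LineBundle (X : Scheme.{0}) where
  /-- index set of the trivialising cover -/
  ι : Type
  /-- the trivialising open sets -/
  U : ι → X.Opens
  /-- they cover `X` -/
  covers : ∀ x : X, ∃ i, x ∈ U i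
  /-- the transition functions -/
  g : ∀ i j, Γ(X, U i ⊓ U j)ˣ
  /-- the cocycle condition on triple intersections -/
  cocycle : ∀ i j k,
    res (show U i ⊓ U j ⊓ U k ≤ U i ⊓ U j from inf_le_left) (g i j : Γ(X, U i ⊓ U j)) *
      res (show U i ⊓ U j ⊓ U k ≤ U j ⊓ U k from inf_le_inf_right _ inf_le_right)
        (g j k : Γ(X, U j ⊓ U k)) =
    res (show U i ⊓ U j ⊓ U k ≤ U i ⊓ U k from inf_le_inf_right _ inf_le_left)
      (g i k : Γ(X, U i ⊓ U k))

namespace LineBundle

variable {X Y : Scheme.{0}}

/-- The pull-back of a line bundle along a morphism. -/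
noncomputable def pullback (f : X ⟶ Y) (L : LineBundle Y) : LineBundle X where
  ι := L.ι
  U i := f ⁻¹ᵁ L.U i
  covers x := L.covers (f x)
  g i j := Units.map (pull f (show f ⁻¹ᵁ L.U i ⊓ f ⁻¹ᵁ L.U j ≤ f ⁻¹ᵁ (L.U i ⊓ L.U j) from le_rfl) :
    Γ(Y, L.U i ⊓ L.U j) →* Γ(X, f ⁻¹ᵁ L.U i ⊓ f ⁻¹ᵁ L.U j)) (L.g i j)
  cocycle i j k := by
    have h := congrArg (pull f (show f ⁻¹ᵁ L.U i ⊓ f ⁻¹ᵁ L.U j ⊓ f ⁻¹ᵁ L.U k ≤
      f ⁻¹ᵁ (L.U i ⊓ L.U j ⊓ L.U k) from le_rfl)) (L.cocycle i j k)
    simp only [map_mul, pull_res] at h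
    simpa only [Units.coe_map, MonoidHom.coe_coe, res_pull] using h

/-- The tensor product of two line bundles. -/
noncomputable def tensor (L M : LineBundle X) : LineBundle X where
  ι := L.ι × M.ι
  U i := L.U i.1 ⊓ M.U i.2
  covers x := by
    obtain ⟨i, hi⟩ := L.covers x
    obtain ⟨j, hj⟩ := M.covers x
    exact ⟨(i, j), hi, hj⟩
  g i j :=
    Units.map (res (show L.U i.1 ⊓ M.U i.2 ⊓ (L.U j.1 ⊓ M.U j.2) ≤ L.U i.1 ⊓ L.U j.1 from
        inf_le_inf inf_le_left inf_le_left) : _ →* _) (L.g i.1 j.1) *
    Units.map (res (show L.U i.1 ⊓ M.U i.2 ⊓ (L.U j.1 ⊓ M.U j.2) ≤ M.U i.2 ⊓ M.U j.2 from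
        inf_le_inf inf_le_right inf_le_right) : _ →* _) (M.g i.2 j.2)
  cocycle i j k := by
    have hL : L.U i.1 ⊓ M.U i.2 ⊓ (L.U j.1 ⊓ M.U j.2) ⊓ (L.U k.1 ⊓ M.U k.2) ≤
        L.U i.1 ⊓ L.U j.1 ⊓ L.U k.1 :=
      inf_le_inf (inf_le_inf inf_le_left inf_le_left) inf_le_left
    have hM : L.U i.1 ⊓ M.U i.2 ⊓ (L.U j.1 ⊓ M.U j.2) ⊓ (L.U k.1 ⊓ M.U k.2) ≤
        M.U i.2 ⊓ M.U j.2 ⊓ M.U k.2 :=
      inf_le_inf (inf_le_inf inf_le_right inf_le_right) inf_le_right
    have h1 := congrArg (res hL) (L.cocycle i.1 j.1 k.1)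
    have h2 := congrArg (res hM) (M.cocycle i.2 j.2 k.2)
    simp only [map_mul, res_res] at h1 h2
    simp only [Units.val_mul, Units.coe_map, MonoidHom.coe_coe, map_mul, res_res]
    rw [← h1, ← h2]
    ring

/-- A global section of the `n`-th tensor power of a line bundle, in the given trivialisations. -/
structure PowSection (L : LineBundle X) (n : ℕ) where
  /-- the local expressions of the section -/
  s : ∀ i, Γ(X, L.U i)
  /-- the gluing condition -/
  glue : ∀ i j, res (show L.U i ⊓ L.U j ≤ L.U i from inf_le_left) (s i) =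
    (L.g i j : Γ(X, L.U i ⊓ L.U j)) ^ n * res (show L.U i ⊓ L.U j ≤ L.U j from inf_le_right) (s j)

/-- The open set where a section of a power of a line bundle does not vanish. -/
noncomputable def PowSection.nonvanishing {L : LineBundle X} {n : ℕ} (σ : L.PowSection n) :
    X.Opens :=
  ⨆ i, X.basicOpen (σ.s i)

/-- `L` is ample: `X` is quasi-compact and every point lies in an affine open set of the form `X_s`
with `s` a global section of a positive power of `L`. -/
def IsAmple (L : LineBundle X) : Prop :=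
  CompactSpace X ∧ ∀ x : X, ∃ n : ℕ, 0 < n ∧ ∃ σ : L.PowSection n,
    x ∈ σ.nonvanishing ∧ IsAffineOpen σ.nonvanishing

/-- A nonzero rational section of a line bundle on an integral scheme: a family of nonzero
elements of the function field, related by the transition functions. -/
structure RatSection (C : Scheme.{0}) [IsIntegral C] (L : LineBundle C) where
  /-- the local expressions of the rational section -/
  r : L.ι → C.functionField
  /-- they are nonzero -/
  ne_zero : ∀ i, r i ≠ 0
  /-- the gluing condition -/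
  glue : ∀ i j, ∀ h : Nonempty (L.U i ⊓ L.U j : C.Opens),
    r i = C.germToFunctionField (L.U i ⊓ L.U j) (L.g i j : Γ(C, L.U i ⊓ L.U j)) * r j

/-- The order of vanishing of a rational section at a point (it is zero unless the point has
codimension one). -/
noncomputable def RatSection.ordAt {C : Scheme.{0}} [IsIntegral C] [IsLocallyNoetherian C]
    {L : LineBundle C} (σ : RatSection C L) (x : C) : ℤ :=
  Scheme.ord (σ.r (L.covers x).choose) x

/-- `d` is the degree of the line bundle `L` on the (integral, proper, complex) curve `C`: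
it is the degree of the divisor of a nonzero rational section of `L`. -/
def IsDegree {C : Scheme.{0}} [IsIntegral C] [IsLocallyNoetherian C] (L : LineBundle C)
    (d : ℤ) : Prop :=
  ∃ σ : RatSection C L, d = ∑ᶠ x : C, σ.ordAt x

end LineBundle

/-- A smooth irreducible complex projective variety, given by its structure morphism: an integral
scheme, smooth and proper over `ℂ`, which carries an ample line bundle. -/
structure IsProjectiveManifold {X : Scheme.{0}} (s : X ⟶ SC) : Prop where
  integral : IsIntegral X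
  smooth : Smooth s
  proper : IsProper s
  projective : ∃ L : LineBundle X, L.IsAmple

/-- The real divisor class `A - t B` is nef, where `A`, `B` are line bundles on a scheme `Y` over
`ℂ`: it has nonnegative degree on every curve `C`, that is on every integral proper complex scheme
of dimension one with a morphism to `Y`. -/
def NefSub {Y : Scheme.{0}} (sY : Y ⟶ SC) (A B : LineBundle Y) (t : ℝ) : Prop :=
  ∀ (C : Scheme.{0}) [IsIntegral C] [IsLocallyNoetherian C] (f : C ⟶ Y),
    IsProper (f ≫ sY) → topologicalKrullDim C = 1 →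
    ∀ a b : ℤ, (A.pullback f).IsDegree a → (B.pullback f).IsDegree b → 0 ≤ (a : ℝ) - t * b

/-- An ideal sheaf is invertible (the ideal sheaf of an effective Cartier divisor) if it is
locally generated by a nonzerodivisor. -/
def IsInvertibleIdeal {Y : Scheme.{0}} (I : Y.IdealSheafData) : Prop :=
  ∀ y : Y, ∃ U : Y.affineOpens, y ∈ U.1 ∧ ∃ a ∈ nonZeroDivisors Γ(Y, U.1),
    I.ideal U = Ideal.span {a}

/-- `β : B ⟶ Y` is the blow-up of `Y` along (the closed subscheme defined by) the ideal sheaf `I`:
the inverse image ideal sheaf is invertible, and `β` is universal with this property. -/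
structure IsBlowUp {B Y : Scheme.{0}} (β : B ⟶ Y) (I : Y.IdealSheafData) : Prop where
  invertible : IsInvertibleIdeal (I.comap β)
  universal : ∀ (T : Scheme.{0}) (g : T ⟶ Y), IsInvertibleIdeal (I.comap g) →
    ∃! h : T ⟶ B, h ≫ β = g

/-- `E` is the line bundle `O(D)` of the effective Cartier divisor `D` defined by the ideal
sheaf `J`: it has a global section whose local expressions generate `J`. -/
def IsDivisorBundle {B : Scheme.{0}} (E : LineBundle B) (J : B.IdealSheafData) : Prop :=
  ∃ e : E.PowSection 1, ∀ i, ∀ V : B.affineOpens, ∀ h : V.1 ≤ E.U i,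
    J.ideal V = Ideal.span {res h (e.s i)}

/-- `t ≥ 0` is such that `β^* M - t E` is nef, where `β : B ⟶ Y` is the blow-up of `Y` along `I`
and `E` is its exceptional divisor. -/
def IsSeshadriBound {Y : Scheme.{0}} (sY : Y ⟶ SC) (M : LineBundle Y) (I : Y.IdealSheafData)
    (t : ℝ) : Prop :=
  0 ≤ t ∧ ∃ (B : Scheme.{0}) (β : B ⟶ Y) (E : LineBundle B),
    IsBlowUp β I ∧ IsDivisorBundle E (I.comap β) ∧ NefSub (β ≫ sY) (M.pullback β) E t

/-- The Seshadri number `ε(M; W)` of `M` along the closed subscheme `W` defined by the ideal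
sheaf `I`. -/
noncomputable def seshadri {Y : Scheme.{0}} (sY : Y ⟶ SC) (M : LineBundle Y)
    (I : Y.IdealSheafData) : EReal :=
  sSup {ε : EReal | ∃ t : ℝ, ε = t ∧ IsSeshadriBound sY M I t}

/-- Finite étale morphisms. -/
structure IsFiniteEtale {X Y : Scheme.{0}} (f : X ⟶ Y) : Prop where
  finite : IsFinite f
  etale : Etale f

/-- A covering `q : W' ⟶ W` is completely split: it is isomorphic over `W` to a disjoint union of
finitely many copies of `W`. -/
def IsCompletelySplit {W' W : Scheme.{0}} (q : W' ⟶ W) : Prop :=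
  ∃ (n : ℕ) (e : W' ≅ ∐ (fun _ : Fin n => W)), e.hom ≫ Sigma.desc (fun _ => 𝟙 W) = q

/-- The homomorphism of algebraic fundamental groups induced by a morphism `f : Z ⟶ X` from a
connected scheme has infinite image. By the Galois correspondence this says: there is no connected
finite étale cover `W` of `Z` on which all the finite étale covers of `X` become completely
split. -/
def HasInfiniteImage {Z X : Scheme.{0}} (f : Z ⟶ X) : Prop :=
  ∀ (W : Scheme.{0}) (q : W ⟶ Z), IsFiniteEtale q → ConnectedSpace W →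
    ∃ (X' : Scheme.{0}) (p : X' ⟶ X), IsFiniteEtale p ∧
      ¬ IsCompletelySplit (pullback.fst (q ≫ f) p)

/-- `ν` is the normalisation of the variety `Z`: `Z'` is a normal integral scheme and `ν` is finite
and birational. -/
structure IsNormalisation {Z' Z : Scheme.{0}} (ν : Z' ⟶ Z) : Prop where
  integral : IsIntegral Z'
  normal : ∀ x : Z', IsIntegrallyClosed (Z'.presheaf.stalk x)
  finite : IsFinite ν
  birational : ∃ U : Z.Opens, (U : Set Z).Nonempty ∧ IsIso (ν ∣_ U)

/-- `X` has large algebraic fundamental group: for every closed subvariety `Z` of positive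
dimension, with normalisation `Z'`, the homomorphism from the algebraic fundamental group of `Z'`
to that of `X` has infinite image. -/
def HasLargeAlgFundGroup (X : Scheme.{0}) : Prop :=
  ∀ (Z : Scheme.{0}) (i : Z ⟶ X), IsClosedImmersion i → IsIntegral Z →
    0 < topologicalKrullDim Z →
    ∀ (Z' : Scheme.{0}) (ν : Z' ⟶ Z), IsNormalisation ν → HasInfiniteImage (ν ≫ i)

/-- For a finite étale cover `p : X' ⟶ X` and a line bundle `L` on `X`, the line bundle
`(p × p)^*(p₁^*L ⊗ p₂^*L)` on `X' × X'`. -/
noncomputable def Mp {X X' : Scheme.{0}} (s : X ⟶ SC) (p : X' ⟶ X) (L : LineBundle X) :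
    LineBundle (pullback (p ≫ s) (p ≫ s)) :=
  ((L.pullback (pullback.fst s s)).tensor (L.pullback (pullback.snd s s))).pullback
    (pullback.map (p ≫ s) (p ≫ s) s s p p (𝟙 SC) (by simp) (by simp))

/-- The Seshadri number `ε(M_p; D')` along the diagonal `D'` of `X' × X'`. -/
noncomputable def seshadriDiag {X X' : Scheme.{0}} (s : X ⟶ SC) (p : X' ⟶ X)
    (L : LineBundle X) : EReal :=
  seshadri (pullback.fst (p ≫ s) (p ≫ s) ≫ p ≫ s) (Mp s p L) (pullback.diagonal (p ≫ s)).ker

end Pool.Agent.MP77a250
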