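import Pool.Agent.MP77a250.Comap

set_option autoImplicit false

open CategoryTheory Limits AlgebraicGeometry TopologicalSpace

namespace Pool.Agent.MP77a250

open Scheme.IdealSheafData

lemma pull_congr {X Y : Scheme.{0}} {f g : X ⟶ Y} (e : f = g) {U : Y.Opens} {V : X.Opens}
    (h : V ≤ f ⁻¹ᵁ U) (h' : V ≤ g ⁻¹ᵁ U) (x : Γ(Y, U)) : pull f h x = pull g h' x := by
  subst e
  rfl

lemma pull_fromSpec {T : Scheme.{0}} {W : T.Opens} (hW : IsAffineOpen W)
    (h : ⊤ ≤ hW.fromSpec ⁻¹ᵁ W) (z : Γ(T, W)) :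
    pull hW.fromSpec h z = (Scheme.ΓSpecIso Γ(T, W)).inv.hom z := by
  have h1 := hW.fromSpec_app_self
  have h2 : hW.fromSpec.appLE W ⊤ h = (Scheme.ΓSpecIso Γ(T, W)).inv := by
    rw [Scheme.Hom.appLE, h1, Category.assoc, ← Functor.map_comp]
    have h3 : (eqToHom hW.fromSpec_preimage_self).op ≫ (homOfLE h).op = 𝟙 _ := rfl
    rw [h3, CategoryTheory.Functor.map_id, Category.comp_id]
  rw [pull, h2]

lemma pull_specMap {R S : CommRingCat.{0}} (φ : R ⟶ S)
    (h : (⊤ : (Spec S).Opens) ≤ Spec.map φ ⁻¹ᵁ ⊤) (z : R) :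
    pull (Spec.map φ) h ((Scheme.ΓSpecIso R).inv.hom z) = (Scheme.ΓSpecIso S).inv.hom (φ.hom z) := by
  have h1 := Scheme.ΓSpecIso_inv_naturality φ
  have h2 := congrArg (fun g => g.hom z) h1
  simp only [CommRingCat.hom_comp, RingHom.comp_apply] at h2
  rw [h2]
  exact congrArg (fun g => g.hom ((Scheme.ΓSpecIso R).inv.hom z))
    (Scheme.Hom.appLE_eq_app (Spec.map φ) (U := ⊤))

lemma pull_specMap_fromSpec {T : Scheme.{0}} {W : T.Opens} (hW : IsAffineOpen W)
    {S : CommRingCat.{0}} (φ : Γ(T, W) ⟶ S) (h : ⊤ ≤ (Spec.map φ ≫ hW.fromSpec) ⁻¹ᵁ W)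
    (z : Γ(T, W)) :
    pull (Spec.map φ ≫ hW.fromSpec) h z = (Scheme.ΓSpecIso S).inv.hom (φ.hom z) := by
  have h1 : ⊤ ≤ hW.fromSpec ⁻¹ᵁ W := hW.fromSpec_preimage_self.ge
  have h2 : (⊤ : (Spec S).Opens) ≤ Spec.map φ ⁻¹ᵁ ⊤ := fun _ _ => trivial
  rw [← pull_pull (Spec.map φ) hW.fromSpec h1 h2, pull_fromSpec, pull_specMap]

/-- Description of the inverse image of the ideal sheaf of the diagonal under a pair of morphisms
`f, g : T ⟶ X'`. -/
lemma diag_comap_ideal {T X' : Scheme.{0}} (s' : X' ⟶ SC) [IsSeparated s'] (f g : T ⟶ X')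
    (hfg : f ≫ s' = g ≫ s') (U : X'.affineOpens) (W : T.affineOpens)
    (hf : W.1 ≤ f ⁻¹ᵁ U.1) (hg : W.1 ≤ g ⁻¹ᵁ U.1) :
    ((pullback.diagonal s').ker.comap (pullback.lift f g hfg)).ideal W =
      Ideal.span (Set.range fun a : Γ(X', U.1) => pull f hf a - pull g hg a) := by
  set h : T ⟶ pullback s' s' := pullback.lift f g hfg with hh
  set j := pullback.fst h (pullback.diagonal s') with hj
  have h1 : h ≫ pullback.fst s' s' = f := pullback.lift_fst _ _ _
  have h2 : h ≫ pullback.snd s' s' = g := pullback.lift_snd _ _ _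
  have hker : (pullback.diagonal s').ker.comap h = j.ker :=
    (ker_fst_of_isClosedImmersion (pullback.diagonal s') h).symm
  have hjeq : j ≫ f = j ≫ g := by
    rw [← h1, ← h2, hj, pullback.condition_assoc, pullback.condition_assoc]
    simp
  have key : ∀ {Q : Scheme.{0}} (q : Q ⟶ T), q ≫ f = q ≫ g →
      q ≫ h = (q ≫ f) ≫ pullback.diagonal s' := by
    intro Q q hq
    apply pullback.hom_ext
    · rw [Category.assoc, h1, Category.assoc, pullback.diagonal_fst, Category.comp_id]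
    · rw [Category.assoc, h2, Category.assoc, pullback.diagonal_snd, Category.comp_id, hq]
  rw [hker]
  apply le_antisymm
  · intro z hz
    set J := Ideal.span (Set.range fun a : Γ(X', U.1) => pull f hf a - pull g hg a) with hJ
    let φ : Γ(T, W.1) ⟶ CommRingCat.of (Γ(T, W.1) ⧸ J) := CommRingCat.ofHom (Ideal.Quotient.mk J)
    let q : Spec (CommRingCat.of (Γ(T, W.1) ⧸ J)) ⟶ T := Spec.map φ ≫ W.2.fromSpec
    have hqf : q ≫ f = Spec.map (f.appLE U.1 W.1 hf ≫ φ) ≫ U.2.fromSpec := by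
      rw [Category.assoc, ← IsAffineOpen.SpecMap_appLE_fromSpec f U.2 W.2 hf, Spec.map_comp,
        Category.assoc]
    have hqg : q ≫ g = Spec.map (g.appLE U.1 W.1 hg ≫ φ) ≫ U.2.fromSpec := by
      rw [Category.assoc, ← IsAffineOpen.SpecMap_appLE_fromSpec g U.2 W.2 hg, Spec.map_comp,
        Category.assoc]
    have hring : f.appLE U.1 W.1 hf ≫ φ = g.appLE U.1 W.1 hg ≫ φ := by
      ext a
      simp only [CommRingCat.hom_comp, RingHom.comp_apply]
      refine (Ideal.Quotient.mk_eq_mk_iff_sub_mem _ _).mpr ?_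
      exact Ideal.subset_span ⟨a, rfl⟩
    have hq : q ≫ f = q ≫ g := by rw [hqf, hqg, hring]
    have hq2 : q ≫ h = (q ≫ f) ≫ pullback.diagonal s' := key q hq
    have hfac : pullback.lift q (q ≫ f) hq2 ≫ j = q := pullback.lift_fst _ _ _
    have hle : j.ker ≤ q.ker := by
      rw [← hfac]
      exact Scheme.Hom.le_ker_comp _ _
    have hz2 := Scheme.Hom.ideal_ker_le q W (hle W hz)
    rw [RingHom.mem_ker] at hz2
    have htop : ⊤ ≤ q ⁻¹ᵁ W.1 := by
      intro x _
      have hx : Spec.map φ x ∈ (⊤ : (Spec Γ(T, W.1)).Opens) := trivial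
      rw [← W.2.fromSpec_preimage_self] at hx
      exact hx
    have hz3 : pull q htop z = 0 := by
      have := congrArg (res htop) hz2
      rw [map_zero] at this
      rw [← this]
      have h3 : (q.app W.1).hom = pull q (show q ⁻¹ᵁ W.1 ≤ q ⁻¹ᵁ W.1 from le_rfl) :=
        congrArg _ (Scheme.Hom.appLE_eq_app q (U := W.1)).symm
      rw [h3, res_pull]
    have hz4 := pull_specMap_fromSpec W.2 φ htop z
    rw [show pull (Spec.map φ ≫ W.2.fromSpec) htop z = 0 from hz3] at hz4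
    have h4 : Function.Injective (Scheme.ΓSpecIso (CommRingCat.of (Γ(T, W.1) ⧸ J))).inv.hom :=
      (ConcreteCategory.bijective_of_isIso
        (Scheme.ΓSpecIso (CommRingCat.of (Γ(T, W.1) ⧸ J))).inv).injective
    have h5 : φ.hom z = 0 := h4 (by rw [← hz4, map_zero])
    exact Ideal.Quotient.eq_zero_iff_mem.mp h5
  · rw [Ideal.span_le]
    rintro _ ⟨a, rfl⟩
    rw [SetLike.mem_coe, Scheme.Hom.ker_apply, RingHom.mem_ker, map_sub, sub_eq_zero]
    have h1 : (j.app W.1).hom = pull j (show j ⁻¹ᵁ W.1 ≤ j ⁻¹ᵁ W.1 from le_rfl) :=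
      congrArg _ (Scheme.Hom.appLE_eq_app j (U := W.1)).symm
    rw [h1, pull_pull, pull_pull]
    exact pull_congr hjeq _ _ _

end Pool.Agent.MP77a250
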