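import Pool.Agent.MP77a250.XChart

set_option autoImplicit false

open MvPolynomial

namespace Pool.Agent.MP77a250

noncomputable section

/-- The equation of the elliptic curve. -/
def g2 : MvPolynomial (Fin 2) ℂ := X 1 ^ 2 - X 0 ^ 4 - 1

/-- The coordinate ring of the affine elliptic curve `u² = s⁴ + 1`. -/
abbrev S2 : Type := MvPolynomial (Fin 2) ℂ ⧸ Ideal.span {g2}

/-- A solution of the equation `u² = s⁴ + 1`. -/
structure Sol2 (C : Type) [CommRing C] where
  s : C
  u : C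
  hu : u ^ 2 = s ^ 4 + 1

section

variable {C : Type} [CommRing C] [Algebra ℂ C]

/-- The homomorphism defined by a solution. -/
def lift2 (θ : Sol2 C) : S2 →ₐ[ℂ] C :=
  Ideal.Quotient.liftₐ _ (aeval ![θ.s, θ.u]) (by
    intro a ha
    have h : Ideal.span {g2} ≤ RingHom.ker (aeval (R := ℂ) ![θ.s, θ.u]) := by
      rw [Ideal.span_singleton_le_iff_mem, RingHom.mem_ker]
      simp [g2, θ.hu]
    exact h ha)

/-- The generators of the ring. -/
def x2 (i : Fin 2) : S2 := Ideal.Quotient.mk _ (X i)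

lemma lift2_x (θ : Sol2 C) (i : Fin 2) : lift2 θ (x2 i) = ![θ.s, θ.u] i := by
  change aeval (R := ℂ) ![θ.s, θ.u] (X i) = _
  rw [aeval_X]

lemma lift2_s (θ : Sol2 C) : lift2 θ (x2 0) = θ.s := lift2_x θ 0
lemma lift2_u (θ : Sol2 C) : lift2 θ (x2 1) = θ.u := lift2_x θ 1

lemma x2_hu : x2 1 ^ 2 = x2 0 ^ 4 + 1 := by
  have h : Ideal.Quotient.mk (Ideal.span {g2}) (X 1 ^ 2 - X 0 ^ 4 - 1) = 0 :=
    Ideal.Quotient.eq_zero_iff_mem.mpr (Ideal.mem_span_singleton_self _)
  rw [map_sub, map_sub, map_pow, map_pow, map_one] at h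
  rw [x2, x2]
  linear_combination h

lemma S2_hom_ext {φ ψ : S2 →ₐ[ℂ] C} (h0 : φ (x2 0) = ψ (x2 0)) (h1 : φ (x2 1) = ψ (x2 1)) :
    φ = ψ := by
  apply Ideal.Quotient.algHom_ext
  apply MvPolynomial.algHom_ext
  intro i
  fin_cases i
  · exact h0
  · exact h1

/-- The subring generated by `s`. -/
def N20 : Subring S2 :=
  ((Polynomial.aeval (x2 0) : Polynomial ℂ →ₐ[ℂ] S2) : Polynomial ℂ →+* S2).range

lemma x20_mem : x2 0 ∈ N20 := ⟨Polynomial.X, by simp⟩

lemma x21_sq : x2 1 ^ 2 ∈ N20 := by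
  rw [x2_hu]
  exact add_mem (pow_mem x20_mem 4) (one_mem _)

def N21 : Subring S2 := quadRing N20 (x2 1) x21_sq

lemma N21_eq_top (z : S2) : z ∈ N21 := by
  obtain ⟨p, rfl⟩ := Ideal.Quotient.mk_surjective z
  induction p using MvPolynomial.induction_on with
  | C a => exact le_quadRing ⟨Polynomial.C a, by simp; rfl⟩
  | add p q hp hq => rw [map_add]; exact add_mem hp hq
  | mul_X p i hp =>
    rw [map_mul]
    refine mul_mem hp ?_
    change x2 i ∈ N21
    fin_cases i
    · exact le_quadRing x20_mem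
    · exact self_mem_quadRing

end

lemma nsE : ∀ r : Polynomial ℂ, r ^ 2 ≠ Polynomial.X ^ 4 + 1 := by
  obtain ⟨ρ, hρ, hρ0⟩ := exists_root
  refine nonsq_poly _ ρ ?_ ?_
  · simp [hρ]
  · simp [hρ0]
    norm_num

section

variable {K : Type} [Field K] [Algebra ℂ K]

lemma lift2_injective (θ : Sol2 K) (hθ : Transcendental ℂ θ.s) :
    Function.Injective (lift2 θ) := by
  let φ : Polynomial ℂ →+* K := ((Polynomial.aeval θ.s : Polynomial ℂ →ₐ[ℂ] K) : Polynomial ℂ →+* K)
  have hφ : Function.Injective φ := transcendental_iff_injective.mp hθ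
  let ψ : S2 →+* K := (lift2 θ : S2 →+* K)
  have hφA : φ (Polynomial.X ^ 4 + 1) = θ.u ^ 2 := by
    rw [θ.hu]
    simp [φ]
  have hψ0 : ∀ p : Polynomial ℂ, ψ (Polynomial.aeval (x2 0) p) = φ p := by
    intro p
    have h : (lift2 θ).comp (Polynomial.aeval (x2 0)) = Polynomial.aeval θ.s := by
      apply Polynomial.algHom_ext
      simp [lift2_x]
    exact congrArg (fun g => g p) h
  have hu : ψ (x2 1) = θ.u := lift2_u θ
  let k0 := fracField φ hφ
  have hmem : ∀ f, φ f ∈ k0 := fun f => mem_fracField φ hφ f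
  have e0 : Emb ψ N20 k0 := by
    constructor
    · rintro _ ⟨p, rfl⟩
      change ψ (Polynomial.aeval (x2 0) p) ∈ k0
      rw [hψ0]
      exact hmem p
    · rintro _ ⟨p, rfl⟩ h
      change ψ (Polynomial.aeval (x2 0) p) = 0 at h
      change Polynomial.aeval (x2 0) p = 0
      rw [hψ0] at h
      have : p = 0 := hφ (by rw [h, map_zero])
      rw [this, map_zero]
  have hu2 : (ψ (x2 1)) ^ 2 ∈ k0 := by rw [hu, ← hφA]; exact hmem _
  have n1 : Nonsq k0 ((ψ (x2 1)) ^ 2) := by
    rw [hu, ← hφA]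
    exact nonsq_fracField φ hφ _ nsE
  have e1 : Emb ψ N21 (quadField k0 (ψ (x2 1)) hu2) := e0.quad _ x21_sq hu2 n1
  rw [injective_iff_map_eq_zero]
  intro a ha
  exact e1.inj a (N21_eq_top a) ha

/-- The change of coordinates `s ↦ 1/s`. -/
def Sol2.inv (θ : Sol2 K) (hs : θ.s ≠ 0) : Sol2 K where
  s := θ.s⁻¹
  u := θ.u / θ.s ^ 2
  hu := by
    rw [div_pow, θ.hu]; field_simp; ring

end

/-- The solutions in the function field of the surface. -/
def ps : Sol2 K5 := ⟨th0.s, th0.u, th0.hu⟩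
def pt' : Sol2 K5 := ⟨th0.t, th0.v, th0.hv⟩

lemma transcendental_s : Transcendental ℂ th0.s := ai_th0.transcendental 0

lemma ps_s : ps.s ≠ 0 := th0_s

/-- The two charts. -/
def pe : Bool → Sol2 K5
  | false => ps
  | true => ps.inv ps_s

lemma pe_injective (k : Bool) : Function.Injective (lift2 (pe k)) := by
  apply lift2_injective
  cases k
  · exact transcendental_s
  · intro h
    exact transcendental_s (IsAlgebraic.inv_iff.mp h)

instance : IsDomain S2 := Function.Injective.isDomain (lift2 (pe false) : S2 →+* K5)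
  (pe_injective false)

end

end Pool.Agent.MP77a250
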