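import Pool.Agent.MP77a250.E1

set_option autoImplicit false

open Polynomial

namespace Pool.Agent.MP77a250

noncomputable section

def gE : Fin 3 → K5 := ![1, th0.s, th0.u]

def dE : Fin 3 → ℕ := ![1, 1, 2]

def fE : Bool → K5
  | false => 1
  | true => th0.s

lemma fE_ne (k : Bool) : fE k ≠ 0 := by
  cases k
  · exact one_ne_zero
  · exact th0_s

lemma fE_mem (k : Bool) : monomial 1 (fE k) ∈ RA gE dE := by
  cases k
  · exact gen_mem gE dE 0
  · exact gen_mem gE dE 1

/-- The generators of the ideal. -/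
def FE (k : Bool) : RA gE dE := ⟨monomial 1 (fE k), fE_mem k⟩

lemma FE_mem (k : Bool) : FE k ∈ Ideal.span (Set.range fun k =>
    (⟨monomial 1 (fE k), fE_mem k⟩ : RA gE dE)) := Ideal.subset_span ⟨k, rfl⟩

lemma covE (i : Fin 3) : ∃ n, 0 < n ∧ (⟨monomial (dE i) (gE i), gen_mem gE dE i⟩ : RA gE dE) ^ n ∈
    Ideal.span (Set.range fun k => (⟨monomial 1 (fE k), fE_mem k⟩ : RA gE dE)) := by
  fin_cases i
  · refine ⟨1, one_pos, ?_⟩
    rw [pow_one]
    exact Ideal.subset_span ⟨false, rfl⟩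
  · refine ⟨1, one_pos, ?_⟩
    rw [pow_one]
    exact Ideal.subset_span ⟨true, rfl⟩
  · refine ⟨2, two_pos, ?_⟩
    have h1 : (⟨monomial (dE 2) (gE 2), gen_mem gE dE 2⟩ : RA gE dE) ^ 2 =
        FE false ^ 3 * FE false + FE true ^ 3 * FE true := by
      apply Subtype.ext
      change (monomial 2 th0.u : K5[X]) ^ 2 = (monomial 1 1) ^ 3 * monomial 1 1 +
        (monomial 1 th0.s) ^ 3 * monomial 1 th0.s
      simp only [mon_eq]
      have h := congrArg (C : K5 → K5[X]) th0.hu
      simp only [C_pow, C_add, C_1] at h ⊢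
      linear_combination (X ^ 4 : K5[X]) * h
    change (⟨monomial (dE 2) (gE 2), gen_mem gE dE 2⟩ : RA gE dE) ^ 2 ∈ _
    rw [h1]
    exact add_mem (Ideal.mul_mem_left _ _ (FE_mem _)) (Ideal.mul_mem_left _ _ (FE_mem _))

/-- The data defining the elliptic curve. -/
def PE : ProjData K5 where
  ι := Fin 3
  fin := inferInstance
  g := gE
  d := dE
  dpos i := by fin_cases i <;> simp [dE]
  κ := Bool
  finκ := inferInstance
  k0 := false
  f := fE
  fne := fE_ne
  fmem := fE_mem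
  cov := covE

section

variable {K : Type} [Field K] [Algebra ℂ K]

lemma lift2_mem (θ : Sol2 K) (A : Subalgebra ℂ K) (hs : θ.s ∈ A) (hu : θ.u ∈ A) (z : S2) :
    lift2 θ z ∈ A := by
  obtain ⟨p, rfl⟩ := Ideal.Quotient.mk_surjective z
  induction p using MvPolynomial.induction_on with
  | C a =>
    have : lift2 θ (Ideal.Quotient.mk _ (MvPolynomial.C a)) = algebraMap ℂ K a :=
      (lift2 θ).commutes a
    rw [this]
    exact Subalgebra.algebraMap_mem _ _
  | add p q hp hq => rw [map_add, map_add]; exact add_mem hp hq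
  | mul_X p i hp =>
    rw [map_mul, map_mul]
    refine mul_mem hp ?_
    change lift2 θ (x2 i) ∈ A
    rw [lift2_x]
    fin_cases i
    · exact hs
    · exact hu

lemma s2_mem (θ : Sol2 K) : θ.s ∈ (lift2 θ).range := ⟨x2 0, lift2_x θ 0⟩
lemma u2_mem (θ : Sol2 K) : θ.u ∈ (lift2 θ).range := ⟨x2 1, lift2_x θ 1⟩

end

lemma gE_div_mem (k : Bool) (i : Fin 3) : gE i / fE k ^ dE i ∈ (lift2 (pe k)).range := by
  have hs0 := th0_s
  have key : ∃ y ∈ (lift2 (pe k)).range, gE i / fE k ^ dE i = y := by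
    have hs := s2_mem (pe k)
    have hu := u2_mem (pe k)
    cases k
    · fin_cases i
      · exact ⟨_, one_mem _, by simp [gE, fE, dE]⟩
      · exact ⟨_, hs, by simp [gE, fE, dE, pe, ps]⟩
      · exact ⟨_, hu, by simp [gE, fE, dE, pe, ps]⟩
    · fin_cases i
      · exact ⟨_, hs, by simp [gE, fE, dE, pe, ps, Sol2.inv]⟩
      · exact ⟨_, one_mem _, by simp [gE, fE, dE, hs0]⟩
      · exact ⟨_, hu, by simp [gE, fE, dE, pe, ps, Sol2.inv]⟩
  obtain ⟨y, hy, h⟩ := key
  rw [h]
  exact hy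

lemma mem_ChartE (k : Bool) (i : Fin 3) {y : K5} (h : y = gE i / fE k ^ dE i) :
    y ∈ Chart gE dE (fE k) := by
  rw [h]
  exact Algebra.subset_adjoin ⟨i, rfl⟩

lemma ChartE_eq (k : Bool) : Chart gE dE (fE k) = (lift2 (pe k)).range := by
  have hs0 := th0_s
  apply le_antisymm
  · apply Algebra.adjoin_le
    rintro _ ⟨i, rfl⟩
    exact gE_div_mem k i
  · rintro _ ⟨z, rfl⟩
    apply lift2_mem
    all_goals cases k
    · exact mem_ChartE _ 1 (by simp [gE, fE, dE, pe, ps])
    · exact mem_ChartE _ 0 (by simp [gE, fE, dE, pe, ps, Sol2.inv])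
    · exact mem_ChartE _ 2 (by simp [gE, fE, dE, pe, ps])
    · exact mem_ChartE _ 2 (by simp [gE, fE, dE, pe, ps, Sol2.inv])

/-- The elliptic curve. -/
def ME : Model K5 := PE.toModel

lemma AE (k : Bool) : ME.A k = (lift2 (pe k)).range := ChartE_eq k

/-- The isomorphisms of the chart rings with the standard ring. -/
def eqE (k : Bool) : S2 ≃ₐ[ℂ] ME.A k :=
  (AlgEquiv.ofInjective (lift2 (pe k)) (pe_injective k)).trans
    (Subalgebra.equivOfEq _ _ (AE k).symm)

lemma eqE_coe (k : Bool) (z : S2) : (eqE k z : K5) = lift2 (pe k) z := rfl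

end

end Pool.Agent.MP77a250
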