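import Pool.Agent.MP77a250.MLine

set_option autoImplicit false

open CategoryTheory Limits AlgebraicGeometry TopologicalSpace

namespace Pool.Agent.MP77a250

/-- Gluing of morphisms which agree at the generic point. -/
lemma exists_glue {X Y : Scheme.{0}} [IsReduced X] [Y.IsSeparated] {Q : Scheme.{0}} (pt : Q ⟶ X)
    (hpt : ∀ V : X.Opens, (∃ x, x ∈ V) → ∃ z, pt z ∈ V)
    {I : Type} (B : I → Scheme.{0}) (b : ∀ i, B i ⟶ X) [∀ i, IsOpenImmersion (b i)]
    (hcov : ∀ x, ∃ i, x ∈ Set.range (b i)) (β : ∀ i, Q ⟶ B i) (hβ : ∀ i, β i ≫ b i = pt)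
    (y : Q ⟶ Y) (h : ∀ i, B i ⟶ Y) (hh : ∀ i, β i ≫ h i = y) :
    ∃ φ : X ⟶ Y, ∀ i, b i ≫ φ = h i := by
  let 𝒰 : X.OpenCover := Scheme.Cover.mkOfCovers I B b (fun x => by
    obtain ⟨i, z, hz⟩ := hcov x
    exact ⟨i, z, hz⟩) (fun i => inferInstance)
  have hcompat : ∀ i j : I, pullback.fst (b i) (b j) ≫ h i = pullback.snd (b i) (b j) ≫ h j := by
    intro i j
    have hred : IsReduced (pullback (b i) (b j)) :=
      isReduced_of_isOpenImmersion (pullback.fst (b i) (b j) ≫ b i)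
    let l : Q ⟶ pullback (b i) (b j) := pullback.lift (β i) (β j) (by rw [hβ, hβ])
    have hdom : IsDominant l := by
      constructor
      rw [DenseRange, dense_iff_inter_open]
      rintro V hV ⟨v, hv⟩
      let e := pullback.fst (b i) (b j) ≫ b i
      obtain ⟨z, hz⟩ := hpt (e ''ᵁ ⟨V, hV⟩) ⟨e v, v, hv, rfl⟩
      obtain ⟨v', hv', hv'z⟩ := hz
      have h1 : e (l z) = pt z := by
        rw [← hβ i]
        have h2 : l ≫ e = β i ≫ b i := by
          rw [← Category.assoc, pullback.lift_fst]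
        exact congrArg (fun g => g z) h2
      have h3 : v' = l z := e.isOpenEmbedding.injective (hv'z.trans h1.symm)
      exact ⟨l z, h3 ▸ hv', z, rfl⟩
    refine ext_of_isDominant l ?_
    rw [← Category.assoc, ← Category.assoc, pullback.lift_fst, pullback.lift_snd, hh, hh]
  refine ⟨Scheme.Cover.glueMorphisms 𝒰 h hcompat, fun i => ?_⟩
  exact Scheme.Cover.ι_glueMorphisms 𝒰 h hcompat i

namespace Model

variable {K : Type} [Field K] [Algebra ℂ K] (M : Model K)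

lemma exists_hom {Y : Scheme.{0}} [Y.IsSeparated] {I : Type} (B : I → Scheme.{0})
    (b : ∀ i, B i ⟶ M.X) [∀ i, IsOpenImmersion (b i)]
    (hcov : ∀ x, ∃ i, x ∈ Set.range (b i)) (β : ∀ i, Spec (.of K) ⟶ B i)
    (hβ : ∀ i, β i ≫ b i = M.pt)
    (y : Spec (.of K) ⟶ Y) (h : ∀ i, B i ⟶ Y) (hh : ∀ i, β i ≫ h i = y) :
    ∃ φ : M.X ⟶ Y, ∀ i, b i ≫ φ = h i :=
  exists_glue M.pt (fun _ ⟨_, hx⟩ => ⟨(⊥ : PrimeSpectrum K), M.pt_mem hx _⟩) B b hcov β hβ y h hh

lemma isSeparated : M.X.IsSeparated := by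
  have h : IsSeparated (M.s ≫ terminal.from SC) := inferInstance
  rw [show M.s ≫ terminal.from SC = terminal.from M.X from terminal.hom_ext _ _] at h
  exact ⟨h⟩

/-- Gluing morphisms on the standard charts. -/
lemma exists_hom' {Y : Scheme.{0}} [Y.IsSeparated] (y : Spec (.of K) ⟶ Y)
    (h : ∀ k, Spec (.of (M.A k)) ⟶ Y) (hh : ∀ k, Spec.map (M.inc k) ≫ h k = y) :
    ∃ φ : M.X ⟶ Y, ∀ k, M.j k ≫ φ = h k :=
  M.exists_hom _ M.j M.covers (fun k => Spec.map (M.inc k)) M.inc_j' y h hh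

/-- Two morphisms out of a model agree if they agree on the charts. -/
lemma hom_ext {Y : Scheme.{0}} {φ ψ : M.X ⟶ Y} (h : ∀ k, M.j k ≫ φ = M.j k ≫ ψ) : φ = ψ := by
  let 𝒰 : M.X.OpenCover := Scheme.Cover.mkOfCovers M.κ _ M.j (fun x => by
    obtain ⟨i, z, hz⟩ := M.covers x
    exact ⟨i, z, hz⟩) (fun i => inferInstance)
  exact Scheme.Cover.hom_ext 𝒰 _ _ h

end Model

end Pool.Agent.MP77a250
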