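import Pool.Agent.MP77a250.E2
import Pool.Agent.MP77a250.MGlue

set_option autoImplicit false

open CategoryTheory Limits AlgebraicGeometry TopologicalSpace

namespace Pool.Agent.MP77a250

noncomputable section

/-- The chart isomorphism on rings. -/
def eE (k : Bool) : CommRingCat.of (ME.A k) ⟶ CommRingCat.of S2 :=
  CommRingCat.ofHom ((eqE k).symm : ME.A k →+* S2)

instance (k : Bool) : IsIso (eE k) :=
  (ConcreteCategory.isIso_iff_bijective (eE k)).mpr (eqE k).symm.bijective

/-- The standard charts of the elliptic curve. -/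
def je (k : Bool) : Spec (.of S2) ⟶ ME.X := Spec.map (eE k) ≫ ME.j k

instance (k : Bool) : IsOpenImmersion (je k) := by
  unfold je
  infer_instance

lemma je_covers (x : ME.X) : ∃ k, x ∈ Set.range (je k) := by
  obtain ⟨k, y, rfl⟩ := ME.covers x
  refine ⟨k, Spec.map (inv (eE k)) y, ?_⟩
  change (Spec.map (inv (eE k)) ≫ Spec.map (eE k) ≫ ME.j k) y = ME.j k y
  rw [← Category.assoc, ← Spec.map_comp, IsIso.hom_inv_id, Spec.map_id, Category.id_comp]

lemma je_s (k : Bool) : je k ≫ ME.s = Spec.map (CommRingCat.ofHom (algebraMap ℂ S2)) := by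
  rw [je, Category.assoc, ME.j_s k, ← Spec.map_comp]
  congr 1
  ext a
  exact (eqE k).symm.commutes a

/-- The point of the curve with given coordinates in a given chart. -/
def ptE {C : Type} [CommRing C] [Algebra ℂ C] (k : Bool) (θ : Sol2 C) : Spec (.of C) ⟶ ME.X :=
  Spec.map (CommRingCat.ofHom (lift2 θ : S2 →+* C)) ≫ je k

lemma ptE_s {C : Type} [CommRing C] [Algebra ℂ C] (k : Bool) (θ : Sol2 C) :
    ptE k θ ≫ ME.s = Spec.map (CommRingCat.ofHom (algebraMap ℂ C)) := by
  rw [ptE, Category.assoc, je_s, ← Spec.map_comp]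
  congr 1
  ext a
  exact (lift2 θ).commutes a

/-- The image of a solution under a homomorphism. -/
def Sol2.map {C C' : Type} [CommRing C] [CommRing C'] (φ : C →+* C') (θ : Sol2 C) : Sol2 C' where
  s := φ θ.s
  u := φ θ.u
  hu := by rw [← map_pow, θ.hu, map_add, map_pow, map_one]

lemma lift2_map {C C' : Type} [CommRing C] [CommRing C'] [Algebra ℂ C] [Algebra ℂ C']
    (φ : C →ₐ[ℂ] C') (θ : Sol2 C) (z : S2) :
    φ (lift2 θ z) = lift2 (θ.map (φ : C →+* C')) z := by
  have h : φ.comp (lift2 θ) = lift2 (θ.map (φ : C →+* C')) := by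
    apply S2_hom_ext
    · rw [AlgHom.comp_apply, lift2_s, lift2_s]; rfl
    · rw [AlgHom.comp_apply, lift2_u, lift2_u]; rfl
  exact congrArg (fun g => g z) h

lemma map_ptE {C C' : Type} [CommRing C] [CommRing C'] [Algebra ℂ C] [Algebra ℂ C'] (k : Bool)
    (φ : C →ₐ[ℂ] C') (θ : Sol2 C) :
    Spec.map (CommRingCat.ofHom (φ : C →+* C')) ≫ ptE k θ = ptE k (θ.map (φ : C →+* C')) := by
  rw [ptE, ptE, ← Category.assoc, ← Spec.map_comp]
  congr 2
  refine CommRingCat.hom_ext (RingHom.ext fun z => ?_)
  exact lift2_map φ θ z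

lemma ptE_pe (k : Bool) : ptE k (pe k) = ME.pt := by
  rw [ptE, je, ← ME.inc_j' k, ← Category.assoc, ← Spec.map_comp]
  congr 2
  ext z
  change lift2 (pe k) ((eqE k).symm z) = z
  rw [← eqE_coe, AlgEquiv.apply_symm_apply]

/-- The two charts are glued by `(s, u) ↦ (1/s, u/s²)`. -/
lemma ptE_overlap {C : Type} [CommRing C] [Algebra ℂ C] (θ θ' : Sol2 C)
    (hs : θ.s * θ'.s = 1) (hu : θ'.u = θ.u * θ'.s ^ 2) : ptE false θ = ptE true θ' := by
  -- the universal case
  let L := Localization.Away (x2 0 : S2)
  have hunit : IsUnit (algebraMap S2 L (x2 0)) := IsLocalization.Away.algebraMap_isUnit (x2 0)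
  obtain ⟨i, hi⟩ := hunit.exists_right_inv
  let T : Sol2 L := ⟨algebraMap S2 L (x2 0), algebraMap S2 L (x2 1), by
    rw [← map_pow, x2_hu, map_add, map_pow, map_one]⟩
  have hTu := T.hu
  let T' : Sol2 L := ⟨i, algebraMap S2 L (x2 1) * i ^ 2, by
    have h4 : i ^ 4 * (algebraMap S2 L (x2 0)) ^ 4 = 1 := by
      rw [← mul_pow, mul_comm i, hi, one_pow]
    have h5 : algebraMap S2 L (x2 1) ^ 2 = algebraMap S2 L (x2 0) ^ 4 + 1 := T.hu
    linear_combination i ^ 4 * h5 + h4⟩
  have hL : ptE false T = ptE true T' := by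
    -- the embedding of `L` in `K5`
    have hne : IsUnit ((lift2 (pe false) : S2 →+* K5) (x2 0)) := by
      have : (lift2 (pe false) : S2 →+* K5) (x2 0) = th0.s := lift2_s (pe false)
      rw [this]
      exact (isUnit_iff_ne_zero).mpr th0_s
    let e : L →+* K5 := IsLocalization.Away.lift (x2 0) hne
    have he : ∀ z, e (algebraMap S2 L z) = lift2 (pe false) z := fun z =>
      IsLocalization.Away.lift_eq (x2 0) hne z
    have hinj : Function.Injective e := by
      apply (IsLocalization.lift_injective_iff (M := Submonoid.powers (x2 0 : S2)) _).mpr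
      intro a b
      constructor
      · intro h
        have h1 := congrArg e h
        rw [he, he] at h1
        exact h1
      · intro h
        congr 1
        exact pe_injective false h
    let eA : L →ₐ[ℂ] K5 := { e with
      commutes' := fun r => by
        have h1 : algebraMap ℂ L r = algebraMap S2 L (algebraMap ℂ S2 r) :=
          IsScalarTower.algebraMap_apply ℂ S2 L r
        change e (algebraMap ℂ L r) = _
        rw [h1, he]
        exact (lift2 (pe false)).commutes r }
    have hdom : IsDominant (Spec.map (CommRingCat.ofHom (eA : L →+* K5))) := by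
      constructor
      exact (PrimeSpectrum.denseRange_comap_iff_ker_le_nilRadical _).mpr (by
        have h0 := (RingHom.injective_iff_ker_eq_bot e).mp hinj
        exact le_trans (le_of_eq h0) bot_le)
    have hdomL : IsDomain L := IsLocalization.isDomain_localization
      (powers_le_nonZeroDivisors_of_noZeroDivisors (by
        intro h
        have := lift2_s (pe false)
        rw [h, map_zero] at this
        exact th0_s this.symm))
    have hsep := ME.isSeparated
    refine ext_of_isDominant (Spec.map (CommRingCat.ofHom (eA : L →+* K5))) ?_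
    rw [map_ptE, map_ptE]
    have h1 : T.map (eA : L →+* K5) = pe false := by
      have h2 : eA (algebraMap S2 L (x2 0)) = (pe false).s := (he _).trans (lift2_s _)
      have h3 : eA (algebraMap S2 L (x2 1)) = (pe false).u := (he _).trans (lift2_u _)
      cases h : pe false
      rw [h] at h2 h3
      simp only [Sol2.map, T]
      congr 1
    have h2 : T'.map (eA : L →+* K5) = pe true := by
      have h2 : eA (algebraMap S2 L (x2 0)) = (pe false).s := (he _).trans (lift2_s _)
      have h3 : eA (algebraMap S2 L (x2 1)) = (pe false).u := (he _).trans (lift2_u _)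
      have h4 : eA i = (pe true).s := by
        have h5 := congrArg eA hi
        rw [map_mul, map_one, h2] at h5
        exact eq_inv_of_mul_eq_one_right h5
      have h6 : eA (algebraMap S2 L (x2 1) * i ^ 2) = (pe true).u := by
        rw [map_mul, map_pow, h3, h4]
        change th0.u * (th0.s⁻¹) ^ 2 = th0.u / th0.s ^ 2
        rw [inv_pow, div_eq_mul_inv]
      cases h : pe true
      rw [h] at h4 h6
      simp only [Sol2.map, T']
      congr 1
    rw [h1, h2, ptE_pe, ptE_pe]
  -- the general case
  have hun : IsUnit ((lift2 θ : S2 →+* C) (x2 0)) := by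
    have : (lift2 θ : S2 →+* C) (x2 0) = θ.s := lift2_s θ
    rw [this]
    exact IsUnit.of_mul_eq_one _ hs
  let e : L →+* C := IsLocalization.Away.lift (x2 0) hun
  have he : ∀ z, e (algebraMap S2 L z) = lift2 θ z := fun z =>
      IsLocalization.Away.lift_eq (x2 0) hun z
  let eA : L →ₐ[ℂ] C := { e with
      commutes' := fun r => by
        have h1 : algebraMap ℂ L r = algebraMap S2 L (algebraMap ℂ S2 r) :=
          IsScalarTower.algebraMap_apply ℂ S2 L r
        change e (algebraMap ℂ L r) = _
        rw [h1, he]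
        exact (lift2 θ).commutes r }
  have h2 : eA (algebraMap S2 L (x2 0)) = θ.s := (he _).trans (lift2_s _)
  have h3 : eA (algebraMap S2 L (x2 1)) = θ.u := (he _).trans (lift2_u _)
  have h4 : eA i = θ'.s := by
    have h5 := congrArg eA hi
    rw [map_mul, map_one, h2] at h5
    calc eA i = (θ.s * θ'.s) * eA i := by rw [hs, one_mul]
      _ = θ'.s * (θ.s * eA i) := by ring
      _ = θ'.s := by rw [h5, mul_one]
  have h6 : eA (algebraMap S2 L (x2 1) * i ^ 2) = θ'.u := by
    rw [map_mul, map_pow, h3, h4, hu]
  have k1 : T.map (eA : L →+* C) = θ := by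
    cases θ
    simp only [Sol2.map, T]
    congr 1
  have k2 : T'.map (eA : L →+* C) = θ' := by
    cases θ'
    simp only [Sol2.map, T']
    congr 1
  rw [← k1, ← k2, ← map_ptE, ← map_ptE, hL]

end

end Pool.Agent.MP77a250
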