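import Pool.Agent.MP77a250.XFix

set_option autoImplicit false

open CategoryTheory Limits AlgebraicGeometry TopologicalSpace

namespace Pool.Agent.MP77a250

noncomputable section

lemma wX_s (k : Bool × Bool) : wX.s k = MX.fn k (eqX k (x5 4)) := by
  rw [← eqX_x4]
  rfl

lemma wX_ne (k : Bool × Bool) : MX.fn k (eqX k (x5 4)) ≠ 0 := by
  intro h
  have h1 := congrArg (MX.val (MX.U k) (MX.U_ne k)) h
  rw [MX.val_fn, map_zero, eqX_coe, lift5_x] at h1
  have h2 : (th k).w = 0 := h1
  rw [← w_div k, div_eq_zero_iff] at h2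
  rcases h2 with h2 | h2
  · exact th0_w_ne h2
  · exact fX_ne k h2

/-- The fixed locus data for the involution. -/
def DX : FixData MX.s MX.L where
  σ := sigX
  hσ := sigX_s
  affine := MX.isAffineOpen_U
  stable := U_stable
  w := wX
  nzd k := by
    have h : Nonempty (MX.U k) := by
      obtain ⟨x, hx⟩ := MX.U_ne k
      exact ⟨⟨x, hx⟩⟩
    have h2 : IsDomain Γ(MX.X, MX.U k) := inferInstance
    have h3 : MX.fn k (eqX k (x5 4)) ∈ nonZeroDivisors Γ(MX.X, MX.U k) :=
      mem_nonZeroDivisors_of_ne_zero (wX_ne k)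
    have h4 := wX_s k
    exact h4 ▸ h3
  eqn k := by
    have e1 : wX.s k = MX.fn k (eqX k (x5 4)) := wX_s k
    refine Eq.trans ?_ (congrArg (fun a => Ideal.span {a}) e1.symm)
    apply le_antisymm
    · rw [Ideal.span_le]
      rintro _ ⟨a, rfl⟩
      obtain ⟨b, rfl⟩ := MX.fn_surjective k a
      dsimp only
      have h1 := pull_sigX k b
      have h2 : b - sigA k b ∈ Ideal.span {eqX k (x5 4)} := by
        rw [← span_sigA]
        exact Ideal.subset_span ⟨b, rfl⟩
      obtain ⟨c, hc⟩ := Ideal.mem_span_singleton'.mp h2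
      have h3 : MX.fn k b - pull sigX (U_stable k) (MX.fn k b) =
          MX.fn k c * MX.fn k (eqX k (x5 4)) := by
        rw [h1, ← map_sub, ← hc, map_mul]
      rw [SetLike.mem_coe, Ideal.mem_span_singleton']
      exact ⟨_, h3.symm⟩
    · rw [Ideal.span_singleton_le_iff_mem]
      have h2 : eqX k (x5 4) ∈ Ideal.span (Set.range fun a : MX.A k => a - sigA k a) := by
        rw [span_sigA]
        exact Ideal.mem_span_singleton_self _
      have h3 := Ideal.mem_map_of_mem (MX.fn k) h2
      rw [Ideal.map_span] at h3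
      refine Ideal.span_mono ?_ h3
      rintro _ ⟨_, ⟨a, rfl⟩, rfl⟩
      refine ⟨MX.fn k a, ?_⟩
      dsimp only
      rw [map_sub]
      have h1 := pull_sigX k a
      exact congrArg (fun z => MX.fn k a - z) h1

lemma exists_t (s : ℂ) : ∃ t : ℂ, Fst s t = 0 := by
  by_cases h : s ^ 2 + 1 = 0
  · exact ⟨0, by rw [Fst, h]; ring⟩
  · obtain ⟨δ, hδ⟩ := IsAlgClosed.exists_pow_nat_eq (s ^ 2 - 4 * (s ^ 2 + 1) ^ 2) (n := 2) two_pos
    refine ⟨(-s + δ) / (2 * (s ^ 2 + 1)), ?_⟩
    rw [Fst]
    field_simp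
    linear_combination hδ

lemma exists_csq (x : ℂ) : ∃ y : ℂ, y ^ 2 = x := IsAlgClosed.exists_pow_nat_eq x (by norm_num)

/-- Points of the branch divisor. -/
def solC (s : ℂ) : Sol5 ℂ where
  s := s
  t := (exists_t s).choose
  u := (exists_csq (s ^ 4 + 1)).choose
  v := (exists_csq ((exists_t s).choose ^ 4 + 1)).choose
  w := 0
  hu := (exists_csq (s ^ 4 + 1)).choose_spec
  hv := (exists_csq ((exists_t s).choose ^ 4 + 1)).choose_spec
  hw := by
    rw [(exists_t s).choose_spec]
    norm_num

/-- The corresponding homomorphisms. -/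
def homC (s : ℂ) : MX.A (false, false) →+* ℂ :=
  ((lift5 (solC s)).comp (eqX (false, false)).symm.toAlgHom : MX.A (false, false) →+* ℂ)

lemma homC_eqX (s : ℂ) (z : S5) : homC s (eqX (false, false) z) = lift5 (solC s) z := by
  change lift5 (solC s) ((eqX (false, false)).symm (eqX (false, false) z)) = _
  rw [AlgEquiv.symm_apply_apply]

/-- The corresponding points. -/
def ptC (s : ℂ) : Spec (.of (MX.A (false, false))) :=
  (⟨RingHom.ker (homC s), RingHom.ker_isPrime _⟩ : PrimeSpectrum (MX.A (false, false)))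

lemma ptC_injective : Function.Injective ptC := by
  intro s s' h
  have h1 : RingHom.ker (homC s) = RingHom.ker (homC s') :=
    congrArg PrimeSpectrum.asIdeal h
  have h2 : eqX (false, false) (x5 0 - algebraMap ℂ S5 s) ∈ RingHom.ker (homC s) := by
    rw [RingHom.mem_ker, homC_eqX, map_sub, lift5_x, AlgHom.commutes]
    simp [solC]
  rw [h1, RingHom.mem_ker, homC_eqX, map_sub, lift5_x, AlgHom.commutes] at h2
  have h3 : s' - s = 0 := h2
  exact (sub_eq_zero.mp h3).symm

lemma infinite_R : {x | x ∉ DX.w.nonvanishing}.Infinite := by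
  have h : Function.Injective fun s => MX.j (false, false) (ptC s) :=
    (MX.j (false, false)).isOpenEmbedding.injective.comp ptC_injective
  refine (Set.infinite_range_of_injective h).mono ?_
  rintro _ ⟨s, rfl⟩
  intro hs
  have h1 := (MX.mem_sec_nonvanishing th0.w w_div_mem (false, false) (ptC s)).mp hs
  apply h1
  have h2 := eqX_x4 (false, false)
  change (⟨_, w_div_mem (false, false)⟩ : MX.A (false, false)) ∈ RingHom.ker (homC s)
  rw [h2, RingHom.mem_ker, homC_eqX, lift5_x]
  rfl

/-- Boundedness of the Seshadri numbers for the surface. -/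
theorem bounded_X (X' : Scheme.{0}) (p : X' ⟶ MX.X) (hp : IsFiniteEtale p)
    (hX' : ConnectedSpace X') : seshadriDiag MX.s p MX.L ≤ 2 := by
  have : IsProper MX.s := inferInstance
  refine seshadriDiag_le_two DX ?_ infinite_R p hp hX'
  intro k
  exact ⟨_, MX.sec_f_nonvanishing k⟩

theorem manifold_X : IsProjectiveManifold MX.s where
  integral := inferInstance
  smooth := smoothX
  proper := inferInstance
  projective := ⟨_, MX.isAmple⟩

end

end Pool.Agent.MP77a250
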