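import Pool.Agent.MP77a250.E3
import Pool.Agent.MP77a250.XFix2

set_option autoImplicit false

open CategoryTheory Limits AlgebraicGeometry TopologicalSpace

namespace Pool.Agent.MP77a250

noncomputable section

/-- The generic structure of `S2` over `ℂ[s]`. -/
def iota : Polynomial ℂ →+* S2 :=
  ((Polynomial.aeval (x2 0) : Polynomial ℂ →ₐ[ℂ] S2) : Polynomial ℂ →+* S2)

lemma iota_isIntegral : iota.IsIntegral := by
  intro z
  obtain ⟨a, ⟨A, rfl⟩, b, ⟨B, rfl⟩, rfl⟩ := N21_eq_top z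
  have h1 : iota.IsIntegralElem (x2 1) := by
    refine ⟨Polynomial.X ^ 2 - Polynomial.C (Polynomial.X ^ 4 + 1), by monicity!, ?_⟩
    rw [Polynomial.eval₂_sub, Polynomial.eval₂_pow, Polynomial.eval₂_X, Polynomial.eval₂_C, x2_hu]
    simp [iota]
  exact RingHom.IsIntegralElem.add _ (iota.isIntegralElem_map)
    (RingHom.IsIntegralElem.mul _ (iota.isIntegralElem_map) h1)

/-- A nonzero prime of the coordinate ring contains the maximal ideal of a point. -/
lemma exists_sol (y : PrimeSpectrum S2) (hy : y ≠ ⊥) : ∃ θ : Sol2 ℂ,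
    x2 0 - algebraMap ℂ S2 θ.s ∈ y.asIdeal ∧ x2 1 - algebraMap ℂ S2 θ.u ∈ y.asIdeal := by
  have hP : y.asIdeal.comap iota ≠ ⊥ := by
    intro h
    apply hy
    apply PrimeSpectrum.ext
    let := iota.toAlgebra
    have : Algebra.IsIntegral (Polynomial ℂ) S2 := ⟨iota_isIntegral⟩
    exact Ideal.eq_bot_of_comap_eq_bot (R := Polynomial ℂ) (S := S2) h
  obtain ⟨p, hp, hp0⟩ := Submodule.exists_mem_ne_zero_of_ne_bot hP
  have hprime : (y.asIdeal.comap iota).IsPrime := Ideal.comap_isPrime _ _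
  have hs : ∃ s : ℂ, Polynomial.X - Polynomial.C s ∈ y.asIdeal.comap iota := by
    have h1 := (IsAlgClosed.splits p).eq_prod_roots
    rw [h1] at hp
    rcases hprime.mem_or_mem hp with h2 | h2
    · exfalso
      apply hprime.ne_top
      refine Ideal.eq_top_of_isUnit_mem _ h2 ?_
      rw [Polynomial.isUnit_C]
      exact (isUnit_iff_ne_zero).mpr (Polynomial.leadingCoeff_ne_zero.mpr hp0)
    · have h3 := (hprime.multiset_prod_mem_iff_exists_mem _).mp h2
      obtain ⟨q, hq, hq'⟩ := h3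
      obtain ⟨s, -, rfl⟩ := Multiset.mem_map.mp hq
      exact ⟨s, hq'⟩
  obtain ⟨s, hs⟩ := hs
  have hs' : x2 0 - algebraMap ℂ S2 s ∈ y.asIdeal := by
    have : iota (Polynomial.X - Polynomial.C s) = x2 0 - algebraMap ℂ S2 s := by simp [iota]
    rw [← this]
    exact hs
  obtain ⟨u, hu⟩ := exists_csq (s ^ 4 + 1)
  have h1 : (x2 1 - algebraMap ℂ S2 u) * (x2 1 + algebraMap ℂ S2 u) ∈ y.asIdeal := by
    have h2 : (x2 1 - algebraMap ℂ S2 u) * (x2 1 + algebraMap ℂ S2 u) =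
        (x2 0 - algebraMap ℂ S2 s) * ((x2 0 + algebraMap ℂ S2 s) *
          (x2 0 ^ 2 + algebraMap ℂ S2 s ^ 2)) := by
      have h3 := congrArg (algebraMap ℂ S2) hu
      rw [map_pow, map_add, map_pow, map_one] at h3
      have h4 := x2_hu
      linear_combination h4 - h3
    rw [h2]
    exact Ideal.mul_mem_right _ _ hs'
  rcases y.2.mem_or_mem h1 with h2 | h2
  · exact ⟨⟨s, u, hu⟩, hs', h2⟩
  · refine ⟨⟨s, -u, by rw [neg_sq, hu]⟩, hs', ?_⟩
    change x2 1 - algebraMap ℂ S2 (-u) ∈ _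
    rw [map_neg, sub_neg_eq_add]
    exact h2

lemma sub_lift2_mem (I : Ideal S2) (θ : Sol2 ℂ) (h0 : x2 0 - algebraMap ℂ S2 θ.s ∈ I)
    (h1 : x2 1 - algebraMap ℂ S2 θ.u ∈ I) (z : S2) : z - algebraMap ℂ S2 (lift2 θ z) ∈ I := by
  obtain ⟨p, rfl⟩ := Ideal.Quotient.mk_surjective z
  induction p using MvPolynomial.induction_on with
  | C a =>
    have h2 : (Ideal.Quotient.mk (Ideal.span {g2})) (MvPolynomial.C a) = algebraMap ℂ S2 a := rfl
    rw [h2, (lift2 θ).commutes]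
    change algebraMap ℂ S2 a - algebraMap ℂ S2 a ∈ I
    rw [sub_self]
    exact zero_mem _
  | add p q hp hq =>
    have := add_mem hp hq
    rw [map_add, map_add, map_add]
    convert this using 1
    ring
  | mul_X p i hp =>
    have hX : Ideal.Quotient.mk (Ideal.span {g2}) (MvPolynomial.X i) = x2 i := rfl
    rw [map_mul, map_mul, map_mul, hX]
    have h2 : x2 i - algebraMap ℂ S2 (lift2 θ (x2 i)) ∈ I := by
      rw [lift2_x]
      fin_cases i
      · exact h0
      · exact h1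
    have h3 := add_mem (Ideal.mul_mem_left I (x2 i) hp)
      (Ideal.mul_mem_left I (algebraMap ℂ S2 (lift2 θ (Ideal.Quotient.mk _ p))) h2)
    convert h3 using 1
    ring

lemma asIdeal_eq (y : PrimeSpectrum S2) (θ : Sol2 ℂ)
    (h0 : x2 0 - algebraMap ℂ S2 θ.s ∈ y.asIdeal)
    (h1 : x2 1 - algebraMap ℂ S2 θ.u ∈ y.asIdeal) :
    y.asIdeal = RingHom.ker (lift2 θ : S2 →+* ℂ) := by
  ext z
  have h := sub_lift2_mem y.asIdeal θ h0 h1 z
  constructor
  · intro hz
    have h2 := Ideal.sub_mem _ hz h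
    rw [sub_sub_cancel] at h2
    rw [RingHom.mem_ker]
    by_contra h3
    apply y.2.ne_top
    exact Ideal.eq_top_of_isUnit_mem _ h2 (((isUnit_iff_ne_zero).mpr h3).map (algebraMap ℂ S2))
  · intro hz
    have hz' : lift2 θ z = 0 := hz
    rw [hz', map_zero, sub_zero] at h
    exact h

/-- The unique point of `Spec ℂ`. -/
abbrev o : Spec (.of ℂ) := (⊥ : PrimeSpectrum ℂ)

/-- The generic point of the elliptic curve. -/
def ηE : ME.X := ME.pt (⊥ : PrimeSpectrum K5)

lemma je_bot (k : Bool) : je k (⊥ : PrimeSpectrum S2) = ηE := by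
  rw [ηE, ← ptE_pe k, ptE]
  change je k (⊥ : PrimeSpectrum S2) =
    je k (Spec.map (CommRingCat.ofHom (lift2 (pe k) : S2 →+* K5)) (⊥ : PrimeSpectrum K5))
  congr 1
  apply PrimeSpectrum.ext
  change ⊥ = Ideal.comap (lift2 (pe k) : S2 →+* K5) ⊥
  rw [← RingHom.ker_eq_comap_bot]
  exact ((RingHom.injective_iff_ker_eq_bot _).mp (pe_injective k)).symm

lemma ptE_o (k : Bool) (θ : Sol2 ℂ) : ptE k θ o =
    je k (⟨RingHom.ker (lift2 θ : S2 →+* ℂ), RingHom.ker_isPrime _⟩ : PrimeSpectrum S2) := by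
  rw [ptE]
  change je k (Spec.map (CommRingCat.ofHom (lift2 θ : S2 →+* ℂ)) o) = _
  congr 1

/-- Every point of the curve other than the generic one is a complex point. -/
lemma exists_ptE (x : ME.X) (hx : x ≠ ηE) : ∃ k, ∃ θ : Sol2 ℂ, x = ptE k θ o := by
  obtain ⟨k, y, rfl⟩ := je_covers x
  have hy : y ≠ (⊥ : PrimeSpectrum S2) := by
    rintro rfl
    exact hx (je_bot k)
  obtain ⟨θ, h0, h1⟩ := exists_sol y hy
  refine ⟨k, θ, ?_⟩
  rw [ptE_o]
  congr 1
  exact PrimeSpectrum.ext (asIdeal_eq y θ h0 h1)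

lemma isClosed_ptE (k : Bool) (θ : Sol2 ℂ) : IsClosed {ptE k θ o} := by
  have h1 : ptE k θ ≫ ME.s = 𝟙 _ := by
    rw [ptE_s]
    exact Spec.map_id _
  have h2 : IsClosedImmersion (ptE k θ ≫ ME.s) := by rw [h1]; infer_instance
  have h3 : IsClosedImmersion (ptE k θ) := IsClosedImmersion.of_comp (ptE k θ) ME.s
  have h4 := (ptE k θ).isClosedEmbedding.isClosed_range
  have h5 : Set.range (ptE k θ) = {ptE k θ o} := by
    ext x
    constructor
    · rintro ⟨y, rfl⟩
      have : y = o := Subsingleton.elim (α := PrimeSpectrum ℂ) y o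
      rw [this]
      rfl
    · rintro rfl
      exact ⟨o, rfl⟩
  rwa [h5] at h4

lemma isClosed_of_ne (x : ME.X) (hx : x ≠ ηE) : IsClosed {x} := by
  obtain ⟨k, θ, rfl⟩ := exists_ptE x hx
  exact isClosed_ptE k θ

lemma ptE_injective (k : Bool) (θ θ' : Sol2 ℂ) (h : ptE k θ o = ptE k θ' o) :
    θ.s = θ'.s ∧ θ.u = θ'.u := by
  rw [ptE_o, ptE_o] at h
  have h1 := (je k).isOpenEmbedding.injective h
  have h2 : RingHom.ker (lift2 θ : S2 →+* ℂ) = RingHom.ker (lift2 θ' : S2 →+* ℂ) :=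
    congrArg PrimeSpectrum.asIdeal h1
  constructor
  · have h3 : x2 0 - algebraMap ℂ S2 θ.s ∈ RingHom.ker (lift2 θ : S2 →+* ℂ) := by
      rw [RingHom.mem_ker]
      change lift2 θ (x2 0 - algebraMap ℂ S2 θ.s) = 0
      rw [map_sub, lift2_s, (lift2 θ).commutes]
      exact sub_self _
    rw [h2, RingHom.mem_ker] at h3
    change lift2 θ' (x2 0 - algebraMap ℂ S2 θ.s) = 0 at h3
    rw [map_sub, lift2_s, (lift2 θ').commutes] at h3
    exact (sub_eq_zero.mp h3).symm
  · have h3 : x2 1 - algebraMap ℂ S2 θ.u ∈ RingHom.ker (lift2 θ : S2 →+* ℂ) := by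
      rw [RingHom.mem_ker]
      change lift2 θ (x2 1 - algebraMap ℂ S2 θ.u) = 0
      rw [map_sub, lift2_u, (lift2 θ).commutes]
      exact sub_self _
    rw [h2, RingHom.mem_ker] at h3
    change lift2 θ' (x2 1 - algebraMap ℂ S2 θ.u) = 0 at h3
    rw [map_sub, lift2_u, (lift2 θ').commutes] at h3
    exact (sub_eq_zero.mp h3).symm

lemma closure_ηE : closure {ηE} = Set.univ := by
  rw [Set.eq_univ_iff_forall]
  intro x
  rw [mem_closure_iff]
  intro V hV hx
  exact ⟨ηE, ME.pt_mem (V := ⟨V, hV⟩) hx _, rfl⟩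

lemma ptE_ne_ηE (k : Bool) (θ : Sol2 ℂ) : ptE k θ o ≠ ηE := by
  intro h
  rw [ptE_o, ← je_bot k] at h
  have h1 := (je k).isOpenEmbedding.injective h
  have h2 : RingHom.ker (lift2 θ : S2 →+* ℂ) = ⊥ := congrArg PrimeSpectrum.asIdeal h1
  have h3 : x2 0 - algebraMap ℂ S2 θ.s ∈ RingHom.ker (lift2 θ : S2 →+* ℂ) := by
    rw [RingHom.mem_ker]
    change lift2 θ (x2 0 - algebraMap ℂ S2 θ.s) = 0
    rw [map_sub, lift2_s, (lift2 θ).commutes]
    exact sub_self _
  rw [h2, Ideal.mem_bot] at h3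
  have h4 := congrArg (lift2 (pe false)) h3
  rw [map_sub, lift2_s, (lift2 (pe false)).commutes, map_zero, sub_eq_zero] at h4
  have h5 : th0.s = algebraMap ℂ K5 θ.s := h4
  apply transcendental_s
  rw [h5]
  exact isAlgebraic_algebraMap θ.s

end

end Pool.Agent.MP77a250
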