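import Pool.Agent.MP77a250.E3

set_option autoImplicit false

namespace Pool.Agent.MP77a250

noncomputable section

/-- A criterion for a ring homomorphism to be étale. -/
lemma etale_of {R C : Type} [CommRing R] [CommRing C] (α : R →+* C) (P : StandardEtalePair R)
    (x : C) (hf : P.f.eval₂ α x = 0) (hg : IsUnit (P.g.eval₂ α x)) (G : C →+* P.Ring)
    (hG : ∀ r, G (α r) = algebraMap R P.Ring r) (hGx : G x = P.X)
    (hid : ∀ F : P.Ring →+* C, (∀ r, F (algebraMap R P.Ring r) = α r) → F P.X = x →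
      ∀ c, F (G c) = c) : α.Etale := by
  let := α.toAlgebra
  have hmap : P.HasMap x := ⟨hf, hg⟩
  let F : P.Ring →ₐ[R] C := P.lift x hmap
  have hF : ∀ c, F (G c) = c := hid (F : P.Ring →+* C) (fun r => F.commutes r) (P.lift_X x hmap)
  let GA : C →ₐ[R] P.Ring := { G with commutes' := hG }
  have hGF : GA.comp F = AlgHom.id R P.Ring := by
    apply P.hom_ext
    change G (F P.X) = P.X
    rw [P.lift_X x hmap, hGx]
  have hbij : Function.Bijective F := by
    constructor
    · intro a b hab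
      have h1 := congrArg (fun g => g a) hGF
      have h2 := congrArg (fun g => g b) hGF
      simp only [AlgHom.comp_apply, AlgHom.id_apply] at h1 h2
      rw [← h1, ← h2, hab]
    · intro c
      exact ⟨G c, hF c⟩
  exact Algebra.Etale.of_equiv (AlgEquiv.ofBijective F hbij)

/-- The multiplier `1 + i`. -/
def cc : ℂ := 1 + Complex.I

lemma cc4 : cc ^ 4 = -4 := by
  have h : cc ^ 2 = 2 * Complex.I := by
    rw [cc, add_sq, Complex.I_sq]; ring
  calc cc ^ 4 = (cc ^ 2) ^ 2 := by ring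
    _ = -4 := by rw [h, mul_pow, Complex.I_sq]; norm_num

lemma cc_ne : cc ≠ 0 := by
  intro h
  have := cc4
  rw [h] at this
  norm_num at this

section

variable {C : Type} [CommRing C] [Algebra ℂ C]

/-- Constants in an algebra. -/
abbrev cst (C : Type) [CommRing C] [Algebra ℂ C] (a : ℂ) : C := algebraMap ℂ C a

lemma cst4 : cst C cc ^ 4 = -4 := by
  rw [cst, ← map_pow, cc4, map_neg, map_ofNat]

lemma cst_inv : cst C cc * cst C cc⁻¹ = 1 := by
  rw [cst, cst, ← map_mul, mul_inv_cancel₀ cc_ne, map_one]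

lemma cst_inv4 : 4 * cst C cc⁻¹ ^ 4 = -1 := by
  have h1 := cst4 (C := C)
  have h2 := cst_inv (C := C)
  have h3 : cst C cc ^ 4 * cst C cc⁻¹ ^ 4 = 1 := by rw [← mul_pow, h2, one_pow]
  linear_combination cst C cc⁻¹ ^ 4 * h1 - h3

lemma cst_half : 2 * cst C (1/2) = 1 := by
  rw [cst, show (2 : C) = algebraMap ℂ C 2 from (map_ofNat _ 2).symm, ← map_mul]
  norm_num

/-- The first formula for the self-map of the elliptic curve, valid where `s` is invertible. -/
def phiA (θ : Sol2 C) (i : C) (hi : θ.s * i = 1) : Sol2 C where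
  s := cst C cc⁻¹ * θ.u * i
  u := cst C cc⁻¹ ^ 2 * (θ.s ^ 4 - 1) * i ^ 2
  hu := by
    have h1 := θ.hu
    have h2 := cst_inv4 (C := C)
    have h3 : θ.s ^ 4 * i ^ 4 = 1 := by rw [← mul_pow, hi, one_pow]
    have h4 : θ.u ^ 4 = (θ.s ^ 4 + 1) ^ 2 := by rw [← h1]; ring
    linear_combination (-cst C cc⁻¹ ^ 4 * i ^ 4) * h4 - (θ.s ^ 4 * i ^ 4) * h2 + h3

/-- The second formula for the self-map, valid where `u` is invertible. -/
def phiB (ε : C) (hε : ε ^ 2 = 1) (θ : Sol2 C) (j : C) (hj : θ.u * j = 1) : Sol2 C where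
  s := cst C cc * θ.s * j
  u := ε * (θ.s ^ 4 - 1) * j ^ 2
  hu := by
    have h1 := θ.hu
    have h2 := cst4 (C := C)
    have h3 : θ.u ^ 4 * j ^ 4 = 1 := by rw [← mul_pow, hj, one_pow]
    have h4 : θ.u ^ 4 = (θ.s ^ 4 + 1) ^ 2 := by rw [← h1]; ring
    linear_combination ((θ.s ^ 4 - 1) ^ 2 * j ^ 4) * hε - (θ.s ^ 4 * j ^ 4) * h2 + h3 - j ^ 4 * h4

end

end

end Pool.Agent.MP77a250
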