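import Pool.Agent.MP77a250.Et1

set_option autoImplicit false

namespace Pool.Agent.MP77a250

noncomputable section

/-- `S2[1/s]`. -/
abbrev Ls : Type := Localization.Away (x2 0 : S2)

/-- `S2[1/u]`. -/
abbrev Lu : Type := Localization.Away (x2 1 : S2)

/-- The image of the universal solution in an `S2`-algebra. -/
def usol (L : Type) [CommRing L] [Algebra S2 L] : Sol2 L where
  s := algebraMap S2 L (x2 0)
  u := algebraMap S2 L (x2 1)
  hu := by rw [← map_pow, x2_hu, map_add, map_pow, map_one]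

def iS : Ls := IsLocalization.Away.invSelf (x2 0 : S2)
def jU : Lu := IsLocalization.Away.invSelf (x2 1 : S2)

lemma iS_mul : (usol Ls).s * iS = 1 := IsLocalization.Away.mul_invSelf (x2 0 : S2)
lemma jU_mul : (usol Lu).u * jU = 1 := IsLocalization.Away.mul_invSelf (x2 1 : S2)

/-- Ring homs out of a localization of `S2` at one element agreeing with a given one on `S2`. -/
lemma loc_hom_ext {f : S2} {C : Type} [CommRing C] {φ ψ : Localization.Away f →+* C}
    (h : ∀ z : S2, φ (algebraMap S2 _ z) = ψ (algebraMap S2 _ z)) : φ = ψ :=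
  IsLocalization.ringHom_ext (Submonoid.powers f) (RingHom.ext h)

/-- The square-root generating the first extension. -/
def bA : S2 := cst S2 (cc ^ 2 / 2) * (x2 1 + x2 0 ^ 2)
def bA' : S2 := cst S2 (2 / cc ^ 2) * (x2 1 - x2 0 ^ 2)

lemma bA_mul : bA * bA' = 1 := by
  have h1 : cst S2 (cc ^ 2 / 2) * cst S2 (2 / cc ^ 2) = 1 := by
    rw [cst, cst, ← map_mul]
    have := cc_ne
    rw [show cc ^ 2 / 2 * (2 / cc ^ 2) = 1 by field_simp, map_one]
  have h2 := x2_hu
  rw [bA, bA']
  linear_combination (x2 1 ^ 2 - x2 0 ^ 4) * h1 + h2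

open Polynomial in
def pairA : StandardEtalePair S2 where
  f := X ^ 2 - C bA
  monic_f := by monicity!
  g := 1
  cond := by
    refine ⟨C (bA' * cst S2 (1/2)) * X, - C bA', 1, ?_⟩
    have h1 : (2 : S2[X]) * C (cst S2 (1/2)) = 1 := by
      rw [show (2 : S2[X]) = C 2 from rfl, ← C_mul, cst_half, C_1]
    have h2 : (C bA : S2[X]) * C bA' = 1 := by rw [← C_mul, bA_mul, C_1]
    simp only [derivative_sub, derivative_X_pow, derivative_C, sub_zero, C_mul]
    push_cast
    have hC : (C 2 : S2[X]) = 2 := rfl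
    rw [hC]
    linear_combination (X ^ 2 * C bA') * h1 + h2

lemma pairA_X_sq : pairA.X ^ 2 = algebraMap S2 pairA.Ring bA := by
  have h := (StandardEtalePair.hasMap_X (P := pairA)).1
  rw [pairA, map_sub, map_pow, Polynomial.aeval_X, Polynomial.aeval_C, sub_eq_zero] at h
  exact h

/-- Every standard étale algebra over `S2` is a complex algebra. -/
instance (P : StandardEtalePair S2) : Algebra ℂ P.Ring :=
  ((algebraMap S2 P.Ring).comp (algebraMap ℂ S2)).toAlgebra

instance (P : StandardEtalePair S2) : IsScalarTower ℂ S2 P.Ring :=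
  IsScalarTower.of_algebraMap_eq (R := ℂ) (S := S2) (A := P.Ring) fun _ => rfl

lemma cst_tower {T : Type} [CommRing T] [Algebra S2 T] [Algebra ℂ T] [IsScalarTower ℂ S2 T] (a : ℂ) :
    algebraMap S2 T (cst S2 a) = cst T a := (IsScalarTower.algebraMap_apply ℂ S2 T a).symm

/-- The self-map on rings, first formula. -/
def alphaA : S2 →ₐ[ℂ] Ls := lift2 (phiA (usol Ls) iS iS_mul)

section A

abbrev TA : Type := pairA.Ring

def SA : TA := algebraMap S2 TA (x2 0)
def VA : TA := algebraMap S2 TA (x2 1)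
def zA : TA := pairA.X
def zA' : TA := zA * algebraMap S2 TA bA'

lemma hVA : VA ^ 2 = SA ^ 4 + 1 := by
  rw [VA, SA, ← map_pow, x2_hu, map_add, map_pow, map_one]

lemma zA_sq : zA ^ 2 = cst TA (cc ^ 2 / 2) * (VA + SA ^ 2) := by
  rw [zA, pairA_X_sq, bA, map_mul, cst_tower, map_add, map_pow]
  rfl

lemma zA_mul : zA * zA' = 1 := by
  have h : zA * zA' = zA ^ 2 * algebraMap S2 TA bA' := by rw [zA']; ring
  rw [h, zA, pairA_X_sq, ← map_mul, bA_mul, map_one]

lemma cst_sq {T : Type} [CommRing T] [Algebra ℂ T] :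
    2 * cst T (cc ^ 2 / 2) = cst T cc ^ 2 := by
  rw [cst, cst, show (2 : T) = algebraMap ℂ T 2 from (map_ofNat _ 2).symm, ← map_mul, ← map_pow]
  congr 1
  ring

/-- The inverse homomorphism on `S2`. -/
def solA : Sol2 TA where
  s := zA
  u := cst TA cc * zA * SA
  hu := by
    have h1 := zA_sq
    have h2 := hVA
    have h3 := cst_sq (T := TA)
    have h4 := cst4 (C := TA)
    have h5 := cst_half (C := TA)
    have h6 : 2 * zA ^ 2 = cst TA cc ^ 2 * (VA + SA ^ 2) := by
      rw [h1]; linear_combination (VA + SA ^ 2) * h3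
    have h7 : 4 * zA ^ 4 = -4 * (VA + SA ^ 2) ^ 2 := by
      have : 4 * zA ^ 4 = (2 * zA ^ 2) ^ 2 := by ring
      rw [this, h6]
      linear_combination (VA + SA ^ 2) ^ 2 * h4
    have h8 : 4 * ((cst TA cc * zA * SA) ^ 2) = 4 * (zA ^ 4 + 1) := by
      linear_combination (2 * cst TA cc ^ 2 * SA ^ 2) * h6 +
        2 * SA ^ 2 * (VA + SA ^ 2) * h4 - h7 + 4 * h2
    have h9 : (cst TA (1/2)) ^ 2 * 4 = 1 := by
      linear_combination (2 * cst TA (1/2) + 1) * h5
    linear_combination (cst TA (1/2)) ^ 2 * h8 - ((cst TA cc * zA * SA) ^ 2 - (zA ^ 4 + 1)) * h9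

end A

end

end Pool.Agent.MP77a250
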