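import Pool.Agent.MP77a250.Et2

set_option autoImplicit false

namespace Pool.Agent.MP77a250

noncomputable section

/-- Extension of the homomorphism given by a solution to a localization. -/
def locLift {T : Type} [CommRing T] [Algebra ℂ T] (f : S2) (θ : Sol2 T)
    (h : IsUnit ((lift2 θ : S2 →+* T) f)) : Localization.Away f →ₐ[ℂ] T :=
  { (IsLocalization.Away.lift f h : Localization.Away f →+* T) with
    commutes' := fun r => by
      have h1 : algebraMap ℂ (Localization.Away f) r =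
          algebraMap S2 (Localization.Away f) (algebraMap ℂ S2 r) :=
        IsScalarTower.algebraMap_apply ℂ S2 _ r
      change (IsLocalization.Away.lift f h : Localization.Away f →+* T) (algebraMap ℂ _ r) = _
      rw [h1, IsLocalization.Away.lift_eq]
      exact (lift2 θ).commutes r }

lemma locLift_algebraMap {T : Type} [CommRing T] [Algebra ℂ T] (f : S2) (θ : Sol2 T)
    (h : IsUnit ((lift2 θ : S2 →+* T) f)) (z : S2) :
    locLift f θ h (algebraMap S2 (Localization.Away f) z) = lift2 θ z :=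
  IsLocalization.Away.lift_eq f h z

lemma eq_of_mul_eq_one {T : Type} [CommRing T] {a b c : T} (h1 : a * b = 1) (h2 : a * c = 1) :
    b = c := by
  calc b = b * (a * c) := by rw [h2, mul_one]
    _ = (a * b) * c := by ring
    _ = c := by rw [h1, one_mul]

section A

lemma solA_unit : IsUnit ((lift2 solA : S2 →+* TA) (x2 0)) := by
  have h : (lift2 solA : S2 →+* TA) (x2 0) = zA := lift2_s solA
  rw [h]
  exact IsUnit.of_mul_eq_one _ zA_mul

def GA : Ls →ₐ[ℂ] TA := locLift (x2 0) solA solA_unit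

lemma GA_s : GA (usol Ls).s = zA := (locLift_algebraMap _ _ _ _).trans (lift2_s _)
lemma GA_u : GA (usol Ls).u = cst TA cc * zA * SA :=
  (locLift_algebraMap _ _ _ _).trans (lift2_u _)

lemma GA_i : GA iS = zA' := by
  have h := congrArg GA iS_mul
  rw [map_mul, map_one, GA_s] at h
  exact eq_of_mul_eq_one h zA_mul

lemma algHom_cst {T T' : Type} [CommRing T] [Algebra ℂ T] [CommRing T'] [Algebra ℂ T']
    (φ : T →ₐ[ℂ] T') (a : ℂ) : φ (cst T a) = cst T' a := φ.commutes a

lemma GA_alpha (r : S2) : GA (alphaA r) = algebraMap S2 TA r := by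
  have h : GA.comp alphaA = IsScalarTower.toAlgHom ℂ S2 TA := by
    apply S2_hom_ext
    · rw [AlgHom.comp_apply, alphaA, lift2_s]
      change GA (cst Ls cc⁻¹ * (usol Ls).u * iS) = SA
      rw [map_mul, map_mul, algHom_cst, GA_u, GA_i]
      have h1 := zA_mul
      have h2 := cst_inv (C := TA)
      linear_combination (cst TA cc * cst TA cc⁻¹ * SA) * h1 + SA * h2
    · rw [AlgHom.comp_apply, alphaA, lift2_u]
      change GA (cst Ls cc⁻¹ ^ 2 * ((usol Ls).s ^ 4 - 1) * iS ^ 2) = VA
      rw [map_mul, map_mul, map_pow, map_pow, algHom_cst, map_sub, map_pow, map_one, GA_s, GA_i]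
      have h1 := zA_mul
      have h2 := cst_inv (C := TA)
      have h3 := zA_sq
      have h4 := hVA
      have h5 := cst4 (C := TA)
      have h6 := cst_sq (T := TA)
      have h7 : 2 * zA ^ 2 = cst TA cc ^ 2 * (VA + SA ^ 2) := by
        rw [h3]; linear_combination (VA + SA ^ 2) * h6
      have h8 : 4 * zA ^ 4 = -4 * (VA + SA ^ 2) ^ 2 := by
        have : 4 * zA ^ 4 = (2 * zA ^ 2) ^ 2 := by ring
        rw [this, h7]
        linear_combination (VA + SA ^ 2) ^ 2 * h5
      -- multiply the claim by the unit `4 c ^ 2 z ^ 2`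
      have h9 : 4 * cst TA cc ^ 2 * zA ^ 2 *
          (cst TA cc⁻¹ ^ 2 * (zA ^ 4 - 1) * zA' ^ 2) = 4 * cst TA cc ^ 2 * zA ^ 2 * VA := by
        have e1 : 4 * cst TA cc ^ 2 * zA ^ 2 * (cst TA cc⁻¹ ^ 2 * (zA ^ 4 - 1) * zA' ^ 2) =
            (cst TA cc * cst TA cc⁻¹) ^ 2 * (zA * zA') ^ 2 * (4 * zA ^ 4 - 4) := by ring
        rw [e1, h1, h2]
        linear_combination h8 - 2 * cst TA cc ^ 2 * VA * h7 + 4 * h4 -
          2 * VA * (VA + SA ^ 2) * h5
      have h10 := cst_half (C := TA)
      have h11 : (cst TA (1/2)) ^ 2 * 4 = 1 := by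
        linear_combination (2 * cst TA (1/2) + 1) * h10
      have h12 : (cst TA (1/2)) ^ 2 * cst TA cc⁻¹ ^ 2 * zA' ^ 2 * (4 * cst TA cc ^ 2 * zA ^ 2) = 1 := by
        have e1 : (cst TA (1/2)) ^ 2 * cst TA cc⁻¹ ^ 2 * zA' ^ 2 * (4 * cst TA cc ^ 2 * zA ^ 2) =
          ((cst TA (1/2)) ^ 2 * 4) * (cst TA cc * cst TA cc⁻¹) ^ 2 * (zA * zA') ^ 2 := by ring
        rw [e1, h1, h2, h11]; ring
      have h13 := congrArg (fun y => (cst TA (1/2)) ^ 2 * cst TA cc⁻¹ ^ 2 * zA' ^ 2 * y) h9
      simp only [← mul_assoc] at h13 h12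
      rw [h12] at h13
      simpa [mul_assoc] using h13
  exact congrArg (fun g => g r) h

end A

end

end Pool.Agent.MP77a250
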