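import Pool.Agent.MP77a250.Et3

set_option autoImplicit false

namespace Pool.Agent.MP77a250

noncomputable section

lemma alphaA_s : alphaA (x2 0) = cst Ls cc⁻¹ * (usol Ls).u * iS := lift2_s _
lemma alphaA_u : alphaA (x2 1) = cst Ls cc⁻¹ ^ 2 * ((usol Ls).s ^ 4 - 1) * iS ^ 2 := lift2_u _

lemma alphaA_bA : alphaA bA = (usol Ls).s ^ 2 := by
  have h1 := iS_mul
  have h2 := cst_inv (C := Ls)
  have h3 := (usol Ls).hu
  have h4 := cst_sq (T := Ls)
  have h5 := cst_half (C := Ls)
  rw [bA, map_mul, algHom_cst, map_add, map_pow, alphaA_s, alphaA_u]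
  generalize (usol Ls).s = s at *
  generalize (usol Ls).u = u at *
  generalize (iS : Ls) = i at *
  generalize cst Ls cc⁻¹ = κ at *
  generalize cst Ls cc = c at *
  generalize cst Ls (cc ^ 2 / 2) = d at *
  generalize cst Ls (1/2) = e at *
  -- `2 d = c ^ 2`, `c κ = 1`, `u ^ 2 = s ^ 4 + 1`, `s i = 1`
  have h6 : 2 * (d * (κ ^ 2 * (s ^ 4 - 1) * i ^ 2 + (κ * u * i) ^ 2)) = 2 * s ^ 2 := by
    have e1 : 2 * (d * (κ ^ 2 * (s ^ 4 - 1) * i ^ 2 + (κ * u * i) ^ 2)) =
      (2 * d) * κ ^ 2 * i ^ 2 * (s ^ 4 - 1 + u ^ 2) := by ring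
    rw [e1, h4, h3]
    have e2 : c ^ 2 * κ ^ 2 * i ^ 2 * (s ^ 4 - 1 + (s ^ 4 + 1)) = 2 * (c * κ) ^ 2 * (s * i) ^ 2 * s ^ 2 := by
      ring
    rw [e2, h2, h1]; ring
  calc d * (κ ^ 2 * (s ^ 4 - 1) * i ^ 2 + (κ * u * i) ^ 2)
      = (2 * e) * (d * (κ ^ 2 * (s ^ 4 - 1) * i ^ 2 + (κ * u * i) ^ 2)) := by rw [h5]; ring
    _ = e * (2 * (d * (κ ^ 2 * (s ^ 4 - 1) * i ^ 2 + (κ * u * i) ^ 2))) := by ring
    _ = e * (2 * s ^ 2) := by rw [h6]
    _ = (2 * e) * s ^ 2 := by ring
    _ = s ^ 2 := by rw [h5, one_mul]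

/-- A ring endomorphism of a localization of `S2` fixing constants and the generators is the
identity. -/
lemma loc_id {f : S2} (φ : Localization.Away f →+* Localization.Away f)
    (hc : ∀ a : ℂ, φ (cst _ a) = cst _ a)
    (hs : φ (usol (Localization.Away f)).s = (usol (Localization.Away f)).s)
    (hu : φ (usol (Localization.Away f)).u = (usol (Localization.Away f)).u)
    (c : Localization.Away f) : φ c = c := by
  let φ' : Localization.Away f →ₐ[ℂ] Localization.Away f := { φ with commutes' := hc }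
  have h : φ'.comp (IsScalarTower.toAlgHom ℂ S2 (Localization.Away f)) =
      IsScalarTower.toAlgHom ℂ S2 (Localization.Away f) := by
    apply S2_hom_ext
    · exact hs
    · exact hu
  have h2 : φ = RingHom.id _ := by
    apply loc_hom_ext
    intro z
    exact congrArg (fun g => g z) h
  rw [h2]; rfl

theorem etaleA : (alphaA : S2 →+* Ls).Etale := by
  refine etale_of (alphaA : S2 →+* Ls) pairA (usol Ls).s ?_ ?_ (GA : Ls →+* TA)
    (fun r => GA_alpha r) GA_s ?_
  · have h := alphaA_bA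
    rw [pairA, Polynomial.eval₂_sub, Polynomial.eval₂_pow, Polynomial.eval₂_X, Polynomial.eval₂_C]
    change (usol Ls).s ^ 2 - alphaA bA = 0
    rw [h, sub_self]
  · rw [pairA, Polynomial.eval₂_one]; exact isUnit_one
  · intro F hF hFX c
    refine loc_id (F.comp (GA : Ls →+* TA)) ?_ ?_ ?_ c
    · intro a
      change F (GA (cst Ls a)) = cst Ls a
      rw [algHom_cst, ← cst_tower (T := TA), hF]
      exact algHom_cst alphaA a
    · change F (GA (usol Ls).s) = _
      rw [GA_s]; exact hFX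
    · change F (GA (usol Ls).u) = _
      rw [GA_u, map_mul, map_mul, ← cst_tower (T := TA), hF]
      have h1 : F zA = (usol Ls).s := hFX
      have h2 : F SA = alphaA (x2 0) := hF (x2 0)
      rw [h1, h2, alphaA_s]
      have h3 : (alphaA : S2 →+* Ls) (cst S2 cc) = cst Ls cc := algHom_cst alphaA cc
      rw [h3]
      have h4 := iS_mul
      have h5 := cst_inv (C := Ls)
      linear_combination (cst Ls cc * cst Ls cc⁻¹ * (usol Ls).u) * h4 + (usol Ls).u * h5

end

end Pool.Agent.MP77a250
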