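import Pool.Agent.MP77a250.Et4

set_option autoImplicit false

namespace Pool.Agent.MP77a250

noncomputable section

/-- `(1 - ε U) / 2`. -/
def bB (ε : ℂ) : S2 := cst S2 (1/2) * (1 - cst S2 ε * x2 1)

open Polynomial in
def pairB (ε : ℂ) : StandardEtalePair S2 where
  f := X ^ 2 - C (bB ε)
  monic_f := by monicity!
  g := X
  cond := by
    refine ⟨C (cst S2 (1/2)), 0, 1, ?_⟩
    have h1 : (2 : S2[X]) * C (cst S2 (1/2)) = 1 := by
      rw [show (2 : S2[X]) = C 2 from rfl, ← C_mul, cst_half, C_1]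
    simp only [derivative_sub, derivative_X_pow, derivative_C, sub_zero]
    push_cast
    have hC : (C 2 : S2[X]) = 2 := rfl
    rw [hC]
    linear_combination X * h1

abbrev TB (ε : ℂ) : Type := (pairB ε).Ring

variable (ε : ℂ) (hε : ε ^ 2 = 1)

def zB : TB ε := (pairB ε).X

lemma zB_sq : zB ε ^ 2 = algebraMap S2 (TB ε) (bB ε) := by
  have h := (StandardEtalePair.hasMap_X (P := pairB ε)).1
  rw [pairB, map_sub, map_pow, Polynomial.aeval_X, Polynomial.aeval_C, sub_eq_zero] at h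
  exact h

lemma zB_unit : IsUnit (zB ε) := by
  have h := (StandardEtalePair.hasMap_X (P := pairB ε)).2
  rw [pairB, Polynomial.aeval_X] at h
  exact h

def zB' : TB ε := ((zB_unit ε).unit⁻¹ : (TB ε)ˣ)

lemma zB_mul : zB ε * zB' ε = 1 := (zB_unit ε).mul_val_inv

def SB : TB ε := algebraMap S2 (TB ε) (x2 0)
def VB : TB ε := algebraMap S2 (TB ε) (x2 1)

lemma hVB : VB ε ^ 2 = SB ε ^ 4 + 1 := by
  rw [VB, SB, ← map_pow, x2_hu, map_add, map_pow, map_one]

lemma zB_sq' : zB ε ^ 2 = cst (TB ε) (1/2) * (1 - cst (TB ε) ε * VB ε) := by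
  rw [zB_sq, bB, map_mul, cst_tower, map_sub, map_mul, map_one, cst_tower]
  rfl

include hε in
lemma cstε {T : Type} [CommRing T] [Algebra ℂ T] : cst T ε ^ 2 = 1 := by
  rw [cst, ← map_pow, hε, map_one]

/-- The inverse homomorphism on `S2`. -/
def solB : Sol2 (TB ε) where
  s := cst (TB ε) cc⁻¹ * SB ε * zB' ε
  u := zB' ε
  hu := by
    have h1 := zB_sq' ε
    have h2 := hVB ε
    have h3 := zB_mul ε
    have h4 := cst_inv4 (C := TB ε)
    have h5 := cst_half (C := TB ε)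
    have h6 := cstε ε hε (T := TB ε)
    generalize zB ε = z at *
    generalize zB' ε = y at *
    generalize SB ε = S at *
    generalize VB ε = V at *
    generalize cst (TB ε) cc⁻¹ = κ at *
    generalize cst (TB ε) (1/2) = e at *
    generalize cst (TB ε) ε = r at *
    -- `2 z² = 1 - r V`
    have h7 : 2 * z ^ 2 = 1 - r * V := by rw [h1]; linear_combination (1 - r * V) * h5
    have h8 : 4 * z ^ 4 = 4 * z ^ 2 - 1 + V ^ 2 := by
      have : 4 * z ^ 4 = (2 * z ^ 2) ^ 2 := by ring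
      rw [this, show 4 * z ^ 2 = 2 * (2 * z ^ 2) by ring, h7]
      linear_combination V ^ 2 * h6
    have h9 : z ^ 4 * y ^ 4 = 1 := by rw [← mul_pow, h3, one_pow]
    have h10 : z ^ 2 * y ^ 2 = 1 := by rw [← mul_pow, h3, one_pow]
    have h11 : 4 * y ^ 2 = 4 * ((κ * S * y) ^ 4 + 1) := by
      have e1 : 4 * ((κ * S * y) ^ 4 + 1) = (4 * κ ^ 4) * S ^ 4 * y ^ 4 + 4 := by ring
      rw [e1, h4]
      -- `-S⁴ y⁴ + 4 = 4 y²`
      have h12 : S ^ 4 = 4 * z ^ 4 - 4 * z ^ 2 := by linear_combination h2 * (-1) - h8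
      rw [h12]
      linear_combination 4 * h9 - 4 * y ^ 2 * h10
    have h13 : e ^ 2 * 4 = 1 := by linear_combination (2 * e + 1) * h5
    linear_combination e ^ 2 * h11 - (y ^ 2 - ((κ * S * y) ^ 4 + 1)) * h13

lemma solB_unit : IsUnit ((lift2 (solB ε hε) : S2 →+* TB ε) (x2 1)) := by
  have h : (lift2 (solB ε hε) : S2 →+* TB ε) (x2 1) = zB' ε := lift2_u _
  rw [h]
  exact IsUnit.of_mul_eq_one (zB ε) (by rw [mul_comm]; exact zB_mul ε)

def GB : Lu →ₐ[ℂ] TB ε := locLift (x2 1) (solB ε hε) (solB_unit ε hε)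

lemma GB_s : GB ε hε (usol Lu).s = cst (TB ε) cc⁻¹ * SB ε * zB' ε :=
  (locLift_algebraMap _ _ _ _).trans (lift2_s _)

lemma GB_u : GB ε hε (usol Lu).u = zB' ε := (locLift_algebraMap _ _ _ _).trans (lift2_u _)

lemma GB_j : GB ε hε jU = zB ε := by
  have h := congrArg (GB ε hε) jU_mul
  rw [map_mul, map_one, GB_u] at h
  exact eq_of_mul_eq_one h (by rw [mul_comm]; exact zB_mul ε)

/-- The self-map on rings, second formula. -/
def alphaB : S2 →ₐ[ℂ] Lu := lift2 (phiB (cst Lu ε) (cstε ε hε) (usol Lu) jU jU_mul)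

lemma alphaB_s : alphaB ε hε (x2 0) = cst Lu cc * (usol Lu).s * jU := lift2_s _
lemma alphaB_u : alphaB ε hε (x2 1) = cst Lu ε * ((usol Lu).s ^ 4 - 1) * jU ^ 2 := lift2_u _

lemma alphaB_bB : alphaB ε hε (bB ε) = jU ^ 2 := by
  have h1 := jU_mul
  have h3 := (usol Lu).hu
  have h5 := cst_half (C := Lu)
  have h6 := cstε ε hε (T := Lu)
  rw [bB, map_mul, algHom_cst, map_sub, map_one, map_mul, algHom_cst, alphaB_u]
  generalize (usol Lu).s = s at *
  generalize (usol Lu).u = u at *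
  generalize (jU : Lu) = j at *
  generalize cst Lu (1/2) = e at *
  generalize cst Lu ε = r at *
  have h7 : 1 - r * (r * (s ^ 4 - 1) * j ^ 2) = 2 * j ^ 2 := by
    have h8 : u ^ 2 * j ^ 2 = 1 := by rw [← mul_pow, h1, one_pow]
    rw [h3] at h8
    linear_combination -h8 - ((s ^ 4 - 1) * j ^ 2) * h6
  rw [h7]
  linear_combination j ^ 2 * h5

lemma GB_alpha (r : S2) : GB ε hε (alphaB ε hε r) = algebraMap S2 (TB ε) r := by
  have h : (GB ε hε).comp (alphaB ε hε) = IsScalarTower.toAlgHom ℂ S2 (TB ε) := by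
    apply S2_hom_ext
    · rw [AlgHom.comp_apply, alphaB_s, map_mul, map_mul, algHom_cst, GB_s, GB_j]
      change _ = SB ε
      have h1 := zB_mul ε
      have h2 := cst_inv (C := TB ε)
      linear_combination (cst (TB ε) cc * cst (TB ε) cc⁻¹ * SB ε) * h1 + SB ε * h2
    · rw [AlgHom.comp_apply, alphaB_u, map_mul, map_mul, algHom_cst, map_pow, map_sub, map_pow,
        map_one, GB_s, GB_j]
      change _ = VB ε
      have h0 := (solB ε hε).hu
      change (zB' ε) ^ 2 = (cst (TB ε) cc⁻¹ * SB ε * zB' ε) ^ 4 + 1 at h0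
      have h1 := zB_mul ε
      have h2 := zB_sq' ε
      have h3 := cst_half (C := TB ε)
      have h4 := cstε ε hε (T := TB ε)
      have h5 : zB ε ^ 2 * zB' ε ^ 2 = 1 := by rw [← mul_pow, h1, one_pow]
      have h6 : 2 * zB ε ^ 2 = 1 - cst (TB ε) ε * VB ε := by
        rw [h2]; linear_combination (1 - cst (TB ε) ε * VB ε) * h3
      linear_combination (-cst (TB ε) ε * zB ε ^ 2) * h0 + cst (TB ε) ε * h5 -
        cst (TB ε) ε * h6 + VB ε * h4
  exact congrArg (fun g => g r) h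

theorem etaleB : (alphaB ε hε : S2 →+* Lu).Etale := by
  refine etale_of (alphaB ε hε : S2 →+* Lu) (pairB ε) jU ?_ ?_ (GB ε hε : Lu →+* TB ε)
    (fun r => GB_alpha ε hε r) (GB_j ε hε) ?_
  · have h := alphaB_bB ε hε
    rw [pairB, Polynomial.eval₂_sub, Polynomial.eval₂_pow, Polynomial.eval₂_X, Polynomial.eval₂_C]
    change jU ^ 2 - alphaB ε hε (bB ε) = 0
    rw [h, sub_self]
  · rw [pairB, Polynomial.eval₂_X]
    exact IsUnit.of_mul_eq_one (usol Lu).u (by rw [mul_comm]; exact jU_mul)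
  · intro F hF hFX c
    have h1 : F (zB ε) = jU := hFX
    have h1' : F (zB' ε) = (usol Lu).u := by
      have h := congrArg F (zB_mul ε)
      rw [map_mul, map_one, h1] at h
      exact eq_of_mul_eq_one h (by rw [mul_comm]; exact jU_mul)
    refine loc_id (F.comp (GB ε hε : Lu →+* TB ε)) ?_ ?_ ?_ c
    · intro a
      change F (GB ε hε (cst Lu a)) = cst Lu a
      rw [algHom_cst, ← cst_tower (T := TB ε), hF]
      exact algHom_cst (alphaB ε hε) a
    · change F (GB ε hε (usol Lu).s) = _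
      rw [GB_s, map_mul, map_mul, ← cst_tower (T := TB ε), hF, h1']
      have h2 : F (SB ε) = alphaB ε hε (x2 0) := hF (x2 0)
      rw [h2, alphaB_s]
      have h3 : (alphaB ε hε : S2 →+* Lu) (cst S2 cc⁻¹) = cst Lu cc⁻¹ :=
        algHom_cst (alphaB ε hε) cc⁻¹
      rw [h3]
      have h4 := jU_mul
      have h5 := cst_inv (C := Lu)
      linear_combination (cst Lu cc * cst Lu cc⁻¹ * (usol Lu).s) * h4 + (usol Lu).s * h5
    · change F (GB ε hε (usol Lu).u) = _
      rw [GB_u]; exact h1'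

end

end Pool.Agent.MP77a250
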