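import Pool.Agent.MP77a250.Inj5
import Pool.Agent.MP77a250.AI

set_option autoImplicit false

open MvPolynomial

namespace Pool.Agent.MP77a250

section

/-- An algebraically closed field containing the function field. -/
noncomputable abbrev KB : Type := AlgebraicClosure (FractionRing R2)

noncomputable def sB (i : Fin 2) : KB := algebraMap (FractionRing R2) KB (algebraMap R2 (FractionRing R2) (X i))

lemma exists_sq (x : KB) : ∃ y : KB, y ^ 2 = x := IsAlgClosed.exists_pow_nat_eq x (by norm_num)

noncomputable def thB : Sol5 KB where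
  s := sB 0
  t := sB 1
  u := (exists_sq (sB 0 ^ 4 + 1)).choose
  v := (exists_sq (sB 1 ^ 4 + 1)).choose
  w := (exists_sq (Fst (sB 0) (sB 1))).choose
  hu := (exists_sq (sB 0 ^ 4 + 1)).choose_spec
  hv := (exists_sq (sB 1 ^ 4 + 1)).choose_spec
  hw := (exists_sq (Fst (sB 0) (sB 1))).choose_spec

lemma aeval_sB_injective : Function.Injective (aeval (R := ℂ) ![thB.s, thB.t]) := by
  have h : ∀ p : R2, aeval (R := ℂ) ![thB.s, thB.t] p =
      algebraMap (FractionRing R2) KB (algebraMap R2 (FractionRing R2) p) := by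
    intro p
    have h1 : aeval (R := ℂ) ![thB.s, thB.t] =
        (IsScalarTower.toAlgHom ℂ (FractionRing R2) KB).comp
          (IsScalarTower.toAlgHom ℂ R2 (FractionRing R2)) := by
      apply MvPolynomial.algHom_ext
      intro i
      fin_cases i
      · simp [thB, sB]
      · simp [thB, sB]
    rw [h1]
    rfl
  intro p q hpq
  rw [h, h] at hpq
  exact IsFractionRing.injective R2 (FractionRing R2) ((algebraMap (FractionRing R2) KB).injective hpq)

instance : CharZero KB := charZero_of_injective_algebraMap (algebraMap ℂ KB).injective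

lemma lift_thB_injective : Function.Injective (lift5 thB) := lift5_injective thB aeval_sB_injective

instance : IsDomain S5 := Function.Injective.isDomain (lift5 thB : S5 →+* KB) lift_thB_injective

/-- The function field of the surface. -/
noncomputable abbrev K5 : Type := FractionRing S5

instance : CharZero K5 := charZero_of_injective_algebraMap (algebraMap ℂ K5).injective

/-- The solution given by the coordinate functions. -/
noncomputable def th0 : Sol5 K5 where
  s := algebraMap S5 K5 (x5 0)
  t := algebraMap S5 K5 (x5 1)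
  u := algebraMap S5 K5 (x5 2)
  v := algebraMap S5 K5 (x5 3)
  w := algebraMap S5 K5 (x5 4)
  hu := by rw [← map_pow, x5_hu, map_add, map_pow, map_one]
  hv := by rw [← map_pow, x5_hv, map_add, map_pow, map_one]
  hw := by rw [← map_pow, x5_hw]; simp only [Fst, map_mul, map_add, map_pow, map_one]

lemma lift_th0 (z : S5) : lift5 th0 z = algebraMap S5 K5 z := by
  have h : lift5 th0 = IsScalarTower.toAlgHom ℂ S5 K5 := by
    apply S5_hom_ext
    intro i
    rw [lift5_x]
    fin_cases i <;> rfl
  rw [h]
  rfl

lemma ai_th0 : AlgebraicIndependent ℂ ![th0.s, th0.t] := by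
  rw [algebraicIndependent_iff_injective_aeval]
  have h1 : aeval (R := ℂ) ![th0.s, th0.t] =
      (IsScalarTower.toAlgHom ℂ S5 K5).comp (aeval (R := ℂ) ![x5 0, x5 1]) := by
    apply MvPolynomial.algHom_ext
    intro i
    fin_cases i
    · simp [th0]
    · simp [th0]
  have h2 : aeval (R := ℂ) ![thB.s, thB.t] = (lift5 thB).comp (aeval (R := ℂ) ![x5 0, x5 1]) := by
    apply MvPolynomial.algHom_ext
    intro i
    fin_cases i
    · simp [lift5_x]
    · simp [lift5_x]
  have h3 : Function.Injective (aeval (R := ℂ) ![x5 0, x5 1]) := by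
    have := aeval_sB_injective
    rw [h2] at this
    exact Function.Injective.of_comp this
  rw [h1]
  exact (IsFractionRing.injective S5 K5).comp h3

variable {K : Type} [Field K] [Algebra ℂ K]

/-- The change of coordinates `s ↦ 1/s`. -/
def Sol5.invS (θ : Sol5 K) (hs : θ.s ≠ 0) : Sol5 K where
  s := θ.s⁻¹
  t := θ.t
  u := θ.u / θ.s ^ 2
  v := θ.v
  w := θ.w / θ.s
  hu := by
    rw [div_pow, θ.hu]; field_simp; ring
  hv := θ.hv
  hw := by
    rw [div_pow, θ.hw, Fst, Fst]; field_simp; ring

/-- The change of coordinates `t ↦ 1/t`. -/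
def Sol5.invT (θ : Sol5 K) (ht : θ.t ≠ 0) : Sol5 K where
  s := θ.s
  t := θ.t⁻¹
  u := θ.u
  v := θ.v / θ.t ^ 2
  w := θ.w / θ.t
  hu := θ.hu
  hv := by
    rw [div_pow, θ.hv]; field_simp; ring
  hw := by
    rw [div_pow, θ.hw, Fst, Fst]; field_simp; ring

lemma ne_zero_of_ai {a b : K} (h : AlgebraicIndependent ℂ ![a, b]) : a ≠ 0 ∧ b ≠ 0 :=
  ⟨h.ne_zero 0, h.ne_zero 1⟩

lemma th0_s : th0.s ≠ 0 := (ne_zero_of_ai ai_th0).1
lemma th0_t : th0.t ≠ 0 := (ne_zero_of_ai ai_th0).2

/-- The four charts. -/
noncomputable def th : Bool × Bool → Sol5 K5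
  | (false, false) => th0
  | (true, false) => th0.invS th0_s
  | (false, true) => th0.invT th0_t
  | (true, true) => (th0.invS th0_s).invT th0_t

lemma ai_th (k : Bool × Bool) : AlgebraicIndependent ℂ ![(th k).s, (th k).t] := by
  have h := ai_th0
  rcases k with ⟨_ | _, _ | _⟩
  · exact h
  · exact ai_swap (ai_inv (ai_swap h))
  · exact ai_inv h
  · exact ai_swap (ai_inv (ai_swap (ai_inv h)))

lemma lift_th_injective (k : Bool × Bool) : Function.Injective (lift5 (th k)) :=
  lift5_injective _ (algebraicIndependent_iff_injective_aeval.mp (ai_th k))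

end

end Pool.Agent.MP77a250
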