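import Pool.Agent.MP77a250.Val

set_option autoImplicit false

open CategoryTheory Limits AlgebraicGeometry TopologicalSpace

namespace Pool.Agent.MP77a250

open Scheme.IdealSheafData

section

variable {X B T C : Scheme.{0}} {s : X ⟶ SC} {L : LineBundle X}

/-- Near a point of `T`, the pulled back local equation `e i` of the exceptional divisor equals a
unit `ε` times the pulled back local equation `w k` of the fixed divisor. -/
structure Good (D : FixData s L) (E : LineBundle B) (e : E.PowSection 1) (q : T ⟶ X) (H : T ⟶ B)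
    (i : E.ι) (k : L.ι) (W : T.Opens) (ε : Γ(T, W)) : Prop where
  hH : W ≤ H ⁻¹ᵁ E.U i
  hq : W ≤ q ⁻¹ᵁ L.U k
  unit : IsUnit ε
  eq : pull H hH (e.s i) = ε * pull q hq (D.w.s k)

lemma exists_unit_of_span_eq {R : Type} [CommRing R] {a b : R} (h : Ideal.span {a} = Ideal.span {b})
    (hb : b ∈ nonZeroDivisors R) : ∃ ε : R, IsUnit ε ∧ a = ε * b := by
  have h1 : a ∈ Ideal.span {b} := h ▸ Ideal.mem_span_singleton_self a
  have h2 : b ∈ Ideal.span {a} := h ▸ Ideal.mem_span_singleton_self b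
  obtain ⟨c, hc⟩ := Ideal.mem_span_singleton'.mp h1
  obtain ⟨d, hd⟩ := Ideal.mem_span_singleton'.mp h2
  refine ⟨c, ?_, hc.symm⟩
  have h3 : (d * c - 1) * b = 0 := by
    rw [sub_mul, one_mul, mul_assoc, hc, hd, sub_self]
  have h4 := (mem_nonZeroDivisors_iff_right.mp hb) _ h3
  exact IsUnit.of_mul_eq_one d (by rw [mul_comm]; exact sub_eq_zero.mp h4)

lemma good_exists (D : FixData s L) (E : LineBundle B) (e : E.PowSection 1) (q : T ⟶ X)
    [Flat q] (H : T ⟶ B) (J : B.IdealSheafData)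
    (he : ∀ i, ∀ V : B.affineOpens, ∀ h : V.1 ≤ E.U i, J.ideal V = Ideal.span {res h (e.s i)})
    {x : T} (i : E.ι) (hi : H x ∈ E.U i) (k : L.ι)
    (hloc : ∃ W : T.affineOpens, x ∈ W.1 ∧ ∃ hW : W.1 ≤ q ⁻¹ᵁ L.U k,
        (J.comap H).ideal W = Ideal.span {pull q hW (D.w.s k)}) :
    ∃ W : T.affineOpens, x ∈ W.1 ∧ ∃ ε : Γ(T, W.1), Good D E e q H i k W.1 ε := by
  obtain ⟨W₀, hxW₀, hW₀, hI⟩ := hloc
  obtain ⟨V, hxV, hV⟩ := exists_affine_nhd hi
  obtain ⟨W, hxW, hW⟩ := exists_affine_nhd (show x ∈ W₀.1 ⊓ H ⁻¹ᵁ V.1 from ⟨hxW₀, hxV⟩)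
  have hWW₀ : W.1 ≤ W₀.1 := hW.trans inf_le_left
  have hWV : W.1 ≤ H ⁻¹ᵁ V.1 := hW.trans inf_le_right
  have h1 : (J.comap H).ideal W = Ideal.span {pull H (hWV.trans (H.preimage_mono hV)) (e.s i)} := by
    rw [comap_ideal J H V W hWV, he i V hV, Ideal.map_span, Set.image_singleton, pull_res]
  have h2 : (J.comap H).ideal W = Ideal.span {pull q (hWW₀.trans hW₀) (D.w.s k)} := by
    rw [← map_ideal (J.comap H) (U := W) (V := W₀) hWW₀, hI, Ideal.map_span, Set.image_singleton]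
    congr 2
    exact res_pull _ _ _ _
  obtain ⟨ε, hε, heq⟩ := exists_unit_of_span_eq (h1.symm.trans h2)
    (pull_mem_nonZeroDivisors q (D.affine k) W.2 _ _ (D.nzd k))
  exact ⟨W, hxW, ε, _, _, hε, heq⟩

lemma good_uniq (D : FixData s L) (E : LineBundle B) (e : E.PowSection 1) (q : T ⟶ X)
    [Flat q] (H : T ⟶ B) {i i' : E.ι} {k k' : L.ι} {W W' : T.Opens} {ε : Γ(T, W)}
    {ε' : Γ(T, W')} (hG : Good D E e q H i k W ε) (hG' : Good D E e q H i' k' W' ε')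
    {y : T} (hy : y ∈ W) (hy' : y ∈ W') :
    ∃ (W'' : T.Opens) (h : W'' ≤ W) (h' : W'' ≤ W'), y ∈ W'' ∧
      res h ε * pull q (le_inf (h.trans hG.hq) (h'.trans hG'.hq))
        (L.g k k' : Γ(X, L.U k ⊓ L.U k')) =
      pull H (le_inf (h.trans hG.hH) (h'.trans hG'.hH)) (E.g i i' : Γ(B, E.U i ⊓ E.U i')) *
        res h' ε' := by
  obtain ⟨V, hyV, hV⟩ := exists_affine_nhd (show y ∈ W ⊓ W' from ⟨hy, hy'⟩)
  have h : V.1 ≤ W := hV.trans inf_le_left
  have h' : V.1 ≤ W' := hV.trans inf_le_right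
  refine ⟨V.1, h, h', hyV, ?_⟩
  have e1 := congrArg (res h) hG.eq
  have e2 := congrArg (res h') hG'.eq
  rw [map_mul, res_pull, res_pull] at e1 e2
  have e3 := congrArg (pull H (show V.1 ≤ H ⁻¹ᵁ (E.U i ⊓ E.U i') from
    le_inf (h.trans hG.hH) (h'.trans hG'.hH))) (e.glue i i')
  have e4 := congrArg (pull q (show V.1 ≤ q ⁻¹ᵁ (L.U k ⊓ L.U k') from
    le_inf (h.trans hG.hq) (h'.trans hG'.hq))) (D.w.glue k k')
  rw [map_mul, pow_one, pull_res, pull_res] at e3 e4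
  have hnzd := pull_mem_nonZeroDivisors q (D.affine k') V.2 (h'.trans hG'.hq) _ (D.nzd k')
  refine sub_eq_zero.mp (mem_nonZeroDivisors_iff_right.mp hnzd _ ?_)
  linear_combination -e1 + e3 + (pull H (le_inf (h.trans hG.hH) (h'.trans hG'.hH))
    (E.g i i' : Γ(B, E.U i ⊓ E.U i'))) * e2 - (res h ε) * e4

variable [IsIntegral C]

/-- The value attached to good data: the local expression of the rational section of the
restriction of `E` to the curve `C`. -/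
noncomputable def Rval (τ : C ⟶ T) (q : T ⟶ X) (m : L.PowSection 1) {k : L.ι} {W : T.Opens}
    (hW : τ (genericPoint C) ∈ W) (hq : W ≤ q ⁻¹ᵁ L.U k) (ε : Γ(T, W)) : C.functionField :=
  gv τ hW ε * gv (τ ≫ q) (hq hW) (m.s k)

lemma Rval_uniq (D : FixData s L) (E : LineBundle B) (e : E.PowSection 1) (q : T ⟶ X)
    [Flat q] (H : T ⟶ B) (τ : C ⟶ T) (m : L.PowSection 1) {i i' : E.ι} {k k' : L.ι}
    {W W' : T.Opens} {ε : Γ(T, W)}
    {ε' : Γ(T, W')} (hG : Good D E e q H i k W ε) (hG' : Good D E e q H i' k' W' ε')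
    (hy : τ (genericPoint C) ∈ W) (hy' : τ (genericPoint C) ∈ W') :
    Rval τ q m hy hG.hq ε =
      gv (τ ≫ H) (W := E.U i ⊓ E.U i') ⟨hG.hH hy, hG'.hH hy'⟩ (E.g i i') *
        Rval τ q m hy' hG'.hq ε' := by
  obtain ⟨W'', h, h', hyW, heq⟩ := good_uniq D E e q H hG hG' hy hy'
  have h1 := congrArg (gv τ hyW) heq
  rw [map_mul, map_mul, gv_res, gv_res, gv_pull, gv_pull] at h1
  have h2 := congrArg (gv (τ ≫ q) (W := L.U k ⊓ L.U k') ⟨hG.hq hy, hG'.hq hy'⟩) (m.glue k k')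
  rw [map_mul, pow_one, gv_res, gv_res] at h2
  rw [Rval, Rval, h2]
  linear_combination (gv (τ ≫ q) (hG'.hq hy') (m.s k')) * h1

end

end Pool.Agent.MP77a250
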