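import Pool.Agent.MP77a250.Ker5

set_option autoImplicit false

open MvPolynomial

namespace Pool.Agent.MP77a250

section

/-- polynomials in `s, t`. -/
noncomputable abbrev R2 : Type := MvPolynomial (Fin 2) ℂ

noncomputable def pA : R2 := X 0 ^ 4 + 1

noncomputable def pB : R2 := X 1 ^ 4 + 1

noncomputable def pF : R2 := Fst (X 0) (X 1)

noncomputable def chi0 : R2 →ₐ[ℂ] Polynomial ℂ := aeval ![Polynomial.X, 0]

noncomputable def chi1 : R2 →ₐ[ℂ] Polynomial ℂ := aeval ![0, Polynomial.X]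

lemma nonsq_of_map (χ : R2 →ₐ[ℂ] Polynomial ℂ) (f : R2) (ρ : ℂ) (h0 : (χ f).eval ρ = 0)
    (h1 : (χ f).derivative.eval ρ ≠ 0) : ∀ r, r ^ 2 ≠ f := by
  rintro r rfl
  refine nonsq_poly _ ρ h0 h1 (χ r) ?_
  rw [map_pow]

lemma exists_root : ∃ ρ : ℂ, ρ ^ 4 = -1 ∧ ρ ≠ 0 := by
  obtain ⟨ρ, hρ⟩ := IsAlgClosed.exists_pow_nat_eq (-1 : ℂ) (n := 4) (by norm_num)
  refine ⟨ρ, hρ, ?_⟩
  rintro rfl
  norm_num at hρ

lemma nsA : ∀ r, r ^ 2 ≠ pA := by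
  obtain ⟨ρ, hρ, hρ0⟩ := exists_root
  refine nonsq_of_map chi0 _ ρ ?_ ?_
  · simp [chi0, pA, hρ]
  · simp [chi0, pA, hρ0]
    norm_num

lemma nsB : ∀ r, r ^ 2 ≠ pB := by
  obtain ⟨ρ, hρ, hρ0⟩ := exists_root
  refine nonsq_of_map chi1 _ ρ ?_ ?_
  · simp [chi1, pB, hρ]
  · simp [chi1, pB, hρ0]
    norm_num

lemma nsAB : ∀ r, r ^ 2 ≠ pA * pB := by
  obtain ⟨ρ, hρ, hρ0⟩ := exists_root
  refine nonsq_of_map chi0 _ ρ ?_ ?_
  · simp [chi0, pA, pB, hρ]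
  · simp [chi0, pA, pB, hρ0]
    norm_num

lemma nsF : ∀ r, r ^ 2 ≠ pF := by
  refine nonsq_of_map chi0 _ Complex.I ?_ ?_
  · simp [chi0, pF, Fst]
  · simp [chi0, pF, Fst]

lemma nsAF : ∀ r, r ^ 2 ≠ pA * pF := by
  refine nonsq_of_map chi0 _ Complex.I ?_ ?_
  · simp [chi0, pF, pA, Fst]
  · simp [chi0, pF, pA, Fst]

lemma nsBF : ∀ r, r ^ 2 ≠ pB * pF := by
  refine nonsq_of_map chi0 _ Complex.I ?_ ?_
  · simp [chi0, pF, pB, Fst]
  · simp [chi0, pF, pB, Fst]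

lemma nsABF : ∀ r, r ^ 2 ≠ pA * (pB * pF) := by
  refine nonsq_of_map chi0 _ Complex.I ?_ ?_
  · simp [chi0, pF, pA, pB, Fst]
  · simp [chi0, pF, pA, pB, Fst]

variable {K : Type} [Field K] [Algebra ℂ K] [CharZero K]

lemma lift5_injective (θ : Sol5 K)
    (hθ : Function.Injective (aeval (R := ℂ) ![θ.s, θ.t])) : Function.Injective (lift5 θ) := by
  let φ : R2 →+* K := ((aeval (R := ℂ) ![θ.s, θ.t] : R2 →ₐ[ℂ] K) : R2 →+* K)
  have hφ : Function.Injective φ := hθ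
  let ψ : S5 →+* K := (lift5 θ : S5 →+* K)
  have hφA : φ pA = θ.u ^ 2 := by
    rw [θ.hu]
    simp [φ, pA]
  have hφB : φ pB = θ.v ^ 2 := by
    rw [θ.hv]
    simp [φ, pB]
  have hφF : φ pF = θ.w ^ 2 := by
    rw [θ.hw]
    simp [φ, pF, Fst]
  have hψ0 : ∀ p : R2, ψ (aeval (R := ℂ) ![x5 0, x5 1] p) = φ p := by
    intro p
    have h : (lift5 θ).comp (aeval (R := ℂ) ![x5 0, x5 1]) = aeval (R := ℂ) ![θ.s, θ.t] := by
      apply MvPolynomial.algHom_ext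
      intro i
      fin_cases i
      · simp [lift5_x]
      · simp [lift5_x]
    exact congrArg (fun g => g p) h
  have hu : ψ (x5 2) = θ.u := by
    change lift5 θ (x5 2) = _
    rw [lift5_x]; rfl
  have hv : ψ (x5 3) = θ.v := by
    change lift5 θ (x5 3) = _
    rw [lift5_x]; rfl
  have hw : ψ (x5 4) = θ.w := by
    change lift5 θ (x5 4) = _
    rw [lift5_x]; rfl
  let k0 := fracField φ hφ
  have hns : ∀ f : R2, (∀ r, r ^ 2 ≠ f) → Nonsq k0 (φ f) := fun f h => nonsq_fracField φ hφ f h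
  have hmem : ∀ f : R2, φ f ∈ k0 := fun f => mem_fracField φ hφ f
  have e0 : Emb ψ N0 k0 := by
    constructor
    · rintro _ ⟨p, rfl⟩
      change ψ (aeval (R := ℂ) ![x5 0, x5 1] p) ∈ k0
      rw [hψ0]
      exact hmem p
    · rintro _ ⟨p, rfl⟩ h
      change ψ (aeval (R := ℂ) ![x5 0, x5 1] p) = 0 at h
      change aeval (R := ℂ) ![x5 0, x5 1] p = 0
      rw [hψ0] at h
      have : p = 0 := hφ (by rw [h, map_zero])
      rw [this, map_zero]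
  have hu2 : (ψ (x5 2)) ^ 2 ∈ k0 := by rw [hu, ← hφA]; exact hmem _
  have n1 : Nonsq k0 ((ψ (x5 2)) ^ 2) := by rw [hu, ← hφA]; exact hns _ nsA
  have e1 : Emb ψ N1 (quadField k0 (ψ (x5 2)) hu2) := e0.quad _ x2_sq hu2 n1
  let k1 := quadField k0 (ψ (x5 2)) hu2
  have hk1 : k0 ≤ k1 := le_quadField
  have hv2 : (ψ (x5 3)) ^ 2 ∈ k1 := hk1 (by rw [hv, ← hφB]; exact hmem _)
  have n2 : Nonsq k1 ((ψ (x5 3)) ^ 2) := by
    apply nonsq_quadField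
    · rw [hv, ← hφB]; exact hmem _
    · rw [hv, ← hφB]; exact hns _ nsB
    · rw [hu, hv, ← hφA, ← hφB, ← map_mul]; exact hns _ nsAB
  have e2 : Emb ψ N2 (quadField k1 (ψ (x5 3)) hv2) := e1.quad _ (le_quadRing x3_sq) hv2 n2
  let k2 := quadField k1 (ψ (x5 3)) hv2
  have hk2 : k1 ≤ k2 := le_quadField
  have hw2 : (ψ (x5 4)) ^ 2 ∈ k2 := hk2 (hk1 (by rw [hw, ← hφF]; exact hmem _))
  have n3 : Nonsq k2 ((ψ (x5 4)) ^ 2) := by
    apply nonsq_quadField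
    · exact hk1 (by rw [hw, ← hφF]; exact hmem _)
    · apply nonsq_quadField
      · rw [hw, ← hφF]; exact hmem _
      · rw [hw, ← hφF]; exact hns _ nsF
      · rw [hu, hw, ← hφA, ← hφF, ← map_mul]; exact hns _ nsAF
    · apply nonsq_quadField
      · rw [hv, hw, ← hφB, ← hφF, ← map_mul]; exact hmem _
      · rw [hv, hw, ← hφB, ← hφF, ← map_mul]; exact hns _ nsBF
      · rw [hu, hv, hw, ← hφA, ← hφB, ← hφF, ← map_mul, ← map_mul]; exact hns _ nsABF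
  have e3 : Emb ψ N3 (quadField k2 (ψ (x5 4)) hw2) :=
    e2.quad _ (le_quadRing (le_quadRing x4_sq)) hw2 n3
  rw [injective_iff_map_eq_zero]
  intro a ha
  exact e3.inj a (N3_eq_top a) ha

end

end Pool.Agent.MP77a250
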