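import Pool.Agent.MP77a250.Kum
import Pool.Agent.MP77a250.AtSm

set_option autoImplicit false

open MvPolynomial

namespace Pool.Agent.MP77a250

/-- A solution of the equations in a `ℂ`-algebra. -/
structure Sol5 (C : Type) [CommRing C] [Algebra ℂ C] where
  s : C
  t : C
  u : C
  v : C
  w : C
  hu : u ^ 2 = s ^ 4 + 1
  hv : v ^ 2 = t ^ 4 + 1
  hw : w ^ 2 = Fst s t

section

variable {C : Type} [CommRing C] [Algebra ℂ C]

/-- The homomorphism defined by a solution. -/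
noncomputable def lift5 (θ : Sol5 C) : S5 →ₐ[ℂ] C :=
  Ideal.Quotient.liftₐ _ (aeval ![θ.s, θ.t, θ.u, θ.v, θ.w]) (by
    intro a ha
    have h : Ideal.span (Set.range g5) ≤ RingHom.ker (aeval (R := ℂ) ![θ.s, θ.t, θ.u, θ.v, θ.w]) := by
      rw [Ideal.span_le]
      rintro _ ⟨i, rfl⟩
      rw [SetLike.mem_coe, RingHom.mem_ker]
      fin_cases i
      · simp [g5, θ.hu]
      · simp [g5, θ.hv]
      · simp [g5, θ.hw, Fst]
    exact h ha)

/-- The generators of the chart ring. -/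
noncomputable def x5 (i : Fin 5) : S5 := Ideal.Quotient.mk _ (X i)

lemma lift5_x (θ : Sol5 C) (i : Fin 5) : lift5 θ (x5 i) = ![θ.s, θ.t, θ.u, θ.v, θ.w] i := by
  change aeval (R := ℂ) ![θ.s, θ.t, θ.u, θ.v, θ.w] (X i) = _
  rw [aeval_X]

lemma mk_g5 (i : Fin 3) : Ideal.Quotient.mk (Ideal.span (Set.range g5)) (g5 i) = 0 :=
  Ideal.Quotient.eq_zero_iff_mem.mpr (g5_mem i)

lemma x5_hu : x5 2 ^ 2 = x5 0 ^ 4 + 1 := by
  have h : Ideal.Quotient.mk (Ideal.span (Set.range g5)) (X 2 ^ 2 - X 0 ^ 4 - 1) = 0 := mk_g5 0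
  rw [map_sub, map_sub, map_pow, map_pow, map_one] at h
  rw [x5, x5]
  linear_combination h

lemma x5_hv : x5 3 ^ 2 = x5 1 ^ 4 + 1 := by
  have h : Ideal.Quotient.mk (Ideal.span (Set.range g5)) (X 3 ^ 2 - X 1 ^ 4 - 1) = 0 := mk_g5 1
  rw [map_sub, map_sub, map_pow, map_pow, map_one] at h
  rw [x5, x5]
  linear_combination h

lemma x5_hw : x5 4 ^ 2 = Fst (x5 0) (x5 1) := by
  have h : Ideal.Quotient.mk (Ideal.span (Set.range g5)) (X 4 ^ 2 - ((X 0 ^ 2 + 1) * (X 1 ^ 2 + 1)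
    + X 0 * X 1)) = 0 := mk_g5 2
  simp only [map_sub, map_pow, map_mul, map_add, map_one] at h
  rw [x5, Fst, x5, x5]
  linear_combination h

/-- The universal solution. -/
noncomputable def univ5 : Sol5 S5 := ⟨x5 0, x5 1, x5 2, x5 3, x5 4, x5_hu, x5_hv, x5_hw⟩

lemma S5_hom_ext {φ ψ : S5 →ₐ[ℂ] C} (h : ∀ i, φ (x5 i) = ψ (x5 i)) : φ = ψ := by
  apply Ideal.Quotient.algHom_ext
  apply MvPolynomial.algHom_ext
  exact h

/-- The subring generated by `s, t`. -/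
noncomputable def N0 : Subring S5 :=
  ((aeval (R := ℂ) ![x5 0, x5 1] : MvPolynomial (Fin 2) ℂ →ₐ[ℂ] S5) : MvPolynomial (Fin 2) ℂ →+* S5).range

lemma mem_N0 (p : MvPolynomial (Fin 2) ℂ) : aeval (R := ℂ) ![x5 0, x5 1] p ∈ N0 := ⟨p, rfl⟩

lemma x0_mem : x5 0 ∈ N0 := ⟨X 0, by simp⟩

lemma x1_mem : x5 1 ∈ N0 := ⟨X 1, by simp⟩

lemma x2_sq : x5 2 ^ 2 ∈ N0 := by
  rw [x5_hu]
  exact add_mem (pow_mem x0_mem 4) (one_mem _)

lemma x3_sq : x5 3 ^ 2 ∈ N0 := by
  rw [x5_hv]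
  exact add_mem (pow_mem x1_mem 4) (one_mem _)

lemma x4_sq : x5 4 ^ 2 ∈ N0 := by
  rw [x5_hw, Fst]
  exact add_mem (mul_mem (add_mem (pow_mem x0_mem 2) (one_mem _))
    (add_mem (pow_mem x1_mem 2) (one_mem _))) (mul_mem x0_mem x1_mem)

noncomputable def N1 : Subring S5 := quadRing N0 (x5 2) x2_sq

noncomputable def N2 : Subring S5 := quadRing N1 (x5 3) (le_quadRing x3_sq)

noncomputable def N3 : Subring S5 := quadRing N2 (x5 4) (le_quadRing (le_quadRing x4_sq))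

lemma N0_le_N3 : N0 ≤ N3 := le_quadRing.trans (le_quadRing.trans le_quadRing)

lemma N3_eq_top (z : S5) : z ∈ N3 := by
  obtain ⟨p, rfl⟩ := Ideal.Quotient.mk_surjective z
  induction p using MvPolynomial.induction_on with
  | C a => exact N0_le_N3 ⟨C a, by simp; rfl⟩
  | add p q hp hq => rw [map_add]; exact add_mem hp hq
  | mul_X p i hp =>
    rw [map_mul]
    refine mul_mem hp ?_
    change x5 i ∈ N3
    fin_cases i
    · exact N0_le_N3 x0_mem
    · exact N0_le_N3 x1_mem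
    · exact le_quadRing (le_quadRing self_mem_quadRing)
    · exact le_quadRing self_mem_quadRing
    · exact self_mem_quadRing

end

end Pool.Agent.MP77a250
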