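import Mathlib

set_option autoImplicit false

namespace Pool.Agent.MP77a250

section quad

variable {K : Type} [Field K]

/-- The field `k(α)` for `α ^ 2 ∈ k`. -/
def quadField (k : Subfield K) (α : K) (hα : α ^ 2 ∈ k) : Subfield K where
  carrier := {z | ∃ x ∈ k, ∃ y ∈ k, z = x + y * α}
  mul_mem' := by
    rintro _ _ ⟨x, hx, y, hy, rfl⟩ ⟨x', hx', y', hy', rfl⟩
    refine ⟨x * x' + y * y' * α ^ 2, add_mem (mul_mem hx hx') (mul_mem (mul_mem hy hy') hα),
      x * y' + x' * y, add_mem (mul_mem hx hy') (mul_mem hx' hy), by ring⟩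
  one_mem' := ⟨1, one_mem _, 0, zero_mem _, by ring⟩
  add_mem' := by
    rintro _ _ ⟨x, hx, y, hy, rfl⟩ ⟨x', hx', y', hy', rfl⟩
    exact ⟨x + x', add_mem hx hx', y + y', add_mem hy hy', by ring⟩
  zero_mem' := ⟨0, zero_mem _, 0, zero_mem _, by ring⟩
  neg_mem' := by
    rintro _ ⟨x, hx, y, hy, rfl⟩
    exact ⟨-x, neg_mem hx, -y, neg_mem hy, by ring⟩
  inv_mem' := by
    rintro _ ⟨x, hx, y, hy, rfl⟩
    by_cases hz : x + y * α = 0
    · rw [hz, inv_zero]
      exact ⟨0, zero_mem _, 0, zero_mem _, by ring⟩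
    by_cases hN : x ^ 2 - y ^ 2 * α ^ 2 = 0
    · have h1 : (x + y * α) * (x - y * α) = 0 := by
        rw [← hN]; ring
      have h2 : x - y * α = 0 := (mul_eq_zero.mp h1).resolve_left hz
      have hy0 : y ≠ 0 := by
        rintro rfl
        apply hz
        rw [zero_mul, sub_zero] at h2
        rw [h2, zero_mul, add_zero]
      have hαk : α ∈ k := by
        have h3 : α = x / y := by
          field_simp
          linear_combination -h2
        rw [h3]
        exact div_mem hx hy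
      exact ⟨(x + y * α)⁻¹, inv_mem (add_mem hx (mul_mem hy hαk)), 0, zero_mem _, by ring⟩
    · refine ⟨x / (x ^ 2 - y ^ 2 * α ^ 2), div_mem hx (sub_mem (pow_mem hx 2)
        (mul_mem (pow_mem hy 2) hα)), - y / (x ^ 2 - y ^ 2 * α ^ 2), div_mem (neg_mem hy)
        (sub_mem (pow_mem hx 2) (mul_mem (pow_mem hy 2) hα)), ?_⟩
      field_simp
      ring

lemma mem_quadField {k : Subfield K} {α : K} {hα : α ^ 2 ∈ k} {z : K} :
    z ∈ quadField k α hα ↔ ∃ x ∈ k, ∃ y ∈ k, z = x + y * α := Iff.rfl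

lemma le_quadField {k : Subfield K} {α : K} {hα : α ^ 2 ∈ k} : k ≤ quadField k α hα :=
  fun x hx => ⟨x, hx, 0, zero_mem _, by ring⟩

lemma self_mem_quadField {k : Subfield K} {α : K} {hα : α ^ 2 ∈ k} : α ∈ quadField k α hα :=
  ⟨0, zero_mem _, 1, one_mem _, by ring⟩

/-- `a` is not a square in `k`. -/
def Nonsq (k : Subfield K) (a : K) : Prop := ∀ x ∈ k, x ^ 2 ≠ a

lemma eq_zero_of_nonsq {k : Subfield K} {α : K} (h : Nonsq k (α ^ 2)) {x y : K} (hx : x ∈ k)
    (hy : y ∈ k) (hxy : x + y * α = 0) : x = 0 ∧ y = 0 := by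
  by_cases hy0 : y = 0
  · subst hy0
    simpa using hxy
  · exfalso
    have h3 : α = -x / y := by
      field_simp
      linear_combination hxy
    exact h α (by rw [h3]; exact div_mem (neg_mem hx) hy) rfl

lemma nonsq_quadField [CharZero K] {k : Subfield K} {α b : K} (hα : α ^ 2 ∈ k)
    (hb : b ∈ k) (h1 : Nonsq k b) (h2 : Nonsq k (α ^ 2 * b)) : Nonsq (quadField k α hα) b := by
  rintro _ ⟨x, hx, y, hy, rfl⟩ hxy
  by_cases h : α ∈ k
  · exact h1 _ (add_mem hx (mul_mem hy h)) hxy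
  · have h3 : 2 * x * y = 0 := by
      by_contra h4
      apply h
      have h5 : α = (b - x ^ 2 - α ^ 2 * y ^ 2) / (2 * x * y) := by
        rw [eq_div_iff h4]
        linear_combination hxy
      rw [h5]
      have h2k : (2 : K) ∈ k := by
        have := natCast_mem k 2
        exact_mod_cast this
      exact div_mem (sub_mem (sub_mem hb (pow_mem hx 2)) (mul_mem hα (pow_mem hy 2)))
        (mul_mem (mul_mem h2k hx) hy)
    have h4 : x = 0 ∨ y = 0 := by
      rcases mul_eq_zero.mp h3 with h4 | h4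
      · rcases mul_eq_zero.mp h4 with h5 | h5
        · exact absurd h5 two_ne_zero
        · exact Or.inl h5
      · exact Or.inr h4
    rcases h4 with rfl | rfl
    · refine h2 (α ^ 2 * y) (mul_mem hα hy) ?_
      rw [← hxy]; ring
    · refine h1 x hx ?_
      rw [← hxy]; ring

end quad

section base

variable {K : Type} [Field K] {R : Type} [CommRing R] [IsDomain R]

/-- The field of fractions of a subring, inside a field. -/
def fracField (φ : R →+* K) (hφ : Function.Injective φ) : Subfield K where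
  carrier := {z | ∃ p q, q ≠ 0 ∧ z * φ q = φ p}
  mul_mem' := by
    rintro z z' ⟨p, q, hq, h⟩ ⟨p', q', hq', h'⟩
    refine ⟨p * p', q * q', mul_ne_zero hq hq', ?_⟩
    rw [map_mul, map_mul, ← h, ← h']; ring
  one_mem' := ⟨1, 1, one_ne_zero, by simp⟩
  add_mem' := by
    rintro z z' ⟨p, q, hq, h⟩ ⟨p', q', hq', h'⟩
    refine ⟨p * q' + p' * q, q * q', mul_ne_zero hq hq', ?_⟩
    rw [map_mul, map_add, map_mul, map_mul, ← h, ← h']; ring
  zero_mem' := ⟨0, 1, one_ne_zero, by simp⟩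
  neg_mem' := by
    rintro z ⟨p, q, hq, h⟩
    exact ⟨-p, q, hq, by rw [map_neg, ← h]; ring⟩
  inv_mem' := by
    rintro z ⟨p, q, hq, h⟩
    by_cases hz : z = 0
    · subst hz
      exact ⟨0, 1, one_ne_zero, by simp⟩
    · refine ⟨q, p, ?_, ?_⟩
      · rintro rfl
        rw [map_zero] at h
        rcases mul_eq_zero.mp h with h1 | h1
        · exact hz h1
        · exact hq ((map_eq_zero_iff φ hφ).mp h1)
      · rw [← h]
        field_simp

lemma mem_fracField (φ : R →+* K) (hφ : Function.Injective φ) (r : R) : φ r ∈ fracField φ hφ :=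
  ⟨r, 1, one_ne_zero, by simp⟩

lemma nonsq_fracField [IsIntegrallyClosed R] (φ : R →+* K) (hφ : Function.Injective φ) (f : R)
    (h : ∀ r, r ^ 2 ≠ f) : Nonsq (fracField φ hφ) (φ f) := by
  rintro z ⟨p, q, hq, hz⟩ hzf
  have h1 : p ^ 2 = f * q ^ 2 := by
    apply hφ
    rw [map_mul, map_pow, map_pow, ← hzf, ← hz]; ring
  have h2 : q ∣ p := by
    rw [← IsIntegrallyClosed.pow_dvd_pow_iff (two_ne_zero), h1]
    exact Dvd.intro_left f rfl
  obtain ⟨r, rfl⟩ := h2
  apply h r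
  have h3 : q ^ 2 ≠ 0 := pow_ne_zero 2 hq
  apply mul_right_cancel₀ h3
  rw [← h1]; ring

lemma nonsq_poly (f : Polynomial ℂ) (ρ : ℂ) (h0 : f.eval ρ = 0) (h1 : f.derivative.eval ρ ≠ 0) :
    ∀ r, r ^ 2 ≠ f := by
  rintro r rfl
  rw [Polynomial.eval_pow] at h0
  have h2 : r.eval ρ = 0 := pow_eq_zero_iff (two_ne_zero) |>.mp h0
  apply h1
  rw [Polynomial.derivative_pow]
  simp [h2]

end base

section ring

variable {K S : Type} [Field K] [CommRing S]

/-- The subring `N + N α` for `α ^ 2 ∈ N`. -/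
def quadRing (N : Subring S) (α : S) (hα : α ^ 2 ∈ N) : Subring S where
  carrier := {z | ∃ x ∈ N, ∃ y ∈ N, z = x + y * α}
  mul_mem' := by
    rintro _ _ ⟨x, hx, y, hy, rfl⟩ ⟨x', hx', y', hy', rfl⟩
    refine ⟨x * x' + y * y' * α ^ 2, add_mem (mul_mem hx hx') (mul_mem (mul_mem hy hy') hα),
      x * y' + x' * y, add_mem (mul_mem hx hy') (mul_mem hx' hy), by ring⟩
  one_mem' := ⟨1, one_mem _, 0, zero_mem _, by ring⟩
  add_mem' := by
    rintro _ _ ⟨x, hx, y, hy, rfl⟩ ⟨x', hx', y', hy', rfl⟩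
    exact ⟨x + x', add_mem hx hx', y + y', add_mem hy hy', by ring⟩
  zero_mem' := ⟨0, zero_mem _, 0, zero_mem _, by ring⟩
  neg_mem' := by
    rintro _ ⟨x, hx, y, hy, rfl⟩
    exact ⟨-x, neg_mem hx, -y, neg_mem hy, by ring⟩

lemma le_quadRing {N : Subring S} {α : S} {hα : α ^ 2 ∈ N} : N ≤ quadRing N α hα :=
  fun x hx => ⟨x, hx, 0, zero_mem _, by ring⟩

lemma self_mem_quadRing {N : Subring S} {α : S} {hα : α ^ 2 ∈ N} : α ∈ quadRing N α hα :=
  ⟨0, zero_mem _, 1, one_mem _, by ring⟩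

/-- `ψ` maps `N` injectively to `k`. -/
structure Emb (ψ : S →+* K) (N : Subring S) (k : Subfield K) : Prop where
  mem : ∀ a ∈ N, ψ a ∈ k
  inj : ∀ a ∈ N, ψ a = 0 → a = 0

lemma Emb.quad {ψ : S →+* K} {N : Subring S} {k : Subfield K} (h : Emb ψ N k) (α : S)
    (hα : α ^ 2 ∈ N) (hα' : (ψ α) ^ 2 ∈ k) (hns : Nonsq k ((ψ α) ^ 2)) :
    Emb ψ (quadRing N α hα) (quadField k (ψ α) hα') where
  mem := by
    rintro _ ⟨x, hx, y, hy, rfl⟩
    exact ⟨ψ x, h.mem x hx, ψ y, h.mem y hy, by rw [map_add, map_mul]⟩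
  inj := by
    rintro _ ⟨x, hx, y, hy, rfl⟩ h0
    rw [map_add, map_mul] at h0
    obtain ⟨h1, h2⟩ := eq_zero_of_nonsq hns (h.mem x hx) (h.mem y hy) h0
    rw [h.inj x hx h1, h.inj y hy h2]
    ring

end ring

end Pool.Agent.MP77a250
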