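import Pool.Agent.MP77a250.XE

set_option autoImplicit false

open CategoryTheory Limits AlgebraicGeometry TopologicalSpace

namespace Pool.Agent.MP77a250

noncomputable section

lemma card_le_of_irreducible_cover {W E : Type} [TopologicalSpace W] [TopologicalSpace E]
    (g : W → E) (hg : Continuous g) (T : Set W) (S : Set (Set W)) (hS : S.Finite)
    (hirr : ∀ t ∈ S, IsIrreducible t) (hT : T = ⋃₀ S) (Fb : Set E) (hfin : Fb.Finite)
    (hcl : ∀ e' ∈ Fb, IsClosed {e'}) (hTF : ∀ w ∈ T, g w ∈ Fb) (n : ℕ) (f : Fin n → E)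
    (hf : Function.Injective f) (hfF : ∀ i, ∃ w ∈ T, g w = f i) : n ≤ hS.toFinset.card := by
  have key : ∀ i, ∃ t ∈ S, ∀ w ∈ t, g w = f i := by
    intro i
    obtain ⟨w, hw, hwi⟩ := hfF i
    rw [hT] at hw
    obtain ⟨t, ht, hwt⟩ := hw
    refine ⟨t, ht, ?_⟩
    have h1 := (isIrreducible_iff_sUnion_isClosed.mp (hirr t ht))
      ((hfin.image (fun e' => g ⁻¹' {e'})).toFinset) (by
        intro z hz
        rw [Set.Finite.mem_toFinset] at hz
        obtain ⟨e', he', rfl⟩ := hz
        exact (hcl e' he').preimage hg) (by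
        intro w' hw'
        have h2 : w' ∈ T := by rw [hT]; exact ⟨t, ht, hw'⟩
        refine ⟨g ⁻¹' {g w'}, ?_, rfl⟩
        rw [Finset.mem_coe, Set.Finite.mem_toFinset]
        exact ⟨g w', hTF _ h2, rfl⟩)
    obtain ⟨z, hz, htz⟩ := h1
    rw [Set.Finite.mem_toFinset] at hz
    obtain ⟨e', he', rfl⟩ := hz
    intro w' hw'
    have h3 : g w' = e' := htz hw'
    have h4 : g w = e' := htz hwt
    rw [h3, ← h4, hwi]
  choose t ht htf using key
  have hinj : Function.Injective t := by
    intro i j hij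
    obtain ⟨w, hw⟩ := (hirr (t i) (ht i)).nonempty
    apply hf
    rw [← htf i w hw]
    exact htf j w (hij ▸ hw)
  have h5 : (Finset.univ.image t) ⊆ hS.toFinset := by
    intro z hz
    obtain ⟨i, -, rfl⟩ := Finset.mem_image.mp hz
    exact hS.mem_toFinset.mpr (ht i)
  have h6 := Finset.card_le_card h5
  rw [Finset.card_image_of_injective _ hinj, Finset.card_univ, Fintype.card_fin] at h6
  exact h6

/-- A completely split covering with nonempty total space has a section. -/
lemma exists_section {W' W : Scheme.{0}} {q : W' ⟶ W} (hq : IsCompletelySplit q) (x : W') :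
    ∃ σ : W ⟶ W', σ ≫ q = 𝟙 W := by
  obtain ⟨n, e, he⟩ := hq
  have hi : ∃ i : Fin n, True := by
    obtain ⟨i, -, -⟩ := (sigmaOpenCover (fun _ : Fin n => W)).exists_eq (e.hom x)
    exact ⟨i, trivial⟩
  obtain ⟨i, -⟩ := hi
  refine ⟨Sigma.ι (fun _ : Fin n => W) i ≫ e.inv, ?_⟩
  rw [← he, Category.assoc, e.inv_hom_id_assoc, Sigma.ι_desc]

theorem large_aux {W : Scheme.{0}} (a : W ⟶ MX.X) (ha : IsProper (a ≫ MX.s)) (b : Bool) (w : W)
    (hw : XE.f b (a w) = ηE) :
    ∃ N : ℕ, ¬ IsCompletelySplit (pullback.fst a (pullback.fst (XE.f b) (phiN N))) := by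
  have hLN : IsLocallyNoetherian W := LocallyOfFiniteType.isLocallyNoetherian (a ≫ MX.s)
  have hcomp : CompactSpace W := (quasiCompact_iff_compactSpace (a ≫ MX.s)).mp inferInstance
  have hN : IsNoetherian W := {}
  let e : ME.X := ptE false (⟨0, 1, by norm_num⟩ : Sol2 ℂ) o
  have he : e ≠ ηE := ptE_ne_ηE _ _
  have hecl : IsClosed {e} := isClosed_ptE _ _
  let h : W ⟶ ME.X := a ≫ XE.f b
  have hh : h ≫ ME.s = a ≫ MX.s := by rw [Category.assoc, XE.f_s]
  have hTcl : IsClosed (h ⁻¹' {e}) := hecl.preimage h.continuous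
  obtain ⟨S, hS, -, hirr, hT⟩ := NoetherianSpace.exists_finite_set_isClosed_irreducible hTcl
  refine ⟨hS.toFinset.card, fun hsplit => ?_⟩
  generalize hNN : hS.toFinset.card = N at hsplit
  have hsurj : Surjective (phiN N) := ⟨surjective_phiN N⟩
  obtain ⟨x, -⟩ := (inferInstance : Surjective
    (pullback.fst a (pullback.fst (XE.f b) (phiN N)))).surj w
  obtain ⟨σ, hσ⟩ := exists_section hsplit x
  let g : W ⟶ ME.X := σ ≫ pullback.snd a (pullback.fst (XE.f b) (phiN N)) ≫
    pullback.snd (XE.f b) (phiN N)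
  have hg : g ≫ phiN N = h := by
    change (σ ≫ pullback.snd a (pullback.fst (XE.f b) (phiN N)) ≫
      pullback.snd (XE.f b) (phiN N)) ≫ phiN N = a ≫ XE.f b
    rw [Category.assoc, Category.assoc, ← pullback.condition, ← pullback.condition_assoc,
      ← Category.assoc, hσ, Category.id_comp]
  have hgs : g ≫ ME.s = a ≫ MX.s := by rw [← hh, ← hg, Category.assoc g, phiN_s]
  have hgp : IsProper g := by
    have : IsProper (g ≫ ME.s) := by rw [hgs]; exact ha
    exact IsProper.of_comp g ME.s
  have hgw : g w = ηE := by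
    by_contra hne
    apply phiN_ne N (g w) hne
    have h1 : (g ≫ phiN N) w = h w := by rw [hg]
    exact h1.trans hw
  have hgsurj : Function.Surjective g := by
    rw [← Set.range_eq_univ, Set.eq_univ_iff_forall]
    intro y
    have h1 : IsClosed (Set.range g) := g.isClosedMap.isClosed_range
    have h2 : closure {ηE} ⊆ Set.range g := by
      rw [h1.closure_subset_iff, Set.singleton_subset_iff]
      exact ⟨w, hgw⟩
    rw [closure_ηE] at h2
    exact h2 (Set.mem_univ y)
  obtain ⟨f, hf, hfe⟩ := exists_fibre N e he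
  have hfin := isFiniteEtale_phiN N
  have := hfin.1
  have hgN : ∀ w, phiN N (g w) = h w := fun w => by
    have h1 : (g ≫ phiN N) w = h w := by rw [hg]
    exact h1
  have hfib : (phiN N ⁻¹' {e}).Finite := (phiN N).finite_preimage_singleton e
  have hcard := card_le_of_irreducible_cover g g.continuous (h ⁻¹' {e}) S hS hirr hT
    (phiN N ⁻¹' {e}) hfib (by
      intro e' he'
      apply isClosed_of_ne
      rintro rfl
      have h2 : phiN N ηE = e := he'
      rw [phiN_ηE] at h2
      exact he h2.symm) (by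
      intro w' hw'
      change phiN N (g w') = e
      rw [hgN]
      exact hw') (N + 1) f hf (by
      intro i
      obtain ⟨w', hw'⟩ := hgsurj (f i)
      refine ⟨w', ?_, hw'⟩
      change h w' = e
      rw [← hgN, hw', hfe])
  omega

end

end Pool.Agent.MP77a250
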