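import Pool.Agent.MP77a250.Large

set_option autoImplicit false

open CategoryTheory Limits AlgebraicGeometry TopologicalSpace

namespace Pool.Agent.MP77a250

noncomputable section

lemma exists_b {Z : Scheme.{0}} (i : Z ⟶ MX.X) (hi : IsClosedImmersion i) [IsIntegral Z]
    (hdim : 0 < topologicalKrullDim Z) : ∃ b, XE.f b (i (genericPoint Z)) = ηE := by
  by_contra hne
  push Not at hne
  have h1 := XE.isClosed _ hne
  have h2 : ∀ x : Z, x = genericPoint Z := by
    intro x
    have h3 : genericPoint Z ⤳ x := genericPoint_specializes x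
    have h4 := h3.map i.continuous
    have h5 := h4.mem_closed h1 rfl
    exact i.isClosedEmbedding.injective h5
  have h3 : Subsingleton Z := ⟨fun x y => (h2 x).trans (h2 y).symm⟩
  have h5 : DiscreteTopology Z := Subsingleton.discreteTopology
  have h4 : topologicalKrullDim Z ≤ 0 := topologicalKrullDim_zero_of_discreteTopology Z
  exact absurd hdim (not_lt.mpr h4)

lemma surjective_of_isNormalisation {Z' Z : Scheme.{0}} (ν : Z' ⟶ Z) (h : IsNormalisation ν)
    [IsIntegral Z] : Function.Surjective ν := by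
  have := h.finite
  obtain ⟨U, ⟨x, hx⟩, hU⟩ := h.birational
  have h1 : (U : Set Z) ⊆ Set.range ν := by
    intro y hy
    have h2 : Function.Surjective (ν ∣_ U) := (ν ∣_ U).homeomorph.surjective
    obtain ⟨z, hz⟩ := h2 ⟨y, hy⟩
    refine ⟨z.1, ?_⟩
    exact (morphismRestrict_base_coe ν U z).symm.trans (congrArg Subtype.val hz)
  have h2 : IsClosed (Set.range ν) := ν.isClosedMap.isClosed_range
  have h3 : Dense (U : Set Z) := U.isOpen.dense ⟨x, hx⟩
  rw [← Set.range_eq_univ, ← h2.closure_eq, ← Set.univ_subset_iff, ← h3.closure_eq]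
  exact closure_mono h1

theorem large_X : HasLargeAlgFundGroup MX.X := by
  intro Z i hi hZ hdim Z' ν hν W q hq hW
  obtain ⟨b, hb⟩ := exists_b i hi hdim
  have hZ' : IsIntegral Z' := hν.integral
  have := hν.finite
  have := hq.finite
  have hqs : Function.Surjective q := surjective_of_finiteEtale q hq
  obtain ⟨z, hz⟩ := surjective_of_isNormalisation ν hν (genericPoint Z)
  obtain ⟨w, rfl⟩ := hqs z
  have hp : IsProper ((q ≫ ν ≫ i) ≫ MX.s) := inferInstance
  have hw : XE.f b ((q ≫ ν ≫ i) w) = ηE := by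
    have h1 : (q ≫ ν ≫ i) w = i (ν (q w)) := rfl
    rw [h1, hz, hb]
  obtain ⟨N, hN⟩ := large_aux (q ≫ ν ≫ i) hp b w hw
  have h1 := (isFiniteEtale_phiN N).1
  have h2 := (isFiniteEtale_phiN N).2
  exact ⟨_, pullback.fst (XE.f b) (phiN N), ⟨inferInstance, inferInstance⟩, hN⟩

end

end Pool.Agent.MP77a250
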