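import Pool.Agent.MP77a250.MThy

set_option autoImplicit false

open CategoryTheory Limits AlgebraicGeometry TopologicalSpace

namespace Pool.Agent.MP77a250

namespace Model

variable {K : Type} [Field K] [Algebra ℂ K] (M : Model K)

/-- A function on `U k ⊓ U l` coming from the chart `k`. -/
noncomputable def ratio (k l : M.κ) : Γ(M.X, M.U k ⊓ M.U l) :=
  res (show M.U k ⊓ M.U l ≤ M.U k from inf_le_left) (M.fn k ⟨_, M.ratio_mem k l⟩)

lemma inf_ne (k l : M.κ) : ∃ x, x ∈ M.U k ⊓ M.U l := M.exists_mem (M.U_ne k) (M.U_ne l)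

lemma val_ratio (k l : M.κ) : M.val _ (M.inf_ne k l) (M.ratio k l) = M.f l / M.f k := by
  rw [ratio, val_res, val_fn]

lemma ratio_eq (k l : M.κ) : M.ratio k l * res (le_of_eq (inf_comm _ _)) (M.ratio l k) = 1 := by
  apply M.val_injective _ (M.inf_ne k l)
  rw [map_mul, val_res, val_ratio, val_ratio, map_one]
  have := M.fne k
  have := M.fne l
  field_simp

/-- The transition functions. -/
noncomputable def gg (k l : M.κ) : Γ(M.X, M.U k ⊓ M.U l)ˣ :=
  Units.mkOfMulEqOne (M.ratio k l) _ (M.ratio_eq k l)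

lemma val_gg (k l : M.κ) : M.val _ (M.inf_ne k l) (M.gg k l : Γ(M.X, M.U k ⊓ M.U l)) =
    M.f l / M.f k := M.val_ratio k l

/-- The line bundle `O(1)`. -/
noncomputable def L : LineBundle M.X where
  ι := M.κ
  U := M.U
  covers x := by
    obtain ⟨k, hk⟩ := M.covers x
    exact ⟨k, (M.mem_U k x).mpr hk⟩
  g := M.gg
  cocycle i j k := by
    have hne : ∃ x, x ∈ M.U i ⊓ M.U j ⊓ M.U k := M.exists_mem (M.inf_ne i j) (M.U_ne k)
    apply M.val_injective _ hne
    rw [map_mul, val_res, val_res, val_res, val_gg, val_gg, val_gg]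
    have := M.fne i
    have := M.fne j
    have := M.fne k
    field_simp

lemma sec_glue (x : K) (hx : ∀ k, x / M.f k ∈ M.A k) (i j : M.κ) :
    res (show M.U i ⊓ M.U j ≤ M.U i from inf_le_left) (M.fn i ⟨_, hx i⟩) =
    (M.gg i j : Γ(M.X, M.U i ⊓ M.U j)) ^ 1 *
      res (show M.U i ⊓ M.U j ≤ M.U j from inf_le_right) (M.fn j ⟨_, hx j⟩) := by
  apply M.val_injective _ (M.inf_ne i j)
  rw [map_mul, val_res, map_pow, val_res, val_fn, val_fn, val_gg]
  have := M.fne i
  have := M.fne j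
  field_simp

/-- The section of `O(1)` defined by an element of `K`. -/
noncomputable def sec (x : K) (hx : ∀ k, x / M.f k ∈ M.A k) : M.L.PowSection 1 where
  s k := M.fn k ⟨_, hx k⟩
  glue i j := M.sec_glue x hx i j

lemma sec_s (x : K) (hx : ∀ k, x / M.f k ∈ M.A k) (k : M.κ) :
    (M.sec x hx).s k = M.fn k ⟨_, hx k⟩ := rfl

lemma mem_sec_nonvanishing (x : K) (hx : ∀ k, x / M.f k ∈ M.A k) (k : M.κ)
    (y : Spec (.of (M.A k))) :
    M.j k y ∈ (M.sec x hx).nonvanishing ↔ y ∈ PrimeSpectrum.basicOpen (⟨_, hx k⟩ : M.A k) := by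
  rw [← M.mem_basicOpen_fn k, mem_nonvanishing_iff (M.sec x hx) k (M.j_mem_U k y)]
  rfl

lemma sec_f_nonvanishing (l : M.κ) :
    (M.sec (M.f l) (fun k => M.ratio_mem k l)).nonvanishing = M.U l := by
  ext x
  obtain ⟨k, y, rfl⟩ := M.covers x
  have h1 := M.mem_sec_nonvanishing (M.f l) (fun k => M.ratio_mem k l) k y
  have h2 := M.inter k l y
  rw [← M.mem_U] at h2
  exact h1.trans h2.symm

lemma compactSpace : CompactSpace M.X := (quasiCompact_iff_compactSpace M.s).mp inferInstance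

lemma isAmple : M.L.IsAmple := by
  refine ⟨M.compactSpace, fun x => ?_⟩
  obtain ⟨k, hk⟩ := M.L.covers x
  refine ⟨1, one_pos, M.sec (M.f k) (fun l => M.ratio_mem l k), ?_, ?_⟩
  · rw [sec_f_nonvanishing]
    exact hk
  · rw [sec_f_nonvanishing]
    exact M.isAffineOpen_U k

end Model

end Pool.Agent.MP77a250
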