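import Pool.Agent.MP77a250.Model
import Pool.Agent.MP77a250.Curve2

set_option autoImplicit false

open CategoryTheory Limits AlgebraicGeometry TopologicalSpace

namespace Pool.Agent.MP77a250

namespace Model

variable {K : Type} [Field K] [Algebra ℂ K] (M : Model K)

instance (k : M.κ) : IsOpenImmersion (M.j k) := M.openImm k

instance : IsProper M.s := M.proper

/-- The inclusion of a chart ring in `K`. -/
noncomputable def inc (k : M.κ) : CommRingCat.of (M.A k) ⟶ CommRingCat.of K :=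
  CommRingCat.ofHom (M.A k).val.toRingHom

lemma inc_j' (k : M.κ) : Spec.map (M.inc k) ≫ M.j k = M.pt := M.inc_j k

/-- The generic point lies in every nonempty open set. -/
lemma pt_mem {V : M.X.Opens} {x : M.X} (hx : x ∈ V) (z : Spec (.of K)) : M.pt z ∈ V := by
  obtain ⟨k, y, rfl⟩ := M.covers x
  rw [← M.inc_j' k]
  change M.j k (Spec.map (M.inc k) z) ∈ V
  have h1 : Spec.map (M.inc k) z ⤳ y := by
    have h2 : Spec.map (M.inc k) z = (⊥ : PrimeSpectrum (M.A k)) := by
      apply PrimeSpectrum.ext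
      change Ideal.comap (M.inc k).hom z.asIdeal = ⊥
      have h3 : z.asIdeal = ⊥ := (Ideal.eq_bot_or_top _).resolve_right z.2.ne_top
      rw [h3, ← RingHom.ker_eq_comap_bot, ← RingHom.injective_iff_ker_eq_bot]
      exact Subtype.val_injective
    rw [h2]
    exact (PrimeSpectrum.le_iff_specializes (⊥ : PrimeSpectrum (M.A k)) y).mp bot_le
  exact (h1.map (M.j k).continuous).mem_open V.isOpen hx

lemma pt_le {V : M.X.Opens} (hV : ∃ x, x ∈ V) : ⊤ ≤ M.pt ⁻¹ᵁ V := by
  obtain ⟨x, hx⟩ := hV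
  intro z _
  exact M.pt_mem hx z

instance : IsDominant M.pt := by
  constructor
  rw [DenseRange, dense_iff_inter_open]
  rintro V hV ⟨x, hx⟩
  exact ⟨_, M.pt_mem (V := ⟨V, hV⟩) hx (⊥ : PrimeSpectrum K), (⊥ : PrimeSpectrum K), rfl⟩

instance : IsReduced M.X := by
  have (x : M.X) : _root_.IsReduced (M.X.presheaf.stalk x) := by
    obtain ⟨k, y, rfl⟩ := M.covers x
    exact isReduced_of_injective ((M.j k).stalkMap y).hom
      (asIso <| (M.j k).stalkMap y).commRingCatIsoToRingEquiv.injective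
  exact isReduced_of_isReduced_stalk _

instance : IrreducibleSpace M.X := by
  have h := (IrreducibleSpace.isIrreducible_univ (Spec (.of K))).image M.pt
    M.pt.continuous.continuousOn
  rw [Set.image_univ] at h
  have h2 := h.closure
  rw [M.pt.denseRange.closure_range] at h2
  exact irreducibleSpace_def _ |>.mpr h2

instance : IsIntegral M.X := isIntegral_of_irreducibleSpace_of_isReduced _

instance : QuasiCompact M.pt := by
  have : QuasiCompact (M.pt ≫ M.s) := inferInstance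
  exact QuasiCompact.of_comp M.pt M.s

/-- The value of a function at the generic point. -/
noncomputable def val (V : M.X.Opens) (hV : ∃ x, x ∈ V) : Γ(M.X, V) →+* K :=
  (Scheme.ΓSpecIso (.of K)).hom.hom.comp (pull M.pt (M.pt_le hV))

lemma val_res {V W : M.X.Opens} (hV : ∃ x, x ∈ V) (h : V ≤ W) (a : Γ(M.X, W)) :
    M.val V hV (res h a) = M.val W (hV.imp fun _ hx => h hx) a := by
  simp only [val, RingHom.comp_apply, pull_res]

lemma val_injective (V : M.X.Opens) (hV : ∃ x, x ∈ V) : Function.Injective (M.val V hV) := by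
  have h1 : IsSchemeTheoreticallyDominant M.pt := .of_isDominant _
  have h2 := M.pt.app_injective V
  intro a b hab
  apply h2
  have h3 : M.pt ⁻¹ᵁ V = ⊤ := top_le_iff.mp (M.pt_le hV)
  have h4 : pull M.pt (M.pt_le hV) a = pull M.pt (M.pt_le hV) b := by
    exact (Scheme.ΓSpecIso (.of K)).commRingCatIsoToRingEquiv.injective hab
  have h5 : ∀ c : Γ(M.X, V), M.pt.app V c = res h3.le (pull M.pt (M.pt_le hV) c) := by
    intro c
    rw [res_pull, pull, Scheme.Hom.appLE_eq_app]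
  rw [h5, h5, h4]

/-- The chart open sets. -/
noncomputable def U (k : M.κ) : M.X.Opens := M.j k ''ᵁ ⊤

lemma mem_U (k : M.κ) (x : M.X) : x ∈ M.U k ↔ x ∈ Set.range (M.j k) := by
  rw [U, Scheme.Hom.image_top_eq_opensRange]
  rfl

lemma j_mem_U (k : M.κ) (y) : M.j k y ∈ M.U k := (M.mem_U k _).mpr ⟨y, rfl⟩

lemma U_ne (k : M.κ) : ∃ x, x ∈ M.U k := ⟨M.j k (⊥ : PrimeSpectrum (M.A k)), M.j_mem_U k _⟩

lemma exists_mem {V W : M.X.Opens} (hV : ∃ x, x ∈ V) (hW : ∃ x, x ∈ W) : ∃ x, x ∈ V ⊓ W := by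
  obtain ⟨x, hx⟩ := hV
  obtain ⟨y, hy⟩ := hW
  exact ⟨M.pt (⊥ : PrimeSpectrum K), M.pt_mem hx _, M.pt_mem hy _⟩

lemma isAffineOpen_U (k : M.κ) : IsAffineOpen (M.U k) := by
  rw [U, Scheme.Hom.image_top_eq_opensRange]
  exact isAffineOpen_opensRange (M.j k)

/-- Functions on a chart. -/
noncomputable def fn (k : M.κ) : M.A k →+* Γ(M.X, M.U k) :=
  ((M.j k).appIso ⊤).inv.hom.comp (Scheme.ΓSpecIso (.of (M.A k))).inv.hom

lemma le_U (k : M.κ) : ⊤ ≤ M.j k ⁻¹ᵁ M.U k := fun y _ => M.j_mem_U k y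

lemma pull_fn (k : M.κ) (a : M.A k) :
    pull (M.j k) (M.le_U k) (M.fn k a) = (Scheme.ΓSpecIso (.of (M.A k))).inv.hom a := by
  have h := Scheme.Hom.appIso_inv_appLE (M.j k) (U := ⊤) (V := ⊤) (M.le_U k)
  have h2 := congrArg (fun g => g.hom ((Scheme.ΓSpecIso (.of (M.A k))).inv.hom a)) h
  simp only [CommRingCat.hom_comp, RingHom.comp_apply] at h2
  refine Eq.trans h2 ?_
  exact res_self _ _

lemma val_fn (k : M.κ) (a : M.A k) : M.val (M.U k) (M.U_ne k) (M.fn k a) = a := by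
  have h1 : (⊤ : (Spec (.of K)).Opens) ≤ Spec.map (M.inc k) ⁻¹ᵁ ⊤ := fun _ _ => trivial
  have h2 := pull_pull (Spec.map (M.inc k)) (M.j k) (M.le_U k) h1 (M.fn k a)
  rw [pull_fn, pull_specMap] at h2
  rw [val, RingHom.comp_apply]
  rw [pull_congr (M.inc_j' k).symm (M.pt_le (M.U_ne k)) (h1.trans ((Spec.map (M.inc k)).preimage_mono
    (M.le_U k)))]
  rw [← h2]
  exact congrArg (fun g => g.hom ((M.inc k).hom a)) (Scheme.ΓSpecIso (.of K)).inv_hom_id

lemma fn_surjective (k : M.κ) : Function.Surjective (M.fn k) := by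
  have h1 : Function.Surjective ((M.j k).appIso ⊤).inv.hom :=
    ((M.j k).appIso ⊤).symm.commRingCatIsoToRingEquiv.surjective
  have h2 : Function.Surjective (Scheme.ΓSpecIso (.of (M.A k))).inv.hom :=
    (Scheme.ΓSpecIso (.of (M.A k))).symm.commRingCatIsoToRingEquiv.surjective
  exact h1.comp h2

lemma fn_injective (k : M.κ) : Function.Injective (M.fn k) := by
  intro a b hab
  apply Subtype.ext
  rw [← M.val_fn k a, ← M.val_fn k b, hab]

lemma mem_basicOpen_fn (k : M.κ) (a : M.A k) (y : Spec (.of (M.A k))) :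
    M.j k y ∈ M.X.basicOpen (M.fn k a) ↔ y ∈ PrimeSpectrum.basicOpen a := by
  have h1 : M.j k y ∈ M.X.basicOpen (M.fn k a) ↔ y ∈ M.j k ⁻¹ᵁ M.X.basicOpen (M.fn k a) := Iff.rfl
  rw [h1, Scheme.preimage_basicOpen]
  have h2 : (Spec (.of (M.A k))).basicOpen ((M.j k).app (M.U k) (M.fn k a)) =
      (Spec (.of (M.A k))).basicOpen ((Scheme.ΓSpecIso (.of (M.A k))).inv.hom a) := by
    rw [← pull_fn, pull, Scheme.Hom.appLE]
    symm
    refine (Scheme.basicOpen_res _ _ _).trans ?_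
    exact top_inf_eq _
  rw [h2, basicOpen_eq_of_affine]
  rfl

end Model

end Pool.Agent.MP77a250
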