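import Pool.Agent.MP77a250.RModel2

set_option autoImplicit false

open CategoryTheory Limits AlgebraicGeometry TopologicalSpace Polynomial HomogeneousLocalization

namespace Pool.Agent.MP77a250

/-- A proper model of (a subfield of) `K`, given by affine charts with coordinate rings in `K`. -/
structure Model (K : Type) [Field K] [Algebra ℂ K] where
  X : Scheme.{0}
  s : X ⟶ SC
  proper : IsProper s
  κ : Type
  k0 : κ
  f : κ → K
  fne : ∀ k, f k ≠ 0
  A : κ → Subalgebra ℂ K
  j : ∀ k, Spec (.of (A k)) ⟶ X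
  openImm : ∀ k, IsOpenImmersion (j k)
  covers : ∀ x : X, ∃ k, x ∈ Set.range (j k)
  j_s : ∀ k, j k ≫ s = Spec.map (CommRingCat.ofHom (algebraMap ℂ (A k)))
  pt : Spec (.of K) ⟶ X
  inc_j : ∀ k, Spec.map (CommRingCat.ofHom (A k).val.toRingHom) ≫ j k = pt
  ratio_mem : ∀ k l, f l / f k ∈ A k
  inter : ∀ k l (x : Spec (.of (A k))),
    j k x ∈ Set.range (j l) ↔ x ∈ PrimeSpectrum.basicOpen (⟨f l / f k, ratio_mem k l⟩ : A k)

namespace ProjData

variable {K : Type} [Field K] [Algebra ℂ K] (P : ProjData K)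

lemma ratio_mem (k l : P.κ) : P.f l / P.f k ∈ P.A k := by
  have h := eval_mem_Chart P.g P.d (P.f k) (P.fmem l)
  rw [eval_monomial, pow_one, ← div_eq_mul_inv] at h
  exact h

lemma inter (k l : P.κ) (x : Spec (.of (P.A k))) :
    P.j k x ∈ Set.range (P.j l) ↔
      x ∈ PrimeSpectrum.basicOpen (⟨P.f l / P.f k, P.ratio_mem k l⟩ : P.A k) := by
  have h1 : P.j k x ∈ Set.range (P.j l) ↔ P.j k x ∈ (P.j l).opensRange := Iff.rfl
  rw [h1, opensRange_j]
  have h2 := Proj.awayι_preimage_basicOpen P.G (P.F_mem k) zero_lt_one (P.F_mem l) zero_lt_one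
  have h3 : P.j k x = P.aw k (Spec.map (P.eh k) x) := by
    rw [j]
    rfl
  rw [h3]
  have h4 : P.aw k (Spec.map (P.eh k) x) ∈ Proj.basicOpen P.G (P.F l) ↔
      Spec.map (P.eh k) x ∈ Proj.awayι P.G (P.F k) (P.F_mem k) zero_lt_one ⁻¹ᵁ
        Proj.basicOpen P.G (P.F l) := Iff.rfl
  rw [h4, h2]
  have h5 : P.eqv k (Away.isLocalizationElem (P.F_mem k) (P.F_mem l)) =
      ⟨P.f l / P.f k, P.ratio_mem k l⟩ := by
    apply Subtype.ext
    rw [eqv_coe, awayK_mk, map_pow, pow_one, pow_one, ev_F, ev_F]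
  have h6 : Spec.map (P.eh k) x ∈ PrimeSpectrum.basicOpen
      (Away.isLocalizationElem (P.F_mem k) (P.F_mem l)) ↔
      x ∈ PrimeSpectrum.basicOpen (P.eqv k (Away.isLocalizationElem (P.F_mem k) (P.F_mem l))) :=
    Iff.rfl
  refine Iff.trans h6 ?_
  rw [h5]

/-- The model defined by the data. -/
noncomputable def toModel : Model K where
  X := P.X
  s := P.s
  proper := inferInstance
  κ := P.κ
  k0 := P.k0
  f := P.f
  fne := P.fne
  A := P.A
  j := P.j
  openImm _ := inferInstance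
  covers x := P.covers x
  j_s := P.j_s
  pt := P.pt
  inc_j := P.inc_j_eq
  ratio_mem := P.ratio_mem
  inter := P.inter

end ProjData

end Pool.Agent.MP77a250
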