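import Pool.Agent.MP77a250.CurveTop

set_option autoImplicit false

open CategoryTheory Limits AlgebraicGeometry TopologicalSpace

namespace Pool.Agent.MP77a250

section

variable {C X : Scheme.{0}} [IsIntegral C] [IsLocallyNoetherian C]

/-- The order at `x` of a function regular at `x` is a natural number, positive if the function is
not invertible at `x`. -/
lemma ord_of_regular {U : C.Opens} [Nonempty U] {x : C} (hx : x ∈ U) (a : Γ(C, U))
    (ha : C.germToFunctionField U a ≠ 0) (hc : Order.coheight x = 1) :
    0 ≤ Scheme.ord (C.germToFunctionField U a) x ∧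
      (¬ IsUnit (C.presheaf.germ U x hx a) → 0 < Scheme.ord (C.germToFunctionField U a) x) := by
  have hK : Ring.KrullDimLE 1 (C.presheaf.stalk x) := krullDimLE_of_coheight_le hc.le
  set b := C.presheaf.germ U x hx a with hb
  have hab : C.germToFunctionField U a = algebraMap (C.presheaf.stalk x) C.functionField b := by
    rw [hb, Scheme.algebraMap_germ_eq_germToFunctionField]
  have hb0 : b ≠ 0 := by
    intro h
    rw [h, map_zero] at hab
    exact ha hab
  have hbn : b ∈ nonZeroDivisors (C.presheaf.stalk x) := mem_nonZeroDivisors_of_ne_zero hb0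
  obtain ⟨n, hn⟩ := ENat.ne_top_iff_exists.mp (Ring.ord_ne_top hbn)
  have h1 : Scheme.ord (C.germToFunctionField U a) x = (n : ℤ) := by
    rw [Scheme.ord_eq_iff hc ha, hab, Scheme.ordHom, Ring.ordFrac_eq_ord _ hb0]
    exact Ring.ordMonoidWithZeroHom_eq_coe _ hbn hn.symm
  refine ⟨by rw [h1]; positivity, fun hu => ?_⟩
  rw [h1]
  have : n ≠ 0 := by
    intro h
    rw [h, Nat.cast_zero] at hn
    have h2 : Subsingleton (C.presheaf.stalk x ⧸ Ideal.span {b}) := by
      rw [← Module.length_eq_zero_iff (R := C.presheaf.stalk x)]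
      exact hn.symm
    rw [Ideal.Quotient.subsingleton_iff, Ideal.span_singleton_eq_top] at h2
    exact hu h2
  exact_mod_cast Nat.pos_of_ne_zero this

end

end Pool.Agent.MP77a250
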