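import Pool.Agent.MP77a250.Et5

set_option autoImplicit false

open CategoryTheory Limits AlgebraicGeometry TopologicalSpace

namespace Pool.Agent.MP77a250

noncomputable section

/-- The three pieces on which the self-map is defined. -/
inductive Pc : Type
  | p0 | p1 | p2

/-- The functions inverted on the pieces. -/
def Pc.F : Pc → S2
  | .p0 => x2 0
  | .p1 => x2 1
  | .p2 => x2 1

/-- The source chart. -/
def Pc.k : Pc → Bool
  | .p0 => false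
  | .p1 => false
  | .p2 => true

/-- The target chart. -/
def Pc.k' : Pc → Bool
  | .p0 => false
  | .p1 => true
  | .p2 => true

/-- The coordinate rings. -/
abbrev Pc.L (i : Pc) : Type := Localization.Away i.F

lemma eps1 : (1 : ℂ) ^ 2 = 1 := one_pow 2
lemma eps2 : (-1 : ℂ) ^ 2 = 1 := by norm_num

/-- The image coordinates. -/
def Pc.Θ : (i : Pc) → Sol2 i.L
  | .p0 => (phiA (usol Ls) iS iS_mul : Sol2 Ls)
  | .p1 => (phiB (cst Lu 1) (cstε 1 eps1) (usol Lu) jU jU_mul : Sol2 Lu)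
  | .p2 => (phiB (cst Lu (-1)) (cstε (-1) eps2) (usol Lu) jU jU_mul : Sol2 Lu)

lemma u_pe_ne (k : Bool) : (pe k).u ≠ 0 := by
  intro h
  have h1 : lift2 (pe k) (x2 1) = lift2 (pe k) 0 := by rw [lift2_u, h, map_zero]
  have h2 := pe_injective k h1
  have h3 := x2_hu
  rw [h2] at h3
  have h4 := congrArg (lift2 (⟨0, 1, by norm_num⟩ : Sol2 ℂ)) h3
  rw [map_pow, map_zero, map_add, map_pow, map_one, lift2_s] at h4
  norm_num at h4

lemma Pc.ne (i : Pc) : lift2 (pe i.k) i.F ≠ 0 := by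
  cases i
  · change lift2 (pe false) (x2 0) ≠ 0
    rw [lift2_s]; exact th0_s
  · change lift2 (pe false) (x2 1) ≠ 0
    rw [lift2_u]; exact u_pe_ne _
  · change lift2 (pe true) (x2 1) ≠ 0
    rw [lift2_u]; exact u_pe_ne _

/-- The inclusion of the coordinate ring in the function field. -/
def Pc.toK (i : Pc) : i.L →ₐ[ℂ] K5 := locLift i.F (pe i.k) (isUnit_iff_ne_zero.mpr i.ne)

lemma Pc.toK_s (i : Pc) : i.toK (usol i.L).s = (pe i.k).s :=
  (locLift_algebraMap _ _ _ _).trans (lift2_s _)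

lemma Pc.toK_u (i : Pc) : i.toK (usol i.L).u = (pe i.k).u :=
  (locLift_algebraMap _ _ _ _).trans (lift2_u _)

/-- The pieces. -/
def Pc.b (i : Pc) : Spec (.of i.L) ⟶ ME.X := ptE i.k (usol i.L)

lemma lift2_usol (f z : S2) : lift2 (usol (Localization.Away f)) z =
    algebraMap S2 (Localization.Away f) z := by
  have h : lift2 (usol (Localization.Away f)) = IsScalarTower.toAlgHom ℂ S2 _ := by
    apply S2_hom_ext
    · rw [lift2_s]; rfl
    · rw [lift2_u]; rfl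
  exact congrArg (fun g => g z) h

lemma Pc.b_eq (i : Pc) :
    i.b = Spec.map (CommRingCat.ofHom (algebraMap S2 i.L)) ≫ je i.k := by
  rw [Pc.b, ptE]
  congr 2
  exact CommRingCat.hom_ext (RingHom.ext fun z => lift2_usol i.F z)

instance (i : Pc) : IsOpenImmersion i.b := by
  rw [Pc.b_eq]
  infer_instance

lemma Sol2.ext' {C : Type} [CommRing C] {θ θ' : Sol2 C} (hs : θ.s = θ'.s) (hu : θ.u = θ'.u) :
    θ = θ' := by
  cases θ; cases θ'; simp only at hs hu; subst hs; subst hu; rfl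

lemma Pc.toK_b (i : Pc) :
    Spec.map (CommRingCat.ofHom (i.toK : i.L →+* K5)) ≫ i.b = ME.pt := by
  rw [Pc.b, map_ptE, ← ptE_pe i.k]
  congr 1
  exact Sol2.ext' i.toK_s i.toK_u

/-- The map on the pieces. -/
def Pc.h (i : Pc) : Spec (.of i.L) ⟶ ME.X := ptE i.k' i.Θ

lemma mem_range_loc (f : S2) (z : PrimeSpectrum S2) (hz : f ∉ z.asIdeal) :
    ∃ w : PrimeSpectrum (Localization.Away f),
      Spec.map (CommRingCat.ofHom (algebraMap S2 (Localization.Away f))) w = z := by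
  have h := PrimeSpectrum.localization_away_comap_range (Localization.Away f) f
  have h2 : z ∈ (PrimeSpectrum.basicOpen f : Set (PrimeSpectrum S2)) := hz
  rw [← h] at h2
  exact h2

lemma not_both (z : PrimeSpectrum S2) : x2 0 ∉ z.asIdeal ∨ x2 1 ∉ z.asIdeal := by
  by_contra h
  push Not at h
  apply z.2.ne_top
  rw [Ideal.eq_top_iff_one]
  have h1 : (1 : S2) = x2 1 * x2 1 - x2 0 ^ 3 * x2 0 := by linear_combination -x2_hu
  rw [h1]
  exact Ideal.sub_mem _ (Ideal.mul_mem_left _ _ h.2) (Ideal.mul_mem_left _ _ h.1)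

lemma Pc.mem (i : Pc) (z : PrimeSpectrum S2) (hz : i.F ∉ z.asIdeal) :
    je i.k z ∈ Set.range i.b := by
  obtain ⟨w, rfl⟩ := mem_range_loc i.F z hz
  exact ⟨w, by rw [Pc.b_eq]; rfl⟩

lemma mem_false (z : PrimeSpectrum S2) (hz : x2 0 ∉ z.asIdeal) :
    je true z ∈ Set.range (je false) := by
  have h := (ME.inter true false (Spec.map (eE true) z)).mpr (by
    change _ ∉ _
    intro h
    apply hz
    have h1 : (eqE true) (x2 0) = ⟨ME.f false / ME.f true, ME.ratio_mem true false⟩ := by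
      apply Subtype.ext
      rw [eqE_coe, lift2_s]
      change th0.s⁻¹ = 1 / th0.s
      rw [one_div]
    rw [← h1] at h
    have h2 : (eqE true).symm (eqE true (x2 0)) ∈ z.asIdeal := h
    rwa [AlgEquiv.symm_apply_apply] at h2)
  obtain ⟨y, hy⟩ := h
  refine ⟨Spec.map (inv (eE false)) y, ?_⟩
  change (Spec.map (inv (eE false)) ≫ Spec.map (eE false) ≫ ME.j false) y = _
  rw [← Category.assoc, ← Spec.map_comp, IsIso.hom_inv_id, Spec.map_id, Category.id_comp, hy]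
  rfl

lemma Pc.covers (x : ME.X) : ∃ i : Pc, x ∈ Set.range i.b := by
  have key : ∀ z : PrimeSpectrum S2, ∃ i : Pc, je false z ∈ Set.range i.b := by
    intro z
    rcases not_both z with h | h
    · exact ⟨.p0, Pc.mem .p0 z h⟩
    · exact ⟨.p1, Pc.mem .p1 z h⟩
  obtain ⟨k, z, rfl⟩ := je_covers x
  cases k
  · exact key z
  · by_cases h : x2 1 ∈ (z : PrimeSpectrum S2).asIdeal
    · have h0 : x2 0 ∉ (z : PrimeSpectrum S2).asIdeal := by
        rcases not_both z with h' | h'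
        · exact h'
        · exact absurd h h'
      obtain ⟨y, hy⟩ := mem_false z h0
      rw [← hy]
      exact key y
    · exact ⟨.p2, Pc.mem .p2 z h⟩

/-- The image of the generic point in coordinates. -/
def yA : Sol2 K5 := phiA (pe false) (th0.s)⁻¹ (mul_inv_cancel₀ th0_s)
def yB : Sol2 K5 := phiB (cst K5 1) (cstε 1 eps1) (pe false) (th0.u)⁻¹
  (mul_inv_cancel₀ (u_pe_ne false))

lemma yA_yB : ptE false yA = ptE true yB := by
  have hs := th0_s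
  have hu : th0.u ≠ 0 := u_pe_ne false
  have hc := cst_inv (C := K5)
  apply ptE_overlap
  · change (cst K5 cc⁻¹ * th0.u * th0.s⁻¹) * (cst K5 cc * th0.s * th0.u⁻¹) = 1
    have h : (cst K5 cc⁻¹ * th0.u * th0.s⁻¹) * (cst K5 cc * th0.s * th0.u⁻¹) =
      (cst K5 cc * cst K5 cc⁻¹) * (th0.s * th0.s⁻¹) * (th0.u * th0.u⁻¹) := by ring
    rw [h, hc, mul_inv_cancel₀ hs, mul_inv_cancel₀ hu]
    ring
  · change cst K5 1 * (th0.s ^ 4 - 1) * th0.u⁻¹ ^ 2 =
      (cst K5 cc⁻¹ ^ 2 * (th0.s ^ 4 - 1) * th0.s⁻¹ ^ 2) * (cst K5 cc * th0.s * th0.u⁻¹) ^ 2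
    rw [cst, map_one]
    have h : (cst K5 cc⁻¹ ^ 2 * (th0.s ^ 4 - 1) * th0.s⁻¹ ^ 2) * (cst K5 cc * th0.s * th0.u⁻¹) ^ 2
      = (cst K5 cc * cst K5 cc⁻¹) ^ 2 * (th0.s * th0.s⁻¹) ^ 2 * (th0.s ^ 4 - 1) * th0.u⁻¹ ^ 2 := by
      ring
    rw [h, hc, mul_inv_cancel₀ hs]
    ring

lemma toK_iS : (Pc.toK .p0 : Ls →ₐ[ℂ] K5) iS = th0.s⁻¹ := by
  have h := congrArg (Pc.toK .p0 : Ls →ₐ[ℂ] K5) iS_mul
  have h2 := Pc.toK_s .p0
  have h3 := (map_mul (Pc.toK .p0 : Ls →ₐ[ℂ] K5) (usol Ls).s iS).symm.trans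
    (h.trans (map_one (Pc.toK .p0 : Ls →ₐ[ℂ] K5)))
  exact eq_inv_of_mul_eq_one_right ((congrArg (fun y => y * _) h2.symm).trans h3)

lemma toK1_jU : (Pc.toK .p1 : Lu →ₐ[ℂ] K5) jU = th0.u⁻¹ := by
  have h := congrArg (Pc.toK .p1 : Lu →ₐ[ℂ] K5) jU_mul
  have h2 := Pc.toK_u .p1
  have h3 := (map_mul (Pc.toK .p1 : Lu →ₐ[ℂ] K5) (usol Lu).u jU).symm.trans
    (h.trans (map_one (Pc.toK .p1 : Lu →ₐ[ℂ] K5)))
  exact eq_inv_of_mul_eq_one_right ((congrArg (fun y => y * _) h2.symm).trans h3)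

lemma toK2_jU : (Pc.toK .p2 : Lu →ₐ[ℂ] K5) jU = (pe true).u⁻¹ := by
  have h := congrArg (Pc.toK .p2 : Lu →ₐ[ℂ] K5) jU_mul
  have h2 := Pc.toK_u .p2
  have h3 := (map_mul (Pc.toK .p2 : Lu →ₐ[ℂ] K5) (usol Lu).u jU).symm.trans
    (h.trans (map_one (Pc.toK .p2 : Lu →ₐ[ℂ] K5)))
  exact eq_inv_of_mul_eq_one_right ((congrArg (fun y => y * _) h2.symm).trans h3)

lemma phiA_map {C C' : Type} [CommRing C] [CommRing C'] [Algebra ℂ C] [Algebra ℂ C']
    (φ : C →ₐ[ℂ] C') (θ : Sol2 C) (i : C) (hi : θ.s * i = 1) (θ' : Sol2 C') (i' : C')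
    (hi' : θ'.s * i' = 1) (hs : φ θ.s = θ'.s) (hu : φ θ.u = θ'.u) (h : φ i = i') :
    (phiA θ i hi).map (φ : C →+* C') = phiA θ' i' hi' := by
  apply Sol2.ext'
  · change φ (cst C cc⁻¹ * θ.u * i) = cst C' cc⁻¹ * θ'.u * i'
    rw [map_mul, map_mul, algHom_cst, hu, h]
  · change φ (cst C cc⁻¹ ^ 2 * (θ.s ^ 4 - 1) * i ^ 2) = cst C' cc⁻¹ ^ 2 * (θ'.s ^ 4 - 1) * i' ^ 2
    rw [map_mul, map_mul, map_pow, map_pow, algHom_cst, map_sub, map_pow, map_one, hs, h]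

lemma phiB_map {C C' : Type} [CommRing C] [CommRing C'] [Algebra ℂ C] [Algebra ℂ C']
    (φ : C →ₐ[ℂ] C') (ε : ℂ) (hε : ε ^ 2 = 1) (θ : Sol2 C) (i : C) (hi : θ.u * i = 1)
    (θ' : Sol2 C') (i' : C')
    (hi' : θ'.u * i' = 1) (hs : φ θ.s = θ'.s) (h : φ i = i') :
    (phiB (cst C ε) (cstε ε hε) θ i hi).map (φ : C →+* C') =
      phiB (cst C' ε) (cstε ε hε) θ' i' hi' := by
  apply Sol2.ext'
  · change φ (cst C cc * θ.s * i) = cst C' cc * θ'.s * i'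
    rw [map_mul, map_mul, algHom_cst, hs, h]
  · change φ (cst C ε * (θ.s ^ 4 - 1) * i ^ 2) = cst C' ε * (θ'.s ^ 4 - 1) * i' ^ 2
    rw [map_mul, map_mul, map_pow, algHom_cst, map_sub, map_pow, map_one, hs, h]

lemma Θ0 : (Pc.Θ .p0).map (Pc.toK .p0 : Pc.L .p0 →+* K5) = yA :=
  phiA_map (Pc.toK .p0) (usol Ls) iS iS_mul (pe false) _ _ (Pc.toK_s .p0) (Pc.toK_u .p0) toK_iS

lemma Θ1 : (Pc.Θ .p1).map (Pc.toK .p1 : Pc.L .p1 →+* K5) = yB :=
  phiB_map (Pc.toK .p1) 1 eps1 (usol Lu) jU jU_mul (pe false) _ _ (Pc.toK_s .p1) toK1_jU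

lemma Θ2 : (Pc.Θ .p2).map (Pc.toK .p2 : Pc.L .p2 →+* K5) = yB := by
  refine (phiB_map (Pc.toK .p2) (-1) eps2 (usol Lu) jU jU_mul (pe true) _
    (mul_inv_cancel₀ (u_pe_ne true)) (Pc.toK_s .p2) toK2_jU).trans ?_
  have hs := th0_s
  have hu : th0.u ≠ 0 := u_pe_ne false
  apply Sol2.ext'
  · change cst K5 cc * th0.s⁻¹ * (th0.u / th0.s ^ 2)⁻¹ = cst K5 cc * th0.s * th0.u⁻¹
    field_simp
  · change cst K5 (-1) * (th0.s⁻¹ ^ 4 - 1) * (th0.u / th0.s ^ 2)⁻¹ ^ 2 =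
      cst K5 1 * (th0.s ^ 4 - 1) * th0.u⁻¹ ^ 2
    rw [cst, cst, map_neg, map_one]
    field_simp
    ring

lemma Pc.Θ_map (i : Pc) :
    ptE i.k' (i.Θ.map (i.toK : i.L →+* K5)) = ptE false yA := by
  cases i
  · change ptE false _ = _
    rw [Θ0]
  · change ptE true _ = _
    rw [Θ1, yA_yB]
  · change ptE true _ = _
    rw [Θ2, yA_yB]

lemma exists_phi : ∃ φ : ME.X ⟶ ME.X, ∀ i : Pc, i.b ≫ φ = i.h := by
  have hsep := ME.isSeparated
  refine ME.exists_hom (fun i : Pc => Spec (.of i.L)) Pc.b Pc.covers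
    (fun i => Spec.map (CommRingCat.ofHom (i.toK : i.L →+* K5))) Pc.toK_b
    (ptE false yA) Pc.h ?_
  intro i
  rw [Pc.h, map_ptE]
  exact i.Θ_map

/-- The self-map of the elliptic curve (multiplication by `1 + i`). -/
def phi : ME.X ⟶ ME.X := exists_phi.choose

lemma b_phi (i : Pc) : i.b ≫ phi = i.h := exists_phi.choose_spec i

/-- Extensionality for morphisms out of the curve, on the pieces. -/
lemma pc_ext {Y : Scheme.{0}} {f g : ME.X ⟶ Y} (h : ∀ i : Pc, i.b ≫ f = i.b ≫ g) : f = g := by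
  let 𝒰 : ME.X.OpenCover := Scheme.Cover.mkOfCovers Pc _ Pc.b (fun x => by
    obtain ⟨i, z, hz⟩ := Pc.covers x
    exact ⟨i, z, hz⟩) (fun i => inferInstance)
  exact Scheme.Cover.hom_ext 𝒰 _ _ h

lemma phi_s : phi ≫ ME.s = ME.s := by
  apply pc_ext
  intro i
  rw [← Category.assoc, b_phi, Pc.h, Pc.b, ptE_s, ptE_s]

end

end Pool.Agent.MP77a250
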