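import Pool.Agent.MP77a250.Phi
set_option autoImplicit false

open CategoryTheory Limits AlgebraicGeometry TopologicalSpace

namespace Pool.Agent.MP77a250

noncomputable section
theorem etale_phi : Etale phi := by
  let 𝒰 : ME.X.OpenCover := Scheme.Cover.mkOfCovers Pc _ Pc.b (fun x => by
    obtain ⟨i, z, hz⟩ := Pc.covers x
    exact ⟨i, z, hz⟩) (fun i => inferInstance)
  refine IsZariskiLocalAtSource.of_openCover (P := @Etale) 𝒰 (fun i => ?_)
  change Etale (Pc.b i ≫ phi)
  rw [b_phi, Pc.h, ptE]
  have : Etale (Spec.map (CommRingCat.ofHom (lift2 (Pc.Θ i) : S2 →+* Pc.L i))) := by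
    rw [HasRingHomProperty.Spec_iff (P := @Etale)]
    cases i
    · exact etaleA
    · exact etaleB 1 eps1
    · exact etaleB (-1) eps2
  infer_instance

lemma quasiFinite_of_etale {X Y : Scheme.{0}} (f : X ⟶ Y) [Etale f] : LocallyQuasiFinite f where
  quasiFinite_appLE {U} hU {V} hV e := by
    have h := f.etale_appLE hU hV e
    algebraize [(f.appLE U V e).hom]
    change Algebra.QuasiFinite _ _
    infer_instance

lemma isProper_phi : IsProper phi := by
  have h : IsProper (phi ≫ ME.s) := by rw [phi_s]; exact ME.proper
  have := ME.proper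
  exact IsProper.of_comp phi ME.s

lemma isFinite_phi : IsFinite phi := by
  have := etale_phi
  have := isProper_phi
  have := quasiFinite_of_etale phi
  exact IsFinite.of_isProper_of_locallyQuasiFinite phi

end
end Pool.Agent.MP77a250
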