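import Pool.Agent.MP77a250.Phi2
import Pool.Agent.MP77a250.E4
import Pool.Agent.MP77a250.Abs

set_option autoImplicit false

open CategoryTheory Limits AlgebraicGeometry TopologicalSpace

namespace Pool.Agent.MP77a250

noncomputable section

lemma isFiniteEtale_phi : IsFiniteEtale phi := ⟨isFinite_phi, etale_phi⟩

section

variable {C : Type} [CommRing C] [Algebra ℂ C]

lemma usol_map (f : S2) (θ : Sol2 C) (h : IsUnit ((lift2 θ : S2 →+* C) f)) :
    (usol (Localization.Away f)).map (locLift f θ h : Localization.Away f →+* C) = θ :=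
  Sol2.ext' ((locLift_algebraMap f θ h _).trans (lift2_s _))
    ((locLift_algebraMap f θ h _).trans (lift2_u _))

lemma ptE_phi (i : Pc) (θ : Sol2 C) (h : IsUnit ((lift2 θ : S2 →+* C) i.F)) :
    ptE i.k θ ≫ phi = ptE i.k' (i.Θ.map (locLift i.F θ h : i.L →+* C)) := by
  have h1 : ptE i.k θ = Spec.map (CommRingCat.ofHom (locLift i.F θ h : i.L →+* C)) ≫ i.b := by
    rw [Pc.b, map_ptE, usol_map]
  rw [h1, Category.assoc, b_phi, Pc.h, map_ptE]

lemma ptE_phi_A (θ : Sol2 C) (i : C) (hi : θ.s * i = 1) :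
    ptE false θ ≫ phi = ptE false (phiA θ i hi) := by
  have hu : IsUnit ((lift2 θ : S2 →+* C) (Pc.F .p0)) := by
    have : (lift2 θ : S2 →+* C) (Pc.F .p0) = θ.s := lift2_s θ
    rw [this]
    exact IsUnit.of_mul_eq_one _ hi
  refine (ptE_phi .p0 θ hu).trans ?_
  change ptE false _ = _
  congr 1
  refine phiA_map (locLift (x2 0) θ hu) (usol Ls) iS iS_mul θ i hi
    ((locLift_algebraMap _ θ hu _).trans (lift2_s _))
    ((locLift_algebraMap _ θ hu _).trans (lift2_u _)) ?_
  have h1 := congrArg (locLift (x2 0) θ hu) iS_mul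
  have h3 := (map_mul (locLift (x2 0) θ hu) (usol Ls).s iS).symm.trans
    (h1.trans (map_one (locLift (x2 0) θ hu)))
  have h2 : locLift (x2 0) θ hu (usol Ls).s = θ.s :=
    (locLift_algebraMap _ θ hu _).trans (lift2_s _)
  rw [h2] at h3
  exact eq_of_mul_eq_one h3 hi

lemma ptE_phi_B (θ : Sol2 C) (j : C) (hj : θ.u * j = 1) :
    ptE false θ ≫ phi = ptE true (phiB (cst C 1) (cstε 1 eps1) θ j hj) := by
  have hu : IsUnit ((lift2 θ : S2 →+* C) (Pc.F .p1)) := by
    have : (lift2 θ : S2 →+* C) (Pc.F .p1) = θ.u := lift2_u θ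
    rw [this]
    exact IsUnit.of_mul_eq_one _ hj
  refine (ptE_phi .p1 θ hu).trans ?_
  change ptE true _ = _
  congr 1
  refine phiB_map (locLift (x2 1) θ hu) 1 eps1 (usol Lu) jU jU_mul θ j hj
    ((locLift_algebraMap _ θ hu _).trans (lift2_s _)) ?_
  have h1 := congrArg (locLift (x2 1) θ hu) jU_mul
  have h3 := (map_mul (locLift (x2 1) θ hu) (usol Lu).u jU).symm.trans
    (h1.trans (map_one (locLift (x2 1) θ hu)))
  have h2 : locLift (x2 1) θ hu (usol Lu).u = θ.u :=
    (locLift_algebraMap _ θ hu _).trans (lift2_u _)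
  rw [h2] at h3
  exact eq_of_mul_eq_one h3 hj

lemma ptE_phi_C (θ : Sol2 C) (j : C) (hj : θ.u * j = 1) :
    ptE true θ ≫ phi = ptE true (phiB (cst C (-1)) (cstε (-1) eps2) θ j hj) := by
  have hu : IsUnit ((lift2 θ : S2 →+* C) (Pc.F .p2)) := by
    have : (lift2 θ : S2 →+* C) (Pc.F .p2) = θ.u := lift2_u θ
    rw [this]
    exact IsUnit.of_mul_eq_one _ hj
  refine (ptE_phi .p2 θ hu).trans ?_
  change ptE true _ = _
  congr 1
  refine phiB_map (locLift (x2 1) θ hu) (-1) eps2 (usol Lu) jU jU_mul θ j hj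
    ((locLift_algebraMap _ θ hu _).trans (lift2_s _)) ?_
  have h1 := congrArg (locLift (x2 1) θ hu) jU_mul
  have h3 := (map_mul (locLift (x2 1) θ hu) (usol Lu).u jU).symm.trans
    (h1.trans (map_one (locLift (x2 1) θ hu)))
  have h2 : locLift (x2 1) θ hu (usol Lu).u = θ.u :=
    (locLift_algebraMap _ θ hu _).trans (lift2_u _)
  rw [h2] at h3
  exact eq_of_mul_eq_one h3 hj

/-- The translation by a two-torsion point, on solutions. -/
def Sol2.neg (θ : Sol2 C) : Sol2 C := ⟨-θ.s, -θ.u, by rw [neg_sq, θ.hu]; ring⟩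

lemma phiA_neg (θ : Sol2 C) (i : C) (hi : θ.s * i = 1) (hi' : θ.neg.s * (-i) = 1) :
    phiA θ.neg (-i) hi' = phiA θ i hi := by
  apply Sol2.ext'
  · change cst C cc⁻¹ * (-θ.u) * (-i) = cst C cc⁻¹ * θ.u * i
    ring
  · change cst C cc⁻¹ ^ 2 * ((-θ.s) ^ 4 - 1) * (-i) ^ 2 = cst C cc⁻¹ ^ 2 * (θ.s ^ 4 - 1) * i ^ 2
    ring

lemma phiB_neg (ε : C) (hε : ε ^ 2 = 1) (θ : Sol2 C) (j : C) (hj : θ.u * j = 1)
    (hj' : θ.neg.u * (-j) = 1) :
    phiB ε hε θ.neg (-j) hj' = phiB ε hε θ j hj := by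
  apply Sol2.ext'
  · change cst C cc * (-θ.s) * (-j) = cst C cc * θ.s * j
    ring
  · change ε * ((-θ.s) ^ 4 - 1) * (-j) ^ 2 = ε * (θ.s ^ 4 - 1) * j ^ 2
    ring

end

lemma phi_neg_false (θ : Sol2 ℂ) : ptE false θ.neg ≫ phi = ptE false θ ≫ phi := by
  by_cases hs : θ.s = 0
  · have hu : θ.u ≠ 0 := by
      intro h
      have := θ.hu
      rw [hs, h] at this
      norm_num at this
    have hj : θ.u * θ.u⁻¹ = 1 := mul_inv_cancel₀ hu
    have hj' : θ.neg.u * (-θ.u⁻¹) = 1 := by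
      change -θ.u * (-θ.u⁻¹) = 1
      rw [neg_mul_neg, hj]
    rw [ptE_phi_B θ _ hj, ptE_phi_B θ.neg _ hj', phiB_neg]
  · have hj : θ.s * θ.s⁻¹ = 1 := mul_inv_cancel₀ hs
    have hj' : θ.neg.s * (-θ.s⁻¹) = 1 := by
      change -θ.s * (-θ.s⁻¹) = 1
      rw [neg_mul_neg, hj]
    rw [ptE_phi_A θ _ hj, ptE_phi_A θ.neg _ hj', phiA_neg]

lemma phi_neg (k : Bool) (θ : Sol2 ℂ) : ptE k θ.neg ≫ phi = ptE k θ ≫ phi := by
  cases k
  · exact phi_neg_false θ
  · by_cases hu : θ.u = 0
    · have hs : θ.s ≠ 0 := by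
        intro h
        have := θ.hu
        rw [hu, h] at this
        norm_num at this
      let θ' : Sol2 ℂ := ⟨θ.s⁻¹, θ.u / θ.s ^ 2, by
        rw [div_pow, θ.hu]; field_simp; ring⟩
      have h1 : ptE false θ' = ptE true θ := by
        apply ptE_overlap
        · exact inv_mul_cancel₀ hs
        · change θ.u = θ.u / θ.s ^ 2 * θ.s ^ 2
          field_simp
      have h2 : ptE false θ'.neg = ptE true θ.neg := by
        apply ptE_overlap
        · change -θ.s⁻¹ * -θ.s = 1
          rw [neg_mul_neg]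
          exact inv_mul_cancel₀ hs
        · change -θ.u = -(θ.u / θ.s ^ 2) * (-θ.s) ^ 2
          field_simp
      rw [← h1, ← h2]
      exact phi_neg_false θ'
    · have hj : θ.u * θ.u⁻¹ = 1 := mul_inv_cancel₀ hu
      have hj' : θ.neg.u * (-θ.u⁻¹) = 1 := by
        change -θ.u * (-θ.u⁻¹) = 1
        rw [neg_mul_neg, hj]
      rw [ptE_phi_C θ _ hj, ptE_phi_C θ.neg _ hj', phiB_neg]

lemma phi_pt_ne (x : ME.X) (hx : x ≠ ηE) : phi x ≠ ηE := by
  intro h
  have := isProper_phi
  have h1 : IsClosed (phi '' {x}) := phi.isClosedMap _ (isClosed_of_ne x hx)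
  rw [Set.image_singleton, h] at h1
  have h2 := h1.closure_eq
  rw [closure_ηE] at h2
  have h3 : x ∈ ({ηE} : Set ME.X) := h2 ▸ Set.mem_univ x
  exact hx h3

/-- Every complex point has a mate. -/
lemma exists_mate (x : ME.X) (hx : x ≠ ηE) : ∃ x' : ME.X, x' ≠ ηE ∧ x' ≠ x ∧ phi x' = phi x := by
  obtain ⟨k, θ, rfl⟩ := exists_ptE x hx
  refine ⟨ptE k θ.neg o, ptE_ne_ηE _ _, ?_, ?_⟩
  · intro h
    obtain ⟨h1, h2⟩ := ptE_injective k _ _ h
    change -θ.s = θ.s at h1
    change -θ.u = θ.u at h2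
    have h3 : θ.s = 0 := by linear_combination (-1/2 : ℂ) * h1
    have h4 : θ.u = 0 := by linear_combination (-1/2 : ℂ) * h2
    have := θ.hu
    rw [h3, h4] at this
    norm_num at this
  · have h := congrArg (fun g => g o) (phi_neg k θ)
    exact h

instance : ConnectedSpace ME.X := by
  infer_instance

instance : Nonempty ME.X := ⟨ηE⟩

lemma surjective_phi : Function.Surjective phi := surjective_of_finiteEtale phi isFiniteEtale_phi

lemma phi_ηE : phi ηE = ηE := by
  obtain ⟨x, hx⟩ := surjective_phi ηE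
  by_cases h : x = ηE
  · rw [← h]; rw [hx, h]
  · exact absurd hx (phi_pt_ne x h)

/-- Iterates of the self-map. -/
def phiN : ℕ → (ME.X ⟶ ME.X)
  | 0 => 𝟙 _
  | n + 1 => phi ≫ phiN n

lemma phiN_s (n : ℕ) : phiN n ≫ ME.s = ME.s := by
  induction n with
  | zero => exact Category.id_comp _
  | succ n ih => rw [phiN, Category.assoc, ih, phi_s]

lemma isFiniteEtale_phiN (n : ℕ) : IsFiniteEtale (phiN n) := by
  induction n with
  | zero => exact ⟨inferInstanceAs (IsFinite (𝟙 _)), inferInstanceAs (Etale (𝟙 _))⟩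
  | succ n ih =>
    have := ih.1
    have := ih.2
    have := isFinite_phi
    have := etale_phi
    exact ⟨inferInstanceAs (IsFinite (phi ≫ phiN n)), inferInstanceAs (Etale (phi ≫ phiN n))⟩

lemma phiN_ηE (n : ℕ) : phiN n ηE = ηE := by
  induction n with
  | zero => rfl
  | succ n ih =>
    change phiN n (phi ηE) = ηE
    rw [phi_ηE, ih]

lemma phiN_ne (n : ℕ) (x : ME.X) (hx : x ≠ ηE) : phiN n x ≠ ηE := by
  induction n generalizing x with
  | zero => exact hx
  | succ n ih => exact ih (phi x) (phi_pt_ne x hx)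

lemma surjective_phiN (n : ℕ) : Function.Surjective (phiN n) := by
  induction n with
  | zero => exact Function.surjective_id
  | succ n ih => exact ih.comp surjective_phi

/-- The fibres of the iterates get large. -/
lemma exists_fibre (n : ℕ) (e : ME.X) (he : e ≠ ηE) :
    ∃ f : Fin (n + 1) → ME.X, Function.Injective f ∧ ∀ i, phiN n (f i) = e := by
  induction n with
  | zero => exact ⟨fun _ => e, fun i j _ => Subsingleton.elim (α := Fin 1) i j, fun _ => rfl⟩
  | succ n ih =>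
    obtain ⟨f, hf, hfe⟩ := ih
    choose g hg using fun i => surjective_phi (f i)
    have hg0 : g 0 ≠ ηE := by
      intro h
      have h1 := hg 0
      rw [h, phi_ηE] at h1
      have h2 := hfe 0
      rw [← h1, phiN_ηE] at h2
      exact he h2.symm
    obtain ⟨x', -, hx', hx⟩ := exists_mate (g 0) hg0
    refine ⟨Fin.cons x' g, ?_, ?_⟩
    · rw [Fin.cons_injective_iff]
      constructor
      · rintro ⟨i, hi⟩
        have h1 : f i = f 0 := by rw [← hg i, hi, hx, hg 0]
        have h2 := hf h1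
        rw [h2] at hi
        exact hx' hi.symm
      · intro i j hij
        apply hf
        rw [← hg i, ← hg j, hij]
    · intro i
      refine Fin.cases ?_ (fun j => ?_) i
      · change phiN n (phi x') = e
        rw [hx, hg, hfe]
      · change phiN n (phi (g j)) = e
        rw [hg, hfe]

end

end Pool.Agent.MP77a250
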