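import Pool.Agent.MP77a250.OrdPos

set_option autoImplicit false

open CategoryTheory Limits AlgebraicGeometry TopologicalSpace

namespace Pool.Agent.MP77a250

section

variable {C X : Scheme.{0}} {L : LineBundle X}

lemma mem_nonvanishing_iff {n : ℕ} (m : L.PowSection n) (k : L.ι) {y : X} (hy : y ∈ L.U k) :
    y ∈ m.nonvanishing ↔ y ∈ X.basicOpen (m.s k) := by
  constructor
  · intro h
    obtain ⟨j, hj⟩ := Opens.mem_iSup.mp h
    have hyj : y ∈ L.U j := X.basicOpen_le _ hj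
    have hkj : y ∈ L.U k ⊓ L.U j := ⟨hy, hyj⟩
    rw [Scheme.mem_basicOpen X _ y hy, ← germ_res (show L.U k ⊓ L.U j ≤ L.U k from inf_le_left) y hkj,
      m.glue k j, map_mul, map_pow]
    rw [Scheme.mem_basicOpen X _ y hyj, ← germ_res (show L.U k ⊓ L.U j ≤ L.U j from inf_le_right) y hkj] at hj
    exact (((L.g k j).isUnit.map _).pow n).mul hj
  · intro h
    exact Opens.mem_iSup.mpr ⟨k, h⟩

variable [IsIntegral C] [IsLocallyNoetherian C]

lemma delta_of_mem (m : L.PowSection 1) (q : C ⟶ X)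
    (hm : q (genericPoint C) ∈ m.nonvanishing) {x : C} (hx : q x ∈ m.nonvanishing) :
    delta m q hm x = 0 := by
  obtain ⟨k, hk⟩ := L.covers (q x)
  rw [delta_eq m q hm x k hk]
  have h1 := (mem_nonvanishing_iff m k hk).mp hx
  have h2 := gv_res q (map_genericPoint_mem q h1) (X.basicOpen_le (m.s k)) (m.s k)
  rw [← h2]
  exact ord_gv_of_isUnit q h1 _ (X.toRingedSpace.isUnit_res_basicOpen (m.s k))

lemma delta_of_coheight_ne (m : L.PowSection 1) (q : C ⟶ X)
    (hm : q (genericPoint C) ∈ m.nonvanishing) {x : C} (hx : Order.coheight x ≠ 1) :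
    delta m q hm x = 0 :=
  Scheme.ord_eq_zero_of_coheight_neq_one hx _

lemma delta_pos (m : L.PowSection 1) (q : C ⟶ X)
    (hm : q (genericPoint C) ∈ m.nonvanishing) {x : C} (hc : Order.coheight x = 1) 
    (hx : q x ∉ m.nonvanishing) :
    0 < delta m q hm x := by
  obtain ⟨k, hk⟩ := L.covers (q x)
  rw [delta_eq m q hm x k hk]
  have hne : Nonempty (q ⁻¹ᵁ L.U k : C.Opens) := ⟨⟨x, hk⟩⟩
  have h0 := gv_section_ne_zero m q hm k (map_genericPoint_mem q hk)
  refine (ord_of_regular (U := q ⁻¹ᵁ L.U k) hk (pull q le_rfl (m.s k)) h0 hc).2 ?_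
  intro h
  apply hx
  rw [mem_nonvanishing_iff m k hk]
  have h1 : x ∈ C.basicOpen (pull q (show q ⁻¹ᵁ L.U k ≤ q ⁻¹ᵁ L.U k from le_rfl) (m.s k)) := by
    rw [Scheme.mem_basicOpen C _ x hk]
    exact h
  have h2 : q ⁻¹ᵁ X.basicOpen (m.s k) = C.basicOpen (q.app (L.U k) (m.s k)) :=
    Scheme.preimage_basicOpen q (m.s k)
  have h3 : pull q (show q ⁻¹ᵁ L.U k ≤ q ⁻¹ᵁ L.U k from le_rfl) (m.s k) = q.app (L.U k) (m.s k) := by
    rw [pull, Scheme.Hom.appLE_eq_app]
  rw [h3, ← h2] at h1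
  exact h1

lemma delta_nonneg (m : L.PowSection 1) (q : C ⟶ X)
    (hm : q (genericPoint C) ∈ m.nonvanishing) (x : C)  :
    0 ≤ delta m q hm x := by
  by_cases hc : Order.coheight x = 1
  · by_cases hx : q x ∈ m.nonvanishing
    · rw [delta_of_mem m q hm hx]
    · exact (delta_pos m q hm hc hx).le
  · rw [delta_of_coheight_ne m q hm hc]

lemma sum_delta_pos [NoetherianSpace C] (hdim : topologicalKrullDim C = 1)
    (m : L.PowSection 1) (q : C ⟶ X)
    (hm : q (genericPoint C) ∈ m.nonvanishing) {x : C} (hx : q x ∉ m.nonvanishing) :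
    0 < ∑ᶠ x, delta m q hm x := by
  have hfin : {x | q x ∉ m.nonvanishing}.Finite := by
    refine finite_of_isClosed_of_dim_one hdim ?_ (fun h => h hm)
    exact (q ⁻¹ᵁ m.nonvanishing).isOpen.isClosed_compl
  have hfin' : (Function.support fun x => delta m q hm x).Finite := by
    refine hfin.subset fun y hy => ?_
    intro h
    exact hy (delta_of_mem m q hm h)
  have hxη : x ≠ genericPoint C := fun h => hx (h ▸ hm)
  exact finsum_pos (delta_nonneg m q hm) ⟨x, delta_pos m q hm (coheight_eq_one hdim hxη) hx⟩ hfin'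

end

end Pool.Agent.MP77a250
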