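import Pool.Agent.MP77a250.RGrade

set_option autoImplicit false

open Polynomial DirectSum HomogeneousLocalization

namespace Pool.Agent.MP77a250

section

variable {K : Type} [Field K] [Algebra ℂ K] {ι : Type} (g : ι → K) (d : ι → ℕ)

/-- Evaluation at `T = 1`. -/
noncomputable def ev : RA g d →+* K :=
  (Polynomial.evalRingHom 1).comp (RA g d).toSubring.subtype

lemma ev_apply (p : RA g d) : ev g d p = (p : K[X]).eval 1 := rfl

lemma ev_mk {n : ℕ} {x : K} (h : monomial n x ∈ RA g d) : ev g d ⟨monomial n x, h⟩ = x := by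
  rw [ev_apply]
  simp

lemma ev_algebraMap (r : ℂ) : ev g d (algebraMap ℂ (RA g d) r) = algebraMap ℂ K r := by
  rw [ev_apply, Subalgebra.coe_algebraMap, Polynomial.algebraMap_apply, eval_C]

variable {g d} in
lemma eq_of_mem_RG {n : ℕ} {p : RA g d} (hp : p ∈ RG g d n) :
    (p : K[X]) = monomial n (ev g d p) := by
  have h := (mem_RG_iff g d).mp hp
  have h1 : ev g d p = (p : K[X]).coeff n := by
    rw [ev_apply, h]
    simp
  rw [h1]
  exact h

variable {g d} in
lemma eq_zero_of_ev {n : ℕ} {p : RA g d} (hp : p ∈ RG g d n) (h : ev g d p = 0) : p = 0 := by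
  apply Subtype.ext
  rw [eq_of_mem_RG hp, h, map_zero]
  rfl

/-- The embedding of the degree zero part of the localisation at `f` in `K`. -/
noncomputable def awayK (f : RA g d) (hf : ev g d f ≠ 0) : Away (RG g d) f →+* K :=
  (Localization.awayLift (ev g d) f (IsUnit.mk0 _ hf)).comp
    (algebraMap (Away (RG g d) f) (Localization.Away f))

lemma awayK_val (f : RA g d) (hf : ev g d f ≠ 0) (a : Away (RG g d) f) :
    awayK g d f hf a = Localization.awayLift (ev g d) f (IsUnit.mk0 _ hf) a.val := rfl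

lemma awayK_mk (f : RA g d) (hf : ev g d f ≠ 0) {e : ℕ} (hfe : f ∈ RG g d e) (n : ℕ) (x : RA g d)
    (hx : x ∈ RG g d (n • e)) :
    awayK g d f hf (Away.mk _ hfe n x hx) = ev g d x / ev g d f ^ n := by
  rw [awayK_val, Away.val_mk]
  have := Localization.awayLift_mk (ev g d) f x (ev g d f)⁻¹ (mul_inv_cancel₀ hf) n
  rw [div_eq_mul_inv, ← inv_pow]
  exact this

lemma awayK_injective (f : RA g d) (hf : ev g d f ≠ 0) {e : ℕ} (hfe : f ∈ RG g d e) :
    Function.Injective (awayK g d f hf) := by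
  rw [injective_iff_map_eq_zero]
  intro a ha
  obtain ⟨n, x, hx, rfl⟩ := Away.mk_surjective (RG g d) hfe a
  rw [awayK_mk, div_eq_zero_iff] at ha
  rcases ha with h | h
  · have h1 := eq_zero_of_ev hx h
    apply HomogeneousLocalization.val_injective
    subst h1
    rw [Away.val_mk, Localization.mk_zero, HomogeneousLocalization.val_zero]
  · exact absurd h (pow_ne_zero n hf)

lemma awayK_awayMap {f h x : RA g d} (hf : ev g d f ≠ 0) (hx0 : ev g d x ≠ 0) {e e' : ℕ}
    (hfe : f ∈ RG g d e) (hh : h ∈ RG g d e') (hx : x = f * h) (a : Away (RG g d) f) :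
    awayK g d x hx0 (awayMap (RG g d) hh hx a) = awayK g d f hf a := by
  obtain ⟨n, y, hy, rfl⟩ := Away.mk_surjective (RG g d) hfe a
  rw [awayMap_mk, awayK_mk, awayK_mk, map_mul, map_pow, hx, map_mul, mul_pow]
  have h1 : ev g d h ≠ 0 := by
    intro h1
    apply hx0
    rw [hx, map_mul, h1, mul_zero]
  field_simp

/-- The chart algebra. -/
noncomputable def Chart (f : K) : Subalgebra ℂ K :=
  Algebra.adjoin ℂ (Set.range fun i => g i / f ^ d i)

lemma eval_mem_Chart (f : K) {p : K[X]} (hp : p ∈ RA g d) : p.eval f⁻¹ ∈ Chart g d f := by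
  induction hp using Algebra.adjoin_induction with
  | mem p hp =>
    obtain ⟨i, rfl⟩ := hp
    dsimp only
    rw [eval_monomial, inv_pow, ← div_eq_mul_inv]
    exact Algebra.subset_adjoin ⟨i, rfl⟩
  | algebraMap r =>
    rw [Polynomial.algebraMap_apply, eval_C]
    exact Subalgebra.algebraMap_mem _ _
  | add p q _ _ hp hq =>
    rw [eval_add]
    exact add_mem hp hq
  | mul p q _ _ hp hq =>
    rw [eval_mul]
    exact mul_mem hp hq

lemma awayK_mem_Chart (f : RA g d) (hf : ev g d f ≠ 0) (hfe : f ∈ RG g d 1)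
    (a : Away (RG g d) f) : awayK g d f hf a ∈ Chart g d (ev g d f) := by
  obtain ⟨n, x, hx, rfl⟩ := Away.mk_surjective (RG g d) hfe a
  rw [awayK_mk]
  have h1 := eval_mem_Chart g d (ev g d f) x.2
  rw [eq_of_mem_RG hx, eval_monomial, smul_eq_mul, mul_one, inv_pow, ← div_eq_mul_inv] at h1
  exact h1

lemma Chart_le_range (f : RA g d) (hf : ev g d f ≠ 0) (hfe : f ∈ RG g d 1) :
    ∀ y ∈ Chart g d (ev g d f), ∃ a, awayK g d f hf a = y := by
  intro y hy
  induction hy using Algebra.adjoin_induction with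
  | mem y hy =>
    obtain ⟨i, rfl⟩ := hy
    dsimp only
    refine ⟨Away.mk _ hfe (d i) ⟨monomial (d i) (g i), gen_mem g d i⟩ ?_, ?_⟩
    · rw [smul_eq_mul, mul_one]
      exact mk_mem_RG g d _
    · rw [awayK_mk, ev_mk]
  | algebraMap r =>
    refine ⟨Away.mk _ hfe 0 (algebraMap ℂ (RA g d) r) ?_, ?_⟩
    · intro m hm
      rw [zero_smul] at hm
      rw [Subalgebra.coe_algebraMap, Polynomial.algebraMap_apply, coeff_C, if_neg hm]
    · rw [awayK_mk, ev_algebraMap, pow_zero, div_one]
  | add p q _ _ hp hq =>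
    obtain ⟨a, rfl⟩ := hp
    obtain ⟨b, rfl⟩ := hq
    exact ⟨a + b, map_add _ _ _⟩
  | mul p q _ _ hp hq =>
    obtain ⟨a, rfl⟩ := hp
    obtain ⟨b, rfl⟩ := hq
    exact ⟨a * b, map_mul _ _ _⟩

/-- The chart ring of `Proj` is the chart algebra. -/
noncomputable def awayEquiv (f : RA g d) (hf : ev g d f ≠ 0) (hfe : f ∈ RG g d 1) :
    Away (RG g d) f ≃+* Chart g d (ev g d f) :=
  RingEquiv.ofBijective ((awayK g d f hf).codRestrict (Chart g d (ev g d f)).toSubring
    (awayK_mem_Chart g d f hf hfe)) ⟨by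
      intro a b hab
      exact awayK_injective g d f hf hfe (congrArg Subtype.val hab), by
      rintro ⟨y, hy⟩
      obtain ⟨a, ha⟩ := Chart_le_range g d f hf hfe y hy
      exact ⟨a, Subtype.ext ha⟩⟩

lemma awayEquiv_coe (f : RA g d) (hf : ev g d f ≠ 0) (hfe : f ∈ RG g d 1) (a) :
    (awayEquiv g d f hf hfe a : K) = awayK g d f hf a := rfl

end

end Pool.Agent.MP77a250
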