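import Mathlib

set_option autoImplicit false

open Polynomial DirectSum

namespace Pool.Agent.MP77a250

section

variable {K : Type} [Field K] [Algebra ℂ K] {ι : Type} (g : ι → K) (d : ι → ℕ)

/-- The subalgebra of `K[T]` generated by the homogeneous elements `g i * T ^ d i`. -/
noncomputable def RA : Subalgebra ℂ K[X] :=
  Algebra.adjoin ℂ (Set.range fun i => monomial (d i) (g i))

lemma gen_mem (i : ι) : monomial (d i) (g i) ∈ RA g d :=
  Algebra.subset_adjoin ⟨i, rfl⟩

/-- Homogeneous components of elements of `RA` are in `RA`. -/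
lemma comp_mem {p : K[X]} (hp : p ∈ RA g d) (n : ℕ) : monomial n (p.coeff n) ∈ RA g d := by
  induction hp using Algebra.adjoin_induction generalizing n with
  | mem p hp =>
    obtain ⟨i, rfl⟩ := hp
    dsimp only
    rw [coeff_monomial]
    split_ifs with h
    · subst h; exact gen_mem g d i
    · rw [map_zero]; exact zero_mem _
  | algebraMap r =>
    rw [Polynomial.algebraMap_apply, coeff_C]
    split_ifs with h
    · subst h
      have : monomial 0 (algebraMap ℂ K r) = algebraMap ℂ K[X] r := rfl
      rw [this]
      exact Subalgebra.algebraMap_mem _ _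
    · rw [map_zero]; exact zero_mem _
  | add p q _ _ hp hq =>
    rw [coeff_add, map_add]
    exact add_mem (hp n) (hq n)
  | mul p q _ _ hp hq =>
    rw [coeff_mul, map_sum]
    refine sum_mem fun x hx => ?_
    rw [Finset.HasAntidiagonal.mem_antidiagonal] at hx
    rw [← hx, ← monomial_mul_monomial]
    exact mul_mem (hp _) (hq _)

/-- The grading of `RA`. -/
noncomputable def RG (n : ℕ) : Submodule ℂ (RA g d) where
  carrier := {p | ∀ m, m ≠ n → (p : K[X]).coeff m = 0}
  add_mem' {p q} hp hq m hm := by
    rw [Subalgebra.coe_add, coeff_add, hp m hm, hq m hm, add_zero]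
  zero_mem' m _ := by simp
  smul_mem' c p hp m hm := by
    rw [Subalgebra.coe_smul, coeff_smul, hp m hm, smul_zero]

lemma mem_RG {n : ℕ} {p : RA g d} : p ∈ RG g d n ↔ ∀ m, m ≠ n → (p : K[X]).coeff m = 0 := Iff.rfl

lemma mem_RG_iff {n : ℕ} {p : RA g d} :
    p ∈ RG g d n ↔ (p : K[X]) = monomial n ((p : K[X]).coeff n) := by
  constructor
  · intro h
    ext m
    rw [coeff_monomial]
    split_ifs with h1
    · rw [h1]
    · exact h m (Ne.symm h1)
  · intro h m hm
    rw [h, coeff_monomial, if_neg (Ne.symm hm)]

lemma mk_mem_RG {n : ℕ} {x : K} (h : monomial n x ∈ RA g d) :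
    (⟨monomial n x, h⟩ : RA g d) ∈ RG g d n := by
  rw [mem_RG_iff]
  simp

/-- The homogeneous component of degree `n`. -/
noncomputable def RC (n : ℕ) (p : RA g d) : RG g d n :=
  ⟨⟨monomial n ((p : K[X]).coeff n), comp_mem g d p.2 n⟩, mk_mem_RG g d _⟩

lemma RC_coe (n : ℕ) (p : RA g d) : ((RC g d n p : RA g d) : K[X]) = monomial n ((p : K[X]).coeff n) :=
  rfl

instance : SetLike.GradedMonoid (RG g d) where
  one_mem := by
    intro m hm
    rw [Subalgebra.coe_one, coeff_one, if_neg hm]
  mul_mem := by
    intro i j p q hp hq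
    rw [mem_RG_iff] at hp hq
    intro m hm
    rw [Subalgebra.coe_mul, hp, hq, monomial_mul_monomial, coeff_monomial, if_neg (Ne.symm hm)]

lemma RC_add (n : ℕ) (p q : RA g d) : RC g d n (p + q) = RC g d n p + RC g d n q := by
  apply Subtype.ext
  apply Subtype.ext
  simp [RC_coe]

lemma coeff_coe (x : ⨁ n, RG g d n) (n : ℕ) :
    ((DirectSum.coeAddMonoidHom (RG g d) x : RA g d) : K[X]).coeff n =
      ((x n : RA g d) : K[X]).coeff n := by
  classical
  induction x using DirectSum.induction_on with
  | zero => simp
  | of i y =>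
    rw [DirectSum.coeAddMonoidHom_of]
    by_cases h : i = n
    · subst h
      rw [DirectSum.of_eq_same]
    · rw [DirectSum.of_eq_of_ne _ _ _ (Ne.symm h)]
      exact y.2 n (Ne.symm h)
  | add x y hx hy =>
    rw [map_add, Subalgebra.coe_add, coeff_add, hx, hy, DirectSum.add_apply]
    simp

noncomputable instance : DirectSum.Decomposition (RG g d) where
  decompose' p := DirectSum.mk (fun n => RG g d n) (p : K[X]).support fun n => RC g d n p
  left_inv p := by
    apply Subtype.ext
    ext n
    rw [coeff_coe]
    by_cases h : n ∈ (p : K[X]).support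
    · rw [DirectSum.mk_apply_of_mem h, RC_coe, coeff_monomial, if_pos rfl]
    · rw [DirectSum.mk_apply_of_notMem h, notMem_support_iff.mp h]
      simp
  right_inv x := by
    apply DFinsupp.ext
    intro n
    apply Subtype.ext
    apply Subtype.ext
    have h2 := (mem_RG_iff g d).mp (x n).2
    by_cases h : n ∈ ((DirectSum.coeAddMonoidHom (RG g d) x : RA g d) : K[X]).support
    · rw [DirectSum.mk_apply_of_mem h, RC_coe, coeff_coe]
      exact h2.symm
    · rw [DirectSum.mk_apply_of_notMem h, h2]
      rw [notMem_support_iff, coeff_coe] at h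
      rw [h, map_zero]
      rfl

noncomputable instance : GradedRing (RG g d) where

end

end Pool.Agent.MP77a250
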