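import Pool.Agent.MP77a250.RAway
import Pool.Agent.MP77a250.Defs

set_option autoImplicit false

open CategoryTheory Limits AlgebraicGeometry TopologicalSpace Polynomial HomogeneousLocalization

namespace Pool.Agent.MP77a250

/-- Data defining a projective model of a subfield of `K`. -/
structure ProjData (K : Type) [Field K] [Algebra ℂ K] where
  ι : Type
  fin : Finite ι
  g : ι → K
  d : ι → ℕ
  dpos : ∀ i, 0 < d i
  κ : Type
  finκ : Finite κ
  k0 : κ
  f : κ → K
  fne : ∀ k, f k ≠ 0
  fmem : ∀ k, monomial 1 (f k) ∈ RA g d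
  cov : ∀ i, ∃ n, 0 < n ∧ (⟨monomial (d i) (g i), gen_mem g d i⟩ : RA g d) ^ n ∈
    Ideal.span (Set.range fun k => (⟨monomial 1 (f k), fmem k⟩ : RA g d))

namespace ProjData

variable {K : Type} [Field K] [Algebra ℂ K] (P : ProjData K)

/-- The graded ring. -/
noncomputable abbrev R : Type := RA P.g P.d

/-- The grading. -/
noncomputable abbrev G : ℕ → Submodule ℂ P.R := RG P.g P.d

instance : Algebra.FiniteType ℂ P.R := by
  have := P.fin
  have h : (RA P.g P.d).FG := Subalgebra.fg_def.mpr ⟨_, Set.finite_range _, rfl⟩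
  exact (RA P.g P.d).fg_iff_finiteType.mp h

/-- The homogeneous elements defining the charts. -/
noncomputable def F (k : P.κ) : P.R := ⟨monomial 1 (P.f k), P.fmem k⟩

lemma F_mem (k : P.κ) : P.F k ∈ P.G 1 := mk_mem_RG P.g P.d _

lemma ev_F (k : P.κ) : ev P.g P.d (P.F k) = P.f k := ev_mk P.g P.d _

lemma ev_F_ne (k : P.κ) : ev P.g P.d (P.F k) ≠ 0 := by
  rw [ev_F]
  exact P.fne k

lemma coeff_zero_mem {p : K[X]} (hp : p ∈ RA P.g P.d) :
    p.coeff 0 ∈ (algebraMap ℂ K).range := by
  induction hp using Algebra.adjoin_induction with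
  | mem p hp =>
    obtain ⟨i, rfl⟩ := hp
    dsimp only
    rw [coeff_monomial, if_neg (P.dpos i).ne']
    exact zero_mem _
  | algebraMap r =>
    rw [Polynomial.algebraMap_apply, coeff_C_zero]
    exact ⟨r, rfl⟩
  | add p q _ _ hp hq =>
    rw [coeff_add]
    exact add_mem hp hq
  | mul p q _ _ hp hq =>
    rw [mul_coeff_zero]
    exact mul_mem hp hq

lemma bijective_zero : Function.Bijective (algebraMap ℂ (P.G 0)) := by
  constructor
  · intro r r' h
    have h1 : ((algebraMap ℂ (P.G 0) r : P.R) : K[X]) = ((algebraMap ℂ (P.G 0) r' : P.R) : K[X]) := by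
      rw [h]
    have h2 : C (algebraMap ℂ K r) = C (algebraMap ℂ K r') := h1
    exact (algebraMap ℂ K).injective (C_injective h2)
  · intro x
    obtain ⟨r, hr⟩ := P.coeff_zero_mem x.1.2
    refine ⟨r, ?_⟩
    apply Subtype.ext
    apply Subtype.ext
    have h1 := (mem_RG_iff P.g P.d).mp x.2
    rw [h1, ← hr]
    rfl

/-- The chart algebras. -/
noncomputable def A (k : P.κ) : Subalgebra ℂ K := Chart P.g P.d (P.f k)

/-- The chart rings of `Proj` are the chart algebras. -/
noncomputable def eqv (k : P.κ) : Away P.G (P.F k) ≃+* P.A k :=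
  RingEquiv.ofBijective ((awayK P.g P.d (P.F k) (P.ev_F_ne k)).codRestrict (P.A k).toSubring
    (fun a => by
      have h := awayK_mem_Chart P.g P.d (P.F k) (P.ev_F_ne k) (P.F_mem k) a
      rwa [P.ev_F k] at h)) ⟨by
      intro a b hab
      exact awayK_injective P.g P.d (P.F k) (P.ev_F_ne k) (P.F_mem k) (congrArg Subtype.val hab), by
      rintro ⟨y, hy⟩
      obtain ⟨a, ha⟩ := Chart_le_range P.g P.d (P.F k) (P.ev_F_ne k) (P.F_mem k) y (by
        rw [P.ev_F k]; exact hy)
      exact ⟨a, Subtype.ext ha⟩⟩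

lemma eqv_coe (k : P.κ) (a : Away P.G (P.F k)) :
    (P.eqv k a : K) = awayK P.g P.d (P.F k) (P.ev_F_ne k) a := rfl

/-- The scheme. -/
noncomputable abbrev X : Scheme.{0} := Proj P.G

/-- The inclusion of the constants in degree zero. -/
noncomputable def zh : CommRingCat.of ℂ ⟶ CommRingCat.of (P.G 0) :=
  CommRingCat.ofHom (algebraMap ℂ (P.G 0))

instance : IsIso P.zh :=
  (ConcreteCategory.isIso_iff_bijective P.zh).mpr P.bijective_zero

/-- The structure morphism. -/
noncomputable def s : P.X ⟶ SC :=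
  Proj.toSpecZero P.G ≫ Spec.map P.zh

instance : IsScalarTower ℂ (P.G 0) P.R := ⟨fun r a b => by
  change ((r • a : P.G 0) : P.R) * b = r • ((a : P.R) * b)
  rw [← smul_mul_assoc]
  rfl⟩

instance : IsProper P.s := by
  have : Algebra.FiniteType (P.G 0) P.R :=
    Algebra.FiniteType.of_restrictScalars_finiteType ℂ (P.G 0) P.R
  have h1 : IsProper (Proj.toSpecZero P.G) := inferInstance
  have h2 : IsProper (Spec.map P.zh) := inferInstance
  exact MorphismProperty.comp_mem @IsProper _ _ h1 h2

/-- The chart maps, on rings. -/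
noncomputable def eh (k : P.κ) : CommRingCat.of (Away P.G (P.F k)) ⟶ CommRingCat.of (P.A k) :=
  CommRingCat.ofHom (P.eqv k).toRingHom

instance (k : P.κ) : IsIso (P.eh k) :=
  (ConcreteCategory.isIso_iff_bijective (P.eh k)).mpr (P.eqv k).bijective

/-- The chart maps of `Proj`. -/
noncomputable def aw (k : P.κ) : Spec (.of (Away P.G (P.F k))) ⟶ P.X :=
  Proj.awayι P.G (P.F k) (P.F_mem k) zero_lt_one

instance (k : P.κ) : IsOpenImmersion (P.aw k) := by
  unfold aw
  infer_instance

/-- The chart maps. -/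
noncomputable def j (k : P.κ) : Spec (.of (P.A k)) ⟶ P.X :=
  Spec.map (P.eh k) ≫ P.aw k

instance (k : P.κ) : IsOpenImmersion (P.j k) := by
  unfold j
  infer_instance

end ProjData

end Pool.Agent.MP77a250
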