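import Pool.Agent.MP77a250.RModel

set_option autoImplicit false

open CategoryTheory Limits AlgebraicGeometry TopologicalSpace Polynomial HomogeneousLocalization

namespace Pool.Agent.MP77a250

namespace ProjData

variable {K : Type} [Field K] [Algebra ℂ K] (P : ProjData K)

lemma opensRange_j (k : P.κ) : (P.j k).opensRange = Proj.basicOpen P.G (P.F k) :=
  (Scheme.Hom.opensRange_comp_of_isIso (Spec.map (P.eh k)) (P.aw k)).trans
    (Proj.opensRange_awayι _ _ _ _)

/-- The generators. -/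
noncomputable def gen (i : P.ι) : P.R := ⟨monomial (P.d i) (P.g i), gen_mem P.g P.d i⟩

lemma adjoin_gen : Algebra.adjoin ℂ (Set.range P.gen) = ⊤ := by
  have h := Algebra.adjoin_adjoin_coe_preimage (R := ℂ) (A := K[X])
    (s := Set.range fun i => monomial (P.d i) (P.g i))
  rw [eq_top_iff]
  refine le_trans (le_of_eq h.symm) (Algebra.adjoin_mono ?_)
  rintro ⟨x, hx⟩ ⟨i, hi⟩
  exact ⟨i, Subtype.ext hi⟩

lemma covers (x : P.X) : ∃ k, x ∈ (P.j k).opensRange := by
  have h1 : ⨆ i, Proj.basicOpen P.G (P.gen i) = ⊤ := by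
    apply Proj.iSup_basicOpen_eq_top' P.G
    · intro i
      exact ⟨P.d i, mk_mem_RG P.g P.d _⟩
    · rw [eq_top_iff]
      intro z _
      have h2 : z ∈ Algebra.adjoin ℂ (Set.range P.gen) := by
        rw [adjoin_gen]; trivial
      have h3 := Algebra.adjoin_le (S := (Algebra.adjoin (P.G 0)
        (Set.range P.gen)).restrictScalars ℂ) (Algebra.subset_adjoin) h2
      exact h3
  have hx : x ∈ (⊤ : P.X.Opens) := trivial
  rw [← h1] at hx
  replace hx := Opens.mem_iSup.mp hx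
  obtain ⟨i, hi⟩ := hx
  obtain ⟨n, hn, hcov⟩ := P.cov i
  by_contra hcon
  push Not at hcon
  have h2 : ∀ k, P.F k ∈ ProjectiveSpectrum.asHomogeneousIdeal x := by
    intro k
    have := hcon k
    rw [opensRange_j] at this
    by_contra h
    exact this h
  rw [Proj.mem_basicOpen] at hi
  apply hi
  have h3 : Ideal.span (Set.range fun k => (⟨monomial 1 (P.f k), P.fmem k⟩ : RA P.g P.d)) ≤
      (ProjectiveSpectrum.asHomogeneousIdeal x).toIdeal := by
    rw [Ideal.span_le]
    rintro _ ⟨k, rfl⟩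
    exact h2 k
  have hprime : (ProjectiveSpectrum.asHomogeneousIdeal x).toIdeal.IsPrime := x.isPrime
  exact hprime.mem_of_pow_mem n (h3 hcov)

lemma awayK_fromZero {f : P.R} (hf : ev P.g P.d f ≠ 0) (a : P.G 0) :
    awayK P.g P.d f hf (fromZeroRingHom P.G _ a) = ev P.g P.d a := by
  have h : fromZeroRingHom P.G (Submonoid.powers f) a =
      HomogeneousLocalization.mk ⟨0, a, ⟨1, SetLike.GradedOne.one_mem⟩, Submonoid.one_mem _⟩ := rfl
  rw [awayK_val, h, HomogeneousLocalization.val_mk]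
  have h := Localization.awayLift_mk (ev P.g P.d) f (a : P.R) (ev P.g P.d f)⁻¹
    (mul_inv_cancel₀ hf) 0
  refine Eq.trans ?_ (h.trans (by rw [pow_zero, mul_one]))
  congr 2

lemma j_s (k : P.κ) : P.j k ≫ P.s = Spec.map (CommRingCat.ofHom (algebraMap ℂ (P.A k))) := by
  have h1 : P.j k ≫ P.s = Spec.map (P.eh k) ≫
      (Proj.awayι P.G (P.F k) (P.F_mem k) zero_lt_one ≫ Proj.toSpecZero P.G) ≫ Spec.map P.zh := by
    rw [j, s, aw]
    simp only [Category.assoc]
  rw [h1, Proj.awayι_toSpecZero]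
  erw [← Spec.map_comp, ← Spec.map_comp]
  congr 1
  ext r
  have h2 := P.awayK_fromZero (P.ev_F_ne k) (algebraMap ℂ (P.G 0) r)
  have h3 : ev P.g P.d (algebraMap ℂ (P.G 0) r : P.R) = algebraMap ℂ K r :=
    ev_algebraMap P.g P.d r
  exact h2.trans h3

/-- The inclusion of the chart algebra in `K`. -/
noncomputable def inc (k : P.κ) : CommRingCat.of (P.A k) ⟶ CommRingCat.of K :=
  CommRingCat.ofHom (P.A k).val.toRingHom

/-- The generic point. -/
noncomputable def pt : Spec (.of K) ⟶ P.X := Spec.map (P.inc P.k0) ≫ P.j P.k0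

lemma inc_j (k : P.κ) : Spec.map (P.inc k) ≫ P.j k =
    Spec.map (CommRingCat.ofHom (awayK P.g P.d (P.F k) (P.ev_F_ne k))) ≫ P.aw k := by
  rw [j, ← Category.assoc, ← Spec.map_comp]
  rfl

lemma inc_j_eq (k : P.κ) : Spec.map (P.inc k) ≫ P.j k = P.pt := by
  rw [pt, inc_j, inc_j]
  have hne : ∀ k l, ev P.g P.d (P.F k * P.F l) ≠ 0 := fun k l => by
    rw [map_mul]
    exact mul_ne_zero (P.ev_F_ne k) (P.ev_F_ne l)
  have key : ∀ k l, Spec.map (CommRingCat.ofHom (awayK P.g P.d (P.F k) (P.ev_F_ne k))) ≫ P.aw k =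
      Spec.map (CommRingCat.ofHom (awayK P.g P.d (P.F k * P.F l) (hne k l))) ≫
        Proj.awayι P.G (P.F k * P.F l) (SetLike.mul_mem_graded (P.F_mem k) (P.F_mem l))
          (by norm_num) := by
    intro k l
    rw [← Proj.SpecMap_awayMap_awayι P.G (P.F_mem k) zero_lt_one (P.F_mem l) rfl]
    rw [← Category.assoc, ← Spec.map_comp, aw]
    congr 2
    ext a
    exact (awayK_awayMap P.g P.d (P.ev_F_ne k) (hne k l) (P.F_mem k) (P.F_mem l) rfl a).symm
  rw [key k P.k0, key P.k0 k]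
  have : ∀ (x y : P.R) (hxy : x = y) (hx : ev P.g P.d x ≠ 0) (hy : ev P.g P.d y ≠ 0) {n : ℕ}
      (hxn : x ∈ P.G n) (hyn : y ∈ P.G n) (hn : 0 < n),
      Spec.map (CommRingCat.ofHom (awayK P.g P.d x hx)) ≫ Proj.awayι P.G x hxn hn =
      Spec.map (CommRingCat.ofHom (awayK P.g P.d y hy)) ≫ Proj.awayι P.G y hyn hn := by
    intro x y hxy
    subst hxy
    intros
    rfl
  exact this _ _ (mul_comm _ _) _ _ _ _ _

end ProjData

end Pool.Agent.MP77a250
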