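import Mathlib

set_option autoImplicit false

namespace Pool.Agent.MP77a250

/-- Algebraic core of the local computation: if `A → A'` is formally unramified and the two
homomorphisms `f, g : A' → B` agree on `A` modulo `w`, then near the locus where they agree, the
ideal generated by the differences `f a - g a` is contained in `(w)`. -/
lemma ring_twist {A A' B : Type} [CommRing A] [CommRing A'] [CommRing B] [Algebra A A']
    [Algebra.FormallyUnramified A A'] (f g : A' →+* B) (w : B)
    (hw : ∀ a : A, f (algebraMap A A' a) - g (algebraMap A A' a) ∈ Ideal.span {w})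
    (hfg : (Ideal.span (Set.range fun a : A' => f a - g a)).FG) :
    ∃ r : B, r - 1 ∈ Ideal.span (Set.range fun a : A' => f a - g a) ∧
      ∀ z ∈ Ideal.span (Set.range fun a : A' => f a - g a), r * z ∈ Ideal.span {w} := by
  set J : Ideal B := Ideal.span (Set.range fun a : A' => f a - g a) with hJ
  -- the quotient by `J ^ 2 + (w)`
  set K : Ideal B := J ^ 2 ⊔ Ideal.span {w} with hK
  let : Algebra A (B ⧸ K) := ((Ideal.Quotient.mk K).comp (f.comp (algebraMap A A'))).toAlgebra
  let f' : A' →ₐ[A] B ⧸ K :=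
    { (Ideal.Quotient.mk K).comp f with
      commutes' := fun a => rfl }
  let g' : A' →ₐ[A] B ⧸ K :=
    { (Ideal.Quotient.mk K).comp g with
      commutes' := fun a => by
        change Ideal.Quotient.mk K (g (algebraMap A A' a)) =
          Ideal.Quotient.mk K (f (algebraMap A A' a))
        refine (Ideal.Quotient.mk_eq_mk_iff_sub_mem _ _).mpr ?_
        rw [← neg_sub]
        exact K.neg_mem (Ideal.mem_sup_right (hw a)) }
  have hnil : (J.map (Ideal.Quotient.mk K)) ^ 2 = ⊥ := by
    rw [← Ideal.map_pow, Ideal.map_eq_bot_iff_le_ker, Ideal.mk_ker]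
    exact le_sup_left
  have hfg' : f' = g' := by
    refine Algebra.FormallyUnramified.ext (I := J.map (Ideal.Quotient.mk K)) ⟨2, hnil⟩ ?_
    intro a
    refine (Ideal.Quotient.mk_eq_mk_iff_sub_mem _ _).mpr ?_
    change Ideal.Quotient.mk K (f a) - Ideal.Quotient.mk K (g a) ∈ _
    rw [← map_sub]
    exact Ideal.mem_map_of_mem _ (Ideal.subset_span ⟨a, rfl⟩)
  have hJK : J ≤ K := by
    rw [hJ, Ideal.span_le]
    rintro _ ⟨a, rfl⟩
    have := congrArg (fun h => h a) hfg'
    exact (Ideal.Quotient.mk_eq_mk_iff_sub_mem _ _).mp this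
  -- Nakayama
  let N : Submodule B (B ⧸ Ideal.span {w}) := Submodule.map (Submodule.mkQ (Ideal.span {w})) J
  have hN : N.FG := Submodule.FG.map _ hfg
  have hle : N ≤ J • N := by
    rintro _ ⟨z, hz, rfl⟩
    obtain ⟨u, hu, v, hv, rfl⟩ := Submodule.mem_sup.mp (hJK hz)
    rw [map_add]
    have hv0 : Submodule.mkQ (Ideal.span {w}) v = 0 := by
      rw [Submodule.mkQ_apply, Submodule.Quotient.mk_eq_zero]; exact hv
    rw [hv0, add_zero]
    have hu' : u ∈ J • J := by rw [smul_eq_mul, ← pow_two]; exact hu
    have : Submodule.mkQ (Ideal.span {w}) u ∈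
        Submodule.map (Submodule.mkQ (Ideal.span {w})) (J • J) :=
      Submodule.mem_map_of_mem hu'
    rwa [Submodule.map_smul''] at this
  obtain ⟨r, hr, hr'⟩ :=
    Submodule.exists_sub_one_mem_and_smul_eq_zero_of_fg_of_le_smul J N hN hle
  refine ⟨r, hr, fun z hz => ?_⟩
  have := hr' (Submodule.mkQ (Ideal.span {w}) z) (Submodule.mem_map_of_mem hz)
  rw [← map_smul, Submodule.mkQ_apply, Submodule.Quotient.mk_eq_zero] at this
  exact this

end Pool.Agent.MP77a250
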