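import Mathlib

set_option autoImplicit false

namespace Pool.Agent.MP77a250

section

variable {R P : Type} [CommRing R] [CommRing P] [Algebra R P] {ι : Type} [Fintype ι] [DecidableEq ι]

/-- The infinitesimal section defined by derivations. -/
noncomputable def thetaHom (g : ι → P) (D : ι → Derivation R P P) :
    P →ₐ[R] P ⧸ (Ideal.span (Set.range g)) ^ 2 :=
  AlgHom.ofLinearMap ((Ideal.Quotient.mkₐ R ((Ideal.span (Set.range g)) ^ 2)).toLinearMap ∘ₗ
    (LinearMap.id - ∑ i, (LinearMap.mulLeft R (g i)) ∘ₗ (D i : P →ₗ[R] P)))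
    (by simp) (by
      intro x y
      have hx : ∀ z, (∑ i, g i * D i z) ∈ Ideal.span (Set.range g) := fun z =>
        sum_mem fun i _ => Ideal.mul_mem_right _ _ (Ideal.subset_span ⟨i, rfl⟩)
      simp only [LinearMap.comp_apply, AlgHom.toLinearMap_apply, LinearMap.sub_apply,
        LinearMap.id_apply, LinearMap.sum_apply, LinearMap.mulLeft_apply, Derivation.coeFn_coe,
        Ideal.Quotient.mkₐ_eq_mk]
      rw [← map_mul, Ideal.Quotient.eq]
      have h1 : x * y - ∑ i, g i * D i (x * y) - (x - ∑ i, g i * D i x) * (y - ∑ i, g i * D i y) =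
        - ((∑ i, g i * D i x) * (∑ i, g i * D i y)) := by
        have h2 : ∑ i, g i * D i (x * y) = x * (∑ i, g i * D i y) + y * (∑ i, g i * D i x) := by
          rw [Finset.mul_sum, Finset.mul_sum, ← Finset.sum_add_distrib]
          refine Finset.sum_congr rfl fun i _ => ?_
          rw [Derivation.leibniz]
          simp only [smul_eq_mul]
          ring
        rw [h2]
        ring
      rw [h1, pow_two]
      exact neg_mem (Ideal.mul_mem_mul (hx x) (hx y)))

lemma thetaHom_apply (g : ι → P) (D : ι → Derivation R P P) (x : P) :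
    thetaHom g D x = Ideal.Quotient.mk _ (x - ∑ i, g i * D i x) := by
  simp [thetaHom]

theorem formallySmooth_of_derivations [Algebra.FormallySmooth R P] (g : ι → P)
    (D : ι → Derivation R P P)
    (h : ∀ i j, D i (g j) - (if i = j then 1 else 0) ∈ Ideal.span (Set.range g)) :
    Algebra.FormallySmooth R (P ⧸ Ideal.span (Set.range g)) := by
  set I := Ideal.span (Set.range g) with hI
  have hker : RingHom.ker (Ideal.Quotient.mkₐ R I).toRingHom = I := by
    ext x
    simp [RingHom.mem_ker, Ideal.Quotient.eq_zero_iff_mem]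
  have hle : ∀ a ∈ I, thetaHom g D a = 0 := by
    intro a ha
    have h1 : I ≤ RingHom.ker (thetaHom g D) := by
      rw [hI, Ideal.span_le]
      rintro _ ⟨j, rfl⟩
      rw [SetLike.mem_coe, RingHom.mem_ker, thetaHom_apply, Ideal.Quotient.eq_zero_iff_mem]
      have h2 : g j - ∑ i, g i * D i (g j) =
          - ∑ i, g i * (D i (g j) - (if i = j then 1 else 0)) := by
        simp only [mul_sub, Finset.sum_sub_distrib, mul_ite, mul_one, mul_zero,
          Finset.sum_ite_eq', Finset.mem_univ, if_true]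
        ring
      rw [h2, pow_two]
      exact neg_mem (sum_mem fun i _ => Ideal.mul_mem_mul (Ideal.subset_span ⟨i, rfl⟩) (h i j))
    exact h1 ha
  let q : P ⧸ I →ₐ[R] P ⧸ I ^ 2 := Ideal.Quotient.liftₐ I (thetaHom g D) hle
  let e : P ⧸ I ^ 2 →ₐ[R] P ⧸ RingHom.ker (Ideal.Quotient.mkₐ R I).toRingHom ^ 2 :=
    Ideal.quotientMapₐ _ (AlgHom.id R P) (by rw [hker]; exact le_of_eq rfl)
  refine Algebra.FormallySmooth.of_split (Ideal.Quotient.mkₐ R I) (e.comp q) ?_
  refine Ideal.Quotient.algHom_ext _ ?_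
  ext x
  have h1 : q (Ideal.Quotient.mk I x) = Ideal.Quotient.mk _ (x - ∑ i, g i * D i x) := by
    rw [← thetaHom_apply]
    rfl
  change (Ideal.Quotient.mkₐ R I).kerSquareLift (e (q (Ideal.Quotient.mk I x))) = _
  rw [h1]
  change Ideal.Quotient.mk I (x - ∑ i, g i * D i x) = Ideal.Quotient.mk I x
  rw [Ideal.Quotient.eq]
  have h2 : x - ∑ i, g i * D i x - x = - ∑ i, g i * D i x := by ring
  rw [h2]
  exact neg_mem (sum_mem fun i _ => Ideal.mul_mem_right _ _ (Ideal.subset_span ⟨i, rfl⟩))

end

end Pool.Agent.MP77a250
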