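import Mathlib

/-!
# The definitions used in the statement for MP_77a250_ag

Complex projective manifolds, line bundles given by cocycles, ampleness, degrees on curves, nefness,
blow-ups, Seshadri numbers along closed subschemes, large algebraic fundamental groups.
-/

set_option autoImplicit false

open CategoryTheory Limits AlgebraicGeometry TopologicalSpace

namespace Pool.Agent.MP77a250.St

/-- The base scheme: the spectrum of the field of complex numbers. -/
noncomputable def SC : Scheme.{0} := Spec (CommRingCat.of ℂ)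

/-- Regular functions on an open subset of a scheme (sections of the structure sheaf). -/
def Fn (X : Scheme.{0}) (U : X.Opens) : Type := Γ(X, U)

noncomputable instance instFn (X : Scheme.{0}) (U : X.Opens) : CommRing (Fn X U) :=
  Γ(X, U).commRing

/-- The inverse image of an open set. -/
def inv {X Y : Scheme.{0}} (f : X ⟶ Y) (U : Y.Opens) : X.Opens := f ⁻¹ᵁ U

/-- Restriction of functions from `U` to a smaller open set `V`. -/
noncomputable def res {X : Scheme.{0}} {U V : X.Opens} (h : V ≤ U) : Fn X U →+* Fn X V :=
  (X.presheaf.map (homOfLE h).op).hom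

/-- Pull-back of functions along a morphism `f`, from `U` to an open set `V` contained in the
inverse image of `U`. -/
noncomputable def pull {X Y : Scheme.{0}} (f : X ⟶ Y) {U : Y.Opens} {V : X.Opens}
    (h : V ≤ inv f U) : Fn Y U →+* Fn X V :=
  (f.appLE U V h).hom

/-- The open set where a function does not vanish. -/
noncomputable def nonvan {X : Scheme.{0}} {U : X.Opens} (a : Fn X U) : X.Opens :=
  X.basicOpen (U := U) a

/-- Restriction of units. -/
noncomputable def resU {X : Scheme.{0}} {U V : X.Opens} (h : V ≤ U) (a : (Fn X U)ˣ) :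
    (Fn X V)ˣ := Units.map (res h : Fn X U →* Fn X V) a

/-- Pull-back of units. -/
noncomputable def pullU {X Y : Scheme.{0}} (f : X ⟶ Y) {U : Y.Opens} {V : X.Opens}
    (h : V ≤ inv f U) (a : (Fn Y U)ˣ) : (Fn X V)ˣ := Units.map (pull f h : Fn Y U →* Fn X V) a

/-- The cocycle condition for a family of units `g i j` on `U i ∩ U j`: it says
`g i j * g j k = g i k` on every open set `V` contained in `U i ∩ U j ∩ U k`. -/
def IsCocycle {X : Scheme.{0}} {ι : Type} (U : ι → X.Opens)
    (g : ∀ i j, (Fn X (U i ⊓ U j))ˣ) : Prop :=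
  ∀ (i j k : ι) (V : X.Opens) (hij : V ≤ U i ⊓ U j) (hjk : V ≤ U j ⊓ U k) (hik : V ≤ U i ⊓ U k),
    resU hij (g i j) * resU hjk (g j k) = resU hik (g i k)

/-- A line bundle (invertible sheaf) on a scheme, given by a Čech cocycle `g i j` of units on an
open cover `U i`. With a frame `e i` over `U i` such that `e j = g i j • e i`, a section
`s = s i • e i` satisfies `s i = g i j * s j`. -/
structure LineBundle (X : Scheme.{0}) where
  /-- index set of the trivialising cover -/
  ι : Type
  /-- the trivialising open sets -/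
  U : ι → X.Opens
  /-- they cover `X` -/
  covers : ∀ x : X, ∃ i, x ∈ U i
  /-- the transition functions -/
  g : ∀ i j, (Fn X (U i ⊓ U j))ˣ
  /-- the cocycle condition on triple intersections -/
  cocycle : IsCocycle U g

lemma res_res {X : Scheme.{0}} {U V W : X.Opens} (h : V ≤ U) (h' : W ≤ V) (x : Fn X U) :
    res h' (res h x) = res (h'.trans h) x := by
  have := X.presheaf.map_comp (homOfLE h).op (homOfLE h').op
  exact (congrArg (fun g => g.hom x) this).symm

lemma pull_res {X Y : Scheme.{0}} (f : X ⟶ Y) {U U' : Y.Opens} {V : X.Opens}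
    (h : V ≤ inv f U) (h' : U ≤ U') (x : Fn Y U') :
    pull f h (res h' x) = pull f (h.trans (f.preimage_mono h')) x := by
  have := Scheme.Hom.map_appLE f h (homOfLE h').op
  exact congrArg (fun g => g.hom x) this

lemma res_pull {X Y : Scheme.{0}} (f : X ⟶ Y) {U : Y.Opens} {V V' : X.Opens}
    (h : V ≤ inv f U) (h' : V' ≤ V) (x : Fn Y U) :
    res h' (pull f h x) = pull f (h'.trans h) x := by
  have := Scheme.Hom.appLE_map f h (homOfLE h').op
  exact congrArg (fun g => g.hom x) this

theorem inv_inf_le {X Y : Scheme.{0}} (f : X ⟶ Y) (U V : Y.Opens) :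
    inv f U ⊓ inv f V ≤ inv f (U ⊓ V) := le_rfl

/-- The transition functions of the pull-back of a line bundle. -/
noncomputable def pullTr {X Y : Scheme.{0}} (f : X ⟶ Y) {ι : Type} (U : ι → Y.Opens)
    (g : ∀ i j, (Fn Y (U i ⊓ U j))ˣ) (i j : ι) : (Fn X (inv f (U i) ⊓ inv f (U j)))ˣ :=
  pullU f (inv_inf_le f (U i) (U j)) (g i j)

theorem pullTr_cocycle {X Y : Scheme.{0}} (f : X ⟶ Y) {ι : Type} {U : ι → Y.Opens}
    {g : ∀ i j, (Fn Y (U i ⊓ U j))ˣ} (h : IsCocycle U g) :
    IsCocycle (fun i => inv f (U i)) (pullTr f U g) := by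
  intro i j k V hij hjk hik
  have h1 := h i j k (U i ⊓ U j ⊓ U k) inf_le_left (inf_le_inf_right _ inf_le_right)
    (inf_le_inf_right _ inf_le_left)
  have hV : V ≤ inv f (U i ⊓ U j ⊓ U k) := fun x hx => ⟨hij hx, (hjk hx).2⟩
  have h2 := congrArg (fun a => ((pullU f hV a : (Fn X V)ˣ) : Fn X V)) h1
  apply Units.ext
  simp only [pullU, resU, Units.coe_map, Units.val_mul, map_mul, MonoidHom.coe_coe, pull_res]
    at h2
  simp only [pullTr, pullU, resU, Units.coe_map, Units.val_mul, MonoidHom.coe_coe, res_pull]
  exact h2

/-- The indexed family of the intersections of the members of two families of open sets. -/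
def meet {X : Scheme.{0}} {ι κ : Type} (U : ι → X.Opens) (U' : κ → X.Opens) (i : ι × κ) :
    X.Opens := U i.1 ⊓ U' i.2

theorem meet_le_left {X : Scheme.{0}} {ι κ : Type} (U : ι → X.Opens) (U' : κ → X.Opens)
    (i j : ι × κ) : meet U U' i ⊓ meet U U' j ≤ U i.1 ⊓ U j.1 :=
  inf_le_inf inf_le_left inf_le_left

theorem meet_le_right {X : Scheme.{0}} {ι κ : Type} (U : ι → X.Opens) (U' : κ → X.Opens)
    (i j : ι × κ) : meet U U' i ⊓ meet U U' j ≤ U' i.2 ⊓ U' j.2 :=
  inf_le_inf inf_le_right inf_le_right

/-- The transition functions of a tensor product. -/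
noncomputable def tensorTr {X : Scheme.{0}} {ι κ : Type} (U : ι → X.Opens) (U' : κ → X.Opens)
    (g : ∀ i j, (Fn X (U i ⊓ U j))ˣ) (g' : ∀ i j, (Fn X (U' i ⊓ U' j))ˣ) (i j : ι × κ) :
    (Fn X (meet U U' i ⊓ meet U U' j))ˣ :=
  resU (meet_le_left U U' i j) (g i.1 j.1) * resU (meet_le_right U U' i j) (g' i.2 j.2)

theorem tensorTr_cocycle {X : Scheme.{0}} {ι κ : Type} {U : ι → X.Opens} {U' : κ → X.Opens}
    {g : ∀ i j, (Fn X (U i ⊓ U j))ˣ} {g' : ∀ i j, (Fn X (U' i ⊓ U' j))ˣ}
    (h : IsCocycle U g) (h' : IsCocycle U' g') :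
    IsCocycle (meet U U') (tensorTr U U' g g') := by
  intro i j k V hij hjk hik
  have h1 := congrArg (fun a : (Fn X V)ˣ => (a : Fn X V)) (h i.1 j.1 k.1 V
    (hij.trans (meet_le_left U U' i j)) (hjk.trans (meet_le_left U U' j k))
    (hik.trans (meet_le_left U U' i k)))
  have h2 := congrArg (fun a : (Fn X V)ˣ => (a : Fn X V)) (h' i.2 j.2 k.2 V
    (hij.trans (meet_le_right U U' i j)) (hjk.trans (meet_le_right U U' j k))
    (hik.trans (meet_le_right U U' i k)))
  apply Units.ext
  simp only [resU, Units.coe_map, Units.val_mul, MonoidHom.coe_coe] at h1 h2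
  simp only [tensorTr, resU, Units.coe_map, Units.val_mul, map_mul, MonoidHom.coe_coe, res_res]
  rw [← h1, ← h2]
  ring

theorem meet_covers {X : Scheme.{0}} {ι κ : Type} {U : ι → X.Opens} {U' : κ → X.Opens}
    (h : ∀ x : X, ∃ i, x ∈ U i) (h' : ∀ x : X, ∃ i, x ∈ U' i) (x : X) :
    ∃ i, x ∈ meet U U' i := by
  obtain ⟨i, hi⟩ := h x
  obtain ⟨j, hj⟩ := h' x
  exact ⟨(i, j), hi, hj⟩

namespace LineBundle

variable {X Y : Scheme.{0}}

/-- The pull-back of a line bundle along a morphism. -/
noncomputable def pullback (f : X ⟶ Y) (L : LineBundle Y) : LineBundle X where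
  ι := L.ι
  U i := inv f (L.U i)
  covers x := L.covers (f x)
  g := pullTr f L.U L.g
  cocycle := pullTr_cocycle f L.cocycle

/-- The tensor product of two line bundles. -/
noncomputable def tensor (L M : LineBundle X) : LineBundle X where
  ι := L.ι × M.ι
  U := meet L.U M.U
  covers := meet_covers L.covers M.covers
  g := tensorTr L.U M.U L.g M.g
  cocycle := tensorTr_cocycle L.cocycle M.cocycle

/-- A global section of the `n`-th tensor power of a line bundle, in the given trivialisations. -/
structure PowSection (L : LineBundle X) (n : ℕ) where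
  /-- the local expressions of the section -/
  s : ∀ i, Fn X (L.U i)
  /-- the gluing condition, on every open set `V` contained in `U i ∩ U j` -/
  glue : ∀ (i j : L.ι) (V : X.Opens) (hi : V ≤ L.U i) (hj : V ≤ L.U j),
    res hi (s i) = ((resU (le_inf hi hj) (L.g i j) ^ n : (Fn X V)ˣ) : Fn X V) * res hj (s j)

/-- The open set where a section of a power of a line bundle does not vanish. -/
noncomputable def PowSection.nonvanishing {L : LineBundle X} {n : ℕ} (σ : L.PowSection n) :
    X.Opens :=
  ⨆ i, nonvan (σ.s i)

/-- `L` is ample: `X` is quasi-compact and every point lies in an affine open set of the form `X_s`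
with `s` a global section of a positive power of `L`. -/
def IsAmple (L : LineBundle X) : Prop :=
  CompactSpace X ∧ ∀ x : X, ∃ n : ℕ, 0 < n ∧ ∃ σ : L.PowSection n,
    x ∈ σ.nonvanishing ∧ IsAffineOpen σ.nonvanishing

end LineBundle

/-- The function field of an integral scheme. -/
def Rat (C : Scheme.{0}) [IsIntegral C] : Type := C.functionField

noncomputable instance instRat (C : Scheme.{0}) [IsIntegral C] : CommRing (Rat C) :=
  C.functionField.commRing

/-- A function on a nonempty open set as a rational function. -/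
noncomputable def toRat {C : Scheme.{0}} [IsIntegral C] {U : C.Opens} (h : Nonempty U) :
    Fn C U →+* Rat C :=
  (C.germToFunctionField U).hom

/-- The order of vanishing of a rational function at a point (it is zero unless the point has
codimension one). -/
noncomputable def ord {C : Scheme.{0}} [IsIntegral C] [IsLocallyNoetherian C] (a : Rat C) (x : C) :
    ℤ :=
  Scheme.ord (X := C) a x

namespace LineBundle

/-- A nonzero rational section of a line bundle on an integral scheme: a family of nonzero
rational functions, related by the transition functions. -/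
structure RatSection (C : Scheme.{0}) [IsIntegral C] (L : LineBundle C) where
  /-- the local expressions of the rational section -/
  r : L.ι → Rat C
  /-- they are nonzero -/
  ne_zero : ∀ i, r i ≠ 0
  /-- the gluing condition -/
  glue : ∀ (i j : L.ι) (h : Nonempty (L.U i ⊓ L.U j : C.Opens)), r i = toRat h (L.g i j) * r j

/-- The order of vanishing of a rational section at a point. -/
noncomputable def RatSection.ordAt {C : Scheme.{0}} [IsIntegral C] [IsLocallyNoetherian C]
    {L : LineBundle C} (σ : RatSection C L) (x : C) : ℤ :=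
  ord (σ.r (L.covers x).choose) x

/-- `d` is the degree of the line bundle `L` on the (integral, proper, complex) curve `C`:
it is the degree of the divisor of a nonzero rational section of `L`. -/
def IsDegree {C : Scheme.{0}} [IsIntegral C] [IsLocallyNoetherian C] (L : LineBundle C)
    (d : ℤ) : Prop :=
  ∃ σ : RatSection C L, d = ∑ᶠ x : C, σ.ordAt x

end LineBundle

/-- A smooth irreducible complex projective variety, given by its structure morphism: an integral
scheme, smooth and proper over `ℂ`, which carries an ample line bundle. -/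
structure IsProjectiveManifold {X : Scheme.{0}} (s : X ⟶ SC) : Prop where
  integral : IsIntegral X
  smooth : Smooth s
  proper : IsProper s
  projective : ∃ L : LineBundle X, L.IsAmple

/-- The real divisor class `A - t B` is nef, where `A`, `B` are line bundles on a scheme `Y` over
`ℂ`: it has nonnegative degree on every curve `C`, that is on every integral proper complex scheme
of dimension one with a morphism to `Y`. -/
def NefSub {Y : Scheme.{0}} (sY : Y ⟶ SC) (A B : LineBundle Y) (t : ℝ) : Prop :=
  ∀ (C : Scheme.{0}) [IsIntegral C] [IsLocallyNoetherian C] (f : C ⟶ Y),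
    IsProper (f ≫ sY) → topologicalKrullDim C = 1 →
    ∀ a b : ℤ, (A.pullback f).IsDegree a → (B.pullback f).IsDegree b → 0 ≤ (a : ℝ) - t * b

/-- The ideal of functions on an affine open set given by an ideal sheaf. -/
def idealOn {Y : Scheme.{0}} (I : Y.IdealSheafData) (U : Y.affineOpens) : Ideal (Fn Y U.1) :=
  I.ideal U

/-- An ideal sheaf is invertible (the ideal sheaf of an effective Cartier divisor) if it is
locally generated by a nonzerodivisor. -/
def IsInvertibleIdeal {Y : Scheme.{0}} (I : Y.IdealSheafData) : Prop :=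
  ∀ y : Y, ∃ U : Y.affineOpens, y ∈ U.1 ∧ ∃ a ∈ nonZeroDivisors (Fn Y U.1),
    idealOn I U = Ideal.span {a}

/-- `β : B ⟶ Y` is the blow-up of `Y` along (the closed subscheme defined by) the ideal sheaf `I`:
the inverse image ideal sheaf is invertible, and `β` is universal with this property. -/
structure IsBlowUp {B Y : Scheme.{0}} (β : B ⟶ Y) (I : Y.IdealSheafData) : Prop where
  invertible : IsInvertibleIdeal (I.comap β)
  universal : ∀ (T : Scheme.{0}) (g : T ⟶ Y), IsInvertibleIdeal (I.comap g) →
    ∃! h : T ⟶ B, h ≫ β = g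

/-- `E` is the line bundle `O(D)` of the effective Cartier divisor `D` defined by the ideal
sheaf `J`: it has a global section whose local expressions generate `J`. -/
def IsDivisorBundle {B : Scheme.{0}} (E : LineBundle B) (J : B.IdealSheafData) : Prop :=
  ∃ e : E.PowSection 1, ∀ (i : E.ι) (V : B.affineOpens) (h : V.1 ≤ E.U i),
    idealOn J V = Ideal.span {res h (e.s i)}

/-- `t ≥ 0` is such that `β^* M - t E` is nef, where `β : B ⟶ Y` is the blow-up of `Y` along `I`
and `E` is its exceptional divisor. -/
def IsSeshadriBound {Y : Scheme.{0}} (sY : Y ⟶ SC) (M : LineBundle Y) (I : Y.IdealSheafData)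
    (t : ℝ) : Prop :=
  0 ≤ t ∧ ∃ (B : Scheme.{0}) (β : B ⟶ Y) (E : LineBundle B),
    IsBlowUp β I ∧ IsDivisorBundle E (I.comap β) ∧ NefSub (β ≫ sY) (M.pullback β) E t

/-- The Seshadri number `ε(M; W)` of `M` along the closed subscheme `W` defined by the ideal
sheaf `I`. -/
noncomputable def seshadri {Y : Scheme.{0}} (sY : Y ⟶ SC) (M : LineBundle Y)
    (I : Y.IdealSheafData) : EReal :=
  sSup {ε : EReal | ∃ t : ℝ, ε = t ∧ IsSeshadriBound sY M I t}

/-- Finite étale morphisms. -/
structure IsFiniteEtale {X Y : Scheme.{0}} (f : X ⟶ Y) : Prop where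
  finite : IsFinite f
  etale : Etale f

/-- A covering `q : W' ⟶ W` is completely split: it is isomorphic over `W` to a disjoint union of
finitely many copies of `W`. -/
def IsCompletelySplit {W' W : Scheme.{0}} (q : W' ⟶ W) : Prop :=
  ∃ (n : ℕ) (e : W' ≅ ∐ (fun _ : Fin n => W)), e.hom ≫ Sigma.desc (fun _ => 𝟙 W) = q

/-- The homomorphism of algebraic fundamental groups induced by a morphism `f : Z ⟶ X` from a
connected scheme has infinite image. By the Galois correspondence this says: there is no connected
finite étale cover `W` of `Z` on which all the finite étale covers of `X` become completely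
split. -/
def HasInfiniteImage {Z X : Scheme.{0}} (f : Z ⟶ X) : Prop :=
  ∀ (W : Scheme.{0}) (q : W ⟶ Z), IsFiniteEtale q → ConnectedSpace W →
    ∃ (X' : Scheme.{0}) (p : X' ⟶ X), IsFiniteEtale p ∧
      ¬ IsCompletelySplit (pullback.fst (q ≫ f) p)

/-- `ν` is the normalisation of the variety `Z`: `Z'` is a normal integral scheme and `ν` is finite
and birational. -/
structure IsNormalisation {Z' Z : Scheme.{0}} (ν : Z' ⟶ Z) : Prop where
  integral : IsIntegral Z'
  normal : ∀ x : Z', IsIntegrallyClosed (Z'.presheaf.stalk x)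
  finite : IsFinite ν
  birational : ∃ U : Z.Opens, (U : Set Z).Nonempty ∧ IsIso (ν ∣_ U)

/-- `X` has large algebraic fundamental group: for every closed subvariety `Z` of positive
dimension, with normalisation `Z'`, the homomorphism from the algebraic fundamental group of `Z'`
to that of `X` has infinite image. -/
def HasLargeAlgFundGroup (X : Scheme.{0}) : Prop :=
  ∀ (Z : Scheme.{0}) (i : Z ⟶ X), IsClosedImmersion i → IsIntegral Z →
    0 < topologicalKrullDim Z →
    ∀ (Z' : Scheme.{0}) (ν : Z' ⟶ Z), IsNormalisation ν → HasInfiniteImage (ν ≫ i)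

/-- The morphism `p × p` from `X' × X'` to `X × X`. -/
noncomputable def prodMap {X X' : Scheme.{0}} (s : X ⟶ SC) (p : X' ⟶ X) :
    pullback (p ≫ s) (p ≫ s) ⟶ pullback s s :=
  pullback.map (p ≫ s) (p ≫ s) s s p p (𝟙 SC) (by simp) (by simp)

/-- For a finite étale cover `p : X' ⟶ X` and a line bundle `L` on `X`, the line bundle
`(p × p)^*(p₁^*L ⊗ p₂^*L)` on `X' × X'`. -/
noncomputable def Mp {X X' : Scheme.{0}} (s : X ⟶ SC) (p : X' ⟶ X) (L : LineBundle X) :
    LineBundle (pullback (p ≫ s) (p ≫ s)) :=
  ((L.pullback (pullback.fst s s)).tensor (L.pullback (pullback.snd s s))).pullback (prodMap s p)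

/-- The Seshadri number `ε(M_p; D')` along the diagonal `D'` of `X' × X'`. -/
noncomputable def seshadriDiag {X X' : Scheme.{0}} (s : X ⟶ SC) (p : X' ⟶ X)
    (L : LineBundle X) : EReal :=
  seshadri (pullback.fst (p ≫ s) (p ≫ s) ≫ p ≫ s) (Mp s p L) (pullback.diagonal (p ≫ s)).ker

end Pool.Agent.MP77a250.St
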