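import Pool.Agent.MP77a250.Good

set_option autoImplicit false

open CategoryTheory Limits AlgebraicGeometry TopologicalSpace

namespace Pool.Agent.MP77a250

open Scheme.IdealSheafData

section

variable {X X' B T C : Scheme.{0}} {s : X ⟶ SC} {L : LineBundle X}
variable [IsIntegral C] [IsLocallyNoetherian C]

omit [IsLocallyNoetherian C] in
lemma gv_pullback_g {Y Z : Scheme.{0}} (M : LineBundle Z) (f : Y ⟶ Z) (F : C ⟶ Y) (i j : M.ι)
    (h : F (genericPoint C) ∈ (M.pullback f).U i ⊓ (M.pullback f).U j)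
    (h' : (F ≫ f) (genericPoint C) ∈ M.U i ⊓ M.U j) :
    gv F h ((M.pullback f).g i j : Γ(Y, (M.pullback f).U i ⊓ (M.pullback f).U j)) =
      gv (F ≫ f) h' (M.g i j : Γ(Z, M.U i ⊓ M.U j)) :=
  gv_pull F f h (show f ⁻¹ᵁ M.U i ⊓ f ⁻¹ᵁ M.U j ≤ f ⁻¹ᵁ (M.U i ⊓ M.U j) from le_rfl) _

omit [IsLocallyNoetherian C] in
lemma gv_tensor_g {Y : Scheme.{0}} (M N : LineBundle Y) (F : C ⟶ Y) (i j : M.ι × N.ι)
    (h : F (genericPoint C) ∈ (M.tensor N).U i ⊓ (M.tensor N).U j)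
    (h1 : F (genericPoint C) ∈ M.U i.1 ⊓ M.U j.1)
    (h2 : F (genericPoint C) ∈ N.U i.2 ⊓ N.U j.2) :
    gv F h ((M.tensor N).g i j : Γ(Y, (M.tensor N).U i ⊓ (M.tensor N).U j)) =
      gv F h1 (M.g i.1 j.1 : Γ(Y, M.U i.1 ⊓ M.U j.1)) *
        gv F h2 (N.g i.2 j.2 : Γ(Y, N.U i.2 ⊓ N.U j.2)) := by
  have e1 := gv_res F h (show M.U i.1 ⊓ N.U i.2 ⊓ (M.U j.1 ⊓ N.U j.2) ≤ M.U i.1 ⊓ M.U j.1 from
        inf_le_inf inf_le_left inf_le_left) (M.g i.1 j.1)
  have e2 := gv_res F h (show M.U i.1 ⊓ N.U i.2 ⊓ (M.U j.1 ⊓ N.U j.2) ≤ N.U i.2 ⊓ N.U j.2 from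
        inf_le_inf inf_le_right inf_le_right) (N.g i.2 j.2)
  rw [← e1, ← e2, ← map_mul]
  rfl

omit [IsLocallyNoetherian C] in
/-- A section which does not vanish at the image of the generic point has nonzero value. -/
lemma gv_section_ne_zero (m : L.PowSection 1) (q : C ⟶ X)
    (hm : q (genericPoint C) ∈ m.nonvanishing) (i : L.ι) (hi : q (genericPoint C) ∈ L.U i) :
    gv q hi (m.s i) ≠ 0 := by
  obtain ⟨j, hj⟩ := Opens.mem_iSup.mp hm
  have hj' : q (genericPoint C) ∈ L.U j := X.basicOpen_le _ hj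
  have h1 : gv q hj' (m.s j) ≠ 0 := by
    have h2 : IsUnit (res (X.basicOpen_le (m.s j)) (m.s j)) :=
      X.toRingedSpace.isUnit_res_basicOpen (m.s j)
    have h3 := gv_ne_zero_of_isUnit q hj _ h2
    rwa [gv_res] at h3
  have h2 := congrArg (gv q (W := L.U i ⊓ L.U j) ⟨hi, hj'⟩) (m.glue i j)
  rw [map_mul, pow_one, gv_res, gv_res] at h2
  rw [h2]
  exact mul_ne_zero (gv_ne_zero_of_isUnit _ _ _ (Units.isUnit _)) h1

/-- The rational section of `q^* L` given by a section `m` of `L`. -/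
noncomputable def ratOf (m : L.PowSection 1) (q : C ⟶ X)
    (hm : q (genericPoint C) ∈ m.nonvanishing) : LineBundle.RatSection C (L.pullback q) := by
  classical
  exact mkRat L q (fun i => if h : q (genericPoint C) ∈ L.U i then gv q h (m.s i) else 1)
    (fun i => by
      by_cases h : q (genericPoint C) ∈ L.U i
      · simpa [h] using gv_section_ne_zero m q hm i h
      · simp [h])
    (fun i j hij => by
      have hi : q (genericPoint C) ∈ L.U i := hij.1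
      have hj : q (genericPoint C) ∈ L.U j := hij.2
      rw [dif_pos hi, dif_pos hj]
      have h2 := congrArg (gv q hij) (m.glue i j)
      rw [map_mul, pow_one, gv_res, gv_res] at h2
      exact h2)

omit [IsLocallyNoetherian C] in
lemma ratOf_glue (m : L.PowSection 1) (q : C ⟶ X)
    (hm : q (genericPoint C) ∈ m.nonvanishing) (i j : L.ι)
    (hij : q (genericPoint C) ∈ L.U i ⊓ L.U j) :
    (ratOf m q hm).r i = gv q hij (L.g i j) * (ratOf m q hm).r j := by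
  exact (ratOf m q hm).glue i j ⟨⟨genericPoint C, hij⟩⟩

/-- The order of vanishing of `q^* m` at a point. -/
noncomputable def delta (m : L.PowSection 1) (q : C ⟶ X)
    (hm : q (genericPoint C) ∈ m.nonvanishing) (x : C) : ℤ :=
  (ratOf m q hm).ordAt x

lemma delta_eq (m : L.PowSection 1) (q : C ⟶ X)
    (hm : q (genericPoint C) ∈ m.nonvanishing) (x : C) (i : L.ι) (hx : q x ∈ L.U i) :
    delta m q hm x = Scheme.ord (gv q (map_genericPoint_mem q hx) (m.s i)) x := by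
  rw [delta, ← LineBundle.RatSection.ord_eq (ratOf m q hm) x i hx]
  congr 1
  exact dif_pos (map_genericPoint_mem q hx)

lemma isDegree_of_ord {M : LineBundle C} (σ : LineBundle.RatSection C M) (δ : C → ℤ)
    (h : ∀ x, ∃ i, x ∈ M.U i ∧ Scheme.ord (σ.r i) x = δ x) : M.IsDegree (∑ᶠ x, δ x) := by
  refine ⟨σ, ?_⟩
  apply finsum_congr
  intro x
  obtain ⟨i, hx, hi⟩ := h x
  rw [← hi, σ.ord_eq x i hx]

/-- The degree of `β^* M_p` on the test curve. -/
lemma degree_Mp (p : X' ⟶ X) (β : B ⟶ pullback (p ≫ s) (p ≫ s)) (F : C ⟶ B) (c : C ⟶ X')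
    (hF : F ≫ β = c ≫ pullback.diagonal (p ≫ s)) (m : L.PowSection 1)
    (hm : (c ≫ p) (genericPoint C) ∈ m.nonvanishing) :
    (((Mp s p L).pullback β).pullback F).IsDegree (∑ᶠ x, 2 * delta m (c ≫ p) hm x) := by
  classical
  set mp := pullback.map (p ≫ s) (p ≫ s) s s p p (𝟙 SC) (by simp) (by simp) with hmp
  have hfst : F ≫ β ≫ mp ≫ pullback.fst s s = c ≫ p := by
    rw [hmp, ← Category.assoc, hF, Category.assoc, pullback.lift_fst,
      ← Category.assoc (pullback.diagonal (p ≫ s)), pullback.diagonal_fst, Category.id_comp]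
  have hsnd : F ≫ β ≫ mp ≫ pullback.snd s s = c ≫ p := by
    rw [hmp, ← Category.assoc, hF, Category.assoc, pullback.lift_snd,
      ← Category.assoc (pullback.diagonal (p ≫ s)), pullback.diagonal_snd, Category.id_comp]
  let r0 : L.ι → C.functionField := (ratOf m (c ≫ p) hm).r
  have key : ∀ ij : ((Mp s p L).pullback β).ι, F (genericPoint C) ∈ ((Mp s p L).pullback β).U ij →
      (c ≫ p) (genericPoint C) ∈ L.U ij.1 ∧ (c ≫ p) (genericPoint C) ∈ L.U ij.2 := by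
    intro ij h
    have h1 : (F ≫ β ≫ mp ≫ pullback.fst s s) (genericPoint C) ∈ L.U ij.1 := h.1
    have h2 : (F ≫ β ≫ mp ≫ pullback.snd s s) (genericPoint C) ∈ L.U ij.2 := h.2
    rw [hfst] at h1
    rw [hsnd] at h2
    exact ⟨h1, h2⟩
  refine isDegree_of_ord (mkRat ((Mp s p L).pullback β) F (fun ij => r0 ij.1 * r0 ij.2)
    (fun ij => mul_ne_zero ((ratOf m (c ≫ p) hm).ne_zero _) ((ratOf m (c ≫ p) hm).ne_zero _))
    ?_) _ ?_
  · intro i j hij
    obtain ⟨hi1, hi2⟩ := key i hij.1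
    obtain ⟨hj1, hj2⟩ := key j hij.2
    have e1 := ratOf_glue m (c ≫ p) hm i.1 j.1 ⟨hi1, hj1⟩
    have e2 := ratOf_glue m (c ≫ p) hm i.2 j.2 ⟨hi2, hj2⟩
    have e3 : gv F hij (((Mp s p L).pullback β).g i j) =
        gv (c ≫ p) (W := L.U i.1 ⊓ L.U j.1) ⟨hi1, hj1⟩ (L.g i.1 j.1) *
        gv (c ≫ p) (W := L.U i.2 ⊓ L.U j.2) ⟨hi2, hj2⟩ (L.g i.2 j.2) := by
      refine (gv_pullback_g (Mp s p L) β F i j hij hij).trans ?_
      refine (gv_pullback_g _ mp (F ≫ β) i j hij hij).trans ?_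
      refine (gv_tensor_g _ _ ((F ≫ β) ≫ mp) i j hij ⟨hij.1.1, hij.2.1⟩
        ⟨hij.1.2, hij.2.2⟩).trans ?_
      congr 1
      · refine (gv_pullback_g L (pullback.fst s s) ((F ≫ β) ≫ mp) i.1 j.1 _
          ⟨hij.1.1, hij.2.1⟩).trans ?_
        exact gv_congr (by rw [← hfst]; simp only [Category.assoc]) _ _ _
      · refine (gv_pullback_g L (pullback.snd s s) ((F ≫ β) ≫ mp) i.2 j.2 _
          ⟨hij.1.2, hij.2.2⟩).trans ?_
        exact gv_congr (by rw [← hsnd]; simp only [Category.assoc]) _ _ _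
    rw [e3]
    change (ratOf m (c ≫ p) hm).r i.1 * (ratOf m (c ≫ p) hm).r i.2 = _ *
      ((ratOf m (c ≫ p) hm).r j.1 * (ratOf m (c ≫ p) hm).r j.2)
    rw [e1, e2]
    ring
  · intro x
    obtain ⟨i, hi⟩ := L.covers ((c ≫ p) x)
    refine ⟨(i, i), ?_, ?_⟩
    · have h1 : (F ≫ β ≫ mp ≫ pullback.fst s s) x ∈ L.U i := by rw [hfst]; exact hi
      have h2 : (F ≫ β ≫ mp ≫ pullback.snd s s) x ∈ L.U i := by rw [hsnd]; exact hi
      exact ⟨h1, h2⟩
    · change Scheme.ord ((ratOf m (c ≫ p) hm).r i * (ratOf m (c ≫ p) hm).r i) x = _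
      rw [Scheme.ord_mul ((ratOf m (c ≫ p) hm).ne_zero i) ((ratOf m (c ≫ p) hm).ne_zero i),
        LineBundle.RatSection.ord_eq (ratOf m (c ≫ p) hm) x i hi, delta]
      ring

/-- The degree of the exceptional divisor on the test curve. -/
lemma degree_E (D : FixData s L) (E : LineBundle B) (e : E.PowSection 1) (q : T ⟶ X) [Flat q]
    (H : T ⟶ B) (τ : C ⟶ T) (m : L.PowSection 1)
    (hm : (τ ≫ q) (genericPoint C) ∈ m.nonvanishing)
    (hgood : ∀ x : C, ∀ i, (τ ≫ H) x ∈ E.U i → ∀ k, (τ ≫ q) x ∈ L.U k →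
      ∃ W : T.affineOpens, τ x ∈ W.1 ∧ ∃ ε : Γ(T, W.1), Good D E e q H i k W.1 ε) :
    (E.pullback (τ ≫ H)).IsDegree (∑ᶠ x, delta m (τ ≫ q) hm x) := by
  classical
  obtain ⟨k₀, hk₀⟩ := L.covers ((τ ≫ q) (genericPoint C))
  have hg : ∀ i, (τ ≫ H) (genericPoint C) ∈ E.U i → ∃ W : T.affineOpens,
      τ (genericPoint C) ∈ W.1 ∧ ∃ ε : Γ(T, W.1), Good D E e q H i k₀ W.1 ε :=
    fun i hi => hgood (genericPoint C) i hi k₀ hk₀
  choose W hW ε hε using hg
  let r : E.ι → C.functionField := fun i =>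
    if h : (τ ≫ H) (genericPoint C) ∈ E.U i then Rval τ q m (hW i h) (hε i h).hq (ε i h) else 1
  have hr : ∀ i (h : (τ ≫ H) (genericPoint C) ∈ E.U i),
      r i = Rval τ q m (hW i h) (hε i h).hq (ε i h) := fun i h => dif_pos h
  have hne : ∀ i, r i ≠ 0 := by
    intro i
    by_cases h : (τ ≫ H) (genericPoint C) ∈ E.U i
    · rw [hr i h, Rval]
      exact mul_ne_zero (gv_ne_zero_of_isUnit _ _ _ (hε i h).unit)
        (gv_section_ne_zero m (τ ≫ q) hm k₀ _)
    · simp only [r, dif_neg h]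
      exact one_ne_zero
  refine isDegree_of_ord (mkRat E (τ ≫ H) r hne ?_) _ ?_
  · intro i j hij
    rw [hr i hij.1, hr j hij.2]
    exact Rval_uniq D E e q H τ m (hε i hij.1) (hε j hij.2) (hW i hij.1) (hW j hij.2)
  · intro x
    obtain ⟨i, hi⟩ := E.covers ((τ ≫ H) x)
    obtain ⟨k, hk⟩ := L.covers ((τ ≫ q) x)
    refine ⟨i, hi, ?_⟩
    obtain ⟨W', hxW', ε', hε'⟩ := hgood x i hi k hk
    have hη : (τ ≫ H) (genericPoint C) ∈ E.U i := map_genericPoint_mem (τ ≫ H) hi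
    have hηW' : τ (genericPoint C) ∈ W'.1 := map_genericPoint_mem τ hxW'
    change Scheme.ord (r i) x = _
    have h1 := Rval_uniq D E e q H τ m (hε i hη) hε' (hW i hη) hηW'
    have h2 : gv (τ ≫ H) (W := E.U i ⊓ E.U i) ⟨hη, hη⟩ (E.g i i : Γ(B, E.U i ⊓ E.U i)) = 1 := by
      rw [LineBundle.g_self E i, map_one]
    rw [h2, one_mul] at h1
    rw [hr i hη, h1, Rval, Scheme.ord_mul, delta_eq m (τ ≫ q) hm x k hk]
    · rw [ord_gv_of_isUnit τ hxW' ε' hε'.unit, zero_add]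
    · exact gv_ne_zero_of_isUnit _ _ _ hε'.unit
    · exact gv_section_ne_zero m (τ ≫ q) hm k _

end

end Pool.Agent.MP77a250
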