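import Pool.Agent.MP77a250.Stmt
import Pool.Agent.MP77a250.Large2

/-!
# Comparison of the definitions of the statement with the working definitions
-/

set_option autoImplicit false

open CategoryTheory Limits AlgebraicGeometry TopologicalSpace

namespace Pool.Agent.MP77a250.Tr

noncomputable section

variable {X Y : Scheme.{0}}

def old (L : St.LineBundle X) : LineBundle X where
  ι := L.ι
  U := L.U
  covers := L.covers
  g := L.g
  cocycle i j k := congrArg Units.val (L.cocycle i j k (L.U i ⊓ L.U j ⊓ L.U k) inf_le_left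
    (inf_le_inf_right _ inf_le_right) (inf_le_inf_right _ inf_le_left))

def new (L : LineBundle X) : St.LineBundle X where
  ι := L.ι
  U := L.U
  covers := L.covers
  g := L.g
  cocycle := by
    intro i j k V hij hjk hik
    have hV : V ≤ L.U i ⊓ L.U j ⊓ L.U k := le_inf hij (hjk.trans inf_le_right)
    have h := congrArg (res hV) (L.cocycle i j k)
    rw [map_mul, res_res, res_res, res_res] at h
    exact Units.ext h

lemma old_new (L : LineBundle X) : old (new L) = L := rfl

lemma old_pullback (f : X ⟶ Y) (L : St.LineBundle Y) : old (L.pullback f) = (old L).pullback f :=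
  rfl

lemma old_tensor (L M : St.LineBundle X) : old (L.tensor M) = (old L).tensor (old M) := rfl

lemma old_Mp {X' : Scheme.{0}} (s : X ⟶ SC) (p : X' ⟶ X) (L : St.LineBundle X) :
    old (St.Mp s p L) = Mp s p (old L) := rfl

def oldSec {L : St.LineBundle X} {n : ℕ} (σ : L.PowSection n) : (old L).PowSection n where
  s := σ.s
  glue i j := by
    have h := σ.glue i j (L.U i ⊓ L.U j) inf_le_left inf_le_right
    refine h.trans ?_
    rw [Units.val_pow_eq_pow_val]
    have h2 : ((St.resU (le_inf inf_le_left inf_le_right) (L.g i j) :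
        (St.Fn X (L.U i ⊓ L.U j))ˣ) : St.Fn X (L.U i ⊓ L.U j)) = (L.g i j : St.Fn X _) :=
      res_self (le_refl (L.U i ⊓ L.U j)) _
    rw [h2]
    rfl

lemma glue_res {L : LineBundle X} {n : ℕ} (σ : L.PowSection n) (i j : L.ι) (V : X.Opens)
    (hi : V ≤ L.U i) (hj : V ≤ L.U j) : res hi (σ.s i) =
      res (le_inf hi hj) (L.g i j : Γ(X, L.U i ⊓ L.U j)) ^ n * res hj (σ.s j) := by
  have h := congrArg (res (le_inf hi hj)) (σ.glue i j)
  rw [map_mul, map_pow, res_res, res_res] at h
  exact h

def newSec {L : LineBundle X} {n : ℕ} (σ : L.PowSection n) : (new L).PowSection n where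
  s := σ.s
  glue i j V hi hj := by
    rw [Units.val_pow_eq_pow_val]
    exact glue_res σ i j V hi hj

lemma isAmple_new {L : LineBundle X} (h : L.IsAmple) : (new L).IsAmple := by
  refine ⟨h.1, fun x => ?_⟩
  obtain ⟨n, hn, σ, hx, hσ⟩ := h.2 x
  exact ⟨n, hn, newSec σ, hx, hσ⟩

lemma isProjectiveManifold_new {s : X ⟶ SC} (h : IsProjectiveManifold s) :
    St.IsProjectiveManifold s where
  integral := h.integral
  smooth := h.smooth
  proper := h.proper
  projective := by
    obtain ⟨L, hL⟩ := h.projective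
    exact ⟨new L, isAmple_new hL⟩

def newRat {C : Scheme.{0}} [IsIntegral C] {L : St.LineBundle C}
    (σ : LineBundle.RatSection C (old L)) : St.LineBundle.RatSection C L where
  r := σ.r
  ne_zero := σ.ne_zero
  glue := σ.glue

lemma isDegree_new {C : Scheme.{0}} [IsIntegral C] [IsLocallyNoetherian C] {L : St.LineBundle C}
    {d : ℤ} (h : (old L).IsDegree d) : L.IsDegree d := by
  obtain ⟨σ, hσ⟩ := h
  exact ⟨newRat σ, hσ⟩

lemma nefSub_old {sY : Y ⟶ SC} {A B : St.LineBundle Y} {t : ℝ} (h : St.NefSub sY A B t) :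
    NefSub sY (old A) (old B) t := by
  intro C _ _ f hf hdim a b ha hb
  exact h C f hf hdim a b (isDegree_new ha) (isDegree_new hb)

lemma isInvertibleIdeal_iff (I : Y.IdealSheafData) :
    St.IsInvertibleIdeal I ↔ IsInvertibleIdeal I := Iff.rfl

lemma isBlowUp_old {B : Scheme.{0}} {β : B ⟶ Y} {I : Y.IdealSheafData} (h : St.IsBlowUp β I) :
    IsBlowUp β I where
  invertible := h.invertible
  universal := h.universal

lemma isDivisorBundle_old {B : Scheme.{0}} {E : St.LineBundle B} {J : B.IdealSheafData}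
    (h : St.IsDivisorBundle E J) : IsDivisorBundle (old E) J := by
  obtain ⟨e, he⟩ := h
  exact ⟨oldSec e, he⟩

lemma isSeshadriBound_old {sY : Y ⟶ SC} {M : St.LineBundle Y} {I : Y.IdealSheafData} {t : ℝ}
    (h : St.IsSeshadriBound sY M I t) : IsSeshadriBound sY (old M) I t := by
  obtain ⟨h0, B, β, E, h1, h2, h3⟩ := h
  exact ⟨h0, B, β, old E, isBlowUp_old h1, isDivisorBundle_old h2, nefSub_old h3⟩

lemma seshadri_le {sY : Y ⟶ SC} {M : St.LineBundle Y} {I : Y.IdealSheafData} :
    St.seshadri sY M I ≤ seshadri sY (old M) I := by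
  apply sSup_le_sSup
  rintro ε ⟨t, rfl, ht⟩
  exact ⟨t, rfl, isSeshadriBound_old ht⟩

lemma seshadriDiag_le {X' : Scheme.{0}} (s : X ⟶ SC) (p : X' ⟶ X) (L : LineBundle X) :
    St.seshadriDiag s p (new L) ≤ seshadriDiag s p L :=
  seshadri_le (sY := pullback.fst (p ≫ s) (p ≫ s) ≫ p ≫ s) (M := St.Mp s p (new L))
    (I := (pullback.diagonal (p ≫ s)).ker)

lemma isFiniteEtale_iff (f : X ⟶ Y) : St.IsFiniteEtale f ↔ IsFiniteEtale f :=
  ⟨fun h => ⟨h.1, h.2⟩, fun h => ⟨h.1, h.2⟩⟩

lemma isNormalisation_old {f : X ⟶ Y} (h : St.IsNormalisation f) : IsNormalisation f where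
  integral := h.integral
  normal := h.normal
  finite := h.finite
  birational := h.birational

lemma hasLarge_new (h : HasLargeAlgFundGroup X) : St.HasLargeAlgFundGroup X := by
  intro Z i hi hZ hdim Z' ν hν W q hq hW
  obtain ⟨X', p, hp, hsp⟩ := h Z i hi hZ hdim Z' ν (isNormalisation_old hν) W q
    ((isFiniteEtale_iff q).mp hq) hW
  exact ⟨X', p, (isFiniteEtale_iff p).mpr hp, hsp⟩

theorem main : ∃ (X : Scheme.{0}) (s : X ⟶ St.SC) (L : St.LineBundle X) (N : ℝ),
    St.IsProjectiveManifold s ∧ St.HasLargeAlgFundGroup X ∧ L.IsAmple ∧ 0 < N ∧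
      ∀ (X' : Scheme.{0}) (p : X' ⟶ X), St.IsFiniteEtale p → ConnectedSpace X' →
        St.seshadriDiag s p L ≤ (N : EReal) := by
  refine ⟨MX.X, MX.s, new MX.L, 2, isProjectiveManifold_new manifold_X,
    hasLarge_new large_X, isAmple_new MX.isAmple, two_pos, ?_⟩
  intro X' p hp hX'
  have h := bounded_X X' p ((isFiniteEtale_iff p).mp hp) hX'
  have h2 : ((2 : ℝ) : EReal) = 2 := rfl
  rw [h2]
  exact (seshadriDiag_le MX.s p MX.L).trans h

end

end Pool.Agent.MP77a250.Tr
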