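import Pool.Agent.MP77a250.Diag
import Pool.Agent.MP77a250.RingTwist

set_option autoImplicit false

open CategoryTheory Limits AlgebraicGeometry TopologicalSpace

namespace Pool.Agent.MP77a250

open Scheme.IdealSheafData

/-- An endomorphism `σ` of `X` over `ℂ` such that the locus where it is the identity is, scheme
theoretically, the effective Cartier divisor of a section `w` of the line bundle `L`. -/
structure FixData {X : Scheme.{0}} (s : X ⟶ SC) (L : LineBundle X) where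
  σ : X ⟶ X
  hσ : σ ≫ s = s
  affine : ∀ k, IsAffineOpen (L.U k)
  stable : ∀ k, L.U k ≤ σ ⁻¹ᵁ L.U k
  w : L.PowSection 1
  nzd : ∀ k, w.s k ∈ nonZeroDivisors Γ(X, L.U k)
  eqn : ∀ k, Ideal.span (Set.range fun a : Γ(X, L.U k) => a - pull σ (stable k) a) =
    Ideal.span {w.s k}

lemma exists_affine_nhd {X : Scheme.{0}} {x : X} {U : X.Opens} (hx : x ∈ U) :
    ∃ V : X.affineOpens, x ∈ V.1 ∧ V.1 ≤ U := by
  obtain ⟨_, ⟨V, hV, rfl⟩, hxV, hVU⟩ :=
    X.isBasis_affineOpens.exists_subset_of_mem_open (show x ∈ (U : Set X) from hx) U.isOpen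
  exact ⟨⟨V, hV⟩, hxV, hVU⟩

lemma mem_basicOpen_of_sub_one {T : Scheme.{0}} {U : T.Opens} {x : T} (hx : x ∈ U) (r : Γ(T, U))
    (h : x ∉ T.basicOpen (r - 1)) : x ∈ T.basicOpen r := by
  rw [Scheme.mem_basicOpen T r x hx]
  rw [Scheme.mem_basicOpen T (r - 1) x hx] at h
  have h1 : T.presheaf.germ U x hx r + (-(T.presheaf.germ U x hx (r - 1))) = 1 := by
    rw [map_sub, map_one]; ring
  rcases IsLocalRing.isUnit_or_isUnit_of_add_one h1 with h2 | h2
  · exact h2
  · exact absurd (by simpa using h2.neg) h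

/-- Pull-back of a nonzerodivisor along a flat morphism, over affine opens. -/
lemma pull_mem_nonZeroDivisors {T X : Scheme.{0}} (f : T ⟶ X) [Flat f] {U : X.Opens}
    (hU : IsAffineOpen U) {W : T.Opens} (hW : IsAffineOpen W) (h : W ≤ f ⁻¹ᵁ U) (a : Γ(X, U))
    (ha : a ∈ nonZeroDivisors Γ(X, U)) : pull f h a ∈ nonZeroDivisors Γ(T, W) := by
  have hflat := Flat.flat_appLE f hU hW h
  let : Algebra Γ(X, U) Γ(T, W) := (f.appLE U W h).hom.toAlgebra
  have : Module.Flat Γ(X, U) Γ(T, W) := hflat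
  have hreg := Module.Flat.isSMulRegular_of_nonZeroDivisors (M := Γ(T, W)) ha
  rw [mem_nonZeroDivisors_iff_right]
  intro z hz
  apply hreg
  change a • z = a • 0
  rw [smul_zero, Algebra.smul_def, mul_comm]
  exact hz

section

variable {X X' T : Scheme.{0}} {s : X ⟶ SC} {L : LineBundle X}

lemma diag_support_eq (s' : X' ⟶ SC) [IsSeparated s'] (f g : T ⟶ X') (hfg : f ≫ s' = g ≫ s')
    {x : T} (hx : x ∈ ((pullback.diagonal s').ker.comap (pullback.lift f g hfg)).support) :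
    f x = g x := by
  rw [support_comap] at hx
  have h2 : (pullback.lift f g hfg) x ∈ closure (Set.range (pullback.diagonal s')) := by
    rw [← Scheme.Hom.support_ker]
    exact hx
  rw [(pullback.diagonal s').isClosedEmbedding.isClosed_range.closure_eq] at h2
  obtain ⟨y, hy⟩ := h2
  have h3 : pullback.fst s' s' (pullback.diagonal s' y) = y := by
    rw [← Scheme.Hom.comp_apply, pullback.diagonal_fst]
    rfl
  have h4 : pullback.snd s' s' (pullback.diagonal s' y) = y := by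
    rw [← Scheme.Hom.comp_apply, pullback.diagonal_snd]
    rfl
  rw [hy, ← Scheme.Hom.comp_apply, pullback.lift_fst] at h3
  rw [hy, ← Scheme.Hom.comp_apply, pullback.lift_snd] at h4
  rw [h3, h4]

lemma twist_local (D : FixData s L) (p : X' ⟶ X) [Etale p] [IsSeparated (p ≫ s)]
    [IsLocallyNoetherian T] (f g : T ⟶ X') [Flat (f ≫ p)]
    (hcond : f ≫ p ≫ D.σ = g ≫ p) (hfg : f ≫ p ≫ s = g ≫ p ≫ s)
    {x : T} (hx : x ∈ ((pullback.diagonal (p ≫ s)).ker.comap (pullback.lift f g hfg)).support)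
    (k : L.ι) (hk : (f ≫ p) x ∈ L.U k) :
    ∃ W : T.affineOpens, x ∈ W.1 ∧ ∃ hW : W.1 ≤ (f ≫ p) ⁻¹ᵁ L.U k,
        ((pullback.diagonal (p ≫ s)).ker.comap (pullback.lift f g hfg)).ideal W =
          Ideal.span {pull (f ≫ p) hW (D.w.s k)} ∧
        pull (f ≫ p) hW (D.w.s k) ∈ nonZeroDivisors Γ(T, W.1) := by
  have hxfg : f x = g x := diag_support_eq (p ≫ s) f g hfg hx
  -- the affine open `U'` of `X'`
  obtain ⟨U', hxU', hU'le⟩ := exists_affine_nhd (show f x ∈ p ⁻¹ᵁ L.U k from hk)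
  -- the affine open `W₀` of `T`
  obtain ⟨W₀, hxW₀, hW₀le⟩ := exists_affine_nhd
      (show x ∈ f ⁻¹ᵁ U'.1 ⊓ g ⁻¹ᵁ U'.1 from ⟨hxU', show g x ∈ U'.1 from hxfg ▸ hxU'⟩)
  have hWf : W₀.1 ≤ f ⁻¹ᵁ U'.1 := hW₀le.trans inf_le_left
  have hWg : W₀.1 ≤ g ⁻¹ᵁ U'.1 := hW₀le.trans inf_le_right
  have hWX : W₀.1 ≤ (f ≫ p) ⁻¹ᵁ L.U k := fun y hy => hU'le (hWf hy)
  have hWσ : W₀.1 ≤ (f ≫ p ≫ D.σ) ⁻¹ᵁ L.U k := fun y hy => D.stable k (hWX hy)
  have hWgX : W₀.1 ≤ (g ≫ p) ⁻¹ᵁ L.U k := fun y hy => hU'le (hWg hy)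
  set I := (pullback.diagonal (p ≫ s)).ker.comap (pullback.lift f g hfg) with hI
  have hideal : I.ideal W₀ =
      Ideal.span (Set.range fun a : Γ(X', U'.1) => pull f hWf a - pull g hWg a) :=
    diag_comap_ideal (p ≫ s) f g hfg U' W₀ hWf hWg
  -- the ring-theoretic input
  have hdiff : ∀ a : Γ(X, L.U k), pull (f ≫ p) hWX (a - pull D.σ (D.stable k) a) =
      pull f hWf (pull p hU'le a) - pull g hWg (pull p hU'le a) := by
    intro a
    rw [map_sub, pull_pull, pull_pull, pull_pull]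
    congr 1
    refine pull_congr ?_ _ _ _
    rw [Category.assoc, hcond]
  have hwmem : ∀ a ∈ Ideal.span {D.w.s k}, pull (f ≫ p) hWX a ∈ I.ideal W₀ := by
    intro a ha
    rw [← D.eqn k] at ha
    have h1 : Ideal.span (Set.range fun a : Γ(X, L.U k) => a - pull D.σ (D.stable k) a) ≤
        (I.ideal W₀).comap (pull (f ≫ p) hWX) := by
      rw [Ideal.span_le]
      rintro _ ⟨b, rfl⟩
      rw [SetLike.mem_coe, Ideal.mem_comap, hdiff, hideal]
      exact Ideal.subset_span ⟨_, rfl⟩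
    exact h1 ha
  have hring := @ring_twist Γ(X, L.U k) Γ(X', U'.1) Γ(T, W₀.1) _ _ _
    ((pull p hU'le).toAlgebra) (by
      have h1 := Etale.etale_appLE p (D.affine k) U'.2 hU'le
      exact RingHom.Etale.formallyUnramified (hf := h1)) (pull f hWf) (pull g hWg)
      (pull (f ≫ p) hWX (D.w.s k)) (by
      intro a
      rw [RingHom.algebraMap_toAlgebra, ← hdiff]
      have h2 : a - pull D.σ (D.stable k) a ∈ Ideal.span {D.w.s k} := by
        rw [← D.eqn k]
        exact Ideal.subset_span ⟨a, rfl⟩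
      obtain ⟨c, hc⟩ := Ideal.mem_span_singleton'.mp h2
      rw [← hc, map_mul]
      exact Ideal.mul_mem_left _ _ (Ideal.mem_span_singleton_self _)) (by
      have : IsNoetherianRing Γ(T, W₀.1) := IsLocallyNoetherian.component_noetherian W₀
      exact (isNoetherianRing_iff_ideal_fg _).mp this _)
  rw [← hideal] at hring
  obtain ⟨r, hr1, hr2⟩ := hring
  have hxr : x ∈ T.basicOpen r := by
    refine mem_basicOpen_of_sub_one hxW₀ r ?_
    have h1 := (mem_support_iff_of_mem (I := I) hxW₀).mp hx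
    exact (Scheme.mem_zeroLocus_iff _ _ _).mp h1 (r - 1) hr1
  have hle : (T.affineBasicOpen r).1 ≤ W₀.1 := T.basicOpen_le r
  have hru : IsUnit (res hle r) := T.toRingedSpace.isUnit_res_basicOpen r
  refine ⟨T.affineBasicOpen r, hxr, hle.trans hWX, ?_, ?_⟩
  · have h1 : (I.ideal W₀).map (res hle) = I.ideal (T.affineBasicOpen r) :=
      I.map_ideal_basicOpen W₀ r
    rw [← h1]
    apply le_antisymm
    · rw [Ideal.map_le_iff_le_comap]
      intro z hz
      rw [Ideal.mem_comap]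
      obtain ⟨c, hc⟩ := Ideal.mem_span_singleton'.mp (hr2 z hz)
      have h2 := congrArg (res hle) hc
      rw [map_mul, map_mul, res_pull] at h2
      have h3 : res hle r * res hle z ∈ Ideal.span {pull (f ≫ p) (hle.trans hWX) (D.w.s k)} := by
        rw [← h2]
        exact Ideal.mul_mem_left _ _ (Ideal.mem_span_singleton_self _)
      exact (Ideal.unit_mul_mem_iff_mem _ hru).mp h3
    · rw [Ideal.span_singleton_le_iff_mem]
      have h2 := hwmem (D.w.s k) (Ideal.mem_span_singleton_self _)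
      have h3 := Ideal.mem_map_of_mem (res hle) h2
      rwa [res_pull] at h3
  · exact pull_mem_nonZeroDivisors (f ≫ p) (D.affine k) (T.affineBasicOpen r).2 _ _ (D.nzd k)

lemma exists_ideal_eq_top_of_not_mem_support {I : T.IdealSheafData} {x : T}
    (hx : x ∉ I.support) {U : T.Opens} (hxU : x ∈ U) :
    ∃ W : T.affineOpens, x ∈ W.1 ∧ W.1 ≤ U ∧ I.ideal W = ⊤ := by
  obtain ⟨V, hxV, hVU⟩ := exists_affine_nhd hxU
  rw [mem_support_iff_of_mem (I := I) hxV, Scheme.mem_zeroLocus_iff] at hx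
  push Not at hx
  obtain ⟨r, hr, hxr⟩ := hx
  have hle : (T.affineBasicOpen r).1 ≤ V.1 := T.basicOpen_le r
  have hru : IsUnit (res hle r) := T.toRingedSpace.isUnit_res_basicOpen r
  refine ⟨T.affineBasicOpen r, hxr, hle.trans hVU, ?_⟩
  have h1 : (I.ideal V).map (res hle) = I.ideal (T.affineBasicOpen r) :=
    I.map_ideal_basicOpen V r
  rw [← h1]
  exact Ideal.eq_top_of_isUnit_mem _ (Ideal.mem_map_of_mem _ hr) hru

/-- The inverse image of the diagonal ideal on `T` is invertible. -/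
lemma twist_invertible (D : FixData s L) (p : X' ⟶ X) [Etale p] [IsSeparated (p ≫ s)]
    [IsLocallyNoetherian T] (f g : T ⟶ X') [Flat (f ≫ p)]
    (hcond : f ≫ p ≫ D.σ = g ≫ p) (hfg : f ≫ p ≫ s = g ≫ p ≫ s) :
    IsInvertibleIdeal ((pullback.diagonal (p ≫ s)).ker.comap (pullback.lift f g hfg)) := by
  intro x
  by_cases hx : x ∈ ((pullback.diagonal (p ≫ s)).ker.comap (pullback.lift f g hfg)).support
  · obtain ⟨k, hk⟩ := L.covers ((f ≫ p) x)
    obtain ⟨W, hxW, hW, h1, h2⟩ := twist_local D p f g hcond hfg hx k hk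
    exact ⟨W, hxW, _, h2, h1⟩
  · obtain ⟨W, hxW, -, hW⟩ := exists_ideal_eq_top_of_not_mem_support hx
      (U := ⊤) (show x ∈ (⊤ : T.Opens) from trivial)
    refine ⟨W, hxW, 1, one_mem _, ?_⟩
    rw [hW, Ideal.span_singleton_one]

end

end Pool.Agent.MP77a250
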