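import Pool.Agent.MP77a250.Twist

set_option autoImplicit false

open CategoryTheory Limits AlgebraicGeometry TopologicalSpace

namespace Pool.Agent.MP77a250

section

variable {C X Y : Scheme.{0}} [IsIntegral C]

/-- The value at the generic point of `C` of (the pull-back along `τ : C ⟶ X` of) a function on an
open set `W` of `X` containing the image of the generic point. -/
noncomputable def gv (τ : C ⟶ X) {W : X.Opens} (hW : τ (genericPoint C) ∈ W) :
    Γ(X, W) →+* C.functionField :=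
  (C.presheaf.germ (τ ⁻¹ᵁ W) (genericPoint C) hW).hom.comp
    (pull τ (show τ ⁻¹ᵁ W ≤ τ ⁻¹ᵁ W from le_rfl))

lemma germ_res {X : Scheme.{0}} {U V : X.Opens} (h : V ≤ U) (x : X) (hx : x ∈ V) (a : Γ(X, U)) :
    (X.presheaf.germ V x hx).hom (res h a) = (X.presheaf.germ U x (h hx)).hom a := by
  exact TopCat.Presheaf.germ_res_apply X.presheaf (homOfLE h) x hx a

lemma gv_res (τ : C ⟶ X) {W W' : X.Opens} (hW' : τ (genericPoint C) ∈ W') (h : W' ≤ W)
    (a : Γ(X, W)) : gv τ hW' (res h a) = gv τ (h hW') a := by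
  simp only [gv, RingHom.comp_apply, pull_res]
  rw [← germ_res (show τ ⁻¹ᵁ W' ≤ τ ⁻¹ᵁ W from τ.preimage_mono h), res_pull]

lemma gv_pull (τ : C ⟶ X) (f : X ⟶ Y) {V : Y.Opens} {W : X.Opens}
    (hW : τ (genericPoint C) ∈ W) (h : W ≤ f ⁻¹ᵁ V)
    (a : Γ(Y, V)) : gv τ hW (pull f h a) = gv (τ ≫ f) (h hW) a := by
  simp only [gv, RingHom.comp_apply, pull_pull]
  rw [← germ_res (show τ ⁻¹ᵁ W ≤ (τ ≫ f) ⁻¹ᵁ V from τ.preimage_mono h), res_pull]

lemma gv_congr {τ τ' : C ⟶ X} (e : τ = τ') {W : X.Opens} (hW : τ (genericPoint C) ∈ W)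
    (hW' : τ' (genericPoint C) ∈ W) (a : Γ(X, W)) : gv τ hW a = gv τ' hW' a := by
  subst e; rfl

/-- The generic point of an integral scheme lies in every nonempty open set. -/
lemma genericPoint_mem {U : C.Opens} {x : C} (hx : x ∈ U) : genericPoint C ∈ U :=
  ((genericPoint_spec C).mem_open_set_iff U.isOpen).mpr ⟨x, trivial, hx⟩

lemma map_genericPoint_mem (τ : C ⟶ X) {W : X.Opens} {x : C} (hx : τ x ∈ W) :
    τ (genericPoint C) ∈ W :=
  genericPoint_mem (U := τ ⁻¹ᵁ W) hx

lemma germToFunctionField_eq {U : C.Opens} (h : Nonempty U) (hη : genericPoint C ∈ U)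
    (a : Γ(C, U)) : C.germToFunctionField U a = (C.presheaf.germ U (genericPoint C) hη).hom a := rfl

/-- Construction of a rational section of a pulled back line bundle. -/
noncomputable def mkRat (L : LineBundle X) (F : C ⟶ X) (r : L.ι → C.functionField)
    (hne : ∀ i, r i ≠ 0)
    (hr : ∀ i j (hij : F (genericPoint C) ∈ L.U i ⊓ L.U j), r i = gv F hij (L.g i j) * r j) :
    LineBundle.RatSection C (L.pullback F) where
  r := r
  ne_zero := hne
  glue i j h := by
    obtain ⟨⟨x, hx⟩⟩ := h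
    exact hr i j (genericPoint_mem hx)

variable [IsLocallyNoetherian C]

lemma LineBundle.g_self (L : LineBundle X) (i : L.ι) : (L.g i i : Γ(X, L.U i ⊓ L.U i)) = 1 := by
  have h := L.cocycle i i i
  have h1 : L.U i ⊓ L.U i ≤ L.U i ⊓ L.U i ⊓ L.U i := le_inf le_rfl inf_le_left
  have h2 := congrArg (res h1) h
  simp only [map_mul, res_res, res_self] at h2
  exact (L.g i i).isUnit.mul_right_cancel (by rw [h2, one_mul])

/-- The order at `x` of the value of a unit defined near the image of `x`. -/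
lemma ord_gv_of_isUnit (τ : C ⟶ X) {W : X.Opens} {x : C} (hx : τ x ∈ W) (a : Γ(X, W))
    (ha : IsUnit a) : Scheme.ord (gv τ (map_genericPoint_mem τ hx) a) x = 0 := by
  have : Nonempty (τ ⁻¹ᵁ W : C.Opens) := ⟨⟨x, hx⟩⟩
  exact Scheme.ord_of_isUnit (ha.map (pull τ (show τ ⁻¹ᵁ W ≤ τ ⁻¹ᵁ W from le_rfl))) hx

omit [IsLocallyNoetherian C] in
lemma gv_ne_zero_of_isUnit (τ : C ⟶ X) {W : X.Opens} (hW : τ (genericPoint C) ∈ W) (a : Γ(X, W))
    (ha : IsUnit a) : gv τ hW a ≠ 0 :=
  (ha.map (gv τ hW)).ne_zero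

/-- The order of a rational section can be computed in any trivialisation. -/
lemma LineBundle.RatSection.ord_eq {L : LineBundle C} (σ : LineBundle.RatSection C L) (x : C)
    (i : L.ι) (hx : x ∈ L.U i) : Scheme.ord (σ.r i) x = σ.ordAt x := by
  have hx' : x ∈ L.U i ⊓ L.U (L.covers x).choose := ⟨hx, (L.covers x).choose_spec⟩
  have hne : Nonempty (L.U i ⊓ L.U (L.covers x).choose : C.Opens) := ⟨⟨x, hx'⟩⟩
  rw [σ.glue i (L.covers x).choose hne, Scheme.ord_mul, Scheme.ord_of_isUnit (Units.isUnit _) hx',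
    zero_add]
  · rfl
  · exact ((Units.isUnit (L.g i (L.covers x).choose)).map
      (C.germToFunctionField (L.U i ⊓ L.U (L.covers x).choose)).hom).ne_zero
  · exact σ.ne_zero _

end

end Pool.Agent.MP77a250
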