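import Pool.Agent.MP77a250.XData
import Pool.Agent.MP77a250.MGlue

set_option autoImplicit false

namespace Pool.Agent.MP77a250

section

variable {K : Type} [Field K] [Algebra ℂ K]

lemma lift5_mem (θ : Sol5 K) (A : Subalgebra ℂ K) (hs : θ.s ∈ A) (ht : θ.t ∈ A) (hu : θ.u ∈ A)
    (hv : θ.v ∈ A) (hw : θ.w ∈ A) (z : S5) : lift5 θ z ∈ A := by
  obtain ⟨p, rfl⟩ := Ideal.Quotient.mk_surjective z
  induction p using MvPolynomial.induction_on with
  | C a =>
    have : lift5 θ (Ideal.Quotient.mk _ (MvPolynomial.C a)) = algebraMap ℂ K a :=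
      (lift5 θ).commutes a
    rw [this]
    exact Subalgebra.algebraMap_mem _ _
  | add p q hp hq => rw [map_add, map_add]; exact add_mem hp hq
  | mul_X p i hp =>
    rw [map_mul, map_mul]
    refine mul_mem hp ?_
    change lift5 θ (x5 i) ∈ A
    rw [lift5_x]
    fin_cases i
    · exact hs
    · exact ht
    · exact hu
    · exact hv
    · exact hw

lemma s_mem (θ : Sol5 K) : θ.s ∈ (lift5 θ).range := ⟨x5 0, lift5_x θ 0⟩
lemma t_mem (θ : Sol5 K) : θ.t ∈ (lift5 θ).range := ⟨x5 1, lift5_x θ 1⟩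
lemma u_mem (θ : Sol5 K) : θ.u ∈ (lift5 θ).range := ⟨x5 2, lift5_x θ 2⟩
lemma v_mem (θ : Sol5 K) : θ.v ∈ (lift5 θ).range := ⟨x5 3, lift5_x θ 3⟩
lemma w_mem (θ : Sol5 K) : θ.w ∈ (lift5 θ).range := ⟨x5 4, lift5_x θ 4⟩

lemma gX_div_mem (k : Bool × Bool) (i : Fin 9) : gX i / fX k ^ dX i ∈ (lift5 (th k)).range := by
  have hs0 := th0_s
  have ht0 := th0_t
  have key : ∃ y ∈ (lift5 (th k)).range, gX i / fX k ^ dX i = y := by
    have hs := s_mem (th k)
    have ht := t_mem (th k)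
    have hu := u_mem (th k)
    have hv := v_mem (th k)
    have hw := w_mem (th k)
    rcases k with ⟨_ | _, _ | _⟩
    · fin_cases i
      · exact ⟨_, one_mem _, by simp [gX, fX, dX]⟩
      · exact ⟨_, hs, by simp [gX, fX, dX, th]⟩
      · exact ⟨_, ht, by simp [gX, fX, dX, th]⟩
      · exact ⟨_, mul_mem hs ht, by simp [gX, fX, dX, th]⟩
      · exact ⟨_, hw, by simp [gX, fX, dX, th]⟩
      · exact ⟨_, hu, by simp [gX, fX, dX, th]⟩
      · exact ⟨_, mul_mem hu (pow_mem ht 2), by simp [gX, fX, dX, th]⟩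
      · exact ⟨_, hv, by simp [gX, fX, dX, th]⟩
      · exact ⟨_, mul_mem hv (pow_mem hs 2), by simp [gX, fX, dX, th]⟩
    · fin_cases i
      · exact ⟨_, ht, by simp [gX, fX, dX, th, Sol5.invT]⟩
      · exact ⟨_, mul_mem hs ht, by simp [gX, fX, dX, th, Sol5.invT, div_eq_mul_inv]⟩
      · exact ⟨_, one_mem _, by simp [gX, fX, dX, th0_t]⟩
      · exact ⟨_, hs, by simp [gX, fX, dX, th, Sol5.invT, th0_t]⟩
      · exact ⟨_, hw, by simp [gX, fX, dX, th, Sol5.invT]⟩
      · exact ⟨_, mul_mem hu (pow_mem ht 2), by simp [gX, fX, dX, th, Sol5.invT, div_eq_mul_inv]⟩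
      · exact ⟨_, hu, by simp [gX, fX, dX, th, Sol5.invT, th0_t]⟩
      · exact ⟨_, hv, by simp [gX, fX, dX, th, Sol5.invT]⟩
      · exact ⟨_, mul_mem hv (pow_mem hs 2), by
          simp [gX, fX, dX, th, Sol5.invT]; field_simp⟩
    · fin_cases i
      · exact ⟨_, hs, by simp [gX, fX, dX, th, Sol5.invS]⟩
      · exact ⟨_, one_mem _, by simp [gX, fX, dX, th0_s]⟩
      · exact ⟨_, mul_mem hs ht, by simp [gX, fX, dX, th, Sol5.invS]; field_simp⟩
      · exact ⟨_, ht, by simp [gX, fX, dX, th, Sol5.invS]; field_simp⟩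
      · exact ⟨_, hw, by simp [gX, fX, dX, th, Sol5.invS]⟩
      · exact ⟨_, hu, by simp [gX, fX, dX, th, Sol5.invS]⟩
      · exact ⟨_, mul_mem hu (pow_mem ht 2), by simp [gX, fX, dX, th, Sol5.invS]; field_simp⟩
      · exact ⟨_, mul_mem hv (pow_mem hs 2), by simp [gX, fX, dX, th, Sol5.invS]; field_simp⟩
      · exact ⟨_, hv, by simp [gX, fX, dX, th, Sol5.invS, th0_s]⟩
    · fin_cases i
      · exact ⟨_, mul_mem hs ht, by simp [gX, fX, dX, th, Sol5.invS, Sol5.invT]; field_simp⟩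
      · exact ⟨_, ht, by simp [gX, fX, dX, th, Sol5.invS, Sol5.invT]; field_simp⟩
      · exact ⟨_, hs, by simp [gX, fX, dX, th, Sol5.invS, Sol5.invT]; field_simp⟩
      · exact ⟨_, one_mem _, by simp [gX, fX, dX, th0_s, th0_t]⟩
      · exact ⟨_, hw, by simp [gX, fX, dX, th, Sol5.invS, Sol5.invT]; field_simp⟩
      · exact ⟨_, mul_mem hu (pow_mem ht 2), by
          simp [gX, fX, dX, th, Sol5.invS, Sol5.invT]; field_simp⟩
      · exact ⟨_, hu, by simp [gX, fX, dX, th, Sol5.invS, Sol5.invT]; field_simp⟩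
      · exact ⟨_, mul_mem hv (pow_mem hs 2), by
          simp [gX, fX, dX, th, Sol5.invS, Sol5.invT]; field_simp⟩
      · exact ⟨_, hv, by simp [gX, fX, dX, th, Sol5.invS, Sol5.invT]; field_simp⟩
  obtain ⟨y, hy, h⟩ := key
  rw [h]
  exact hy

lemma mem_Chart (k : Bool × Bool) (i : Fin 9) {y : K5} (h : y = gX i / fX k ^ dX i) :
    y ∈ Chart gX dX (fX k) := by
  rw [h]
  exact Algebra.subset_adjoin ⟨i, rfl⟩

lemma Chart_eq (k : Bool × Bool) : Chart gX dX (fX k) = (lift5 (th k)).range := by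
  have hs0 := th0_s
  have ht0 := th0_t
  apply le_antisymm
  · apply Algebra.adjoin_le
    rintro _ ⟨i, rfl⟩
    exact gX_div_mem k i
  · rintro _ ⟨z, rfl⟩
    apply lift5_mem
    all_goals rcases k with ⟨_ | _, _ | _⟩
    · exact mem_Chart _ 1 (by simp [gX, fX, dX, th])
    · exact mem_Chart _ 3 (by simp [gX, fX, dX, th, Sol5.invT, ht0])
    · exact mem_Chart _ 0 (by simp [gX, fX, dX, th, Sol5.invS])
    · exact mem_Chart _ 2 (by simp [gX, fX, dX, th, Sol5.invS, Sol5.invT]; field_simp)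
    · exact mem_Chart _ 2 (by simp [gX, fX, dX, th])
    · exact mem_Chart _ 0 (by simp [gX, fX, dX, th, Sol5.invT])
    · exact mem_Chart _ 3 (by simp [gX, fX, dX, th, Sol5.invS]; field_simp)
    · exact mem_Chart _ 1 (by simp [gX, fX, dX, th, Sol5.invS, Sol5.invT]; field_simp)
    · exact mem_Chart _ 5 (by simp [gX, fX, dX, th])
    · exact mem_Chart _ 6 (by simp [gX, fX, dX, th, Sol5.invT, ht0])
    · exact mem_Chart _ 5 (by simp [gX, fX, dX, th, Sol5.invS])
    · exact mem_Chart _ 6 (by simp [gX, fX, dX, th, Sol5.invS, Sol5.invT]; field_simp)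
    · exact mem_Chart _ 7 (by simp [gX, fX, dX, th])
    · exact mem_Chart _ 7 (by simp [gX, fX, dX, th, Sol5.invT])
    · exact mem_Chart _ 8 (by simp [gX, fX, dX, th, Sol5.invS, hs0])
    · exact mem_Chart _ 8 (by simp [gX, fX, dX, th, Sol5.invS, Sol5.invT]; field_simp)
    · exact mem_Chart _ 4 (by simp [gX, fX, dX, th])
    · exact mem_Chart _ 4 (by simp [gX, fX, dX, th, Sol5.invT])
    · exact mem_Chart _ 4 (by simp [gX, fX, dX, th, Sol5.invS])
    · exact mem_Chart _ 4 (by simp [gX, fX, dX, th, Sol5.invS, Sol5.invT]; field_simp)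

end

end Pool.Agent.MP77a250
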