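import Pool.Agent.MP77a250.Field5
import Pool.Agent.MP77a250.RModel2

set_option autoImplicit false

open Polynomial

namespace Pool.Agent.MP77a250

noncomputable section

def gX : Fin 9 → K5 := ![1, th0.s, th0.t, th0.s * th0.t, th0.w, th0.u, th0.u * th0.t ^ 2, th0.v,
  th0.v * th0.s ^ 2]

def dX : Fin 9 → ℕ := ![1, 1, 1, 1, 1, 2, 2, 2, 2]

def fX : Bool × Bool → K5
  | (false, false) => 1
  | (true, false) => th0.s
  | (false, true) => th0.t
  | (true, true) => th0.s * th0.t

lemma fX_ne (k : Bool × Bool) : fX k ≠ 0 := by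
  rcases k with ⟨_ | _, _ | _⟩
  · exact one_ne_zero
  · exact th0_t
  · exact th0_s
  · exact mul_ne_zero th0_s th0_t

lemma fX_mem (k : Bool × Bool) : monomial 1 (fX k) ∈ RA gX dX := by
  rcases k with ⟨_ | _, _ | _⟩
  · exact gen_mem gX dX 0
  · exact gen_mem gX dX 2
  · exact gen_mem gX dX 1
  · exact gen_mem gX dX 3

/-- The generators of the ideal. -/
def FX (k : Bool × Bool) : RA gX dX := ⟨monomial 1 (fX k), fX_mem k⟩

lemma FX_mem (k : Bool × Bool) : FX k ∈ Ideal.span (Set.range fun k =>
    (⟨monomial 1 (fX k), fX_mem k⟩ : RA gX dX)) := Ideal.subset_span ⟨k, rfl⟩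


lemma cov1 (i : Fin 9) (k : Bool × Bool) (h : monomial (dX i) (gX i) = monomial 1 (fX k)) :
    ∃ n, 0 < n ∧ (⟨monomial (dX i) (gX i), gen_mem gX dX i⟩ : RA gX dX) ^ n ∈
    Ideal.span (Set.range fun k => (⟨monomial 1 (fX k), fX_mem k⟩ : RA gX dX)) := by
  refine ⟨1, one_pos, ?_⟩
  rw [pow_one]
  refine Ideal.subset_span ⟨k, ?_⟩
  exact Subtype.ext h.symm

lemma cov2 (i : Fin 9) (r : Bool × Bool → RA gX dX)
    (h : (monomial (dX i) (gX i) : K5[X]) ^ 2 = (r (false, false) : K5[X]) * monomial 1 (fX (false, false)) +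
      (r (true, false) : K5[X]) * monomial 1 (fX (true, false)) +
      (r (false, true) : K5[X]) * monomial 1 (fX (false, true)) +
      (r (true, true) : K5[X]) * monomial 1 (fX (true, true))) :
    ∃ n, 0 < n ∧ (⟨monomial (dX i) (gX i), gen_mem gX dX i⟩ : RA gX dX) ^ n ∈
    Ideal.span (Set.range fun k => (⟨monomial 1 (fX k), fX_mem k⟩ : RA gX dX)) := by
  refine ⟨2, two_pos, ?_⟩
  have h1 : (⟨monomial (dX i) (gX i), gen_mem gX dX i⟩ : RA gX dX) ^ 2 =
      r (false, false) * FX (false, false) + r (true, false) * FX (true, false) +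
      r (false, true) * FX (false, true) + r (true, true) * FX (true, true) :=
    Subtype.ext h
  rw [h1]
  exact add_mem (add_mem (add_mem (Ideal.mul_mem_left _ _ (FX_mem _))
    (Ideal.mul_mem_left _ _ (FX_mem _))) (Ideal.mul_mem_left _ _ (FX_mem _)))
    (Ideal.mul_mem_left _ _ (FX_mem _))

lemma mon_pow (n k : ℕ) (x : K5) : (monomial n x : K5[X]) ^ k = C (x ^ k) * X ^ (n * k) := by
  rw [monomial_pow, C_mul_X_pow_eq_monomial]

lemma mon_eq (n : ℕ) (x : K5) : (monomial n x : K5[X]) = C x * X ^ n := by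
  rw [C_mul_X_pow_eq_monomial]

lemma covX (i : Fin 9) : ∃ n, 0 < n ∧ (⟨monomial (dX i) (gX i), gen_mem gX dX i⟩ : RA gX dX) ^ n ∈
    Ideal.span (Set.range fun k => (⟨monomial 1 (fX k), fX_mem k⟩ : RA gX dX)) := by
  fin_cases i
  · exact cov1 0 (false, false) rfl
  · exact cov1 1 (true, false) rfl
  · exact cov1 2 (false, true) rfl
  · exact cov1 3 (true, true) rfl
  · refine cov2 4 (fun k => match k with
      | (false, false) => FX (false, false)
      | (true, false) => FX (true, false) + FX (false, true)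
      | (false, true) => FX (false, true)
      | (true, true) => FX (true, true)) ?_
    change (monomial 1 th0.w : K5[X]) ^ 2 = monomial 1 1 * monomial 1 1 +
      (monomial 1 th0.s + monomial 1 th0.t) * monomial 1 th0.s +
      monomial 1 th0.t * monomial 1 th0.t +
      monomial 1 (th0.s * th0.t) * monomial 1 (th0.s * th0.t)
    simp only [mon_eq]
    have h := congrArg (C : K5 → K5[X]) th0.hw
    simp only [Fst, C_pow, C_mul, C_add, C_1] at h ⊢
    linear_combination (X ^ 2 : K5[X]) * h
  · refine cov2 5 (fun k => match k with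
      | (false, false) => FX (false, false) ^ 3
      | (true, false) => FX (true, false) ^ 3
      | (false, true) => 0
      | (true, true) => 0) ?_
    change (monomial 2 th0.u : K5[X]) ^ 2 = (monomial 1 1) ^ 3 * monomial 1 1 +
      (monomial 1 th0.s) ^ 3 * monomial 1 th0.s + 0 * monomial 1 th0.t +
      0 * monomial 1 (th0.s * th0.t)
    simp only [mon_eq]
    have h := congrArg (C : K5 → K5[X]) th0.hu
    simp only [C_pow, C_mul, C_add, C_1] at h ⊢
    linear_combination (X ^ 4 : K5[X]) * h
  · refine cov2 6 (fun k => match k with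
      | (false, false) => 0
      | (true, false) => 0
      | (false, true) => FX (false, true) ^ 3
      | (true, true) => FX (true, true) ^ 3) ?_
    change (monomial 2 (th0.u * th0.t ^ 2) : K5[X]) ^ 2 = 0 * monomial 1 1 +
      0 * monomial 1 th0.s + (monomial 1 th0.t) ^ 3 * monomial 1 th0.t +
      (monomial 1 (th0.s * th0.t)) ^ 3 * monomial 1 (th0.s * th0.t)
    simp only [mon_eq]
    have h := congrArg (C : K5 → K5[X]) th0.hu
    simp only [C_pow, C_mul, C_add, C_1] at h ⊢
    linear_combination (X ^ 4 : K5[X]) * C th0.t ^ 4 * h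
  · refine cov2 7 (fun k => match k with
      | (false, false) => FX (false, false) ^ 3
      | (true, false) => 0
      | (false, true) => FX (false, true) ^ 3
      | (true, true) => 0) ?_
    change (monomial 2 th0.v : K5[X]) ^ 2 = (monomial 1 1) ^ 3 * monomial 1 1 +
      0 * monomial 1 th0.s + (monomial 1 th0.t) ^ 3 * monomial 1 th0.t +
      0 * monomial 1 (th0.s * th0.t)
    simp only [mon_eq]
    have h := congrArg (C : K5 → K5[X]) th0.hv
    simp only [C_pow, C_mul, C_add, C_1] at h ⊢
    linear_combination (X ^ 4 : K5[X]) * h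
  · refine cov2 8 (fun k => match k with
      | (false, false) => 0
      | (true, false) => FX (true, false) ^ 3
      | (false, true) => 0
      | (true, true) => FX (true, true) ^ 3) ?_
    change (monomial 2 (th0.v * th0.s ^ 2) : K5[X]) ^ 2 = 0 * monomial 1 1 +
      (monomial 1 th0.s) ^ 3 * monomial 1 th0.s + 0 * monomial 1 th0.t +
      (monomial 1 (th0.s * th0.t)) ^ 3 * monomial 1 (th0.s * th0.t)
    simp only [mon_eq]
    have h := congrArg (C : K5 → K5[X]) th0.hv
    simp only [C_pow, C_mul, C_add, C_1] at h ⊢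
    linear_combination (X ^ 4 : K5[X]) * C th0.s ^ 4 * h

/-- The data defining the surface. -/
def PX : ProjData K5 where
  ι := Fin 9
  fin := inferInstance
  g := gX
  d := dX
  dpos i := by fin_cases i <;> simp [dX]
  κ := Bool × Bool
  finκ := inferInstance
  k0 := (false, false)
  f := fX
  fne := fX_ne
  fmem := fX_mem
  cov := covX

end

end Pool.Agent.MP77a250
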