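import Pool.Agent.MP77a250.Phi3

set_option autoImplicit false

open CategoryTheory Limits AlgebraicGeometry TopologicalSpace

namespace Pool.Agent.MP77a250

noncomputable section

/-- The two projections to the elliptic curve on the charts. -/
def XE.k (b : Bool) (k : Bool × Bool) : Bool := match b with
  | false => k.1
  | true => k.2

/-- The coordinates of the two projections. -/
def XE.Θ {C : Type} [CommRing C] [Algebra ℂ C] (b : Bool) (θ : Sol5 C) : Sol2 C := match b with
  | false => ⟨θ.s, θ.u, θ.hu⟩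
  | true => ⟨θ.t, θ.v, θ.hv⟩

/-- The universal solution in a chart. -/
def XE.sol (k : Bool × Bool) : Sol5 (MX.A k) where
  s := eqX k (x5 0)
  t := eqX k (x5 1)
  u := eqX k (x5 2)
  v := eqX k (x5 3)
  w := eqX k (x5 4)
  hu := by rw [← map_pow, x5_hu, map_add, map_pow, map_one]
  hv := by rw [← map_pow, x5_hv, map_add, map_pow, map_one]
  hw := by rw [← map_pow, x5_hw]; simp only [Fst, map_mul, map_add, map_pow, map_one]

/-- The generic points. -/
def XE.y (b : Bool) : Spec (.of K5) ⟶ ME.X := match b with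
  | false => ptE false ps
  | true => ptE false pt'

lemma XE.hh (b : Bool) (k : Bool × Bool) :
    Spec.map (MX.inc k) ≫ ptE (XE.k b k) (XE.Θ b (XE.sol k)) = XE.y b := by
  have h1 : Spec.map (MX.inc k) ≫ ptE (XE.k b k) (XE.Θ b (XE.sol k)) =
      ptE (XE.k b k) (XE.Θ b (th k)) := by
    have h2 := map_ptE (XE.k b k) (MX.A k).val (XE.Θ b (XE.sol k))
    refine h2.trans ?_
    congr 1
    cases b
    · apply Sol2.ext'
      · exact (eqX_coe k _).trans (lift5_x _ _)
      · exact (eqX_coe k _).trans (lift5_x _ _)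
    · apply Sol2.ext'
      · exact (eqX_coe k _).trans (lift5_x _ _)
      · exact (eqX_coe k _).trans (lift5_x _ _)
  rw [h1]
  have hs := th0_s
  have ht := th0_t
  rcases b with _ | _
  · rcases k with ⟨_ | _, _ | _⟩
    · rfl
    · rfl
    · symm
      apply ptE_overlap
      · exact mul_inv_cancel₀ th0_s
      · change th0.u / th0.s ^ 2 = th0.u * th0.s⁻¹ ^ 2
        rw [inv_pow, div_eq_mul_inv]
    · symm
      apply ptE_overlap
      · exact mul_inv_cancel₀ th0_s
      · change th0.u / th0.s ^ 2 = th0.u * th0.s⁻¹ ^ 2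
        rw [inv_pow, div_eq_mul_inv]
  · rcases k with ⟨_ | _, _ | _⟩
    · rfl
    · symm
      apply ptE_overlap
      · exact mul_inv_cancel₀ th0_t
      · change th0.v / th0.t ^ 2 = th0.v * th0.t⁻¹ ^ 2
        rw [inv_pow, div_eq_mul_inv]
    · rfl
    · symm
      apply ptE_overlap
      · exact mul_inv_cancel₀ th0_t
      · change th0.v / th0.t ^ 2 = th0.v * th0.t⁻¹ ^ 2
        rw [inv_pow, div_eq_mul_inv]

lemma XE.exists (b : Bool) : ∃ f : MX.X ⟶ ME.X, ∀ k : Bool × Bool,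
    MX.j k ≫ f = ptE (XE.k b k) (XE.Θ b (XE.sol k)) := by
  have hsep := ME.isSeparated
  exact MX.exists_hom' (XE.y b) (fun k => ptE (XE.k b k) (XE.Θ b (XE.sol k))) (XE.hh b)

/-- The two projections of the surface to the elliptic curve. -/
def XE.f (b : Bool) : MX.X ⟶ ME.X := (XE.exists b).choose

lemma XE.j_f (b : Bool) (k : Bool × Bool) :
    MX.j k ≫ XE.f b = ptE (XE.k b k) (XE.Θ b (XE.sol k)) := (XE.exists b).choose_spec k

lemma XE.f_s (b : Bool) : XE.f b ≫ ME.s = MX.s := by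
  apply MX.hom_ext
  intro k
  have h := congrArg (fun g => g ≫ ME.s) (XE.j_f b k)
  rw [← Category.assoc]
  refine h.trans ?_
  rw [ptE_s]
  exact (MX.j_s k).symm

lemma sub_lift5_mem {C : Type} [CommRing C] [Algebra ℂ C] (I : Ideal C) (φ : S5 →ₐ[ℂ] C)
    (θ : Sol5 ℂ) (h : ∀ i, φ (x5 i) - algebraMap ℂ C (lift5 θ (x5 i)) ∈ I) (z : S5) :
    φ z - algebraMap ℂ C (lift5 θ z) ∈ I := by
  have h1 : (Ideal.Quotient.mkₐ ℂ I).comp φ = (Algebra.ofId ℂ (C ⧸ I)).comp (lift5 θ) := by
    apply S5_hom_ext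
    intro i
    exact (Ideal.Quotient.eq (I := I)).mpr (h i)
  have h2 := congrArg (fun g => g z) h1
  exact (Ideal.Quotient.eq (I := I)).mp h2

/-- A point of the surface whose images in the two factors are not generic is a closed point. -/
lemma XE.isClosed (z : MX.X) (hz : ∀ b, XE.f b z ≠ ηE) : IsClosed {z} := by
  obtain ⟨k, y, rfl⟩ := MX.covers z
  change Bool × Bool at k
  change PrimeSpectrum (MX.A k) at y
  have key : ∀ b : Bool, ∃ θ : Sol2 ℂ,
      (XE.Θ b (XE.sol k)).s - algebraMap ℂ _ θ.s ∈ y.asIdeal ∧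
      (XE.Θ b (XE.sol k)).u - algebraMap ℂ _ θ.u ∈ y.asIdeal := by
    intro b
    have h1 : XE.f b (MX.j k y) = je (XE.k b k)
        (PrimeSpectrum.comap (lift2 (XE.Θ b (XE.sol k)) : S2 →+* MX.A k) y) := by
      have h := congrArg (fun g => g y) (XE.j_f b k)
      exact h
    have h2 : PrimeSpectrum.comap (lift2 (XE.Θ b (XE.sol k)) : S2 →+* MX.A k) y ≠ ⊥ := by
      intro h3
      apply hz b
      rw [h1, h3, je_bot]
    obtain ⟨θ, h0, h1⟩ := exists_sol _ h2
    refine ⟨θ, ?_, ?_⟩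
    · have h4 : lift2 (XE.Θ b (XE.sol k)) (x2 0 - algebraMap ℂ S2 θ.s) ∈ y.asIdeal := h0
      rwa [map_sub, lift2_s, (lift2 _).commutes] at h4
    · have h4 : lift2 (XE.Θ b (XE.sol k)) (x2 1 - algebraMap ℂ S2 θ.u) ∈ y.asIdeal := h1
      rwa [map_sub, lift2_u, (lift2 _).commutes] at h4
  obtain ⟨θ1, hs, hu⟩ := key false
  obtain ⟨θ2, ht, hv⟩ := key true
  change (XE.sol k).s - algebraMap ℂ _ θ1.s ∈ y.asIdeal at hs
  change (XE.sol k).u - algebraMap ℂ _ θ1.u ∈ y.asIdeal at hu
  change (XE.sol k).t - algebraMap ℂ _ θ2.s ∈ y.asIdeal at ht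
  change (XE.sol k).v - algebraMap ℂ _ θ2.u ∈ y.asIdeal at hv
  obtain ⟨w0, hw0⟩ := exists_csq (Fst θ1.s θ2.s)
  have hw : ∃ w : ℂ, w ^ 2 = Fst θ1.s θ2.s ∧ (XE.sol k).w - algebraMap ℂ _ w ∈ y.asIdeal := by
    have h1 : ((XE.sol k).w - algebraMap ℂ _ w0) * ((XE.sol k).w - algebraMap ℂ _ (-w0)) ∈
        y.asIdeal := by
      have h2 := (XE.sol k).hw
      have h3 := congrArg (algebraMap ℂ (MX.A k)) hw0
      have h4 : ((XE.sol k).w - algebraMap ℂ _ w0) * ((XE.sol k).w - algebraMap ℂ _ (-w0)) =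
          Fst (XE.sol k).s (XE.sol k).t -
            Fst (algebraMap ℂ (MX.A k) θ1.s) (algebraMap ℂ (MX.A k) θ2.s) := by
        simp only [Fst, map_mul, map_add, map_pow, map_one, map_neg] at h2 h3 ⊢
        linear_combination h2 - h3
      rw [h4]
      generalize (XE.sol k).s = a at *
      generalize (XE.sol k).t = b at *
      generalize algebraMap ℂ (MX.A k) θ1.s = a' at *
      generalize algebraMap ℂ (MX.A k) θ2.s = b' at *
      have h5 : Fst a b - Fst a' b' =
          ((a + a') * (b ^ 2 + 1) + b) * (a - a') + ((a' ^ 2 + 1) * (b + b') + a') * (b - b') := by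
        rw [Fst, Fst]
        ring
      rw [h5]
      exact Ideal.add_mem _ (Ideal.mul_mem_left _ _ hs) (Ideal.mul_mem_left _ _ ht)
    rcases y.2.mem_or_mem h1 with h | h
    · exact ⟨w0, hw0, h⟩
    · exact ⟨-w0, by rw [neg_sq, hw0], h⟩
  obtain ⟨w, hw2, hw⟩ := hw
  let θ : Sol5 ℂ := ⟨θ1.s, θ2.s, θ1.u, θ2.u, w, θ1.hu, θ2.hu, hw2⟩
  let ev : MX.A k →ₐ[ℂ] ℂ := (lift5 θ).comp (eqX k).symm.toAlgHom
  have hev : ∀ i, eqX k (x5 i) - algebraMap ℂ _ (lift5 θ (x5 i)) ∈ y.asIdeal := by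
    intro i
    rw [lift5_x]
    fin_cases i
    · exact hs
    · exact ht
    · exact hu
    · exact hv
    · exact hw
  have hev2 : ∀ z : S5, eqX k z - algebraMap ℂ _ (lift5 θ z) ∈ y.asIdeal :=
    fun z => sub_lift5_mem y.asIdeal (eqX k).toAlgHom θ hev z
  have hker : y.asIdeal = RingHom.ker (ev : MX.A k →+* ℂ) := by
    ext a
    obtain ⟨z, rfl⟩ := (eqX k).surjective a
    have h1 : ev (eqX k z) = lift5 θ z := by
      change lift5 θ ((eqX k).symm (eqX k z)) = _
      rw [AlgEquiv.symm_apply_apply]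
    have h2 := hev2 z
    constructor
    · intro hz
      have h3 := Ideal.sub_mem _ hz h2
      rw [sub_sub_cancel] at h3
      rw [RingHom.mem_ker]
      change ev (eqX k z) = 0
      rw [h1]
      by_contra h4
      apply y.2.ne_top
      exact Ideal.eq_top_of_isUnit_mem _ h3 (((isUnit_iff_ne_zero).mpr h4).map (algebraMap ℂ _))
    · intro hz
      have hz' : ev (eqX k z) = 0 := hz
      rw [h1] at hz'
      rw [hz', map_zero, sub_zero] at h2
      exact h2
  let pz : Spec (.of ℂ) ⟶ MX.X := Spec.map (CommRingCat.ofHom (ev : MX.A k →+* ℂ)) ≫ MX.j k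
  have hpo : pz o = MX.j k y := by
    change MX.j k (Spec.map (CommRingCat.ofHom (ev : MX.A k →+* ℂ)) o) = _
    congr 1
    exact PrimeSpectrum.ext hker.symm
  have h1 : pz ≫ MX.s = 𝟙 _ := by
    have h2 : pz ≫ MX.s = Spec.map (CommRingCat.ofHom (ev : MX.A k →+* ℂ)) ≫
        Spec.map (CommRingCat.ofHom (algebraMap ℂ (MX.A k))) := by
      rw [← MX.j_s k]
      exact Category.assoc _ _ _
    rw [h2, ← Spec.map_comp, ← Spec.map_id]
    congr 1
    refine CommRingCat.hom_ext (RingHom.ext fun a => ?_)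
    exact ev.commutes a
  have h2 : IsClosedImmersion (pz ≫ MX.s) := by rw [h1]; infer_instance
  have h3 : IsClosedImmersion pz := IsClosedImmersion.of_comp pz MX.s
  have h4 := pz.isClosedEmbedding.isClosed_range
  have h5 : Set.range pz = {MX.j k y} := by
    ext x
    constructor
    · rintro ⟨x', rfl⟩
      have : x' = o := Subsingleton.elim (α := PrimeSpectrum ℂ) x' o
      rw [this]
      exact hpo
    · rintro rfl
      exact ⟨o, hpo⟩
  rwa [h5] at h4

end

end Pool.Agent.MP77a250
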