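import Pool.Agent.MP77a250.XSurf
import Pool.Agent.MP77a250.Abs

set_option autoImplicit false

open CategoryTheory Limits AlgebraicGeometry TopologicalSpace

namespace Pool.Agent.MP77a250

noncomputable section

/-- The involution on the charts, as a morphism of rings. -/
def sigC (k : Bool × Bool) : CommRingCat.of (MX.A k) ⟶ CommRingCat.of (MX.A k) :=
  CommRingCat.ofHom (sigA k : MX.A k →+* MX.A k)

def sigKC : CommRingCat.of K5 ⟶ CommRingCat.of K5 := CommRingCat.ofHom (sigK : K5 →+* K5)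

lemma sigC_inc (k : Bool × Bool) : sigC k ≫ MX.inc k = MX.inc k ≫ sigKC := by
  ext a
  exact sigA_coe k a

lemma exists_sigX : ∃ σ : MX.X ⟶ MX.X, ∀ k, MX.j k ≫ σ = Spec.map (sigC k) ≫ MX.j k := by
  have := MX.isSeparated
  refine MX.exists_hom' (Spec.map sigKC ≫ MX.pt) (fun k => Spec.map (sigC k) ≫ MX.j k) ?_
  intro k
  rw [← Category.assoc, ← Spec.map_comp, sigC_inc k, Spec.map_comp, Category.assoc, MX.inc_j' k]

/-- The involution of the surface. -/
def sigX : MX.X ⟶ MX.X := exists_sigX.choose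

lemma j_sigX (k : Bool × Bool) : MX.j k ≫ sigX = Spec.map (sigC k) ≫ MX.j k :=
  exists_sigX.choose_spec k

lemma sigX_s : sigX ≫ MX.s = MX.s := by
  apply MX.hom_ext
  intro k
  rw [← Category.assoc, j_sigX k, Category.assoc, MX.j_s k, ← Spec.map_comp]
  congr 1
  ext a
  exact congrArg Subtype.val ((sigA k).commutes a)

lemma U_stable (k : Bool × Bool) : MX.U k ≤ sigX ⁻¹ᵁ MX.U k := by
  intro x hx
  obtain ⟨y, rfl⟩ := (MX.mem_U k x).mp hx
  have h : sigX (MX.j k y) = MX.j k (Spec.map (sigC k) y) := by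
    have := congrArg (fun f => f y) (j_sigX k)
    exact this
  change sigX (MX.j k y) ∈ MX.U k
  rw [h]
  exact MX.j_mem_U k _

lemma pull_j_injective (k : Bool × Bool) : Function.Injective (pull (MX.j k) (MX.le_U k)) := by
  intro a b hab
  obtain ⟨a, rfl⟩ := MX.fn_surjective k a
  obtain ⟨b, rfl⟩ := MX.fn_surjective k b
  rw [MX.pull_fn, MX.pull_fn] at hab
  congr 1
  exact (Scheme.ΓSpecIso (.of (MX.A k))).symm.commRingCatIsoToRingEquiv.injective hab

lemma pull_sigX (k : Bool × Bool) (a : MX.A k) :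
    pull sigX (U_stable k) (MX.fn k a) = MX.fn k (sigA k a) := by
  apply pull_j_injective k
  rw [pull_pull, MX.pull_fn]
  have h1 : (⊤ : (Spec (.of (MX.A k))).Opens) ≤ Spec.map (sigC k) ⁻¹ᵁ ⊤ := fun _ _ => trivial
  have h2 : ⊤ ≤ (Spec.map (sigC k) ≫ MX.j k) ⁻¹ᵁ MX.U k := fun y _ => MX.j_mem_U k _
  rw [pull_congr (j_sigX k) _ h2, ← pull_pull (Spec.map (sigC k)) (MX.j k) (MX.le_U k) h1, MX.pull_fn, pull_specMap]
  rfl

lemma w_div (k : Bool × Bool) : th0.w / fX k = (th k).w := by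
  rcases k with ⟨_ | _, _ | _⟩ <;>
    simp [th, Sol5.invS, Sol5.invT, fX, div_div]

lemma w_div_mem (k : Bool × Bool) : th0.w / MX.f k ∈ MX.A k := by
  rw [AX]
  change th0.w / fX k ∈ _
  rw [w_div]
  exact w_mem (th k)

/-- The section defining the branch divisor. -/
def wX : MX.L.PowSection 1 := MX.sec th0.w w_div_mem

lemma eqX_x4 (k : Bool × Bool) : (⟨_, w_div_mem k⟩ : MX.A k) = eqX k (x5 4) := by
  apply Subtype.ext
  rw [eqX_coe, lift5_x]
  exact w_div k

lemma sub_sig5_mem (z : S5) : z - sig5 z ∈ Ideal.span {x5 4} := by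
  obtain ⟨p, rfl⟩ := Ideal.Quotient.mk_surjective z
  induction p using MvPolynomial.induction_on with
  | C a =>
    have : sig5 (Ideal.Quotient.mk _ (MvPolynomial.C a)) =
        Ideal.Quotient.mk _ (MvPolynomial.C a) := sig5.commutes a
    rw [this, sub_self]
    exact zero_mem _
  | add p q hp hq =>
    rw [map_add, map_add]
    have : Ideal.Quotient.mk (Ideal.span (Set.range g5)) p + Ideal.Quotient.mk _ q -
      (sig5 (Ideal.Quotient.mk _ p) + sig5 (Ideal.Quotient.mk _ q)) =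
      (Ideal.Quotient.mk _ p - sig5 (Ideal.Quotient.mk _ p)) +
      (Ideal.Quotient.mk _ q - sig5 (Ideal.Quotient.mk _ q)) := by ring
    rw [this]
    exact add_mem hp hq
  | mul_X p i hp =>
    rw [map_mul, map_mul]
    have h1 : Ideal.Quotient.mk (Ideal.span (Set.range g5)) (MvPolynomial.X i) = x5 i := rfl
    rw [h1]
    have : Ideal.Quotient.mk (Ideal.span (Set.range g5)) p * x5 i -
      sig5 (Ideal.Quotient.mk _ p) * sig5 (x5 i) =
      x5 i * (Ideal.Quotient.mk _ p - sig5 (Ideal.Quotient.mk _ p)) +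
      sig5 (Ideal.Quotient.mk _ p) * (x5 i - sig5 (x5 i)) := by ring
    rw [this]
    refine add_mem (Ideal.mul_mem_left _ _ hp) (Ideal.mul_mem_left _ _ ?_)
    rw [sig5_x]
    fin_cases i
    · change x5 0 - x5 0 ∈ _
      rw [sub_self]; exact zero_mem _
    · change x5 1 - x5 1 ∈ _
      rw [sub_self]; exact zero_mem _
    · change x5 2 - x5 2 ∈ _
      rw [sub_self]; exact zero_mem _
    · change x5 3 - x5 3 ∈ _
      rw [sub_self]; exact zero_mem _
    · change x5 4 - -x5 4 ∈ _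
      have : x5 4 - -x5 4 = 2 * x5 4 := by ring
      rw [this]
      exact Ideal.mul_mem_left _ _ (Ideal.mem_span_singleton_self _)

lemma half_x4 : algebraMap ℂ S5 (1/2) * (x5 4 - sig5 (x5 4)) = x5 4 := by
  have h : sig5 (x5 4) = - x5 4 := sig5_x 4
  have h2 : algebraMap ℂ S5 (1/2) * 2 = 1 := by
    rw [show (2 : S5) = algebraMap ℂ S5 2 from (map_ofNat _ 2).symm, ← map_mul]
    norm_num
  rw [h]
  linear_combination (x5 4) * h2

lemma span_sigA (k : Bool × Bool) :
    Ideal.span (Set.range fun a : MX.A k => a - sigA k a) = Ideal.span {eqX k (x5 4)} := by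
  apply le_antisymm
  · rw [Ideal.span_le]
    rintro _ ⟨a, rfl⟩
    obtain ⟨z, rfl⟩ := (eqX k).surjective a
    dsimp only
    rw [sigA_eqX, ← map_sub]
    obtain ⟨c, hc⟩ := Ideal.mem_span_singleton'.mp (sub_sig5_mem z)
    rw [← hc, map_mul]
    exact Ideal.mul_mem_left _ _ (Ideal.mem_span_singleton_self _)
  · rw [Ideal.span_singleton_le_iff_mem, ← half_x4, map_mul, map_sub, ← sigA_eqX]
    exact Ideal.mul_mem_left _ _ (Ideal.subset_span ⟨_, rfl⟩)

lemma th0_w_ne : th0.w ≠ 0 := by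
  intro h
  have h1 := th0.hw
  rw [h] at h1
  have h2 : MvPolynomial.aeval (R := ℂ) ![th0.s, th0.t] pF = 0 := by
    simp only [pF, Fst, map_mul, map_add, map_pow, MvPolynomial.aeval_X, map_one, Matrix.cons_val]
    rw [Fst] at h1
    rw [← h1]
    norm_num
  have h3 : pF = 0 := by
    have := algebraicIndependent_iff_injective_aeval.mp ai_th0
    exact this (by rw [h2, map_zero])
  exact nsF 0 (by rw [h3]; norm_num)

end

end Pool.Agent.MP77a250
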