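import Pool.Agent.MP77a250.XChart

set_option autoImplicit false

open CategoryTheory Limits AlgebraicGeometry TopologicalSpace

namespace Pool.Agent.MP77a250

noncomputable section

/-- The surface. -/
def MX : Model K5 := PX.toModel

lemma AX (k : Bool × Bool) : MX.A k = (lift5 (th k)).range := Chart_eq k

/-- The isomorphisms of the chart rings with the standard ring. -/
def eqX (k : Bool × Bool) : S5 ≃ₐ[ℂ] MX.A k :=
  (AlgEquiv.ofInjective (lift5 (th k)) (lift_th_injective k)).trans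
    (Subalgebra.equivOfEq _ _ (AX k).symm)

lemma eqX_coe (k : Bool × Bool) (z : S5) : (eqX k z : K5) = lift5 (th k) z := rfl

instance (k : Bool × Bool) : Algebra.Smooth ℂ (MX.A k) := Algebra.Smooth.of_equiv (eqX k)

instance smoothX : Smooth MX.s := by
  let 𝒰 : MX.X.OpenCover := Scheme.Cover.mkOfCovers MX.κ _ MX.j (fun x => by
    obtain ⟨i, z, hz⟩ := MX.covers x
    exact ⟨i, z, hz⟩) (fun i => inferInstance)
  refine IsZariskiLocalAtSource.of_openCover (P := @Smooth) 𝒰 ?_
  intro k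
  change Smooth (MX.j k ≫ MX.s)
  rw [MX.j_s k]
  rw [HasRingHomProperty.Spec_iff (P := @Smooth)]
  exact (RingHom.smooth_algebraMap).mpr (inferInstanceAs (Algebra.Smooth ℂ (MX.A k)))

/-- The involution of the standard ring. -/
def sig5 : S5 →ₐ[ℂ] S5 := lift5 ⟨x5 0, x5 1, x5 2, x5 3, -x5 4, x5_hu, x5_hv, by
  rw [← x5_hw]; ring⟩

lemma sig5_x (i : Fin 5) : sig5 (x5 i) = ![x5 0, x5 1, x5 2, x5 3, -x5 4] i := by
  rw [sig5, lift5_x]

lemma sig5_sig5 (z : S5) : sig5 (sig5 z) = z := by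
  have h : sig5.comp sig5 = AlgHom.id ℂ S5 := by
    apply S5_hom_ext
    intro i
    rw [AlgHom.comp_apply, sig5_x]
    fin_cases i
    · exact sig5_x 0
    · exact sig5_x 1
    · exact sig5_x 2
    · exact sig5_x 3
    · change sig5 (-x5 4) = x5 4
      rw [map_neg, sig5_x]
      exact neg_neg _
  exact congrArg (fun g => g z) h

lemma sig5_injective : Function.Injective sig5 := by
  intro a b h
  rw [← sig5_sig5 a, h, sig5_sig5]

/-- The involution of the function field. -/
def sigK : K5 →ₐ[ℂ] K5 :=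
  IsFractionRing.liftAlgHom (K := K5) (g := (IsScalarTower.toAlgHom ℂ S5 K5).comp sig5)
    ((IsFractionRing.injective S5 K5).comp sig5_injective)

lemma sigK_algebraMap (z : S5) : sigK (algebraMap S5 K5 z) = algebraMap S5 K5 (sig5 z) :=
  IsFractionRing.lift_algebraMap (K := K5) (g := ((IsScalarTower.toAlgHom ℂ S5 K5).comp sig5 : S5 →+* K5))
    ((IsFractionRing.injective S5 K5).comp sig5_injective) z

lemma sigK_s : sigK th0.s = th0.s := by
  change sigK (algebraMap S5 K5 (x5 0)) = algebraMap S5 K5 (x5 0)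
  rw [sigK_algebraMap, sig5_x]
  rfl

lemma sigK_t : sigK th0.t = th0.t := by
  change sigK (algebraMap S5 K5 (x5 1)) = algebraMap S5 K5 (x5 1)
  rw [sigK_algebraMap, sig5_x]
  rfl

lemma sigK_u : sigK th0.u = th0.u := by
  change sigK (algebraMap S5 K5 (x5 2)) = algebraMap S5 K5 (x5 2)
  rw [sigK_algebraMap, sig5_x]
  rfl

lemma sigK_v : sigK th0.v = th0.v := by
  change sigK (algebraMap S5 K5 (x5 3)) = algebraMap S5 K5 (x5 3)
  rw [sigK_algebraMap, sig5_x]
  rfl

lemma sigK_w : sigK th0.w = -th0.w := by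
  change sigK (algebraMap S5 K5 (x5 4)) = -algebraMap S5 K5 (x5 4)
  rw [sigK_algebraMap, sig5_x, ← map_neg]
  rfl

lemma sigK_lift (k : Bool × Bool) (z : S5) :
    sigK (lift5 (th k) z) = lift5 (th k) (sig5 z) := by
  have h : sigK.comp (lift5 (th k)) = (lift5 (th k)).comp sig5 := by
    apply S5_hom_ext
    intro i
    rw [AlgHom.comp_apply, AlgHom.comp_apply, lift5_x, sig5_x]
    rcases k with ⟨_ | _, _ | _⟩ <;> fin_cases i <;>
      simp [th, Sol5.invS, Sol5.invT, lift5_x, sigK_s, sigK_t, sigK_u, sigK_v, sigK_w, neg_div]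
  exact congrArg (fun g => g z) h

/-- The involution on a chart ring. -/
def sigA (k : Bool × Bool) : MX.A k →ₐ[ℂ] MX.A k :=
  ((eqX k).toAlgHom.comp sig5).comp (eqX k).symm.toAlgHom

lemma sigA_eqX (k : Bool × Bool) (z : S5) : sigA k (eqX k z) = eqX k (sig5 z) := by
  simp [sigA]

lemma sigA_coe (k : Bool × Bool) (a : MX.A k) : (sigA k a : K5) = sigK a := by
  obtain ⟨z, rfl⟩ := (eqX k).surjective a
  rw [sigA_eqX, eqX_coe, eqX_coe, sigK_lift]

end

end Pool.Agent.MP77a250
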