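import Pool.Agent.MP77a250.Pos

set_option autoImplicit false

open CategoryTheory Limits AlgebraicGeometry TopologicalSpace

namespace Pool.Agent.MP77a250

section

variable {C X : Scheme.{0}}

lemma not_subsingleton_of_dim_one [IsIntegral C] (hdim : topologicalKrullDim C = 1) :
    ¬ Subsingleton C := by
  intro h
  have h1 := krullDim_eq hdim
  have h2 : Order.krullDim C ≤ 0 := Order.krullDim_nonpos_of_subsingleton
  rw [h1] at h2
  exact absurd h2 (by decide)

lemma not_isAffine_of_dim_one [IsIntegral C] (sC : C ⟶ SC) [IsProper sC]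
    (hdim : topologicalKrullDim C = 1) : ¬ IsAffine C := by
  intro h
  have hF := isField_of_universallyClosed ℂ sC
  let := hF.toField
  have h1 : Subsingleton (Spec Γ(C, ⊤)) :=
    inferInstanceAs (Subsingleton (PrimeSpectrum Γ(C, ⊤)))
  apply not_subsingleton_of_dim_one hdim
  exact (C.isoSpec.hom.homeomorph.injective).subsingleton

lemma exists_zero {L : LineBundle X} [IsIntegral C] (q : C ⟶ X) [IsAffineHom q] (s : X ⟶ SC)
    [IsProper (q ≫ s)] (hdim : topologicalKrullDim C = 1) (m : L.PowSection 1)
    (hm : IsAffineOpen m.nonvanishing) : ∃ x, q x ∉ m.nonvanishing := by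
  by_contra h
  push Not at h
  have h1 : q ⁻¹ᵁ m.nonvanishing = ⊤ := by
    ext x
    simpa using h x
  have h2 := hm.preimage q
  rw [h1] at h2
  have h3 : IsAffine (⊤ : C.Opens).toScheme := h2
  exact not_isAffine_of_dim_one (q ≫ s) hdim ((IsAffine.iff_of_isIso C.topIso.hom).mp h3)

end

end Pool.Agent.MP77a250
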